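import Pool.Agent.Lib.MP_5de024_nt.S.GeoB

/-!
# Artin - Schreier substitutions (piece GeoS)

`geoS_irr`: the polynomial `X ^ q - X - s` is irreducible over `K` if `y ^ p - y = e s` has no
solution in `K` for every nonzero constant `e`.
-/

set_option autoImplicit false
set_option linter.unusedSectionVars false

namespace Pool.Agent.AB3

open Pool.Agent.AB Polynomial

/-- at most `n` elements satisfy `x ^ n = x` -/
theorem geoS_card {F : Type} [Field F] (n : ℕ) (hn : 1 < n) :
    Finite {x : F // x ^ n = x} ∧ Nat.card {x : F // x ^ n = x} ≤ n := by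
  classical
  have hdeg : (X ^ n - X : F[X]).natDegree = n := by
    rw [natDegree_sub_eq_left_of_natDegree_lt, natDegree_X_pow]
    rw [natDegree_X_pow, natDegree_X]
    exact hn
  have hne : (X ^ n - X : F[X]) ≠ 0 := by
    intro h
    rw [h, natDegree_zero] at hdeg
    omega
  have hmem : ∀ x : F, x ^ n = x → x ∈ (X ^ n - X : F[X]).roots.toFinset := by
    intro x hx
    rw [Multiset.mem_toFinset, mem_roots hne, IsRoot.def, eval_sub, eval_pow, eval_X, hx,
      sub_self]
  let f : {x : F // x ^ n = x} → (X ^ n - X : F[X]).roots.toFinset := fun x => ⟨x, hmem x x.2⟩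
  have hf : Function.Injective f := by
    intro x y hxy
    have h0 := Subtype.ext_iff.mp hxy
    exact Subtype.ext h0
  refine ⟨Finite.of_injective f hf, ?_⟩
  have h1 := Nat.card_le_card_of_injective f hf
  have h0 : Nat.card (X ^ n - X : F[X]).roots.toFinset =
      (X ^ n - X : F[X]).roots.toFinset.card := by
    rw [Nat.card_eq_fintype_card, Fintype.card_coe]
  rw [h0] at h1
  have h2 : (X ^ n - X : F[X]).roots.toFinset.card ≤ n :=
    (Multiset.toFinset_card_le _).trans ((card_roots' _).trans hdeg.le)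
  exact h1.trans h2

/-- the trace polynomial -/
noncomputable def geoSTr (p r : ℕ) {F : Type} [Field F] (x : F) : F :=
  ∑ i ∈ Finset.range r, x ^ p ^ i

section tr

variable (p r : ℕ) [Fact p.Prime] {F : Type} [Field F] [CharP F p]

theorem geoSTr_add (x y : F) : geoSTr p r (x + y) = geoSTr p r x + geoSTr p r y := by
  unfold geoSTr
  rw [← Finset.sum_add_distrib]
  exact Finset.sum_congr rfl (fun i _ => add_pow_char_pow x y p i)

theorem geoSTr_zero : geoSTr p r (0 : F) = 0 := by
  have h := geoSTr_add p r (0 : F) 0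
  rw [add_zero] at h
  exact (left_eq_add.mp h)

theorem geoSTr_sub (x y : F) : geoSTr p r (x - y) = geoSTr p r x - geoSTr p r y := by
  have h := geoSTr_add p r (x - y) y
  rw [sub_add_cancel] at h
  rw [h, add_sub_cancel_right]

theorem geoSTr_pow (x : F) : geoSTr p r x ^ p - geoSTr p r x = x ^ p ^ r - x := by
  induction r with
  | zero =>
    unfold geoSTr
    rw [Finset.range_zero, Finset.sum_empty, zero_pow (Fact.out : p.Prime).ne_zero, pow_zero,
      pow_one, sub_self, sub_self]
  | succ r ih =>
    have h : geoSTr p (r + 1) x = geoSTr p r x + x ^ p ^ r := by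
      unfold geoSTr
      rw [Finset.sum_range_succ]
    rw [h, add_pow_char, ← pow_mul, ← pow_succ]
    linear_combination ih

omit [CharP F p] in
theorem geoSTr_map {K : Type} [Field K] (f : F →+* K) (x : F) :
    f (geoSTr p r x) = geoSTr p r (f x) := by
  unfold geoSTr
  rw [map_sum]
  exact Finset.sum_congr rfl (fun i _ => map_pow _ _ _)

end tr

/-- a proper subgroup of `F_q` is killed by a functional -/
theorem geoS_fun (p : ℕ) [Fact p.Prime] {F : Type} [Field F] [CharP F p] (r : ℕ)
    (hr : Nat.card {a : F // a ^ p ^ r = a} = p ^ r) (A : AddSubgroup F)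
    (hA : ∀ a ∈ A, a ^ p ^ r = a) (b : F) (hb : b ^ p ^ r = b) (hbA : b ∉ A) :
    ∃ e : F, e ≠ 0 ∧ e ^ p ^ r = e ∧ ∀ a ∈ A, geoSTr p r (e * a) = 0 := by
  classical
  have hp : p.Prime := Fact.out
  have hfin : Finite {a : F // a ^ p ^ r = a} :=
    Nat.finite_of_card_ne_zero (by rw [hr]; exact (pow_pos hp.pos r).ne')
  let _ : Algebra (ZMod p) F := ZMod.algebra F p
  obtain ⟨A', hA'⟩ : ∃ A' : Submodule (ZMod p) F, ∀ x, x ∈ A' ↔ x ∈ A :=
    ⟨AddSubgroup.toZModSubmodule p A, fun x => Iff.rfl⟩
  let j : A' → {a : F // a ^ p ^ r = a} := fun a => ⟨a, hA a ((hA' _).mp a.2)⟩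
  have hj : Function.Injective j := by
    intro x y hxy
    have h0 := Subtype.ext_iff.mp hxy
    exact Subtype.ext h0
  have hfA : Finite A' := Finite.of_injective j hj
  have hlt : Nat.card A' < p ^ r := by
    rw [← hr]
    by_contra hcon
    have h2 := hj.bijective_of_nat_card_le (not_lt.mp hcon)
    obtain ⟨x, hx⟩ := h2.2 ⟨b, hb⟩
    have h3 : (x : F) = b := Subtype.ext_iff.mp hx
    apply hbA
    rw [← h3]
    exact (hA' _).mp x.2
  have hmf : Module.Finite (ZMod p) A' := Module.Finite.of_finite
  have hcA : Nat.card A' = p ^ Module.finrank (ZMod p) A' := by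
    rw [Module.natCard_eq_pow_finrank (K := ZMod p), Nat.card_zmod]
  obtain ⟨m, hm⟩ : ∃ m, m = Module.finrank (ZMod p) A' := ⟨_, rfl⟩
  let B : Module.Basis (Fin m) (ZMod p) A' :=
    (Module.finBasis (ZMod p) A').reindex (finCongr hm.symm)
  obtain ⟨hfP, hcP⟩ := geoS_card (F := F) p hp.one_lt
  have hval : ∀ e : F, e ^ p ^ r = e → ∀ a ∈ A, geoSTr p r (e * a) ^ p = geoSTr p r (e * a) := by
    intro e he a ha
    have h := geoSTr_pow p r (e * a)
    rw [mul_pow, he, hA a ha, sub_self] at h
    exact sub_eq_zero.mp h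
  let Ψ : {a : F // a ^ p ^ r = a} → (Fin m → {x : F // x ^ p = x}) := fun e i =>
    ⟨geoSTr p r (e * (B i : F)), hval e e.2 _ ((hA' _).mp (B i).2)⟩
  have hΨ : ¬ Function.Injective Ψ := by
    intro hinj
    have h1 := Nat.card_le_card_of_injective Ψ hinj
    rw [hr, Nat.card_fun, Nat.card_fin] at h1
    have h2 : Nat.card {x : F // x ^ p = x} ^ m ≤ p ^ m := Nat.pow_le_pow_left hcP m
    rw [hcA, ← hm] at hlt
    omega
  rw [Function.Injective] at hΨ
  push Not at hΨ
  obtain ⟨e1, e2, h12, hne⟩ := hΨ
  refine ⟨e1 - e2, ?_, ?_, ?_⟩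
  · intro h
    exact hne (Subtype.ext (sub_eq_zero.mp h))
  · rw [sub_pow_char_pow, e1.2, e2.2]
  · intro a ha
    let T : F →+ F := { toFun := fun x => geoSTr p r (((e1 : F) - e2) * x)
                        map_zero' := by rw [mul_zero, geoSTr_zero]
                        map_add' := fun x y => by rw [mul_add, geoSTr_add] }
    have h4 : (T.toZModLinearMap p) ∘ₗ A'.subtype = 0 := by
      apply B.ext
      intro i
      have h5 := congrArg (fun u => (u i : F)) h12
      have h6 : geoSTr p r ((e1 : F) * (B i : F)) = geoSTr p r ((e2 : F) * (B i : F)) := h5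
      change geoSTr p r (((e1 : F) - e2) * (B i : F)) = 0
      rw [sub_mul, geoSTr_sub, h6, sub_self]
    have h7 := LinearMap.congr_fun h4 ⟨a, (hA' a).mpr ha⟩
    exact h7

/-- irreducibility -/
theorem geoS_irr (p : ℕ) [Fact p.Prime] {F K : Type} [Field F] [Field K] [CharP F p]
    (ι : F →+* K) (r : ℕ) (hr0 : 0 < r) (hr : Nat.card {a : F // a ^ p ^ r = a} = p ^ r) (s : K)
    (hno : ∀ e : F, e ≠ 0 → ∀ y : K, y ^ p - y ≠ ι e * s) :
    Irreducible (X ^ p ^ r - X - C s : K[X]) := by
  classical
  have hp : p.Prime := Fact.out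
  have hq1 : 1 < p ^ r := Nat.one_lt_pow hr0.ne' hp.one_lt
  have hcK : CharP K p := charP_of_injective_ringHom ι.injective p
  obtain ⟨G, hG⟩ : ∃ G : K[X], G = X ^ p ^ r - X - C s := ⟨_, rfl⟩
  rw [← hG]
  have hlow : (X + C s : K[X]).degree < (p ^ r : ℕ) := by
    rw [degree_X_add_C]
    exact_mod_cast hq1
  have hG' : G = X ^ p ^ r - (X + C s) := by rw [hG]; ring
  have hmon : G.Monic := by
    rw [hG']
    exact monic_X_pow_sub hlow
  have hdeg : G.natDegree = p ^ r := by
    rw [hG']
    rw [natDegree_sub_eq_left_of_natDegree_lt, natDegree_X_pow]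
    rw [natDegree_X_pow, natDegree_X_add_C]
    exact hq1
  have hsep : G.Separable := by
    rw [separable_def]
    have hder : derivative G = -1 := by
      rw [hG, derivative_sub, derivative_sub, derivative_X_pow, derivative_X, derivative_C]
      have h0 : ((p ^ r : ℕ) : K) = 0 := by
        rw [CharP.cast_eq_zero_iff K p]
        exact dvd_pow_self p hr0.ne'
      rw [h0, map_zero, zero_mul, zero_sub, sub_zero]
    rw [hder]
    exact ⟨0, -1, by ring⟩
  obtain ⟨L, iL, aL, iS⟩ : ∃ (L : Type) (_ : Field L) (_ : Algebra K L),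
      IsSplittingField K L G := ⟨G.SplittingField, inferInstance, inferInstance, inferInstance⟩
  have hgal : IsGalois K L := IsGalois.of_separable_splitting_field hsep
  have hfd : FiniteDimensional K L := IsSplittingField.finiteDimensional L G
  have hcL : CharP L p := charP_of_injective_algebraMap (algebraMap K L).injective p
  obtain ⟨z, hz⟩ : ∃ z : L, eval z (G.map (algebraMap K L)) = 0 := by
    apply (IsSplittingField.splits L G).exists_eval_eq_zero
    rw [degree_map, degree_eq_natDegree hmon.ne_zero, hdeg]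
    exact_mod_cast (by omega : p ^ r ≠ 0)
  have hz1 : z ^ p ^ r - z = algebraMap K L s := by
    rw [hG] at hz
    rw [Polynomial.map_sub, Polynomial.map_sub, Polynomial.map_pow, map_X, map_C, eval_sub,
      eval_sub, eval_pow, eval_X, eval_C] at hz
    exact sub_eq_zero.mp hz
  obtain ⟨j, hj⟩ : ∃ j : F →+* L, ∀ x, j x = algebraMap K L (ι x) :=
    ⟨(algebraMap K L).comp ι, fun x => rfl⟩
  have hVL : ∀ x : L, x ^ p ^ r = x → ∃ a : F, a ^ p ^ r = a ∧ j a = x := by
    obtain ⟨hf1, hc1⟩ := geoS_card (F := L) (p ^ r) hq1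
    let f : {a : F // a ^ p ^ r = a} → {a : L // a ^ p ^ r = a} := fun a =>
      ⟨j a, by rw [← map_pow, a.2]⟩
    have hf : Function.Injective f := by
      intro x y hxy
      have h0 := Subtype.ext_iff.mp hxy
      exact Subtype.ext (j.injective h0)
    have hb := hf.bijective_of_nat_card_le (by rw [hr]; exact hc1)
    intro x hx
    obtain ⟨a, ha⟩ := hb.2 ⟨x, hx⟩
    exact ⟨a, a.2, Subtype.ext_iff.mp ha⟩
  have htr : ∀ σ : L ≃ₐ[K] L, ∃ a : F, a ^ p ^ r = a ∧ σ z = z + j a := by
    intro σ
    obtain ⟨a, ha, hja⟩ := hVL (σ z - z) (by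
      rw [sub_pow_char_pow]
      have h1 : z ^ p ^ r = z + algebraMap K L s := by rw [← hz1]; ring
      rw [← map_pow, h1, map_add, AlgEquiv.commutes]
      ring)
    exact ⟨a, ha, by rw [hja]; ring⟩
  have hjσ : ∀ (σ : L ≃ₐ[K] L) (a : F), σ (j a) = j a := by
    intro σ a
    rw [hj, AlgEquiv.commutes]
  let A : AddSubgroup F :=
    { carrier := {a | a ^ p ^ r = a ∧ ∃ σ : L ≃ₐ[K] L, σ z = z + j a}
      zero_mem' := ⟨zero_pow (by omega), 1, by rw [map_zero, add_zero, AlgEquiv.one_apply]⟩
      add_mem' := by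
        rintro a b ⟨ha, σ, hσ⟩ ⟨hb, τ, hτ⟩
        refine ⟨by rw [add_pow_char_pow, ha, hb], σ * τ, ?_⟩
        rw [AlgEquiv.mul_apply, hτ, map_add, hσ, hjσ, map_add]
        ring
      neg_mem' := by
        rintro a ⟨ha, σ, hσ⟩
        refine ⟨?_, σ⁻¹, ?_⟩
        · have h : ((0 : F) - a) ^ p ^ r = 0 ^ p ^ r - a ^ p ^ r := sub_pow_char_pow ..
          rw [zero_sub, zero_pow (by omega : p ^ r ≠ 0), zero_sub, ha] at h
          exact h
        · apply σ.injective
          rw [map_add, hjσ, hσ, map_neg, ← AlgEquiv.mul_apply, mul_inv_cancel,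
            AlgEquiv.one_apply]
          ring }
  have hAmem : ∀ a, a ∈ A ↔ (a ^ p ^ r = a ∧ ∃ σ : L ≃ₐ[K] L, σ z = z + j a) :=
    fun a => Iff.rfl
  by_cases hall : ∀ a : F, a ^ p ^ r = a → a ∈ A
  · -- transitivity
    have hint : IsIntegral K z := Algebra.IsIntegral.isIntegral z
    have hdvd : minpoly K z ∣ G := by
      apply minpoly.dvd
      rw [aeval_def, ← eval_map]
      exact hz
    have hmne : minpoly K z ≠ 0 := minpoly.ne_zero hint
    have hge : p ^ r ≤ (minpoly K z).natDegree := by
      have hroot : ∀ a : F, a ^ p ^ r = a →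
          z + j a ∈ ((minpoly K z).map (algebraMap K L)).roots.toFinset := by
        intro a ha
        obtain ⟨-, σ, hσ⟩ := (hAmem a).mp (hall a ha)
        rw [Multiset.mem_toFinset, mem_roots (Polynomial.map_ne_zero hmne), IsRoot.def,
          eval_map, ← aeval_def, ← hσ]
        have h := minpoly.aeval K z
        have h2 : aeval (σ z) (minpoly K z) = σ (aeval z (minpoly K z)) :=
          aeval_algHom_apply σ z (minpoly K z)
        rw [h2, h, map_zero]
      let f : {a : F // a ^ p ^ r = a} →
          ((minpoly K z).map (algebraMap K L)).roots.toFinset := fun a => ⟨z + j a, hroot a a.2⟩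
      have hf : Function.Injective f := by
        intro x y hxy
        have h0 := Subtype.ext_iff.mp hxy
        exact Subtype.ext (j.injective (add_left_cancel h0))
      have h1 := Nat.card_le_card_of_injective f hf
      have h0 : Nat.card ((minpoly K z).map (algebraMap K L)).roots.toFinset =
          ((minpoly K z).map (algebraMap K L)).roots.toFinset.card := by
        rw [Nat.card_eq_fintype_card, Fintype.card_coe]
      rw [h0, hr] at h1
      refine h1.trans ((Multiset.toFinset_card_le _).trans ((card_roots' _).trans ?_))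
      rw [natDegree_map]
    have heq : G = minpoly K z :=
      eq_of_monic_of_dvd_of_natDegree_le (minpoly.monic hint) hmon hdvd (by rw [hdeg]; exact hge)
    rw [heq]
    exact minpoly.irreducible hint
  · exfalso
    push Not at hall
    obtain ⟨b, hb, hbA⟩ := hall
    obtain ⟨e, he0, heq, heA⟩ := geoS_fun p r hr A (fun a ha => ((hAmem a).mp ha).1) b hb hbA
    have hfix : ∀ σ : L ≃ₐ[K] L, σ (geoSTr p r (j e * z)) = geoSTr p r (j e * z) := by
      intro σ
      obtain ⟨a, ha, hσ⟩ := htr σ
      have haA : a ∈ A := (hAmem a).mpr ⟨ha, σ, hσ⟩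
      have h1 : σ (geoSTr p r (j e * z)) = geoSTr p r (σ (j e * z)) :=
        geoSTr_map p r (σ : L →+* L) (j e * z)
      rw [h1, map_mul, hjσ, hσ, mul_add, geoSTr_add, ← map_mul, ← geoSTr_map, heA a haA,
        map_zero, add_zero]
    obtain ⟨y, hy⟩ := (IsGalois.mem_range_algebraMap_iff_fixed _).mpr hfix
    apply hno e he0 y
    apply (algebraMap K L).injective
    rw [map_sub, map_pow, hy, geoSTr_pow, map_mul, ← hj, ← hz1, mul_pow, ← map_pow, heq]
    ring

/-- the field -/
theorem geoS_field (p : ℕ) [Fact p.Prime] {F S : Type} [Field F] [CharP F p] [CommRing S]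
    [IsDomain S] [IsIntegrallyClosed S] (t : F[X] →+* S) (r : ℕ)
    (hr0 : 0 < r) (hr : Nat.card {a : F // a ^ p ^ r = a} = p ^ r) (c d : F) (hc : c ≠ 0)
    (hd : d ≠ 0) (hNL : ∀ (a : F) (w : S), a ≠ 0 → w ^ p - w ≠ t (C a * X)) :
    ∃ (E : Type) (_ : Field E) (i : S →+* E) (z : E), Function.Injective i ∧
      i (t X) = i (t (C c)) * (i (t (C (d ^ (p ^ r - 1)))) * z ^ p ^ r - z) ∧
      ∀ h : S →+* S, Function.Injective h → (∀ f, h (t f) = t f) →
        ∃ hE : E →+* E, (∀ x, hE (i x) = i (h x)) ∧ hE z = z := by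
  classical
  have hp : p.Prime := Fact.out
  obtain ⟨s, hs⟩ : ∃ s : FractionRing S, s = algebraMap S (FractionRing S) (t (C (d / c) * X)) :=
    ⟨_, rfl⟩
  obtain ⟨ι, hι⟩ : ∃ ι : F →+* FractionRing S, ∀ x, ι x = algebraMap S (FractionRing S) (t (C x)) :=
    ⟨(algebraMap S (FractionRing S)).comp (t.comp C), fun x => rfl⟩
  have hinjS : Function.Injective (algebraMap S (FractionRing S)) :=
    IsFractionRing.injective S (FractionRing S)
  have hirr : Irreducible (X ^ p ^ r - X - C s : (FractionRing S)[X]) := by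
    apply geoS_irr p ι r hr0 hr s
    intro e he y hy
    have h1 : ι e * s = algebraMap S (FractionRing S) (t (C (e * (d / c)) * X)) := by
      rw [hι, hs, ← map_mul, ← map_mul, ← mul_assoc, ← C_mul]
    rw [h1] at hy
    have hint : IsIntegral S y := by
      refine ⟨X ^ p - (X + C (t (C (e * (d / c)) * X))), ?_, ?_⟩
      · apply monic_X_pow_sub
        rw [degree_X_add_C]
        exact_mod_cast hp.one_lt
      · rw [eval₂_sub, eval₂_add, eval₂_X_pow, eval₂_X, eval₂_C, ← hy]
        ring
    obtain ⟨w, hw⟩ := IsIntegrallyClosed.isIntegral_iff.mp hint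
    apply hNL (e * (d / c)) w (mul_ne_zero he (div_ne_zero hd hc))
    apply hinjS
    rw [map_sub, map_pow, hw, hy]
  obtain ⟨G, hG⟩ : ∃ G : (FractionRing S)[X], G = X ^ p ^ r - X - C s := ⟨_, rfl⟩
  rw [← hG] at hirr
  have hfact : Fact (Irreducible G) := ⟨hirr⟩
  obtain ⟨i, hi⟩ : ∃ i : S →+* AdjoinRoot G, ∀ x, i x =
      AdjoinRoot.of G (algebraMap S (FractionRing S) x) :=
    ⟨(AdjoinRoot.of G).comp (algebraMap S (FractionRing S)), fun x => rfl⟩
  have hev : ∀ {T : Type} [CommRing T] (f : FractionRing S →+* T) (z : T),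
      eval₂ f z G = z ^ p ^ r - z - f s := by
    intro T _ f z
    rw [hG, eval₂_sub, eval₂_sub, eval₂_X_pow, eval₂_X, eval₂_C]
  have hroot : AdjoinRoot.root G ^ p ^ r - AdjoinRoot.root G - AdjoinRoot.of G s = 0 := by
    rw [← hev (AdjoinRoot.of G) (AdjoinRoot.root G)]
    exact AdjoinRoot.eval₂_root G
  have hinji : Function.Injective i := by
    intro x y hxy
    rw [hi, hi] at hxy
    exact hinjS ((AdjoinRoot.of G).injective hxy)
  obtain ⟨j, hj⟩ : ∃ j : F →+* AdjoinRoot G, ∀ x, j x = i (t (C x)) :=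
    ⟨i.comp (t.comp C), fun x => rfl⟩
  have hjd : j d ≠ 0 := by
    rw [Ne, map_eq_zero]
    exact hd
  have hjc : j c ≠ 0 := by
    rw [Ne, map_eq_zero]
    exact hc
  refine ⟨AdjoinRoot G, inferInstance, i, AdjoinRoot.root G / j d, hinji, ?_, ?_⟩
  · have h1 : AdjoinRoot.of G s = j (d / c) * i (t X) := by
      rw [hs, map_mul, map_mul, map_mul, hj, hi, hi]
    have h2 : AdjoinRoot.root G ^ p ^ r = AdjoinRoot.root G + j (d / c) * i (t X) := by
      rw [← h1]
      linear_combination hroot
    rw [← hj, ← hj, div_pow, h2, map_pow, map_div₀]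
    have h3 : j d ^ p ^ r = j d ^ (p ^ r - 1) * j d := by
      rw [← pow_succ, Nat.sub_add_cancel (Nat.one_le_pow _ _ hp.pos)]
    rw [h3]
    field_simp
    ring
  · intro h hh hht
    have hinj2 : Function.Injective ((algebraMap S (FractionRing S)).comp h) :=
      hinjS.comp hh
    obtain ⟨hK, hhK⟩ : ∃ hK : FractionRing S →+* FractionRing S, ∀ x : S,
        hK (algebraMap S (FractionRing S) x) = algebraMap S (FractionRing S) (h x) :=
      ⟨IsFractionRing.lift hinj2, fun x => IsFractionRing.lift_algebraMap hinj2 x⟩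
    have hKs : hK s = s := by rw [hs, hhK, hht]
    have h0 : eval₂ ((AdjoinRoot.of G).comp hK) (AdjoinRoot.root G) G = 0 := by
      rw [hev, RingHom.comp_apply, hKs]
      exact hroot
    obtain ⟨hE, hE1, hE2⟩ : ∃ hE : AdjoinRoot G →+* AdjoinRoot G,
        (∀ x, hE (AdjoinRoot.of G x) = AdjoinRoot.of G (hK x)) ∧
        hE (AdjoinRoot.root G) = AdjoinRoot.root G :=
      ⟨AdjoinRoot.lift ((AdjoinRoot.of G).comp hK) (AdjoinRoot.root G) h0,
        fun x => AdjoinRoot.lift_of h0, AdjoinRoot.lift_root h0⟩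
    have hE3 : ∀ x, hE (i x) = i (h x) := by
      intro x
      rw [hi, hE1, hhK, hi]
    refine ⟨hE, hE3, ?_⟩
    rw [map_div₀, hE2, hj, hE3, hht]

variable {k R H : Type} [Field k] [CommRing R] [Algebra k[X] R] [Group H] [Finite H]

/-- Artin - Schreier substitutions: the base change is a domain -/
theorem fam_as_domain (p : ℕ) [Fact p.Prime] [CharP k p] (C : Cov k R H) (hNL : NL p k R)
    {F : Type} [Field F] [Algebra k F] (r : ℕ) (hr0 : 0 < r)
    (hr : Nat.card {a : F // a ^ p ^ r = a} = p ^ r) (c d : F) (hc : c ≠ 0) (hd : d ≠ 0) :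
    IsDomain (Fam k F (Polynomial.C c * (Polynomial.C (d ^ (p ^ r - 1)) * X ^ p ^ r - X)) R) := by
  classical
  have hcF : CharP F p := charP_of_injective_algebraMap (algebraMap k F).injective p
  have hdom : IsDomain (Fam k F X R) := C.geom F
  have hded : IsDedekindDomain (Fam k F X R) := fam_dedekind C X
  have hic : IsIntegrallyClosed (Fam k F X R) := inferInstance
  obtain ⟨t, ht⟩ : ∃ t : F[X] →+* Fam k F X R, t = algebraMap F[X] (Fam k F X R) := ⟨_, rfl⟩
  have htinj : Function.Injective t := by rw [ht]; exact bs_inj C _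
  obtain ⟨g, hg⟩ : ∃ g : F[X],
      g = Polynomial.C c * (Polynomial.C (d ^ (p ^ r - 1)) * X ^ p ^ r - X) := ⟨_, rfl⟩
  rw [← hg]
  obtain ⟨E, _, i, z, hi, hz, hE⟩ := geoS_field p t r hr0 hr c d hc hd (by
    intro a w ha
    rw [ht]
    exact hNL F a w ha)
  -- the coefficients
  obtain ⟨α, hαC, hαX⟩ : ∃ α : F[X] →+* E, (∀ a, α (Polynomial.C a) = i (t (Polynomial.C a))) ∧
      α X = z := by
    refine ⟨eval₂RingHom (i.comp (t.comp Polynomial.C)) z, ?_, ?_⟩
    · intro a
      rw [coe_eval₂RingHom, eval₂_C]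
      rfl
    · rw [coe_eval₂RingHom, eval₂_X]
  have hαg : α g = i (t X) := by
    rw [hg, map_mul α, map_sub α, map_mul α, map_pow α, hαC, hαC, hαX, hz]
  have hαcomp : ∀ f : F[X], α (f.comp g) = i (t f) := by
    intro f
    have h : α.comp (compRingHom g) = i.comp t := by
      apply Polynomial.ringHom_ext
      · intro a
        rw [RingHom.comp_apply, coe_compRingHom_apply, C_comp, hαC, RingHom.comp_apply]
      · rw [RingHom.comp_apply, coe_compRingHom_apply, X_comp, hαg, RingHom.comp_apply]
    exact RingHom.congr_fun h f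
  have hαinj : Function.Injective α := by
    rw [injective_iff_map_eq_zero]
    intro f hf
    by_contra hf0
    let _ : Algebra F E := RingHom.toAlgebra (i.comp (t.comp Polynomial.C))
    have hae : ∀ f : F[X], aeval z f = α f := by
      intro f
      have h : (aeval z : F[X] →ₐ[F] E).toRingHom = α := by
        apply Polynomial.ringHom_ext
        · intro a
          rw [hαC]
          exact aeval_C z a
        · rw [hαX]
          exact aeval_X z
      exact RingHom.congr_fun h f
    have h1 : IsAlgebraic F z := ⟨f, hf0, by rw [hae, hf]⟩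
    have h2 : IsAlgebraic F (aeval z g) := by
      have hall : ∀ u : F[X], IsAlgebraic F (aeval z u) := by
        intro u
        induction u using Polynomial.induction_on' with
        | add u v hu hv =>
          rw [map_add]
          exact hu.add hv
        | monomial n a =>
          rw [aeval_monomial]
          exact (isAlgebraic_algebraMap a).mul (h1.pow n)
      exact hall g
    obtain ⟨f', hf'0, hf'⟩ := h2
    rw [← aeval_comp, hae, hαcomp] at hf'
    apply hf'0
    apply htinj
    apply hi
    rw [hf', map_zero, map_zero]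
  -- the map
  have hcompat : ∀ f : k[X], α (evg k F g f) =
      (i.comp (Bs.inR (evg k F X) R)) (algebraMap k[X] R f) := by
    intro f
    have h1 : evg k F g f = (evg k F X f).comp g := by
      have h : evg k F g = (compRingHom g).comp (evg k F X) := by
        apply Polynomial.ringHom_ext
        · intro a
          rw [RingHom.comp_apply, coe_compRingHom_apply]
          unfold evg
          rw [coe_eval₂RingHom, coe_eval₂RingHom, eval₂_C, eval₂_C, RingHom.comp_apply, C_comp]
        · rw [RingHom.comp_apply, coe_compRingHom_apply]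
          unfold evg
          rw [coe_eval₂RingHom, coe_eval₂RingHom, eval₂_X, eval₂_X, X_comp]
      rw [h]
      rfl
    rw [h1, hαcomp, RingHom.comp_apply, Bs.inR_alg, ht]
  obtain ⟨θ, hθa, hθr⟩ : ∃ θ : Fam k F g R →+* E,
      (∀ a, θ (algebraMap F[X] (Fam k F g R) a) = α a) ∧
      (∀ x, θ (Bs.inR (evg k F g) R x) = i (Bs.inR (evg k F X) R x)) :=
    ⟨Bs.lift (evg k F g) α (i.comp (Bs.inR (evg k F X) R)) hcompat,
      fun a => Bs.lift_alg _ _ _ _ a, fun x => Bs.lift_inR _ _ _ _ x⟩
  -- the kernel is stable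
  have hst : ∀ (h : H) (w : Fam k F g R), θ w = 0 → θ (Bs.act (evg k F g) C.act h w) = 0 := by
    intro h w hw
    obtain ⟨hE', hE1, hE2⟩ := hE (Bs.act (evg k F X) C.act h : Fam k F X R →+* Fam k F X R)
      (Bs.act (evg k F X) C.act h).injective (fun f => by
        rw [ht]
        exact Bs.act_alg _ _ _ _)
    have hcomp : hE'.comp θ =
        θ.comp (Bs.act (evg k F g) C.act h : Fam k F g R →+* Fam k F g R) := by
      apply Bs.hom_ext
      · intro a
        rw [RingHom.comp_apply, RingHom.comp_apply, RingHom.coe_coe, Bs.act_alg, hθa]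
        have h3 : hE'.comp α = α := by
          apply Polynomial.ringHom_ext
          · intro a
            rw [RingHom.comp_apply, hαC, hE1, ht, RingHom.coe_coe, Bs.act_alg]
          · rw [RingHom.comp_apply, hαX, hE2]
        exact RingHom.congr_fun h3 a
      · intro x
        rw [RingHom.comp_apply, RingHom.comp_apply, RingHom.coe_coe, Bs.act_inR, hθr, hθr, hE1,
          RingHom.coe_coe, Bs.act_inR]
    have h4 := RingHom.congr_fun hcomp w
    rw [RingHom.comp_apply, RingHom.comp_apply, hw, map_zero] at h4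
    exact h4.symm
  have hθinj : Function.Injective θ := by
    rw [injective_iff_map_eq_zero]
    intro w hw
    obtain ⟨m, x, y, hxy⟩ := bs_coord C (evg k F g)
    let _ : Fintype H := Fintype.ofFinite H
    have htr : ∀ j, ∑ h : H, Bs.act (evg k F g) C.act h (y j * w) = 0 := by
      intro j
      obtain ⟨a, ha⟩ := bs_fixed C (evg k F g) (∑ h : H, Bs.act (evg k F g) C.act h (y j * w))
        (by
          intro h'
          rw [map_sum]
          have h5 : ∀ h : H, Bs.act (evg k F g) C.act h' (Bs.act (evg k F g) C.act h (y j * w)) =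
              Bs.act (evg k F g) C.act (h' * h) (y j * w) := by
            intro h
            rw [map_mul (Bs.act (evg k F g) C.act), AlgEquiv.mul_apply]
          rw [Finset.sum_congr rfl (fun h _ => h5 h)]
          exact Fintype.sum_equiv (Equiv.mulLeft h') _ _ (fun h => rfl))
      have h6 : θ (∑ h : H, Bs.act (evg k F g) C.act h (y j * w)) = 0 := by
        rw [map_sum]
        apply Finset.sum_eq_zero
        intro h _
        apply hst
        rw [map_mul, hw, mul_zero]
      rw [← ha, hθa] at h6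
      have h7 : a = 0 := hαinj (by rw [h6, map_zero])
      rw [← ha, h7, map_zero]
    have h8 : w = ∑ h : H, (∑ j, x j * Bs.act (evg k F g) C.act h (y j)) *
        Bs.act (evg k F g) C.act h w := by
      rw [Finset.sum_eq_single (1 : H)]
      · rw [(hxy 1).1 rfl, one_mul, map_one]
        rfl
      · intro h _ hh
        rw [(hxy h).2 hh, zero_mul]
      · intro hh
        exact absurd (Finset.mem_univ _) hh
    rw [h8]
    have h9 : ∀ h : H, (∑ j, x j * Bs.act (evg k F g) C.act h (y j)) *
        Bs.act (evg k F g) C.act h w =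
        ∑ j, x j * Bs.act (evg k F g) C.act h (y j * w) := by
      intro h
      rw [Finset.sum_mul]
      exact Finset.sum_congr rfl (fun j _ => by rw [map_mul, mul_assoc])
    rw [Finset.sum_congr rfl (fun h _ => h9 h), Finset.sum_comm]
    apply Finset.sum_eq_zero
    intro j _
    rw [← Finset.mul_sum, htr, mul_zero]
  exact hθinj.isDomain θ

/-- the rings of the family are domains -/
theorem fam_gb_domain (p : ℕ) [Fact p.Prime] [CharP k p] (C : Cov k R H) (hNL : NL p k R)
    {F : Type} [Field F] [Algebra k F] (r : ℕ) (hr0 : 0 < r)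
    (hr : Nat.card {a : k // a ^ p ^ r = a} = p ^ r) (β : F) (hβ : β ≠ 0) : IsDomain (Fam k F (gb F (p ^ r) β) R) := by
  have hp : p.Prime := Fact.out
  have hq1 : 1 < p ^ r := Nat.one_lt_pow hr0.ne' hp.one_lt
  obtain ⟨hf1, hc1⟩ := geoS_card (F := F) (p ^ r) hq1
  have hrF : Nat.card {a : F // a ^ p ^ r = a} = p ^ r := by
    refine le_antisymm hc1 ?_
    let f : {a : k // a ^ p ^ r = a} → {a : F // a ^ p ^ r = a} := fun a =>
      ⟨algebraMap k F a, by rw [← map_pow, a.2]⟩
    have hf : Function.Injective f := by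
      intro x y hxy
      have h0 := Subtype.ext_iff.mp hxy
      exact Subtype.ext ((algebraMap k F).injective h0)
    have h := Nat.card_le_card_of_injective f hf
    rw [hr] at h
    exact h
  have h := fam_as_domain p C hNL r hr0 hrF (-β⁻¹) β (neg_ne_zero.mpr (inv_ne_zero hβ)) hβ
  have hg : gb F (p ^ r) β =
      Polynomial.C (-β⁻¹) * (Polynomial.C (β ^ (p ^ r - 1)) * X ^ p ^ r - X) := by
    unfold gb
    rw [C_neg]
    ring
  rw [hg]
  exact h

/-- the translations of the family exist -/
theorem shf_exists (p : ℕ) [Fact p.Prime] [CharP k p] {F : Type} [Field F] [Algebra k F]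
    (r : ℕ) (β a : F) (hβ : β ≠ 0) (ha : a ^ p ^ r = a) :
    ∃ s : Fam k F (gb F (p ^ r) β) R →+* Fam k F (gb F (p ^ r) β) R,
      IsShf (gb F (p ^ r) β) β a s := by
  have hp : p.Prime := Fact.out
  have hcF : CharP F p := charP_of_injective_algebraMap (algebraMap k F).injective p
  have hg : (gb F (p ^ r) β).comp (X + Polynomial.C (a / β)) = gb F (p ^ r) β := by
    unfold gb
    rw [mul_comp, sub_comp, mul_comp, C_comp, C_comp, X_comp, pow_comp, X_comp,
      add_pow_char_pow, ← Polynomial.C_pow]
    have h1 : β ^ (p ^ r - 1) * (a / β) ^ p ^ r = a / β := by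
      rw [div_pow, ha]
      have h3 : β ^ p ^ r = β ^ (p ^ r - 1) * β := by
        rw [← pow_succ, Nat.sub_add_cancel (Nat.one_le_pow _ _ hp.pos)]
      rw [h3]
      field_simp
    rw [mul_add, ← C_mul, h1]
    ring
  have hcomp : ∀ f : k[X], (compRingHom (X + Polynomial.C (a / β)))
      (evg k F (gb F (p ^ r) β) f) = evg k F (gb F (p ^ r) β) f := by
    intro f
    have h : (compRingHom (X + Polynomial.C (a / β))).comp (evg k F (gb F (p ^ r) β)) =
        evg k F (gb F (p ^ r) β) := by
      apply Polynomial.ringHom_ext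
      · intro b
        rw [RingHom.comp_apply, coe_compRingHom_apply]
        unfold evg
        rw [coe_eval₂RingHom, eval₂_C, RingHom.comp_apply, C_comp]
      · rw [RingHom.comp_apply, coe_compRingHom_apply]
        unfold evg
        rw [coe_eval₂RingHom, eval₂_X, hg]
    exact RingHom.congr_fun h f
  refine ⟨Bs.map (evg k F (gb F (p ^ r) β)) (compRingHom (X + Polynomial.C (a / β)))
    (evg k F (gb F (p ^ r) β)) hcomp, ?_, ?_⟩
  · intro x
    exact Bs.map_inR _ _ _ _ x
  · intro f
    rw [Bs.map_alg, coe_compRingHom_apply]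

end Pool.Agent.AB3
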