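import Pool.Agent.Lib.MP_5de024_nt.S.Defs

/-!
# Fields from rings (piece GeoF)
-/

set_option autoImplicit false
set_option linter.unusedSectionVars false

namespace Pool.Agent.AB3

open Pool.Agent.AB Polynomial

section aux

variable (p : ℕ) [Fact p.Prime] (B : Type) [CommRing B] [IsDomain B] [Algebra (Rx p) B]
  (K : Type) [Field K] [Algebra B K] [IsFractionRing B K] [Algebra (Rx p) K]
  [IsScalarTower (Rx p) B K] [Algebra (Fx p) K] [IsScalarTower (Rx p) (Fx p) K]
  (Γ : Type) [Group Γ] [Finite Γ] (ac : Γ →* (B ≃ₐ[Rx p] B))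

/-- the action on the field of fractions -/
noncomputable def fth : Γ →* Gl p K :=
  (IsFractionRing.fieldEquivOfAlgEquivHom (Fx p) K).comp ac

theorem fth_coe (g : Γ) (b : B) :
    fth p B K Γ ac g (algebraMap B K b) = algebraMap B K (ac g b) := by
  unfold fth
  rw [MonoidHom.comp_apply, IsFractionRing.fieldEquivOfAlgEquivHom_apply,
    IsFractionRing.fieldEquivOfAlgEquiv_algebraMap]

variable {Γ ac}

theorem fth_fixed (hfix : ∀ b : B, (∀ g, ac g b = b) → ∃ f, algebraMap (Rx p) B f = b) (z : K)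
    (hz : ∀ g, fth p B K Γ ac g z = z) : ∃ c : Fx p, algebraMap (Fx p) K c = z := by
  classical
  cases nonempty_fintype Γ
  obtain ⟨a, b, hb, rfl⟩ := IsFractionRing.div_surjective B z
  have hb0 : b ≠ 0 := nonZeroDivisors.ne_zero hb
  obtain ⟨N, hNdef⟩ : ∃ N : B, N = ∏ g : Γ, ac g b := ⟨_, rfl⟩
  have hN : ∀ h, ac h N = N := by
    intro h
    rw [hNdef, map_prod]
    exact Fintype.prod_equiv (Equiv.mulLeft h) _ _
      (fun g => by rw [Equiv.coe_mulLeft, map_mul, AlgEquiv.mul_apply])
  have hN0 : N ≠ 0 := by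
    rw [hNdef]
    refine Finset.prod_ne_zero_iff.2 fun g _ => ?_
    rw [Ne, map_eq_zero_iff _ (ac g).injective]
    exact hb0
  obtain ⟨f, hf⟩ := hfix N hN
  obtain ⟨c, hc⟩ : ∃ c : B, c = ∏ g ∈ Finset.univ.erase (1 : Γ), ac g b := ⟨_, rfl⟩
  have hNb : N = b * c := by
    rw [hNdef, hc, ← Finset.mul_prod_erase Finset.univ _ (Finset.mem_univ (1 : Γ)), map_one,
      AlgEquiv.one_apply]
  have hb0' : algebraMap B K b ≠ 0 := by
    rw [Ne, IsFractionRing.to_map_eq_zero_iff]
    exact hb0
  have hN0' : algebraMap B K N ≠ 0 := by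
    rw [Ne, IsFractionRing.to_map_eq_zero_iff]
    exact hN0
  have hza : algebraMap B K a / algebraMap B K b * algebraMap B K N =
      algebraMap B K (a * c) := by
    rw [hNb, map_mul, map_mul]
    field_simp
  have ha' : ∀ h, ac h (a * c) = a * c := by
    intro h
    apply IsFractionRing.injective B K
    rw [← fth_coe p B K Γ ac, ← hza, map_mul, hz, fth_coe, hN]
  obtain ⟨f', hf'⟩ := hfix _ ha'
  refine ⟨algebraMap (Rx p) (Fx p) f' / algebraMap (Rx p) (Fx p) f, ?_⟩
  rw [map_div₀, ← IsScalarTower.algebraMap_apply, ← IsScalarTower.algebraMap_apply,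
    IsScalarTower.algebraMap_apply (Rx p) B K, IsScalarTower.algebraMap_apply (Rx p) B K, hf,
    hf', ← hza, mul_div_assoc, div_self hN0', mul_one]

theorem fth_sum [Fintype Γ] {m : ℕ} (x y : Fin m → B)
    (hco : ∀ g : Γ, (g = 1 → ∑ i, x i * ac g (y i) = 1) ∧ (g ≠ 1 → ∑ i, x i * ac g (y i) = 0))
    (z : K) :
    ∑ i, (∑ g : Γ, fth p B K Γ ac g (z * algebraMap B K (y i))) * algebraMap B K (x i) = z := by
  classical
  simp_rw [Finset.sum_mul]
  rw [Finset.sum_comm]
  have h1 : ∀ g : Γ, ∑ i, fth p B K Γ ac g (z * algebraMap B K (y i)) * algebraMap B K (x i) =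
      if g = 1 then z else 0 := by
    intro g
    have h2 : ∑ i, fth p B K Γ ac g (z * algebraMap B K (y i)) * algebraMap B K (x i) =
        fth p B K Γ ac g z * algebraMap B K (∑ i, x i * ac g (y i)) := by
      rw [map_sum, Finset.mul_sum]
      refine Finset.sum_congr rfl fun i _ => ?_
      rw [map_mul, fth_coe, map_mul]
      ring
    rw [h2]
    split_ifs with h
    · rw [(hco g).1 h, map_one, mul_one, h, map_one, AlgEquiv.one_apply]
    · rw [(hco g).2 h, map_zero, mul_zero]
  rw [Finset.sum_congr rfl fun g _ => h1 g, Finset.sum_ite_eq' Finset.univ (1 : Γ) fun _ => z]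
  simp

theorem fth_finite (hfix : ∀ b : B, (∀ g, ac g b = b) → ∃ f, algebraMap (Rx p) B f = b) {m : ℕ}
    (x y : Fin m → B)
    (hco : ∀ g : Γ, (g = 1 → ∑ i, x i * ac g (y i) = 1) ∧ (g ≠ 1 → ∑ i, x i * ac g (y i) = 0)) :
    FiniteDimensional (Fx p) K := by
  classical
  cases nonempty_fintype Γ
  refine ⟨⟨Finset.univ.image fun i => algebraMap B K (x i), ?_⟩⟩
  rw [eq_top_iff]
  intro z _
  rw [← fth_sum p B K x y hco z]
  refine Submodule.sum_mem _ fun i _ => ?_
  obtain ⟨c, hc⟩ := fth_fixed p B K hfix (∑ g : Γ, fth p B K Γ ac g (z * algebraMap B K (y i)))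
    (fun h => by
      rw [map_sum]
      exact Fintype.sum_equiv (Equiv.mulLeft h) _ _
        (fun g => by
          rw [Equiv.coe_mulLeft, map_mul (fth p B K Γ ac) h g, AlgEquiv.mul_apply]))
  rw [← hc, ← Algebra.smul_def]
  exact Submodule.smul_mem _ _ (Submodule.subset_span (by simp))

theorem ring_finite (hfix : ∀ b : B, (∀ g, ac g b = b) → ∃ f, algebraMap (Rx p) B f = b) {m : ℕ}
    (x y : Fin m → B)
    (hco : ∀ g : Γ, (g = 1 → ∑ i, x i * ac g (y i) = 1) ∧ (g ≠ 1 → ∑ i, x i * ac g (y i) = 0)) :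
    Module.Finite (Rx p) B := by
  classical
  cases nonempty_fintype Γ
  refine ⟨⟨Finset.univ.image x, ?_⟩⟩
  rw [eq_top_iff]
  intro b _
  have hb : ∑ i, (∑ g : Γ, ac g (b * y i)) * x i = b := by
    simp_rw [Finset.sum_mul]
    rw [Finset.sum_comm]
    have h1 : ∀ g : Γ, ∑ i, ac g (b * y i) * x i = if g = 1 then b else 0 := by
      intro g
      have h2 : ∑ i, ac g (b * y i) * x i = ac g b * ∑ i, x i * ac g (y i) := by
        rw [Finset.mul_sum]
        refine Finset.sum_congr rfl fun i _ => ?_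
        rw [map_mul]
        ring
      rw [h2]
      split_ifs with h
      · rw [(hco g).1 h, mul_one, h, map_one, AlgEquiv.one_apply]
      · rw [(hco g).2 h, mul_zero]
    rw [Finset.sum_congr rfl fun g _ => h1 g, Finset.sum_ite_eq' Finset.univ (1 : Γ) fun _ => b]
    simp
  rw [← hb]
  refine Submodule.sum_mem _ fun i _ => ?_
  obtain ⟨c, hc⟩ := hfix (∑ g : Γ, ac g (b * y i))
    (fun h => by
      rw [map_sum]
      exact Fintype.sum_equiv (Equiv.mulLeft h) _ _
        (fun g => by
          rw [Equiv.coe_mulLeft, map_mul ac h g, AlgEquiv.mul_apply]))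
  rw [← hc, ← Algebra.smul_def]
  exact Submodule.smul_mem _ _ (Submodule.subset_span (by simp))

theorem fth_injective {m : ℕ} (x y : Fin m → B)
    (hco : ∀ g : Γ, (g = 1 → ∑ i, x i * ac g (y i) = 1) ∧ (g ≠ 1 → ∑ i, x i * ac g (y i) = 0)) :
    Function.Injective (fth p B K Γ ac) := by
  rw [injective_iff_map_eq_one]
  intro g hg
  by_contra hne
  have h1 : ∀ b : B, ac g b = b := by
    intro b
    apply IsFractionRing.injective B K
    rw [← fth_coe p B K Γ ac, hg, AlgEquiv.one_apply]
  have h2 := (hco 1).1 rfl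
  have h3 := (hco g).2 hne
  simp_rw [h1] at h3
  simp_rw [map_one, AlgEquiv.one_apply] at h2
  rw [h3] at h2
  exact zero_ne_one h2

end aux

/-- a Galois extension of rings over `F_p[x]` which is an integrally closed domain is the ring
of integers of a field without inertia -/
theorem field_of_ring (p : ℕ) [Fact p.Prime] (B : Type) [CommRing B] [IsDomain B]
    [IsIntegrallyClosed B] [Algebra (Rx p) B]
    (hinj : Function.Injective (algebraMap (Rx p) B)) (Γ : Type) [Group Γ] [Finite Γ]
    (ac : Γ →* (B ≃ₐ[Rx p] B))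
    (hfix : ∀ b : B, (∀ g, ac g b = b) → ∃ f, algebraMap (Rx p) B f = b)
    (hco : ∃ (m : ℕ) (x y : Fin m → B), ∀ g : Γ,
      (g = 1 → ∑ i, x i * ac g (y i) = 1) ∧ (g ≠ 1 → ∑ i, x i * ac g (y i) = 0)) :
    ∃ (K : Type) (_ : Field K) (_ : Algebra (Fx p) K) (_ : Algebra (Rx p) K)
      (_ : IsScalarTower (Rx p) (Fx p) K) (e : B ≃ₐ[Rx p] Oc p K) (θ : Γ ≃* Gl p K),
      NiK p K ∧ ∀ (g : Γ) (b : B), e (ac g b) = act p K (θ g) (e b) := by
  obtain ⟨m, x, y, hco⟩ := hco
  have hinjK : Function.Injective (algebraMap (Rx p) (FractionRing B)) := by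
    rw [IsScalarTower.algebraMap_eq (Rx p) B (FractionRing B)]
    exact (IsFractionRing.injective B (FractionRing B)).comp hinj
  let _ : Algebra (Fx p) (FractionRing B) := (IsFractionRing.lift (K := Fx p) hinjK).toAlgebra
  have _ : IsScalarTower (Rx p) (Fx p) (FractionRing B) :=
    IsScalarTower.of_algebraMap_eq fun f => (IsFractionRing.lift_algebraMap hinjK f).symm
  have hfd : FiniteDimensional (Fx p) (FractionRing B) :=
    fth_finite p B (FractionRing B) hfix x y hco
  have hfin : Module.Finite (Rx p) B := ring_finite p B hfix x y hco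
  have hint : Algebra.IsIntegral (Rx p) B := Algebra.IsIntegral.of_finite _ _
  have hic : IsIntegralClosure B (Rx p) (FractionRing B) :=
    IsIntegralClosure.of_isIntegrallyClosed B (Rx p) (FractionRing B)
  have hrange : IntermediateField.fixedField (fth p B (FractionRing B) Γ ac).range = ⊥ := by
    rw [eq_bot_iff]
    intro z hz
    rw [IntermediateField.mem_bot]
    rw [IntermediateField.mem_fixedField_iff] at hz
    exact fth_fixed p B (FractionRing B) hfix z fun g => hz _ ⟨g, rfl⟩
  have hsurj : Function.Surjective (fth p B (FractionRing B) Γ ac) := by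
    rw [← MonoidHom.range_eq_top, ← IntermediateField.fixingSubgroup_fixedField
      (fth p B (FractionRing B) Γ ac).range, hrange, IntermediateField.fixingSubgroup_bot]
  have hgal : IsGalois (Fx p) (FractionRing B) := by
    refine IsGalois.of_fixedField_eq_bot _ _ ?_
    rw [← hrange, MonoidHom.range_eq_top.2 hsurj]
  obtain ⟨e, he⟩ : ∃ e : B ≃ₐ[Rx p] Oc p (FractionRing B),
      ∀ b, ((e b : Oc p (FractionRing B)) : FractionRing B) = algebraMap B (FractionRing B) b :=
    ⟨IsIntegralClosure.equiv (Rx p) B (FractionRing B) (Oc p (FractionRing B)), fun b =>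
      IsIntegralClosure.algebraMap_equiv (Rx p) B (FractionRing B) (Oc p (FractionRing B)) b⟩
  obtain ⟨θ, hθ⟩ : ∃ θ : Γ ≃* Gl p (FractionRing B),
      ∀ g, θ g = fth p B (FractionRing B) Γ ac g :=
    ⟨MulEquiv.ofBijective (fth p B (FractionRing B) Γ ac)
      ⟨fth_injective p B (FractionRing B) x y hco, hsurj⟩, fun g => rfl⟩
  have hact : ∀ (g : Γ) (b : B), e (ac g b) = act p (FractionRing B) (θ g) (e b) := by
    intro g b
    apply Subtype.ext
    rw [act_coe, he, he, hθ, fth_coe]
  refine ⟨FractionRing B, inferInstance, inferInstance, inferInstance, inferInstance, e, θ,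
    ⟨hfd, hgal, ?_⟩, hact⟩
  intro σ hσ P hP
  obtain ⟨g, rfl⟩ := θ.surjective σ
  have hg : g ≠ 1 := fun h => hσ (by rw [h, map_one])
  by_contra hcon
  push Not at hcon
  have h1 : ∑ i, x i * y i - ∑ i, x i * ac g (y i) = 1 := by
    have h2 := (hco 1).1 rfl
    simp_rw [map_one, AlgEquiv.one_apply] at h2
    rw [h2, (hco g).2 hg, sub_zero]
  have h3 : (1 : Oc p (FractionRing B)) ∈ P := by
    rw [← map_one e, ← h1, ← Finset.sum_sub_distrib, map_sum]
    refine Ideal.sum_mem _ fun i _ => ?_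
    have h4 : e (x i * y i - x i * ac g (y i)) =
        -(e (x i) * (act p (FractionRing B) (θ g) (e (y i)) - e (y i))) := by
      rw [← hact, map_sub, map_mul, map_mul]
      ring
    rw [h4]
    exact neg_mem (Ideal.mul_mem_left _ _ (hcon _))
  exact hP.ne_top ((Ideal.eq_top_iff_one P).2 h3)

end Pool.Agent.AB3
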