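import Pool.Agent.Lib.MP_5de024_nt.S.GeoWa

/-!
# Base change of models: the action on the base change (helper file of piece GeoW)
-/

set_option autoImplicit false
set_option linter.unusedSectionVars false

namespace Pool.Agent.AB3

open Pool.Agent.AB Polynomial

section act

variable {p : ℕ} [Fact p.Prime] {K : Type} [Field K] [Algebra (Fx p) K]
    [Algebra (Rx p) K] [IsScalarTower (Rx p) (Fx p) K] {k R H : Type} [Field k]
    [CommRing R] [Algebra k[X] R] [Group H] {m : Mdl p K k R H}
    {κ : Gl p K →* (k ≃+* k)} {F : Type} [Field F] [Algebra k F] {g : F[X]}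

/-- polynomials with coefficients in the prime field are fixed by all automorphisms -/
theorem gw_gfix [CharP F p] (hg : ∀ i, (g.coeff i) ^ p = g.coeff i) (σ : F ≃+* F) :
    g.map (σ : F →+* F) = g := by
  ext i
  rw [coeff_map]
  obtain ⟨c, hc⟩ := gw_prime p F (g.coeff i) (hg i)
  have h1 : ((σ : F →+* F).comp (ZMod.castHom (dvd_refl p) F)) = ZMod.castHom (dvd_refl p) F :=
    Subsingleton.elim _ _
  rw [← hc]
  exact RingHom.congr_fun h1 c

theorem gw_compat [CharP F p] (hg : ∀ i, (g.coeff i) ^ p = g.coeff i)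
    (s : Gl p K × (F ≃+* F)) (hs : s ∈ gwG κ F) (f : k[X]) :
    (evg k F g f).map (s.2 : F →+* F) = evg k F g (f.map (κ s.1 : k →+* k)) := by
  have h : (mapRingHom (s.2 : F →+* F)).comp (evg k F g) =
      (evg k F g).comp (mapRingHom (κ s.1 : k →+* k)) := by
    refine Polynomial.ringHom_ext ?_ ?_
    · intro a
      rw [RingHom.comp_apply, RingHom.comp_apply, coe_mapRingHom, coe_mapRingHom, map_C]
      unfold evg
      rw [coe_eval₂RingHom, eval₂_C, eval₂_C, RingHom.comp_apply, RingHom.comp_apply, map_C]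
      congr 1
      exact hs a
    · rw [RingHom.comp_apply, RingHom.comp_apply, coe_mapRingHom, coe_mapRingHom, map_X]
      unfold evg
      rw [coe_eval₂RingHom, eval₂_X, gw_gfix hg]
  exact congrArg (fun q : k[X] →+* F[X] => q f) h

/-- the action of the pairs on the base change -/
theorem gw_act [CharP F p] (hκ : ∀ γ a,
    gwR m γ (algebraMap k[X] R (C a)) = algebraMap k[X] R (C (κ γ a)))
    (hg : ∀ i, (g.coeff i) ^ p = g.coeff i) :
    ∃ ac : gwG κ F →* (Fam k F g R ≃+* Fam k F g R),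
      (∀ s f, ac s (algebraMap F[X] (Fam k F g R) f) =
        algebraMap F[X] (Fam k F g R) (f.map (s.1.2 : F →+* F))) ∧
      ∀ s r, ac s (Bs.inR (evg k F g) R r) = Bs.inR (evg k F g) R (gwR m s.1.1 r) := by
  have hc : ∀ (s : gwG κ F) (f : k[X]),
      ((algebraMap F[X] (Fam k F g R)).comp (mapRingHom (s.1.2 : F →+* F))) (evg k F g f) =
      ((Bs.inR (evg k F g) R).comp (gwR m s.1.1 : R →+* R)) (algebraMap k[X] R f) := by
    intro s f
    rw [RingHom.comp_apply, RingHom.comp_apply, coe_mapRingHom, gw_compat hg s.1 s.2]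
    have h1 : (gwR m s.1.1 : R →+* R) (algebraMap k[X] R f) =
        algebraMap k[X] R (f.map (κ s.1.1 : k →+* k)) := gwR_alg hκ s.1.1 f
    rw [h1, Bs.inR_alg]
  let A : gwG κ F → (Fam k F g R →+* Fam k F g R) := fun s =>
    Bs.lift (evg k F g) _ _ (hc s)
  have hA1 : ∀ s f, A s (algebraMap F[X] (Fam k F g R) f) =
      algebraMap F[X] (Fam k F g R) (f.map (s.1.2 : F →+* F)) := fun s f =>
    Bs.lift_alg (evg k F g) _ _ (hc s) f
  have hA2 : ∀ s r, A s (Bs.inR (evg k F g) R r) = Bs.inR (evg k F g) R (gwR m s.1.1 r) :=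
    fun s r => Bs.lift_inR (evg k F g) _ _ (hc s) r
  have hone : A 1 = RingHom.id _ := by
    apply Bs.hom_ext
    · intro f
      rw [hA1, RingHom.id_apply]
      congr 1
      exact Polynomial.map_id
    · intro r
      rw [hA2, RingHom.id_apply]
      have h1 : gwR m (1 : gwG κ F).1.1 r = r := by
        change gwR m 1 r = r
        rw [map_one]
        rfl
      rw [h1]
  have hmul : ∀ s t, A (s * t) = (A s).comp (A t) := by
    intro s t
    apply Bs.hom_ext
    · intro f
      rw [RingHom.comp_apply, hA1, hA1, hA1, Polynomial.map_map]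
      rfl
    · intro r
      rw [RingHom.comp_apply, hA2, hA2, hA2]
      have h1 : gwR m (s * t).1.1 r = gwR m s.1.1 (gwR m t.1.1 r) := by
        change gwR m (s.1.1 * t.1.1) r = _
        rw [map_mul]
        rfl
      rw [h1]
  refine ⟨
    { toFun := fun s => RingEquiv.ofRingHom (A s) (A s⁻¹)
        (by rw [← hmul, mul_inv_cancel, hone]) (by rw [← hmul, inv_mul_cancel, hone])
      map_one' := by
        ext z
        change A 1 z = z
        rw [hone, RingHom.id_apply]
      map_mul' := fun s t => by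
        ext z
        change A (s * t) z = A s (A t z)
        rw [hmul, RingHom.comp_apply] }, hA1, hA2⟩

variable {ac : gwG κ F →* (Fam k F g R ≃+* Fam k F g R)}

theorem gw_mem_j (hκ : ∀ γ a,
    gwR m γ (algebraMap k[X] R (C a)) = algebraMap k[X] R (C (κ γ a)))
    {γ : Gl p K} (hγ : γ ∈ Gc p K) : ((γ, 1) : Gl p K × (F ≃+* F)) ∈ gwG κ F := by
  rw [mem_gwG]
  intro a
  have h1 := (gw_kap_one hκ γ).2 hγ a
  change algebraMap k F a = algebraMap k F (κ γ a)
  rw [h1]

/-- the pairs `(j h, 1)` act by the action of the cover -/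
theorem gw_act_j (h1 : ∀ s f, ac s (algebraMap F[X] (Fam k F g R) f) =
        algebraMap F[X] (Fam k F g R) (f.map (s.1.2 : F →+* F)))
    (h2 : ∀ s r, ac s (Bs.inR (evg k F g) R r) = Bs.inR (evg k F g) R (gwR m s.1.1 r))
    (s : gwG κ F) (h : H) (hs1 : s.1.1 = m.j h) (hs2 : s.1.2 = 1) (z : Fam k F g R) :
    ac s z = Bs.act (evg k F g) m.cov.act h z := by
  have hh : ((ac s : Fam k F g R ≃+* Fam k F g R) : Fam k F g R →+* Fam k F g R) =
      ((Bs.act (evg k F g) m.cov.act h : Fam k F g R ≃ₐ[F[X]] Fam k F g R) :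
        Fam k F g R →+* Fam k F g R) := by
    apply Bs.hom_ext
    · intro f
      change ac s (algebraMap F[X] (Fam k F g R) f) = Bs.act (evg k F g) m.cov.act h _
      rw [h1, Bs.act_alg, hs2]
      congr 1
      exact Polynomial.map_id
    · intro r
      change ac s (Bs.inR (evg k F g) R r) = Bs.act (evg k F g) m.cov.act h _
      rw [h2, Bs.act_inR, hs1, gwR_j]
  exact RingHom.congr_fun hh z

/-- the ring of elements fixed by all pairs -/
theorem gw_fix [Finite H] [FiniteDimensional (Fx p) K] [IsGalois (Fx p) K] [Finite k]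
    [CharP k p] [CharP F p] [Finite F] (hκ : ∀ γ a,
    gwR m γ (algebraMap k[X] R (C a)) = algebraMap k[X] R (C (κ γ a)))
    (h1 : ∀ s f, ac s (algebraMap F[X] (Fam k F g R) f) =
        algebraMap F[X] (Fam k F g R) (f.map (s.1.2 : F →+* F)))
    (h2 : ∀ s r, ac s (Bs.inR (evg k F g) R r) = Bs.inR (evg k F g) R (gwR m s.1.1 r))
    (b : Fam k F g R) (hb : ∀ s, ac s b = b) :
    ∃ f : Rx p, algebraMap F[X] (Fam k F g R) (f.map (ZMod.castHom (dvd_refl p) F)) = b := by
  obtain ⟨f, hf⟩ := bs_fixed m.cov (evg k F g) b (fun h => by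
    rw [← gw_act_j h1 h2 ⟨((m.j h : Gl p K), 1), gw_mem_j hκ (m.j h).2⟩ h rfl rfl b]
    exact hb _)
  obtain ⟨γ, hγ⟩ := gw_frob hκ
  have hmem : ((γ, frobeniusEquiv F p) : Gl p K × (F ≃+* F)) ∈ gwG κ F := by
    rw [mem_gwG]
    intro a
    change frobeniusEquiv F p (algebraMap k F a) = algebraMap k F (κ γ a)
    rw [hγ, map_pow, frobeniusEquiv_def]
  have h3 := hb ⟨_, hmem⟩
  rw [← hf, h1] at h3
  have h4 := bs_inj m.cov (evg k F g) h3
  have h5 : f ∈ lifts (ZMod.castHom (dvd_refl p) F) := by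
    rw [lifts_iff_coeff_lifts]
    intro i
    obtain ⟨c, hc⟩ := gw_prime p F (f.coeff i) (by
      have h6 := congrArg (fun q : F[X] => q.coeff i) h4
      rw [coeff_map] at h6
      exact h6)
    exact ⟨c, hc⟩
  obtain ⟨f', hf'⟩ := h5
  refine ⟨f', ?_⟩
  rw [← hf]
  congr 1

/-- coordinates for the group of pairs -/
theorem gw_coord [Finite F] (hκ : ∀ γ a,
    gwR m γ (algebraMap k[X] R (C a)) = algebraMap k[X] R (C (κ γ a)))
    (h1 : ∀ s f, ac s (algebraMap F[X] (Fam k F g R) f) =
        algebraMap F[X] (Fam k F g R) (f.map (s.1.2 : F →+* F)))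
    (h2 : ∀ s r, ac s (Bs.inR (evg k F g) R r) = Bs.inR (evg k F g) R (gwR m s.1.1 r)) :
    ∃ (n : ℕ) (x y : Fin n → Fam k F g R), ∀ s : gwG κ F,
      (s = 1 → ∑ i, x i * ac s (y i) = 1) ∧ (s ≠ 1 → ∑ i, x i * ac s (y i) = 0) := by
  classical
  have hfinA : Finite (F ≃+* F) :=
    Finite.of_injective (fun σ : F ≃+* F => (σ : F → F)) DFunLike.coe_injective
  obtain ⟨n, α, β, hαβ⟩ := geoX_sep (S := F) (B := F) (fun t : F ≃+* F => (t : F →+* F)) 1 (by
    intro t ht
    by_contra hcon
    push Not at hcon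
    apply ht
    ext s
    by_contra hne
    have h3 : (1 : F ≃+* F) s - t s ≠ 0 := fun h4 => hne (sub_eq_zero.1 h4).symm
    exact hcon s (((1 : F ≃+* F) s - t s)⁻¹) (inv_mul_cancel₀ h3))
  obtain ⟨n', x, y, hxy⟩ := m.cov.coord
  refine ⟨n * n',
    fun i => algebraMap F[X] (Fam k F g R) (C (α (finProdFinEquiv.symm i).1)) *
      Bs.inR (evg k F g) R (x (finProdFinEquiv.symm i).2),
    fun i => algebraMap F[X] (Fam k F g R) (C (β (finProdFinEquiv.symm i).1)) *
      Bs.inR (evg k F g) R (y (finProdFinEquiv.symm i).2), fun s => ?_⟩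
  have hsum : ∑ i : Fin (n * n'), (algebraMap F[X] (Fam k F g R)
        (C (α (finProdFinEquiv.symm i).1)) *
      Bs.inR (evg k F g) R (x (finProdFinEquiv.symm i).2)) *
      ac s (algebraMap F[X] (Fam k F g R) (C (β (finProdFinEquiv.symm i).1)) *
      Bs.inR (evg k F g) R (y (finProdFinEquiv.symm i).2)) =
      algebraMap F[X] (Fam k F g R) (C (∑ i, α i * s.1.2 (β i))) *
        Bs.inR (evg k F g) R (∑ i, x i * gwR m s.1.1 (y i)) := by
    have e1 : ∀ q : Fin n × Fin n', (algebraMap F[X] (Fam k F g R) (C (α q.1)) *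
        Bs.inR (evg k F g) R (x q.2)) *
        ac s (algebraMap F[X] (Fam k F g R) (C (β q.1)) *
        Bs.inR (evg k F g) R (y q.2)) =
        algebraMap F[X] (Fam k F g R) (C (α q.1 * s.1.2 (β q.1))) *
          Bs.inR (evg k F g) R (x q.2 * gwR m s.1.1 (y q.2)) := by
      intro q
      rw [map_mul (ac s), h1, h2, map_C, C_mul, map_mul, map_mul]
      change _ * (algebraMap F[X] (Fam k F g R) (C (s.1.2 (β q.1))) * _) = _
      ring
    rw [map_sum C, map_sum (algebraMap F[X] (Fam k F g R)), map_sum (Bs.inR (evg k F g) R),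
      Finset.sum_mul_sum, ← Fintype.sum_prod_type']
    exact Fintype.sum_equiv finProdFinEquiv.symm _ _ fun i => e1 _
  rw [hsum]
  constructor
  · rintro rfl
    have e2 : ∑ i, α i * ((1 : gwG κ F).1.2 : F ≃+* F) (β i) = 1 := (hαβ 1).1 rfl
    have e3 : ∑ i, x i * gwR m (1 : gwG κ F).1.1 (y i) = 1 := by
      rw [← (hxy 1).1 rfl]
      refine Finset.sum_congr rfl fun i _ => ?_
      congr 1
      change gwR m 1 (y i) = _
      rw [map_one, map_one]
      rfl
    rw [e2, e3, C_1, map_one, map_one, mul_one]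
  · intro hs
    by_cases h3 : s.1.2 = 1
    · have h4 : s.1.1 ∈ Gc p K := by
        rw [← gw_kap_one hκ]
        intro a
        have h5 := s.2 a
        rw [h3] at h5
        exact ((algebraMap k F).injective h5).symm
      obtain ⟨h, hh⟩ := m.j.surjective ⟨s.1.1, h4⟩
      have hh' : (m.j h : Gl p K) = s.1.1 := congrArg Subtype.val hh
      have hne : h ≠ 1 := by
        rintro rfl
        apply hs
        apply Subtype.ext
        refine Prod.ext ?_ h3
        rw [← hh', map_one]
        rfl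
      have e3 : ∑ i, x i * gwR m s.1.1 (y i) = 0 := by
        rw [← (hxy h).2 hne]
        refine Finset.sum_congr rfl fun i _ => ?_
        rw [← hh', gwR_j]
      rw [e3, map_zero, mul_zero]
    · have e2 : ∑ i, α i * s.1.2 (β i) = 0 := (hαβ s.1.2).2 h3
      rw [e2, C_0, map_zero, zero_mul]

end act

end Pool.Agent.AB3
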