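import Pool.Agent.Lib.MP_5de024_nt.S.GeoV
import Pool.Agent.Lib.MP_5de024_nt.S.GeoF
import Pool.Agent.Lib.MP_5de024_nt.S.GeoWb

/-!
# Base change of models (piece GeoW)
-/

set_option autoImplicit false
set_option linter.unusedSectionVars false

namespace Pool.Agent.AB3

open Pool.Agent.AB Polynomial

/-- the constants of the base change -/
theorem gw_const (p : ℕ) [Fact p.Prime] {k R H : Type} [Field k] [CommRing R] [Algebra k[X] R]
    [Group H] [Finite H] (C₀ : Cov k R H) {F : Type} [Field F] [Algebra k F] {g : F[X]}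
    [CharP F p]
    (hdom : ∀ (F' : Type) [Field F'] [Algebra k F'] [Algebra F F'] [IsScalarTower k F F'],
      IsDomain (Fam k F' (g.map (algebraMap F F')) R)) (b : Fam k F g R) (n : ℕ) (hn : 0 < n)
    (hb : b ^ p ^ n = b) : ∃ a : F, algebraMap F[X] (Fam k F g R) (C a) = b := by
  classical
  have hD : IsDomain (Fam k (AlgebraicClosure F) (g.map (algebraMap F (AlgebraicClosure F))) R) :=
    hdom (AlgebraicClosure F)
  have hcomp : ∀ f, mapRingHom (algebraMap F (AlgebraicClosure F)) (evg k F g f) =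
      evg k (AlgebraicClosure F) (g.map (algebraMap F (AlgebraicClosure F))) f := by
    intro f
    have h1 : (mapRingHom (algebraMap F (AlgebraicClosure F))).comp (evg k F g) =
        evg k (AlgebraicClosure F) (g.map (algebraMap F (AlgebraicClosure F))) := by
      refine Polynomial.ringHom_ext ?_ ?_
      · intro a
        simp [evg, IsScalarTower.algebraMap_apply k F (AlgebraicClosure F)]
      · simp [evg]
    rw [← h1, RingHom.comp_apply]
  obtain ⟨T, hT⟩ : ∃ T : Fam k F g R →+* Fam k (AlgebraicClosure F)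
      (g.map (algebraMap F (AlgebraicClosure F))) R, T = Bs.map (evg k F g)
        (mapRingHom (algebraMap F (AlgebraicClosure F))) _ hcomp := ⟨_, rfl⟩
  have hTinj : Function.Injective T := by
    rw [hT]
    exact bs_map_inj C₀ (evg k F g) (mapRingHom (algebraMap F (AlgebraicClosure F))) _ hcomp
      (Polynomial.map_injective _ (algebraMap F (AlgebraicClosure F)).injective)
  -- the image is a constant
  obtain ⟨ι, hι⟩ : ∃ ι : AlgebraicClosure F →+* Fam k (AlgebraicClosure F)
      (g.map (algebraMap F (AlgebraicClosure F))) R, ∀ β, ι β = algebraMap (AlgebraicClosure F)[X]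
        (Fam k (AlgebraicClosure F) (g.map (algebraMap F (AlgebraicClosure F))) R) (C β) :=
    ⟨(algebraMap (AlgebraicClosure F)[X] _).comp C, fun β => rfl⟩
  have hpn : 1 < p ^ n := Nat.one_lt_pow hn.ne' (Fact.out : p.Prime).one_lt
  have hroot : ∃ β : AlgebraicClosure F, T b = ι β := by
    have hP0 : (X ^ p ^ n - X : (AlgebraicClosure F)[X]) ≠ 0 :=
      FiniteField.X_pow_card_sub_X_ne_zero _ hpn
    have hmon : (X ^ p ^ n - X : (AlgebraicClosure F)[X]).Monic := by
      refine monic_X_pow_sub ?_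
      rw [degree_X]
      exact_mod_cast hpn
    have hsp : (X ^ p ^ n - X : (AlgebraicClosure F)[X]).Splits :=
      IsAlgClosed.splits _
    have h1 : eval₂ ι (T b) (X ^ p ^ n - X : (AlgebraicClosure F)[X]) = 0 := by
      rw [eval₂_sub, eval₂_X_pow, eval₂_X, ← map_pow, hb, sub_self]
    rw [hsp.eq_prod_roots_of_monic hmon, ← coe_eval₂RingHom, map_multiset_prod,
      Multiset.prod_eq_zero_iff, Multiset.map_map, Multiset.mem_map] at h1
    obtain ⟨β, _, hβ⟩ := h1
    refine ⟨β, ?_⟩
    rw [Function.comp_apply, coe_eval₂RingHom, eval₂_sub, eval₂_X, eval₂_C, sub_eq_zero] at hβ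
    exact hβ
  obtain ⟨β, hβ⟩ := hroot
  obtain ⟨bb⟩ := cov_basis C₀
  have hrep : ∀ i, ((Bs.basis (evg k F g) bb).repr b i).map (algebraMap F (AlgebraicClosure F)) =
      C β * ((Bs.basis (evg k F g) bb).repr 1 i).map (algebraMap F (AlgebraicClosure F)) := by
    intro i
    have h1 := bs_map_repr (evg k F g) (mapRingHom (algebraMap F (AlgebraicClosure F))) _ hcomp
      bb b i
    have h2 := bs_map_repr (evg k F g) (mapRingHom (algebraMap F (AlgebraicClosure F))) _ hcomp
      bb 1 i
    rw [← hT, hβ, hι, ← mul_one (algebraMap _ _ (C β)), ← Algebra.smul_def, map_smul,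
      Finsupp.smul_apply, smul_eq_mul] at h1
    rw [map_one] at h2
    rw [h2] at h1
    exact h1.symm
  have h1ne : (1 : Fam k F g R) ≠ 0 := by
    intro h
    have h3 := congrArg T h
    rw [map_one, map_zero] at h3
    exact one_ne_zero h3
  obtain ⟨i, hi⟩ : ∃ i, (Bs.basis (evg k F g) bb).repr (1 : Fam k F g R) i ≠ 0 := by
    by_contra hcon
    push Not at hcon
    apply h1ne
    apply (Bs.basis (evg k F g) bb).repr.injective
    rw [map_zero]
    exact Finsupp.ext hcon
  obtain ⟨r, hr⟩ : ∃ r : F[X], r = (Bs.basis (evg k F g) bb).repr (1 : Fam k F g R) i := ⟨_, rfl⟩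
  obtain ⟨q, hq⟩ : ∃ q : F[X], q = (Bs.basis (evg k F g) bb).repr b i := ⟨_, rfl⟩
  have h4 := hrep i
  rw [← hr, ← hq] at h4
  rw [← hr] at hi
  have h5 : algebraMap F (AlgebraicClosure F) (q.coeff r.natDegree) =
      β * algebraMap F (AlgebraicClosure F) r.leadingCoeff := by
    have h6 := congrArg (fun f : (AlgebraicClosure F)[X] => f.coeff r.natDegree) h4
    simp only [coeff_map, coeff_C_mul] at h6
    exact h6
  have h7 : r.leadingCoeff ≠ 0 := leadingCoeff_ne_zero.2 hi
  refine ⟨q.coeff r.natDegree / r.leadingCoeff, ?_⟩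
  apply hTinj
  rw [hβ, hι, hT, Bs.map_alg]
  congr 1
  rw [coe_mapRingHom, map_C, map_div₀, h5]
  congr 1
  rw [mul_div_cancel_right₀]
  exact (_root_.map_ne_zero _).2 h7

/-- base change of a model by a polynomial with coefficients in `F_p` and an extension of
the field of constants -/
theorem mdl_bc (p : ℕ) [Fact p.Prime] (K : Type) [Field K] [Algebra (Fx p) K]
    [Algebra (Rx p) K] [IsScalarTower (Rx p) (Fx p) K] (hK : NiK p K) (k R H : Type) [Field k]
    [Finite k] [CharP k p] [CommRing R] [Algebra k[X] R] [Group H] [Finite H]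
    (m : Mdl p K k R H) (F : Type) [Field F] [Finite F] [Algebra k F] (g : F[X])
    (hg : ∀ i, (g.coeff i) ^ p = g.coeff i) (hdeg : 0 < g.natDegree)
    (hdom : ∀ (F' : Type) [Field F'] [Algebra k F'] [Algebra F F'] [IsScalarTower k F F'],
      IsDomain (Fam k F' (g.map (algebraMap F F')) R)) :
    ∃ (K' : Type) (_ : Field K') (_ : Algebra (Fx p) K') (_ : Algebra (Rx p) K')
      (_ : IsScalarTower (Rx p) (Fx p) K') (ρ : Gl p K' →* Gl p K), NiK p K' ∧
      Function.Surjective ρ ∧ (Gc p K').map ρ = Gc p K ∧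
      ∃ m' : Mdl p K' F (Fam k F g R) H, (∀ h : H, ρ (m'.j h) = m.j h) ∧
        ∀ h z, m'.cov.act h z = Bs.act (evg k F g) m.cov.act h z := by
  classical
  obtain ⟨hfd, hgal, hni⟩ := hK
  have hchF : CharP F p := charP_of_injective_algebraMap (algebraMap k F).injective p
  have hchK : CharP K p := charP_of p K
  obtain ⟨κ, hκ⟩ := gw_kap m
  obtain ⟨ac0, ha1, ha2⟩ := gw_act (F := F) (g := g) hκ hg
  have hB : IsDomain (Fam k F g R) := by
    have h1 := hdom F
    rw [show g.map (algebraMap F F) = g from Polynomial.map_id] at h1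
    exact h1
  have hBi : IsIntegrallyClosed (Fam k F g R) := bs_intClosed m.cov (evg k F g)
  obtain ⟨C', hC'⟩ := cov_bc k R H m.cov F g hdom
  have hfinA : Finite (F ≃+* F) :=
    Finite.of_injective (fun σ : F ≃+* F => (σ : F → F)) DFunLike.coe_injective
  have hfinG : Finite (Gl p K) := inferInstance
  have hfinΓ : Finite (gwG κ F) := inferInstance
  let iB : Algebra (Rx p) (Fam k F g R) := ((algebraMap F[X] (Fam k F g R)).comp
    (mapRingHom (ZMod.castHom (dvd_refl p) F))).toAlgebra
  have hiB : ∀ f : Rx p, algebraMap (Rx p) (Fam k F g R) f =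
      algebraMap F[X] (Fam k F g R) (f.map (ZMod.castHom (dvd_refl p) F)) := fun f => rfl
  have hinj : Function.Injective (algebraMap (Rx p) (Fam k F g R)) := by
    intro f f' h
    rw [hiB, hiB] at h
    exact Polynomial.map_injective _ (RingHom.injective _) (bs_inj m.cov (evg k F g) h)
  have hcomm : ∀ (s : gwG κ F) (f : Rx p), ac0 s (algebraMap (Rx p) (Fam k F g R) f) =
      algebraMap (Rx p) (Fam k F g R) f := by
    intro s f
    rw [hiB, ha1, Polynomial.map_map]
    have h1 : ((s.1.2 : F →+* F).comp (ZMod.castHom (dvd_refl p) F)) =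
        ZMod.castHom (dvd_refl p) F := Subsingleton.elim _ _
    rw [h1]
  let ac : gwG κ F →* (Fam k F g R ≃ₐ[Rx p] Fam k F g R) :=
    { toFun := fun s => AlgEquiv.ofRingEquiv (f := ac0 s) (hcomm s)
      map_one' := by
        ext z
        change ac0 1 z = z
        rw [map_one]
        rfl
      map_mul' := fun s t => by
        ext z
        change ac0 (s * t) z = ac0 s (ac0 t z)
        rw [map_mul]
        rfl }
  have hac : ∀ s z, ac s z = ac0 s z := fun s z => rfl
  obtain ⟨K', iF, iA, iR, iT, e', θ, hNi, hθ⟩ := field_of_ring p (Fam k F g R) hinj (gwG κ F) ac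
    (fun b hb => by
      obtain ⟨f, hf⟩ := gw_fix hκ ha1 ha2 b hb
      exact ⟨f, hf⟩)
    (gw_coord hκ ha1 ha2)
  have hchK' : CharP K' p := charP_of p K'
  -- the constants
  have hconst : ∀ c : K', IsCst p c ↔ ∃ a : F,
      ((e' (algebraMap F[X] (Fam k F g R) (C a)) : Oc p K') : K') = c := by
    intro c
    constructor
    · intro hc
      obtain ⟨n, hn, h1⟩ := id hc
      obtain ⟨b, hb⟩ := e'.surjective ⟨c, cst_integral p K' c hc⟩
      obtain ⟨a, ha⟩ := gw_const p m.cov hdom b n hn (by
        apply e'.injective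
        rw [map_pow, hb]
        exact Subtype.ext h1)
      refine ⟨a, ?_⟩
      rw [ha, hb]
    · rintro ⟨a, rfl⟩
      let _ := Fintype.ofFinite F
      obtain ⟨n, _, hn⟩ := FiniteField.card F p
      refine ⟨n, n.2, ?_⟩
      have h1 : a ^ p ^ (n : ℕ) = a := by
        rw [← hn]
        exact FiniteField.pow_card a
      rw [← SubmonoidClass.coe_pow, ← map_pow, ← map_pow, ← C_pow, h1]
  have hGc : ∀ s : gwG κ F, θ s ∈ Gc p K' ↔ s.1.2 = 1 := by
    intro s
    have h1 : ∀ a : F, θ s ((e' (algebraMap F[X] (Fam k F g R) (C a)) : Oc p K') : K') =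
        ((e' (algebraMap F[X] (Fam k F g R) (C (s.1.2 a))) : Oc p K') : K') := by
      intro a
      rw [← act_coe, ← hθ, hac, ha1, map_C]
      rfl
    constructor
    · intro h
      ext a
      have h2 := h _ ((hconst _).2 ⟨a, rfl⟩)
      rw [h1] at h2
      have h3 := bs_inj m.cov (evg k F g) (e'.injective (Subtype.ext h2))
      exact C_injective h3
    · intro h c hc
      obtain ⟨a, rfl⟩ := (hconst c).1 hc
      rw [h1, h]
      rfl
  have hGc1 : ∀ s : gwG κ F, s.1.2 = 1 → s.1.1 ∈ Gc p K := by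
    intro s h3
    rw [← gw_kap_one hκ]
    intro a
    have h5 := s.2 a
    rw [h3] at h5
    exact ((algebraMap k F).injective h5).symm
  let ρ : Gl p K' →* Gl p K :=
    (MonoidHom.fst (Gl p K) (F ≃+* F)).comp ((gwG κ F).subtype.comp θ.symm.toMonoidHom)
  have hρ : ∀ s, ρ (θ s) = s.1.1 := by
    intro s
    change (θ.symm (θ s)).1.1 = s.1.1
    rw [MulEquiv.symm_apply_apply]
  let s0 : H → gwG κ F := fun h => ⟨((m.j h : Gl p K), 1), gw_mem_j hκ (m.j h).2⟩
  have hs0 : ∀ h h', s0 (h * h') = s0 h * s0 h' := by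
    intro h h'
    apply Subtype.ext
    refine Prod.ext ?_ ?_
    · change ((m.j (h * h') : Gc p K) : Gl p K) = (m.j h : Gl p K) * (m.j h' : Gl p K)
      rw [map_mul]
      rfl
    · change (1 : F ≃+* F) = 1 * 1
      rw [mul_one]
  let j0 : H →* Gc p K' := MonoidHom.mk' (fun h => ⟨θ (s0 h), (hGc _).2 rfl⟩) (fun h h' => by
    apply Subtype.ext
    change θ (s0 (h * h')) = θ (s0 h) * θ (s0 h')
    rw [hs0, map_mul])
  have hj0 : ∀ h, ((j0 h : Gc p K') : Gl p K') = θ (s0 h) := fun h => rfl
  have hj0b : Function.Bijective j0 := by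
    constructor
    · intro h h' hh
      have h1 := congrArg (fun t : Gc p K' => (t : Gl p K')) hh
      have h2 : s0 h = s0 h' := θ.injective h1
      have h3 : (m.j h : Gl p K) = (m.j h' : Gl p K) :=
        congrArg (fun t : gwG κ F => t.1.1) h2
      exact m.j.injective (Subtype.ext h3)
    · intro τ
      obtain ⟨s, hs⟩ := θ.surjective (τ : Gl p K')
      have h1 : s.1.2 = 1 := (hGc s).1 (by rw [hs]; exact τ.2)
      obtain ⟨h, hh⟩ := m.j.surjective ⟨s.1.1, hGc1 s h1⟩
      refine ⟨h, ?_⟩
      apply Subtype.ext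
      rw [hj0, ← hs]
      congr 1
      apply Subtype.ext
      refine Prod.ext ?_ h1.symm
      exact congrArg Subtype.val hh
  refine ⟨K', iF, iA, iR, iT, ρ, hNi, ?_, ?_, ?_⟩
  · intro γ
    obtain ⟨σ, hσ⟩ := gwG_surj κ F γ
    exact ⟨θ ⟨(γ, σ), hσ⟩, hρ _⟩
  · ext γ
    rw [Subgroup.mem_map]
    constructor
    · rintro ⟨τ, hτ, rfl⟩
      obtain ⟨s, rfl⟩ := θ.surjective τ
      rw [hρ]
      exact hGc1 s ((hGc s).1 hτ)
    · intro hγ
      exact ⟨θ ⟨(γ, 1), gw_mem_j hκ hγ⟩, (hGc _).2 rfl, hρ _⟩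
  · refine ⟨
      { cov := C'
        e := e'.toRingEquiv
        j := MulEquiv.ofBijective j0 hj0b
        eX := by
          change e' (algebraMap F[X] (Fam k F g R) X) = xo p K'
          have h1 : algebraMap F[X] (Fam k F g R) X =
              algebraMap (Rx p) (Fam k F g R) X := by
            rw [hiB, map_X]
          rw [h1, AlgEquiv.commutes]
          rfl
        eact := by
          intro h r
          change e' (C'.act h r) = act p K' (θ (s0 h)) (e' r)
          rw [hC', ← hθ, hac, gw_act_j ha1 ha2 (s0 h) h rfl rfl]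
        econst := hconst }, ?_, hC'⟩
    intro h
    exact hρ (s0 h)

end Pool.Agent.AB3
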