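import Pool.Agent.Lib.MP_5de024_nt.S.AsX.Ind
import Pool.Agent.Lib.MP_5de024_nt.S.GeoW
import Pool.Agent.Lib.MP_5de024_nt.S.GeoS

/-!
# descent (interface of project AB3)
-/

set_option autoImplicit false
set_option linter.unusedSectionVars false

namespace Pool.Agent.AB3

open Pool.Agent.AB Polynomial

/-- the number of fixed points of the `q`-th power in an extension of `F_q` -/
private theorem as_cardfix (p : ℕ) [Fact p.Prime] (F F' : Type) [Field F] [Finite F] [CharP F p]
    [Field F'] [Algebra F F'] (N : ℕ) (hN : 0 < N) (hF : Nat.card F = p ^ N) :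
    Nat.card {a : F' // a ^ p ^ N = a} = p ^ N := by
  classical
  have hp : 1 < p := (Fact.out : p.Prime).one_lt
  have hq : 1 < p ^ N := Nat.one_lt_pow hN.ne' hp
  let _ : Fintype F := Fintype.ofFinite F
  have hcard : Fintype.card F = p ^ N := by rw [← Nat.card_eq_fintype_card, hF]
  obtain ⟨g, hg⟩ : ∃ g : F'[X], g = X ^ p ^ N - X := ⟨_, rfl⟩
  have hdeg : g.natDegree = p ^ N := by
    rw [hg, natDegree_sub_eq_left_of_natDegree_lt, natDegree_X_pow]
    rw [natDegree_X_pow, natDegree_X]
    exact hq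
  have hne : g ≠ 0 := by
    intro h
    rw [h, natDegree_zero] at hdeg
    omega
  have hmem : ∀ w : F', w ∈ g.roots.toFinset ↔ w ^ p ^ N = w := by
    intro w
    rw [Multiset.mem_toFinset, mem_roots hne, IsRoot.def, hg, eval_sub, eval_pow, eval_X,
      sub_eq_zero]
  have h1 : Nat.card {a : F' // a ^ p ^ N = a} = g.roots.toFinset.card :=
    Nat.subtype_card _ hmem
  rw [h1]
  refine le_antisymm ((Multiset.toFinset_card_le _).trans ((card_roots' g).trans hdeg.le)) ?_
  have h2 : Finset.univ.image (algebraMap F F') ⊆ g.roots.toFinset := by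
    intro w hw
    obtain ⟨i, -, rfl⟩ := Finset.mem_image.1 hw
    rw [hmem, ← map_pow, ← hcard, FiniteField.pow_card]
  have h3 := Finset.card_le_card h2
  rw [Finset.card_image_of_injective _ (algebraMap F F').injective, Finset.card_univ, hcard] at h3
  exact h3

/-- representatives -/
private theorem as_reps (p : ℕ) [Fact p.Prime] (k : Type) [Field k] [CharP k p] (r : ℕ)
    (hr : Nat.card {a : k // a ^ p ^ (r + 1) = a} = p ^ (r + 1)) :
    ∃ aa : Fin (p ^ r) → {a : k // a ^ p ^ (r + 1) = a}, Function.Injective aa ∧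
      ∀ i j, (aa j : k) ≠ (aa i : k) + 1 := by
  classical
  have hp : 1 < p := (Fact.out : p.Prime).one_lt
  let FP : AddSubgroup k :=
    { carrier := {a | a ^ p ^ (r + 1) = a}
      zero_mem' := by
        change (0 : k) ^ p ^ (r + 1) = 0
        exact zero_pow (pow_ne_zero _ (by omega))
      add_mem' := by
        intro a b ha hb
        change (a + b) ^ p ^ (r + 1) = a + b
        rw [add_pow_char_pow, show a ^ p ^ (r + 1) = a from ha,
          show b ^ p ^ (r + 1) = b from hb]
      neg_mem' := by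
        intro a ha
        change (-a) ^ p ^ (r + 1) = -a
        have h := sub_pow_char_pow (p := p) (n := r + 1) (0 : k) a
        rw [zero_sub, zero_pow (pow_ne_zero _ (by omega)), zero_sub,
          show a ^ p ^ (r + 1) = a from ha] at h
        exact h }
  let t : FP := ⟨1, one_pow _⟩
  have hcard : Nat.card FP = p ^ (r + 1) := hr
  have ht0 : t ≠ 0 := by
    intro h
    have h1 := congrArg (fun a : FP => (a : k)) h
    exact one_ne_zero h1
  have hpt : p • t = 0 := by
    apply Subtype.ext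
    change ((p • t : FP) : k) = 0
    rw [AddSubgroup.coe_nsmul]
    change p • (1 : k) = 0
    rw [nsmul_one, CharP.cast_eq_zero]
  have hord : addOrderOf t = p := addOrderOf_eq_prime hpt ht0
  have hquot : Nat.card (FP ⧸ AddSubgroup.zmultiples t) = p ^ r := by
    have h1 := AddSubgroup.card_eq_card_quotient_mul_card_addSubgroup
      (AddSubgroup.zmultiples t)
    rw [hcard, Nat.card_zmultiples, hord, pow_succ] at h1
    exact (Nat.eq_of_mul_eq_mul_right (by omega) h1).symm
  have hfin : Finite (FP ⧸ AddSubgroup.zmultiples t) := by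
    apply Nat.finite_of_card_ne_zero
    rw [hquot]
    exact pow_ne_zero _ (by omega)
  let eq : Fin (p ^ r) ≃ FP ⧸ AddSubgroup.zmultiples t :=
    (finCongr hquot.symm).trans (Finite.equivFin _).symm
  refine ⟨fun i => ⟨((eq i).out : FP), ((eq i).out : FP).2⟩, ?_, ?_⟩
  · intro i j hij
    have h1 : (eq i).out = (eq j).out := Subtype.ext (congrArg Subtype.val hij)
    apply eq.injective
    rw [← QuotientAddGroup.out_eq' (eq i), ← QuotientAddGroup.out_eq' (eq j), h1]
  · intro i j hij
    have h1 : (eq j).out = (eq i).out + t := Subtype.ext hij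
    have h2 : eq j = eq i := by
      rw [← QuotientAddGroup.out_eq' (eq i), ← QuotientAddGroup.out_eq' (eq j), h1]
      rw [QuotientAddGroup.eq]
      rw [neg_add_rev, add_assoc, neg_add_cancel, add_zero]
      exact neg_mem (AddSubgroup.mem_zmultiples t)
    rw [h2] at h1
    exact ht0 (left_eq_add.1 h1)

private theorem as_gq_coeff {F : Type} [Field F] (p : ℕ) [Fact p.Prime] [CharP F p] (i : ℕ) :
    ((gq F).coeff i) ^ p = (gq F).coeff i := by
  have hp0 : p ≠ 0 := (Fact.out : p.Prime).ne_zero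
  rw [coeff_sub, coeff_X_pow, coeff_X, sub_pow_char]
  split_ifs <;> simp [hp0]

/-- certificates are preserved by ring homomorphisms -/
private theorem as_cert {A B : Type} [CommRing A] [CommRing B] (f : A →+* B) {n : ℕ} {u : A}
    (h : Cert n u) : Cert n (f u) := by
  obtain ⟨a0, a1, c0, c1, d0, d1, h1, h2, h3⟩ := h
  exact ⟨f a0, f a1, f c0, f c1, f d0, f d1, by rw [← map_pow, h1, map_mul],
    by rw [← map_pow, h2, map_mul], by rw [← map_mul, ← map_mul, ← map_add, h3, map_one]⟩

/-- AS: descent to `F_p` -/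
theorem kdata_of_good (p : ℕ) [Fact p.Prime] (K : Type) [Field K] [Algebra (Fx p) K]
    [Algebra (Rx p) K] [IsScalarTower (Rx p) (Fx p) K] (hK : NiK p K) (k R H : Type) [Field k]
    [Finite k] [CharP k p] [CommRing R] [Algebra k[X] R] [Group H] [Finite H]
    (m : Mdl p K k R H) (hNL : NL p k R) (n r : ℕ) (hn : n.Coprime p) (hn0 : 0 < n)
    (hζ : ∃ ζ : k, IsPrimitiveRoot ζ n)
    (hr : Nat.card {a : k // a ^ p ^ (r + 1) = a} = p ^ (r + 1))
    (F : Type) [Field F] [Finite F] [Algebra k F] (β : F) (hβ : β ≠ 0)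
    (hgen : ∀ j : ℕ, (β ^ (2 * (p ^ (r + 1) - 1))) ^ p ^ j = β ^ (2 * (p ^ (r + 1) - 1)) →
      ∀ z : F, z ^ p ^ j = z) (hG : Good m.cov n (p ^ (r + 1)) F β) :
    ∃ (M : Type) (_ : Field M) (_ : Algebra (Fx p) M) (_ : Algebra (Rx p) M)
      (_ : IsScalarTower (Rx p) (Fx p) M) (ρ : Gl p M →* Gl p K), NiK p M ∧
      Function.Surjective ρ ∧ (Gc p M).map ρ = Gc p K ∧ KData p M n (p ^ r) := by
  classical
  have hp : 1 < p := (Fact.out : p.Prime).one_lt
  have hCF : CharP F p := charP_of_injective_algebraMap (algebraMap k F).injective p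
  have hs : 0 < r + 1 := Nat.succ_pos r
  obtain ⟨mm, hmm, hF⟩ := tr_card (F := F) p (r + 1) hs hr
  have hF' : Nat.card F = p ^ ((r + 1) * mm) := by rw [hF, ← pow_mul]
  have hN : 0 < (r + 1) * mm := Nat.mul_pos hs hmm
  have hq1 : 1 < Nat.card F := by
    rw [hF']
    exact Nat.one_lt_pow hN.ne' hp
  -- the field `M`
  obtain ⟨M, _, _, _, _, ρ, hM, hρ, hGc, m', hj, hact⟩ := mdl_bc p K hK k R H m F (gq F)
    (as_gq_coeff p)
    (by
      rw [natDegree_sub_eq_left_of_natDegree_lt, natDegree_X_pow]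
      · omega
      · rw [natDegree_X_pow, natDegree_X]
        exact hq1)
    (fun F' _ _ _ _ => by
      have h1 := fam_as_domain p m.cov hNL (F := F') ((r + 1) * mm) hN
        (as_cardfix p F F' _ hN hF') 1 1 one_ne_zero one_ne_zero
      have h2 : (gq F).map (algebraMap F F') =
          C 1 * (C (1 ^ (p ^ ((r + 1) * mm) - 1)) * X ^ p ^ ((r + 1) * mm) - X) := by
        rw [Polynomial.map_sub, Polynomial.map_pow, Polynomial.map_X, hF', one_pow, C_1,
          one_mul, one_mul]
      rw [h2]
      exact h1)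
  have hst : ∀ γ r, ∃ r' : R, m'.ac γ (Bs.inR (evg k F (gq F)) R r) =
      Bs.inR (evg k F (gq F)) R r' := fun γ r0 =>
    gal_stab p K M hK k R H m F (gq F) (as_gq_coeff p) m' γ r0
  obtain ⟨Θ, hinj, hΘR, halg, hΘ, hfix, htau⟩ := th_exists p m.cov (r + 1) mm hs hmm hF β hβ
  obtain ⟨u, hu, hcert, ⟨y, hy⟩, hgood⟩ := hG
  have hshex : ∀ a : {a : k // a ^ p ^ (r + 1) = a}, ∃ s : Fam k F (gb F (p ^ (r + 1)) β) R →+*
      Fam k F (gb F (p ^ (r + 1)) β) R,
      IsShf (gb F (p ^ (r + 1)) β) β (algebraMap k F (a : k)) s := fun a =>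
    shf_exists p (r + 1) β _ hβ (by rw [← map_pow, a.2])
  choose sh hsh using hshex
  obtain ⟨aa, haa, haa1⟩ := as_reps p k r hr
  refine ⟨M, inferInstance, inferInstance, inferInstance, inferInstance, ρ, hM, hρ, hGc, ?_⟩
  have hinjC : Function.Injective (algebraMap F[X] (Fam k F (gq F) R)) :=
    bs_inj m.cov (evg k F (gq F))
  let coR : Fam k F (gq F) R →+* M :=
    ((Oc p M).val : Oc p M →+* M).comp (m'.e : Fam k F (gq F) R →+* Oc p M)
  have hcoR : ∀ z, coR z = ((m'.e z : Oc p M) : M) := fun z => rfl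
  have hcoinj : Function.Injective coR := fun x y hxy => m'.e.injective (Subtype.ext hxy)
  obtain ⟨ζ, hζ⟩ := hζ
  -- the inverse translation
  have hneg : ∀ a : {a : k // a ^ p ^ (r + 1) = a}, Function.Injective (sh a) := by
    intro a z1 z2 hz
    obtain ⟨s', hs'⟩ := shf_exists (R := R) (k := k) p (r + 1) β (-algebraMap k F (a : k)) hβ (by
      have h := sub_pow_char_pow (p := p) (n := r + 1) (0 : F) (algebraMap k F (a : k))
      rw [zero_sub, zero_pow (pow_ne_zero _ (by omega)), zero_sub, ← map_pow, a.2] at h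
      exact h)
    have h1 : s'.comp (sh a) = RingHom.id _ := by
      apply Bs.hom_ext
      · intro f
        rw [RingHom.comp_apply, (hsh a).2, hs'.2, RingHom.id_apply, comp_assoc]
        congr 1
        rw [neg_div, C_neg]
        simp only [add_comp, X_comp, C_comp]
        rw [neg_add_cancel_right, comp_X]
      · intro r
        rw [RingHom.comp_apply, (hsh a).1, hs'.1, RingHom.id_apply]
    have h2 := congrArg s' hz
    have h3 : ∀ z, s' (sh a z) = z := fun z => congrArg (fun g : Fam k F (gb F (p ^ (r + 1)) β) R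
      →+* Fam k F (gb F (p ^ (r + 1)) β) R => g z) h1
    rw [h3, h3] at h2
    exact h2
  refine ⟨coR (algebraMap F[X] (Fam k F (gq F) R) (C (algebraMap k F ζ))),
    fun j => coR (Θ (sh (aa j) u)), ?_, ?_, ?_, ?_, ?_⟩
  · exact hζ.map_of_injective (f := (coR.comp (algebraMap F[X] (Fam k F (gq F) R))).comp
      ((C : F →+* F[X]).comp (algebraMap k F)))
      ((hcoinj.comp hinjC).comp (C_injective.comp (algebraMap k F).injective))
  · intro j h0
    have h1 : Θ (sh (aa j) u) = 0 := hcoinj (by rw [map_zero]; exact h0)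
    have h2 : sh (aa j) u = 0 := hinj (by rw [h1, map_zero])
    exact hu (hneg (aa j) (by rw [h2, map_zero]))
  · intro j
    obtain ⟨a0, a1, c0, c1, d0, d1, h1, h2, h3⟩ := as_cert
      (((m'.e : Fam k F (gq F) R →+* Oc p M).comp Θ).comp (sh (aa j))) hcert
    refine ⟨a0, a1, c0, c1, d0, d1, ?_, ?_, h3⟩
    · exact congrArg (fun z : Oc p M => (z : M)) h1
    · exact congrArg (fun z : Oc p M => (z : M)) h2
  · intro j
    -- the norm
    have hcomm : ∀ (a : {a : k // a ^ p ^ (r + 1) = a}) (h : H) (z), sh a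
        (Bs.act (evg k F (gb F (p ^ (r + 1)) β)) m.cov.act h z) =
        Bs.act (evg k F (gb F (p ^ (r + 1)) β)) m.cov.act h (sh a z) := by
      intro a h z
      have h1 : (sh a).comp ((Bs.act (evg k F (gb F (p ^ (r + 1)) β)) m.cov.act h :
          Fam k F (gb F (p ^ (r + 1)) β) R →+* Fam k F (gb F (p ^ (r + 1)) β) R)) =
          ((Bs.act (evg k F (gb F (p ^ (r + 1)) β)) m.cov.act h :
          Fam k F (gb F (p ^ (r + 1)) β) R →+* Fam k F (gb F (p ^ (r + 1)) β) R)).comp
            (sh a) := by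
        apply Bs.hom_ext
        · intro f
          rw [RingHom.comp_apply, RingHom.comp_apply, (hsh a).2]
          change sh a (Bs.act _ m.cov.act h _) = Bs.act _ m.cov.act h _
          rw [Bs.act_alg, Bs.act_alg, (hsh a).2]
        · intro r
          rw [RingHom.comp_apply, RingHom.comp_apply, (hsh a).1]
          change sh a (Bs.act _ m.cov.act h _) = Bs.act _ m.cov.act h _
          rw [Bs.act_inR, (hsh a).1]
      exact congrArg (fun g : Fam k F (gb F (p ^ (r + 1)) β) R →+*
        Fam k F (gb F (p ^ (r + 1)) β) R => g z) h1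
    let _ : Fintype H := Fintype.ofFinite H
    let y' : F[X] := (y.comp (X + C (algebraMap k F (aa j : k) / β))).comp
      (C β⁻¹ * trP (p ^ (r + 1)) mm (-β ^ 2))
    refine ⟨coR (algebraMap F[X] (Fam k F (gq F) R) y'), ?_, ?_⟩
    · intro σ hσ
      obtain ⟨h, hh⟩ : ∃ h, (m'.j h : Gl p M) = σ := ⟨m'.j.symm ⟨σ, hσ⟩, by
        rw [m'.j.apply_symm_apply]⟩
      rw [← hh]
      have h1 := congrArg (fun z : Oc p M => (z : M))
        (m'.eact h (algebraMap F[X] (Fam k F (gq F) R) y'))
      rw [hact, Bs.act_alg] at h1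
      exact h1.symm
    · rw [← map_pow]
      have h1 := congrArg (Θ.comp (sh (aa j))) hy
      rw [map_pow, RingHom.comp_apply, RingHom.comp_apply, (hsh (aa j)).2, halg,
        finprod_eq_prod_of_fintype, map_prod, map_prod] at h1
      rw [← h1, map_prod]
      let _ : Fintype (Gc p M) := Fintype.ofEquiv H m'.j.toEquiv
      rw [finprod_eq_prod_of_fintype]
      refine (Fintype.prod_equiv m'.j.toEquiv _ _ fun h => ?_).symm
      rw [hcomm, hΘ]
      have h2 := congrArg (fun z : Oc p M => (z : M))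
        (m'.eact h (Θ (sh (aa j) u)))
      rw [hact] at h2
      exact h2
  · intro e c w hc hc0 hrel γ h hh j
    have hfin : Finite {a : k // a ^ p ^ (r + 1) = a} := inferInstance
    exact as_ind p M hM m.cov (r + 1) mm hs hmm hF hr β hβ hgen n hn hn0 m' hact hst Θ hinj
      halg hΘ hfix htau u hu sh hsh (hgood sh hsh) aa haa haa1 e c w hc hc0 hrel γ h hh j

end Pool.Agent.AB3
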