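import Pool.Agent.Lib.MP_5de024_nt.S.GeoA

/-!
# Base change of covers: maps and transitivity (piece GeoM)
-/

set_option autoImplicit false
set_option linter.unusedSectionVars false

namespace Pool.Agent.AB3

open Pool.Agent.AB Polynomial

variable {k R H A : Type} [Field k] [CommRing R] [Algebra k[X] R] [Group H] [Finite H]
  [CommRing A]

/-- the coordinates of the image under a base change of maps -/
theorem bs_map_repr {ι : Type} {A' : Type} [CommRing A'] (φ : k[X] →+* A) (ψ : A →+* A')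
    (φ' : k[X] →+* A') (h : ∀ f, ψ (φ f) = φ' f) (b : Module.Basis ι k[X] R) (z : Bs φ R)
    (i : ι) : (Bs.basis φ' b).repr (Bs.map φ ψ φ' h z) i = ψ ((Bs.basis φ b).repr z i) := by
  induction z using Bs.induction with
  | h0 => rw [map_zero, map_zero, map_zero, Finsupp.zero_apply, Finsupp.zero_apply, map_zero]
  | h1 a r =>
    rw [map_mul, Bs.map_alg, Bs.map_inR, ← Algebra.smul_def, ← Algebra.smul_def, map_smul,
      map_smul, Finsupp.smul_apply, Finsupp.smul_apply, Bs.repr_inR, Bs.repr_inR, smul_eq_mul,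
      smul_eq_mul, map_mul, h]
  | h2 x y hx hy =>
    rw [map_add, map_add, map_add, Finsupp.add_apply, Finsupp.add_apply, map_add, hx, hy]

/-- base change of maps is injective if the map of the coefficients is -/
theorem bs_map_inj (C : Cov k R H) {A' : Type} [CommRing A'] (φ : k[X] →+* A) (ψ : A →+* A')
    (φ' : k[X] →+* A') (h : ∀ f, ψ (φ f) = φ' f) (hψ : Function.Injective ψ) :
    Function.Injective (Bs.map φ ψ φ' h : Bs φ R →+* Bs φ' R) := by
  obtain ⟨b⟩ := cov_basis C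
  intro x y hxy
  apply (Bs.basis φ b).repr.injective
  ext i
  apply hψ
  rw [← bs_map_repr φ ψ φ' h b x i, ← bs_map_repr φ ψ φ' h b y i, hxy]

/-- base change of maps commutes with the action -/
theorem bs_map_act (C : Cov k R H) {A' : Type} [CommRing A'] (φ : k[X] →+* A) (ψ : A →+* A')
    (φ' : k[X] →+* A') (h : ∀ f, ψ (φ f) = φ' f) (g : H) (z : Bs φ R) :
    Bs.map φ ψ φ' h (Bs.act φ C.act g z) = Bs.act φ' C.act g (Bs.map φ ψ φ' h z) := by
  induction z using Bs.induction with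
  | h0 => rw [map_zero, map_zero, map_zero]
  | h1 a r =>
    rw [map_mul, map_mul, Bs.act_alg, Bs.act_inR, Bs.map_alg, Bs.map_inR, map_mul, Bs.map_alg,
      Bs.map_inR, map_mul, Bs.act_alg, Bs.act_inR]
  | h2 x y hx hy => rw [map_add, map_add, map_add, map_add, hx, hy]

/-- transitivity of base change -/
theorem bs_trans {F : Type} [Field F] (φ : k[X] →+* F[X]) (ψ : F[X] →+* A) :
    ∃ e : Bs ψ (Bs φ R) ≃+* Bs (ψ.comp φ) R,
      (∀ a : A, e (algebraMap A (Bs ψ (Bs φ R)) a) = algebraMap A (Bs (ψ.comp φ) R) a) ∧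
      (∀ z : Bs φ R, e (Bs.inR ψ (Bs φ R) z) = Bs.map φ ψ (ψ.comp φ) (fun _ => rfl) z) := by
  let fw : Bs ψ (Bs φ R) →+* Bs (ψ.comp φ) R :=
    Bs.lift ψ (algebraMap A (Bs (ψ.comp φ) R)) (Bs.map φ ψ (ψ.comp φ) (fun _ => rfl))
      (fun f => (Bs.map_alg φ ψ (ψ.comp φ) (fun _ => rfl) f).symm)
  have fa : ∀ a : A, fw (algebraMap A (Bs ψ (Bs φ R)) a) = algebraMap A (Bs (ψ.comp φ) R) a :=
    fun a => Bs.lift_alg _ _ _ _ a
  have fr : ∀ z : Bs φ R, fw (Bs.inR ψ (Bs φ R) z) =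
      Bs.map φ ψ (ψ.comp φ) (fun _ => rfl) z := fun z => Bs.lift_inR _ _ _ _ z
  let bw : Bs (ψ.comp φ) R →+* Bs ψ (Bs φ R) :=
    Bs.lift (ψ.comp φ) (algebraMap A (Bs ψ (Bs φ R)))
      ((Bs.inR ψ (Bs φ R)).comp (Bs.inR φ R)) (fun f => by
        rw [RingHom.comp_apply, RingHom.comp_apply, Bs.inR_alg, Bs.inR_alg])
  have ba : ∀ a : A, bw (algebraMap A (Bs (ψ.comp φ) R) a) = algebraMap A (Bs ψ (Bs φ R)) a :=
    fun a => Bs.lift_alg _ _ _ _ a
  have br : ∀ r : R, bw (Bs.inR (ψ.comp φ) R r) = Bs.inR ψ (Bs φ R) (Bs.inR φ R r) :=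
    fun r => Bs.lift_inR _ _ _ _ r
  have h1 : fw.comp bw = RingHom.id (Bs (ψ.comp φ) R) := by
    apply Bs.hom_ext
    · intro a
      rw [RingHom.comp_apply, ba, fa, RingHom.id_apply]
    · intro r
      rw [RingHom.comp_apply, br, fr, Bs.map_inR, RingHom.id_apply]
  have h3 : (bw.comp fw).comp (Bs.inR ψ (Bs φ R)) = Bs.inR ψ (Bs φ R) := by
    apply Bs.hom_ext
    · intro f
      rw [RingHom.comp_apply, RingHom.comp_apply, fr, Bs.map_alg, ba, Bs.inR_alg]
    · intro r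
      rw [RingHom.comp_apply, RingHom.comp_apply, fr, Bs.map_inR, br]
  have h2 : bw.comp fw = RingHom.id (Bs ψ (Bs φ R)) := by
    apply Bs.hom_ext
    · intro a
      rw [RingHom.comp_apply, fa, ba, RingHom.id_apply]
    · intro z
      exact RingHom.congr_fun h3 z
  exact ⟨RingEquiv.ofRingHom fw bw h1 h2, fa, fr⟩

end Pool.Agent.AB3
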