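import Pool.Agent.Lib.MP_5de024_nt.S.Defs
import Pool.Agent.Lib.MP_5de024_nt.S.CertX.Ass

/-!
# certificates (interface of project AB3)
-/

set_option autoImplicit false
set_option linter.unusedSectionVars false

namespace Pool.Agent.AB3

open Pool.Agent.AB Polynomial

/-- the statement for `GoodR` -/
theorem certR (p : ℕ) [Fact p.Prime] (k R H : Type) [Field k] [CharP k p]
    [CommRing R] [Algebra k[X] R] [Group H] [Finite H] (C : Cov k R H) (n r : ℕ)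
    (hn : n.Coprime p) (hn0 : 0 < n) (hNL : NL p k R) (hζ : ∃ ζ : k, IsPrimitiveRoot ζ n)
    (hr : Nat.card {a : k // a ^ p ^ (r + 1) = a} = p ^ (r + 1))
    (L : Type) [Field L] [Algebra k L] (β : L) (hβ : β ≠ 0)
    (h : GoodR C n (p ^ (r + 1)) L β) :
    ∃ (D : Subalgebra k L) (hD : β ∈ D), D.FG ∧ β⁻¹ ∈ D ∧
      ∀ (F : Type) [Field F] [Algebra k F] (φ : D →ₐ[k] F),
        GoodR C n (p ^ (r + 1)) F (φ ⟨β, hD⟩) := by
  classical
  have hp : p.Prime := Fact.out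
  obtain ⟨u, hu0, ⟨a0, a1, c0, c1, d0, d1, e1, e2, e3⟩, ⟨v, hv⟩, hIII⟩ := h
  have hJ : Finite {a : k // a ^ p ^ (r + 1) = a} :=
    Nat.finite_of_card_ne_zero (by rw [hr]; exact (pow_pos hp.pos _).ne')
  obtain ⟨bb⟩ := cov_basis C
  -- the translations over `L`
  have hsh : ∀ a : {a : k // a ^ p ^ (r + 1) = a},
      ∃ s : Bs (evR k L (gR L (p ^ (r + 1)) β β⁻¹)) R →+*
        Bs (evR k L (gR L (p ^ (r + 1)) β β⁻¹)) R,
        IsShR (gR L (p ^ (r + 1)) β β⁻¹) (algebraMap k L (a : k) / β) s := by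
    intro a
    exact shf_exists p (r + 1) β (algebraMap k L (a : k)) hβ (by rw [← map_pow, a.2])
  choose shL hshL using hsh
  have hIII' := hIII shL hshL
  -- the elements for the exponents
  have hS : ∀ E : H → {a : k // a ^ p ^ (r + 1) = a} → Fin n, ∃ S : Set L, S.Finite ∧
      ((∃ a h h', E h a ≠ E h' a) → ∀ D : Subalgebra k L, S ⊆ D → ∀ (b b' : D)
      (hb : (b : L) = β) (hb' : (b' : L) = β⁻¹)
      (hgD : (gR D (p ^ (r + 1)) b b').map (D.val : D →+* L) = gR L (p ^ (r + 1)) β β⁻¹)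
      (zD : Bs (evR k D (gR D (p ^ (r + 1)) b b')) R), fmp D.val _ _ hgD zD =
        prR C (gR L (p ^ (r + 1)) β β⁻¹) shL (fun h a => (E h a : ℕ)) u →
      ∀ (F : Type) [Field F] [Algebra k F] (φ : D →ₐ[k] F)
        (hgF : (gR D (p ^ (r + 1)) b b').map (φ : D →+* F) = gR F (p ^ (r + 1)) (φ b) (φ b)⁻¹)
        (c : F) (w : Bs (evR k F (gR F (p ^ (r + 1)) (φ b) (φ b)⁻¹)) R), c ≠ 0 →
        fmp φ _ _ hgF zD ≠ algebraMap F[X] (Bs (evR k F (gR F (p ^ (r + 1)) (φ b) (φ b)⁻¹)) R)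
          (Polynomial.C c) * w ^ n) := by
    intro E
    by_cases hE : ∃ a h h', E h a ≠ E h' a
    · obtain ⟨S, hSf, hS⟩ := cert_sol p C n r hn hn0 hNL hζ hr L β hβ
        (prR C (gR L (p ^ (r + 1)) β β⁻¹) shL (fun h a => (E h a : ℕ)) u) (by
          intro e c w hc heq
          rw [← prR_mul] at heq
          obtain ⟨a, h, h', hne⟩ := hE
          have h1 := hIII' (fun h a => p ^ e * (E h a : ℕ)) c w hc heq a h h'
          have h2 : (E h a : ℕ) ≡ (E h' a : ℕ) [MOD n] :=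
            Nat.ModEq.cancel_left_of_coprime ((Nat.Coprime.pow_right e hn)) h1
          apply hne
          apply Fin.ext
          have h3 : (E h a : ℕ) % n = (E h' a : ℕ) % n := h2
          rwa [Nat.mod_eq_of_lt (E h a).2, Nat.mod_eq_of_lt (E h' a).2] at h3)
      exact ⟨S, hSf, fun _ => hS⟩
    · exact ⟨∅, Set.finite_empty, fun h => absurd h hE⟩
  choose S hSf hS using hS
  -- a nonzero coefficient of `u`
  have hκ : ∃ i j, ((Bs.basis (evR k L (gR L (p ^ (r + 1)) β β⁻¹)) bb).repr u i).coeff j ≠ 0 := by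
    by_contra hcon
    push Not at hcon
    apply hu0
    apply (Bs.basis (evR k L (gR L (p ^ (r + 1)) β β⁻¹)) bb).repr.injective
    ext1 i
    rw [map_zero, Finsupp.zero_apply]
    ext j
    rw [hcon i j, coeff_zero]
  obtain ⟨i0, j0, hκ⟩ := hκ
  obtain ⟨κ, hκe⟩ : ∃ κ, κ = ((Bs.basis (evR k L (gR L (p ^ (r + 1)) β β⁻¹)) bb).repr
    u i0).coeff j0 := ⟨_, rfl⟩
  rw [← hκe] at hκ
  -- the subalgebra
  obtain ⟨T, hT⟩ : ∃ T : Set L, T = (({β, β⁻¹, κ⁻¹} : Set L) ∪ (v.coeffs : Set L)) ∪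
    (coS bb _ u ∪ coS bb _ a0 ∪ coS bb _ a1 ∪ coS bb _ c0 ∪ coS bb _ c1 ∪ coS bb _ d0 ∪
      coS bb _ d1) ∪ ⋃ E, S E := ⟨_, rfl⟩
  have hTf : T.Finite := by
    rw [hT]
    refine ((Set.toFinite _).union (Finset.finite_toSet _)).union ?_ |>.union
      (Set.finite_iUnion hSf)
    exact ((((((coS_finite _ _ _).union (coS_finite _ _ _)).union (coS_finite _ _ _)).union
      (coS_finite _ _ _)).union (coS_finite _ _ _)).union (coS_finite _ _ _)).union
      (coS_finite _ _ _)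
  obtain ⟨D, hDdef⟩ : ∃ D : Subalgebra k L, D = Algebra.adjoin k T := ⟨_, rfl⟩
  have hTD : T ⊆ D := by
    rw [hDdef]
    exact Algebra.subset_adjoin
  have hFG : D.FG := by
    rw [Subalgebra.fg_def]
    exact ⟨T, hTf, hDdef.symm⟩
  have m1 : (({β, β⁻¹, κ⁻¹} : Set L) ∪ (v.coeffs : Set L)) ⊆ D :=
    fun x hx => hTD (by rw [hT]; exact Or.inl (Or.inl hx))
  have m2 : (coS bb _ u ∪ coS bb _ a0 ∪ coS bb _ a1 ∪ coS bb _ c0 ∪ coS bb _ c1 ∪ coS bb _ d0 ∪
      coS bb _ d1) ⊆ (D : Set L) :=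
    fun x hx => hTD (by rw [hT]; exact Or.inl (Or.inr hx))
  have hSD : ∀ E, S E ⊆ D := fun E x hx => hTD (by
    rw [hT]; exact Or.inr (Set.mem_iUnion.mpr ⟨E, hx⟩))
  have hβD : β ∈ D := m1 (Or.inl (Or.inl rfl))
  have hβD' : β⁻¹ ∈ D := m1 (Or.inl (Or.inr (Or.inl rfl)))
  have hκD : κ⁻¹ ∈ D := m1 (Or.inl (Or.inr (Or.inr rfl)))
  obtain ⟨b, hb⟩ : ∃ b : D, b = ⟨β, hβD⟩ := ⟨_, rfl⟩
  obtain ⟨b', hb'⟩ : ∃ b' : D, b' = ⟨β⁻¹, hβD'⟩ := ⟨_, rfl⟩
  have hbv : (b : L) = β := by rw [hb]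
  have hbv' : (b' : L) = β⁻¹ := by rw [hb']
  have hbb : b * b' = 1 := by
    apply Subtype.ext
    change (b : L) * (b' : L) = 1
    rw [hbv, hbv', mul_inv_cancel₀ hβ]
  have hgD : (gR D (p ^ (r + 1)) b b').map (D.val : D →+* L) = gR L (p ^ (r + 1)) β β⁻¹ := by
    rw [gR_map]
    congr 1
  obtain ⟨uD, huD⟩ := coS_lift bb D _ _ hgD u (fun x hx => m2 (by
    exact Or.inl (Or.inl (Or.inl (Or.inl (Or.inl (Or.inl hx)))))))
  obtain ⟨a0D, ha0D⟩ := coS_lift bb D _ _ hgD a0 (fun x hx => m2 (by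
    exact Or.inl (Or.inl (Or.inl (Or.inl (Or.inl (Or.inr hx)))))))
  obtain ⟨a1D, ha1D⟩ := coS_lift bb D _ _ hgD a1 (fun x hx => m2 (by
    exact Or.inl (Or.inl (Or.inl (Or.inl (Or.inr hx))))))
  obtain ⟨c0D, hc0D⟩ := coS_lift bb D _ _ hgD c0 (fun x hx => m2 (by
    exact Or.inl (Or.inl (Or.inl (Or.inr hx)))))
  obtain ⟨c1D, hc1D⟩ := coS_lift bb D _ _ hgD c1 (fun x hx => m2 (by
    exact Or.inl (Or.inl (Or.inr hx))))
  obtain ⟨d0D, hd0D⟩ := coS_lift bb D _ _ hgD d0 (fun x hx => m2 (by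
    exact Or.inl (Or.inr hx)))
  obtain ⟨d1D, hd1D⟩ := coS_lift bb D _ _ hgD d1 (fun x hx => m2 (by exact Or.inr hx))
  have hinj : Function.Injective (fmp (R := R) D.val _ _ hgD) :=
    fmp_inj bb D.val _ _ hgD Subtype.val_injective
  obtain ⟨vD, hvD⟩ : ∃ vD : D[X], vD.map (D.val : D →+* L) = v := by
    have h1 : v ∈ Polynomial.lifts (D.val : D →+* L) := by
      rw [Polynomial.lifts_iff_coeff_lifts]
      intro j
      by_cases hj : v.coeff j = 0
      · exact ⟨0, by rw [map_zero, hj]⟩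
      · exact ⟨⟨v.coeff j, m1 (Or.inr (Polynomial.coeff_mem_coeffs hj))⟩, rfl⟩
    exact (Polynomial.mem_lifts _).mp h1
  refine ⟨D, hβD, hFG, hβD', ?_⟩
  intro F _ _ φ
  have hφ : φ b * φ b' = 1 := by rw [← map_mul, hbb, map_one]
  have hinv : (φ b)⁻¹ = φ b' := inv_eq_of_mul_eq_one_right hφ
  have hgF : (gR D (p ^ (r + 1)) b b').map (φ : D →+* F) =
      gR F (p ^ (r + 1)) (φ b) (φ b)⁻¹ := by
    rw [gR_map, hinv]
    rfl
  rw [← hb]
  refine cert_fin p C n r hn0 hNL hr bb D b b' hbb uD a0D a1D c0D c1D d0D d1D ?_ ?_ ?_ i0 j0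
    ⟨κ⁻¹, hκD⟩ ?_ vD ?_ F φ hgF ?_
  · apply hinj
    rw [map_pow, map_mul, ha0D, huD, hc0D, e1]
  · apply hinj
    rw [map_pow, map_mul, ha1D, huD, hc1D, e2]
  · apply hinj
    rw [map_add, map_mul, map_mul, hd0D, hc0D, hd1D, hc1D, e3, map_one]
  · apply Subtype.ext
    have h1 := fmp_repr bb D.val _ _ hgD uD i0
    rw [huD] at h1
    have h2 := congrArg (fun q => Polynomial.coeff q j0) h1
    simp only [coeff_map] at h2
    have h3 : (((((Bs.basis (evR k D (gR D (p ^ (r + 1)) b b')) bb).repr uD i0).coeff j0 : D)) : L)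
        = κ := by
      rw [hκe]
      exact h2.symm
    change (((((Bs.basis (evR k D (gR D (p ^ (r + 1)) b b')) bb).repr uD i0).coeff j0 : D)) : L)
      * κ⁻¹ = 1
    rw [h3, mul_inv_cancel₀ hκ]
  · apply hinj
    rw [map_pow, fmp_alg, hvD, ← hv]
    have _ := Fintype.ofFinite H
    rw [finprod_eq_prod_of_fintype, finprod_eq_prod_of_fintype, map_prod]
    apply Finset.prod_congr rfl
    intro h _
    rw [fmp_act, huD]
  · intro shD hshD E hE c w hc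
    refine hS E hE D (hSD E) b b' hbv hbv' hgD _ ?_ F φ hgF c w hc
    rw [prR_map C D.val _ _ hgD shD shL _ _ ?_, huD]
    intro a z
    refine shR_map D.val _ _ hgD (algebraMap k D (a : k) * b') (algebraMap k L (a : k) / β) ?_
      (shD a) (hshD a) (shL a) (hshL a) z
    rw [map_mul, AlgHom.commutes, div_eq_mul_inv]
    congr 1

/-- CERT: the property `Good` is inherited by all specialisations of some finitely generated
subalgebra -/
theorem good_cert (p : ℕ) [Fact p.Prime] (k R H : Type) [Field k] [Finite k] [CharP k p]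
    [CommRing R] [Algebra k[X] R] [Group H] [Finite H] (C : Cov k R H) (n r : ℕ)
    (hn : n.Coprime p) (hn0 : 0 < n) (hNL : NL p k R) (hζ : ∃ ζ : k, IsPrimitiveRoot ζ n)
    (hr : Nat.card {a : k // a ^ p ^ (r + 1) = a} = p ^ (r + 1))
    (L : Type) [Field L] [Algebra k L] (β : L) (hβ : β ≠ 0)
    (h : Good C n (p ^ (r + 1)) L β) :
    ∃ (D : Subalgebra k L) (hD : β ∈ D), D.FG ∧ β⁻¹ ∈ D ∧
      ∀ (F : Type) [Field F] [Algebra k F] (φ : D →ₐ[k] F),
        Good C n (p ^ (r + 1)) F (φ ⟨β, hD⟩) :=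
  certR p k R H C n r hn hn0 hNL hζ hr L β hβ h

end Pool.Agent.AB3
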