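import Pool.Agent.Lib.MP_5de024_nt.S.GeoM

/-!
# Base change of covers: Dedekind domains (piece GeoB)
-/

set_option autoImplicit false
set_option linter.unusedSectionVars false

namespace Pool.Agent.AB3

open Pool.Agent.AB Polynomial

variable {k R H : Type} [Field k] [CommRing R] [Algebra k[X] R] [Group H] [Finite H]

/-- the base change is finite over `A` -/
theorem GeoB_finite (C : Cov k R H) {A : Type} [CommRing A] (φ : k[X] →+* A) :
    Module.Finite A (Bs φ R) := by
  obtain ⟨b⟩ := cov_basis C
  exact Module.Finite.of_basis (Bs.basis φ b)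

/-- integrally closed: the trace argument -/
theorem bs_intClosed (C : Cov k R H) {A : Type} [CommRing A] [IsDomain A]
    [IsIntegrallyClosed A] (φ : k[X] →+* A) [IsDomain (Bs φ R)] :
    IsIntegrallyClosed (Bs φ R) := by
  classical
  haveI : Module.Finite A (Bs φ R) := GeoB_finite C φ
  haveI : Algebra.IsIntegral A (Bs φ R) := Algebra.IsIntegral.of_finite A (Bs φ R)
  haveI : Fintype H := Fintype.ofFinite H
  have hinj : Function.Injective (algebraMap A (Bs φ R)) := bs_inj C φ
  have hinjK : Function.Injective (algebraMap (Bs φ R) (FractionRing (Bs φ R))) :=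
    IsFractionRing.injective _ _
  rw [isIntegrallyClosed_iff (FractionRing (Bs φ R))]
  intro z hz
  have hzA : IsIntegral A z := isIntegral_trans z hz
  -- the action on the fraction field
  let τ : H → (FractionRing (Bs φ R) →ₐ[A] FractionRing (Bs φ R)) := fun h =>
    { (IsFractionRing.ringEquivOfRingEquiv (K := FractionRing (Bs φ R))
        (L := FractionRing (Bs φ R)) (Bs.act φ C.act h).toRingEquiv :
        FractionRing (Bs φ R) →+* FractionRing (Bs φ R)) with
      commutes' := fun a => by
        rw [IsScalarTower.algebraMap_apply A (Bs φ R) (FractionRing (Bs φ R))]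
        have h1 := IsFractionRing.ringEquivOfRingEquiv_algebraMap (K := FractionRing (Bs φ R))
          (L := FractionRing (Bs φ R)) (Bs.act φ C.act h).toRingEquiv
          (algebraMap A (Bs φ R) a)
        have h2 : (Bs.act φ C.act h).toRingEquiv (algebraMap A (Bs φ R) a) =
          algebraMap A (Bs φ R) a := Bs.act_alg φ C.act h a
        rw [h2] at h1
        exact h1 }
  have hτ : ∀ h (x : Bs φ R), τ h (algebraMap (Bs φ R) (FractionRing (Bs φ R)) x) =
      algebraMap (Bs φ R) (FractionRing (Bs φ R)) (Bs.act φ C.act h x) := fun h x =>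
    IsFractionRing.ringEquivOfRingEquiv_algebraMap (K := FractionRing (Bs φ R))
      (L := FractionRing (Bs φ R)) (Bs.act φ C.act h).toRingEquiv x
  -- invariance of sums and products over the group
  have hsum : ∀ x : Bs φ R, ∃ a : A, algebraMap A (Bs φ R) a = ∑ h, Bs.act φ C.act h x := by
    intro x
    refine bs_fixed C φ _ fun g => ?_
    rw [map_sum]
    refine Fintype.sum_equiv (Equiv.mulLeft g) _ _ fun h => ?_
    rw [Equiv.coe_mulLeft, map_mul, AlgEquiv.mul_apply]
  have hprod : ∀ x : Bs φ R, ∃ a : A, algebraMap A (Bs φ R) a = ∏ h, Bs.act φ C.act h x := by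
    intro x
    refine bs_fixed C φ _ fun g => ?_
    rw [map_prod]
    refine Fintype.prod_equiv (Equiv.mulLeft g) _ _ fun h => ?_
    rw [Equiv.coe_mulLeft, map_mul, AlgEquiv.mul_apply]
  -- `z = b / a`
  obtain ⟨b₀, c₀, hc₀, hbc⟩ := IsFractionRing.div_surjective (A := Bs φ R) z
  have hc0 : c₀ ≠ 0 := nonZeroDivisors.ne_zero hc₀
  obtain ⟨a, ha⟩ := hprod c₀
  have hN0 : (∏ h, Bs.act φ C.act h c₀) ≠ 0 := by
    rw [Finset.prod_ne_zero_iff]
    intro h _
    rw [Ne, map_eq_zero_iff _ (Bs.act φ C.act h).injective]
    exact hc0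
  have ha0 : a ≠ 0 := by
    rintro rfl
    rw [map_zero] at ha
    exact hN0 ha.symm
  obtain ⟨d, hd⟩ : c₀ ∣ ∏ h, Bs.act φ C.act h c₀ := by
    have h1 := Finset.dvd_prod_of_mem (fun h => Bs.act φ C.act h c₀) (Finset.mem_univ (1 : H))
    have h2 : Bs.act φ C.act 1 c₀ = c₀ := by
      rw [map_one]
      rfl
    simp only [h2] at h1
    exact h1
  have haB0 : algebraMap (Bs φ R) (FractionRing (Bs φ R)) (algebraMap A (Bs φ R) a) ≠ 0 := by
    rw [ha]
    exact (map_ne_zero_iff _ hinjK).2 hN0
  have hz' : z * algebraMap (Bs φ R) (FractionRing (Bs φ R)) (algebraMap A (Bs φ R) a) =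
      algebraMap (Bs φ R) (FractionRing (Bs φ R)) (b₀ * d) := by
    have hc0' : algebraMap (Bs φ R) (FractionRing (Bs φ R)) c₀ ≠ 0 := (map_ne_zero_iff _ hinjK).2 hc0
    rw [ha, hd, map_mul, map_mul, ← hbc]
    field_simp
  -- the traces
  obtain ⟨m, x, y, hxy⟩ := bs_coord C φ
  have htr : ∀ i : Fin m, ∃ r : A, (∑ h, Bs.act φ C.act h (b₀ * d * y i)) =
      algebraMap A (Bs φ R) r * algebraMap A (Bs φ R) a := by
    intro i
    obtain ⟨s, hs⟩ := hsum (b₀ * d * y i)
    -- the quotient `s / a` is integral over `A`
    have hint : IsIntegral A (∑ h, τ h (z * algebraMap (Bs φ R) (FractionRing (Bs φ R)) (y i))) := by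
      refine IsIntegral.sum _ fun h _ => IsIntegral.map (τ h) ?_
      refine hzA.mul ?_
      exact (Algebra.IsIntegral.isIntegral (R := A) (y i)).algebraMap
    have heq : (∑ h, τ h (z * algebraMap (Bs φ R) (FractionRing (Bs φ R)) (y i))) *
        algebraMap (Bs φ R) (FractionRing (Bs φ R)) (algebraMap A (Bs φ R) a) =
        algebraMap (Bs φ R) (FractionRing (Bs φ R)) (algebraMap A (Bs φ R) s) := by
      rw [hs, map_sum, Finset.sum_mul]
      refine Finset.sum_congr rfl fun h _ => ?_
      have h1 : algebraMap (Bs φ R) (FractionRing (Bs φ R)) (algebraMap A (Bs φ R) a) =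
          τ h (algebraMap (Bs φ R) (FractionRing (Bs φ R)) (algebraMap A (Bs φ R) a)) := by
        rw [hτ, Bs.act_alg]
      rw [h1, ← map_mul, mul_right_comm, hz', ← map_mul, hτ]
    have hinjA : Function.Injective (algebraMap A (FractionRing (Bs φ R))) := by
      rw [IsScalarTower.algebraMap_eq A (Bs φ R) (FractionRing (Bs φ R))]
      exact hinjK.comp hinj
    let j : FractionRing A →ₐ[A] FractionRing (Bs φ R) :=
      { (IsFractionRing.lift hinjA : FractionRing A →+* FractionRing (Bs φ R)) with
        commutes' := fun c => IsFractionRing.lift_algebraMap hinjA c }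
    have haL : algebraMap A (FractionRing A) a ≠ 0 :=
      (map_ne_zero_iff _ (IsFractionRing.injective A (FractionRing A))).2 ha0
    have hj : j (algebraMap A (FractionRing A) s / algebraMap A (FractionRing A) a) =
        ∑ h, τ h (z * algebraMap (Bs φ R) (FractionRing (Bs φ R)) (y i)) := by
      rw [map_div₀, j.commutes, j.commutes,
        IsScalarTower.algebraMap_apply A (Bs φ R) (FractionRing (Bs φ R)) s,
        IsScalarTower.algebraMap_apply A (Bs φ R) (FractionRing (Bs φ R)) a, ← heq,
        mul_div_cancel_right₀ _ haB0]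
    have hint2 : IsIntegral A (algebraMap A (FractionRing A) s / algebraMap A (FractionRing A) a) := by
      rw [← isIntegral_algHom_iff j j.toRingHom.injective, hj]
      exact hint
    obtain ⟨r, hr⟩ := IsIntegrallyClosed.algebraMap_eq_of_integral hint2
    refine ⟨r, ?_⟩
    rw [← hs, ← map_mul]
    congr 1
    apply IsFractionRing.injective A (FractionRing A)
    rw [map_mul, hr, div_mul_cancel₀ _ haL]
  choose r hr using htr
  -- the reconstruction
  have hrec : b₀ * d = ∑ i, x i * ∑ h, Bs.act φ C.act h (b₀ * d * y i) := by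
    have h1 : ∑ i, x i * ∑ h, Bs.act φ C.act h (b₀ * d * y i) =
        ∑ h, Bs.act φ C.act h (b₀ * d) * ∑ i, x i * Bs.act φ C.act h (y i) := by
      simp only [Finset.mul_sum]
      rw [Finset.sum_comm]
      refine Finset.sum_congr rfl fun h _ => Finset.sum_congr rfl fun i _ => ?_
      rw [map_mul (Bs.act φ C.act h) (b₀ * d) (y i)]
      ring
    rw [h1, Finset.sum_eq_single (1 : H)]
    · rw [(hxy 1).1 rfl, mul_one, map_one]
      rfl
    · intro h _ hh
      rw [(hxy h).2 hh, mul_zero]
    · intro h
      exact absurd (Finset.mem_univ _) h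
  refine ⟨∑ i, x i * algebraMap A (Bs φ R) (r i), ?_⟩
  apply mul_right_cancel₀ haB0
  rw [hz', ← map_mul]
  congr 1
  rw [hrec, Finset.sum_mul]
  refine Finset.sum_congr rfl fun i _ => ?_
  rw [hr i]
  ring

theorem fam_finite (C : Cov k R H) {F : Type} [Field F] [Algebra k F] (g : F[X]) :
    Module.Finite F[X] (Fam k F g R) := GeoB_finite C _

theorem fam_dedekind (C : Cov k R H) {F : Type} [Field F] [Algebra k F] (g : F[X])
    [IsDomain (Fam k F g R)] : IsDedekindDomain (Fam k F g R) := by
  haveI := fam_finite C (F := F) g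
  haveI : Algebra.IsIntegral F[X] (Fam k F g R) := Algebra.IsIntegral.of_finite _ _
  have h1 : IsIntegrallyClosed (Fam k F g R) := bs_intClosed C (evg k F g)
  have h2 : IsNoetherianRing (Fam k F g R) := IsNoetherianRing.of_finite F[X] _
  have h3 : Ring.DimensionLEOne (Fam k F g R) := by
    constructor
    intro p hp0 hp
    obtain ⟨x, hx, hx0⟩ := Submodule.exists_mem_ne_zero_of_ne_bot hp0
    have h4 := Ideal.comap_ne_bot_of_integral_mem (R := F[X]) hx0 hx (Algebra.IsIntegral.isIntegral x)
    haveI : (p.comap (algebraMap F[X] (Fam k F g R))).IsPrime := Ideal.comap_isPrime _ p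
    exact Ideal.isMaximal_of_isIntegral_of_isMaximal_comap p
      (Ring.DimensionLEOne.maximalOfPrime h4 inferInstance)
  rw [isDedekindDomain_iff (Fam k F g R) (FractionRing (Fam k F g R))]
  exact ⟨inferInstance, h2, h3, fun {_} => (isIntegrallyClosed_iff _).1 h1⟩

/-- `R` itself is a Dedekind domain -/
theorem cov_dedekind (C : Cov k R H) : IsDedekindDomain R := by
  haveI : IsDomain (Fam k k X R) := C.geom k
  haveI := fam_dedekind C (F := k) X
  have hid : ∀ f : k[X], evg k k X f = f := by
    intro f
    have h1 : evg k k X = RingHom.id k[X] := by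
      refine Polynomial.ringHom_ext ?_ ?_
      · intro a
        simp [evg]
      · simp [evg]
    rw [h1, RingHom.id_apply]
  have hinj : Function.Injective (Bs.inR (evg k k X) R) := bs_inR_inj C _ fun a b hab => by
    rwa [hid, hid] at hab
  have hsurj : Function.Surjective (Bs.inR (evg k k X) R) := by
    intro z
    induction z using Bs.induction with
    | h0 => exact ⟨0, map_zero _⟩
    | h1 a r =>
      refine ⟨algebraMap k[X] R a * r, ?_⟩
      rw [map_mul, Bs.inR_alg, hid]
    | h2 x y hx hy =>
      obtain ⟨u, rfl⟩ := hx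
      obtain ⟨v, rfl⟩ := hy
      exact ⟨u + v, map_add _ _ _⟩
  let e : R ≃+* Fam k k X R := RingEquiv.ofBijective (Bs.inR (evg k k X) R) ⟨hinj, hsurj⟩
  haveI : IsDomain R := cov_domain C
  have h1 : IsIntegrallyClosed R := IsIntegrallyClosed.of_equiv e.symm
  have h2 : IsNoetherianRing R := isNoetherianRing_of_ringEquiv (Fam k k X R) e.symm
  have h3 : Ring.DimensionLEOne R := Ring.DimensionLEOne.of_ringEquiv e
  rw [isDedekindDomain_iff R (FractionRing R)]
  exact ⟨inferInstance, h2, h3, fun {_} => (isIntegrallyClosed_iff _).1 h1⟩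

/-- the base change over a smaller field of constants embeds in the one over a larger field -/
theorem fam_domain_desc (C : Cov k R H) {F F' : Type} [Field F] [Algebra k F] [Field F']
    [Algebra k F'] [Algebra F F'] [IsScalarTower k F F'] (g : F[X])
    (h : IsDomain (Fam k F' (g.map (algebraMap F F')) R)) : IsDomain (Fam k F g R) := by
  have hcomp : ∀ f, Polynomial.mapRingHom (algebraMap F F') (evg k F g f) =
      evg k F' (g.map (algebraMap F F')) f := by
    intro f
    have h1 : (Polynomial.mapRingHom (algebraMap F F')).comp (evg k F g) =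
        evg k F' (g.map (algebraMap F F')) := by
      refine Polynomial.ringHom_ext ?_ ?_
      · intro a
        simp [evg, IsScalarTower.algebraMap_apply k F F']
      · simp [evg]
    rw [← h1, RingHom.comp_apply]
  exact Function.Injective.isDomain _ (bs_map_inj C (evg k F g) (Polynomial.mapRingHom (algebraMap F F'))
    (evg k F' (g.map (algebraMap F F'))) hcomp (Polynomial.map_injective _ (algebraMap F F').injective))

end Pool.Agent.AB3
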