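import Pool.Agent.Lib.MP_5de024_nt.S.GeoB

/-!
# The substitution X -> X ^ m: domains (piece GeoP)
-/

set_option autoImplicit false
set_option linter.unusedSectionVars false

namespace Pool.Agent.AB3

open Pool.Agent.AB Polynomial

/-- a monic irreducible polynomial over an integrally closed domain is prime -/
theorem GeoP_prime {S : Type} [CommRing S] [IsDomain S] [IsIntegrallyClosed S] {f : S[X]}
    (hf : f.Monic) (hi : Irreducible f) : Prime f := by
  have h1 : Irreducible (f.map (algebraMap S (FractionRing S))) :=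
    (hf.irreducible_iff_irreducible_map_fraction_map).1 hi
  refine ⟨hf.ne_zero, hi.not_isUnit, fun a b hab => ?_⟩
  have h2 : f.map (algebraMap S (FractionRing S)) ∣
      a.map (algebraMap S (FractionRing S)) * b.map (algebraMap S (FractionRing S)) := by
    rw [← Polynomial.map_mul]
    exact Polynomial.map_dvd _ hab
  have hinj := IsFractionRing.injective S (FractionRing S)
  rcases h1.prime.dvd_or_dvd h2 with h | h
  · exact Or.inl ((Polynomial.map_dvd_map _ hinj hf).1 h)
  · exact Or.inr ((Polynomial.map_dvd_map _ hinj hf).1 h)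

/-- `Y ^ m - s` is irreducible if the ideal of `s` is proper and reduced -/
theorem GeoP_irr {S : Type} [CommRing S] [IsDedekindDomain S] {s : S} (hs0 : s ≠ 0)
    (hsu : ¬ IsUnit s) (hred : ∀ z : S, s ∣ z ^ 2 → s ∣ z) {m : ℕ} (hm : 0 < m) :
    Irreducible (X ^ m - C s : S[X]) := by
  obtain ⟨Q, hQ, hsQ⟩ := Ideal.exists_le_maximal (Ideal.span {s})
    (fun h => hsu (Ideal.span_singleton_eq_top.1 h))
  have hsQ' : s ∈ Q := hsQ (Ideal.mem_span_singleton_self s)
  have hs2 : s ∉ Q ^ 2 := by
    intro h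
    have h1 : Ideal.span {s} ≤ Q ^ 2 := (Ideal.span_singleton_le_iff_mem _).2 h
    obtain ⟨J, hJ⟩ := Ideal.dvd_iff_le.2 h1
    rw [pow_two, mul_assoc] at hJ
    have hspan : (Ideal.span {s} : Ideal S) ≠ 0 := by
      rw [Ne, Ideal.zero_eq_bot, Ideal.span_singleton_eq_bot]
      exact hs0
    have hQJ : Q * J ≠ 0 := by
      intro h0
      apply hspan
      rw [hJ, h0, mul_zero]
    have hlt : ¬ (Q * J ≤ Ideal.span {s}) := by
      intro hle
      have heq : Q * J = Q * (Q * J) := by
        refine le_antisymm (hle.trans_eq hJ) ?_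
        exact Ideal.mul_le_inf.trans inf_le_right
      have h2 : 1 * (Q * J) = Q * (Q * J) := by
        rw [one_mul]
        exact heq
      have h3 : (1 : Ideal S) = Q := mul_right_cancel₀ hQJ h2
      exact hQ.ne_top (by rw [← h3, Ideal.one_eq_top])
    obtain ⟨z, hz, hz'⟩ := SetLike.not_le_iff_exists.1 hlt
    apply hz'
    rw [Ideal.mem_span_singleton]
    apply hred
    rw [← Ideal.mem_span_singleton, hJ, pow_two]
    have h4 : z * z ∈ (Q * J) * (Q * J) := Ideal.mul_mem_mul hz hz
    have h5 : (Q * J) * (Q * J) ≤ Q * (Q * J) :=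
      Ideal.mul_mono_left (Ideal.mul_le_inf.trans inf_le_left)
    exact h5 h4
  have hdeg : (X ^ m - C s : S[X]).degree = m := degree_X_pow_sub_C hm s
  have hmon : (X ^ m - C s : S[X]).Monic := monic_X_pow_sub_C s hm.ne'
  refine irreducible_of_eisenstein_criterion hQ.isPrime ?_ ?_ ?_ ?_ hmon.isPrimitive
  · rw [hmon.leadingCoeff]
    exact fun h => hQ.ne_top ((Ideal.eq_top_iff_one _).2 h)
  · intro n hn
    rw [hdeg] at hn
    have hn' : n < m := by exact_mod_cast hn
    rw [coeff_sub, coeff_X_pow, if_neg hn'.ne, zero_sub, coeff_C]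
    split_ifs
    · exact Q.neg_mem hsQ'
    · rw [neg_zero]
      exact Q.zero_mem
  · rw [hdeg]
    exact_mod_cast hm
  · rw [coeff_sub, coeff_X_pow, if_neg hm.ne, zero_sub, coeff_C_zero]
    intro h
    exact hs2 (by simpa using (Q ^ 2).neg_mem h)

variable {k R H : Type} [Field k] [CommRing R] [Algebra k[X] R] [Group H] [Finite H]

/-- an element of `F[X]` divisible by `X` upstairs is divisible by `X` -/
theorem GeoP_dvd (C : Cov k R H) {F : Type} [Field F] [Algebra k F]
    [IsDomain (Fam k F (X : F[X]) R)] {g : F[X]}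
    (h : algebraMap F[X] (Fam k F X R) X ∣ algebraMap F[X] (Fam k F X R) g) : X ∣ g := by
  have hinj := bs_inj C (evg k F (X : F[X]))
  have hs0 : algebraMap F[X] (Fam k F X R) X ≠ 0 := by
    intro h0
    exact X_ne_zero (hinj (h0.trans (map_zero _).symm))
  obtain ⟨w, hw⟩ := h
  have hfix : ∀ σ, Bs.act (evg k F X) C.act σ w = w := by
    intro σ
    have h1 := congrArg (Bs.act (evg k F X) C.act σ) hw
    rw [map_mul, Bs.act_alg, Bs.act_alg, hw] at h1
    exact (mul_left_cancel₀ hs0 h1).symm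
  obtain ⟨a, ha⟩ := bs_fixed C (evg k F X) w hfix
  refine ⟨a, hinj ?_⟩
  rw [hw, ← ha, map_mul]

/-- total ramification over `X = 0` -/
theorem fam_pow_domain (C : Cov k R H) {F : Type} [Field F] [Algebra k F] (m : ℕ)
    (hm : 0 < m) : IsDomain (Fam k F (X ^ m : F[X]) R) := by
  classical
  have hdom : IsDomain (Fam k F (X : F[X]) R) := C.geom F
  have hded : IsDedekindDomain (Fam k F (X : F[X]) R) := fam_dedekind C X
  have hinj := bs_inj C (evg k F (X : F[X]))
  obtain ⟨s, hs⟩ : ∃ s : Fam k F (X : F[X]) R, s = algebraMap F[X] (Fam k F X R) X := ⟨_, rfl⟩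
  have hs0 : s ≠ 0 := by
    intro h0
    rw [hs] at h0
    exact X_ne_zero (hinj (h0.trans (map_zero _).symm))
  have hsu : ¬ IsUnit s := by
    intro hu
    have h1 : X ∣ (1 : F[X]) := by
      apply GeoP_dvd C
      rw [map_one, ← hs]
      exact hu.dvd
    exact not_isUnit_X (isUnit_of_dvd_one h1)
  have hred : ∀ z : Fam k F (X : F[X]) R, s ∣ z ^ 2 → s ∣ z := by
    intro z hz
    obtain ⟨l, x, y, hxy⟩ := bs_coord C (evg k F (X : F[X]))
    have hfin : Fintype H := Fintype.ofFinite H
    obtain ⟨T, hT⟩ : ∃ T : Fin l → Fam k F (X : F[X]) R,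
      T = fun i => ∑ σ, Bs.act (evg k F X) C.act σ (z * y i) := ⟨_, rfl⟩
    have hTfix : ∀ i τ, Bs.act (evg k F X) C.act τ (T i) = T i := by
      intro i τ
      rw [hT]
      simp only
      rw [map_sum]
      have h2 : ∀ σ, Bs.act (evg k F X) C.act τ (Bs.act (evg k F X) C.act σ (z * y i)) =
          Bs.act (evg k F X) C.act (τ * σ) (z * y i) := by
        intro σ
        rw [map_mul (Bs.act (evg k F X) C.act) τ σ]
        rfl
      simp only [h2]
      exact Fintype.sum_equiv (Equiv.mulLeft τ) _ _ (fun σ => rfl)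
    choose g hg using fun i => bs_fixed C (evg k F X) (T i) (hTfix i)
    have hrad : ∀ i, T i ∈ (Ideal.span {s}).radical := by
      intro i
      rw [hT]
      refine Ideal.sum_mem _ fun σ _ => ?_
      rw [map_mul]
      refine Ideal.mul_mem_right _ _ ?_
      refine ⟨2, ?_⟩
      rw [Ideal.mem_span_singleton, ← map_pow]
      obtain ⟨w, hw⟩ := hz
      rw [hw, map_mul, hs, Bs.act_alg]
      exact dvd_mul_right _ _
    have hdvd : ∀ i, s ∣ T i := by
      intro i
      obtain ⟨N, hN⟩ := hrad i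
      rw [Ideal.mem_span_singleton, ← hg i, ← map_pow, hs] at hN
      have h3 : X ∣ g i := prime_X.dvd_of_dvd_pow (GeoP_dvd C hN)
      rw [← hg i, hs]
      exact map_dvd _ h3
    have hz' : z = ∑ i, T i * x i := by
      have h4 : ∑ i, T i * x i =
          ∑ σ, Bs.act (evg k F X) C.act σ z *
            ∑ i, x i * Bs.act (evg k F X) C.act σ (y i) := by
        rw [hT]
        simp only [Finset.sum_mul, Finset.mul_sum]
        rw [Finset.sum_comm]
        refine Finset.sum_congr rfl fun σ _ => Finset.sum_congr rfl fun i _ => ?_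
        rw [map_mul]
        ring
      rw [h4, Finset.sum_eq_single 1]
      · rw [((hxy 1).1 rfl), mul_one, map_one]
        rfl
      · intro σ _ hσ
        rw [(hxy σ).2 hσ, mul_zero]
      · intro h
        exact absurd (Finset.mem_univ _) h
    rw [hz']
    exact Finset.dvd_sum fun i _ => Dvd.dvd.mul_right (hdvd i) _
  have hirr := GeoP_irr hs0 hsu hred hm
  have hmon : (X ^ m - Polynomial.C s : (Fam k F (X : F[X]) R)[X]).Monic :=
    monic_X_pow_sub_C s hm.ne'
  have hprime := GeoP_prime hmon hirr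
  obtain ⟨P, hP⟩ : ∃ P : (Fam k F (X : F[X]) R)[X], P = X ^ m - Polynomial.C s := ⟨_, rfl⟩
  rw [← hP] at hprime
  have hE : IsDomain (AdjoinRoot P) := AdjoinRoot.isDomain_of_prime hprime
  -- the map of `S` into `B`
  have hψ : ∀ f, (compRingHom (X ^ m : F[X])) (evg k F (X : F[X]) f) = evg k F (X ^ m) f := by
    intro f
    have h5 : (compRingHom (X ^ m : F[X])).comp (evg k F (X : F[X])) = evg k F (X ^ m) := by
      refine Polynomial.ringHom_ext (fun a => ?_) ?_
      · simp [evg]
      · simp [evg]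
    exact RingHom.congr_fun h5 f
  obtain ⟨j, hj⟩ : ∃ j : Fam k F (X : F[X]) R →+* Fam k F (X ^ m : F[X]) R,
    j = Bs.map (evg k F (X : F[X])) (compRingHom (X ^ m : F[X])) (evg k F (X ^ m)) hψ := ⟨_, rfl⟩
  have hjalg : ∀ a : F[X], j (algebraMap F[X] (Fam k F X R) a) =
      algebraMap F[X] (Fam k F (X ^ m) R) (a.comp (X ^ m)) := by
    intro a
    rw [hj, Bs.map_alg]
    rfl
  have hjR : ∀ r : R, j (Bs.inR (evg k F X) R r) = Bs.inR (evg k F (X ^ m)) R r := by
    intro r
    rw [hj]
    exact Bs.map_inR _ _ _ _ r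
  have hroot : P.eval₂ j (algebraMap F[X] (Fam k F (X ^ m : F[X]) R) X) = 0 := by
    rw [hP, eval₂_sub, eval₂_X_pow, eval₂_C, hs, hjalg, X_comp, map_pow, sub_self]
  -- the map of `B` into `E`
  obtain ⟨α, hα⟩ : ∃ α : F[X] →+* AdjoinRoot P, α =
    eval₂RingHom ((AdjoinRoot.of P).comp ((algebraMap F[X] (Fam k F X R)).comp Polynomial.C))
      (AdjoinRoot.root P) := ⟨_, rfl⟩
  have hαC : ∀ c, α (Polynomial.C c) =
      AdjoinRoot.of P (algebraMap F[X] (Fam k F X R) (Polynomial.C c)) := by
    intro c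
    rw [hα, coe_eval₂RingHom, eval₂_C]
    rfl
  have hαX : α X = AdjoinRoot.root P := by
    rw [hα, coe_eval₂RingHom, eval₂_X]
  have hrm : AdjoinRoot.root P ^ m = AdjoinRoot.of P s := by
    have h6 : (X ^ m - Polynomial.C s : (Fam k F (X : F[X]) R)[X]).eval₂ (AdjoinRoot.of P)
        (AdjoinRoot.root P) = 0 := by
      rw [← hP]
      exact AdjoinRoot.eval₂_root P
    rw [eval₂_sub, eval₂_X_pow, eval₂_C] at h6
    exact sub_eq_zero.1 h6
  have hcompat : ∀ f : k[X], α (evg k F (X ^ m) f) =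
      ((AdjoinRoot.of P).comp (Bs.inR (evg k F X) R)) (algebraMap k[X] R f) := by
    intro f
    have h7 : α.comp (evg k F (X ^ m)) =
        ((AdjoinRoot.of P).comp (Bs.inR (evg k F X) R)).comp (algebraMap k[X] R) := by
      refine Polynomial.ringHom_ext (fun a => ?_) ?_
      · have e1 : evg k F (X ^ m) (Polynomial.C a) = Polynomial.C (algebraMap k F a) := by
          simp [evg]
        have e2 : evg k F X (Polynomial.C a) = Polynomial.C (algebraMap k F a) := by
          simp [evg]
        rw [RingHom.comp_apply, RingHom.comp_apply, RingHom.comp_apply, Bs.inR_alg, e1, e2, hαC]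
      · have e1 : evg k F (X ^ m) (X : k[X]) = X ^ m := by
          simp [evg]
        have e2 : evg k F X (X : k[X]) = X := by
          simp [evg]
        rw [RingHom.comp_apply, RingHom.comp_apply, RingHom.comp_apply, Bs.inR_alg, e1, e2,
          map_pow, hαX, hrm, hs]
    exact RingHom.congr_fun h7 f
  obtain ⟨β, hβ⟩ : ∃ β : Fam k F (X ^ m : F[X]) R →+* AdjoinRoot P, β =
    Bs.lift (evg k F (X ^ m)) α ((AdjoinRoot.of P).comp (Bs.inR (evg k F X) R)) hcompat :=
      ⟨_, rfl⟩
  obtain ⟨γ, hγ⟩ : ∃ γ : AdjoinRoot P →+* Fam k F (X ^ m : F[X]) R,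
    γ = AdjoinRoot.lift j (algebraMap F[X] (Fam k F (X ^ m : F[X]) R) X) hroot := ⟨_, rfl⟩
  have hγα : ∀ f : F[X], γ (α f) = algebraMap F[X] (Fam k F (X ^ m) R) f := by
    intro f
    have h8 : γ.comp α = algebraMap F[X] (Fam k F (X ^ m) R) := by
      refine Polynomial.ringHom_ext (fun a => ?_) ?_
      · rw [RingHom.comp_apply, hαC, hγ, AdjoinRoot.lift_of, hjalg, C_comp]
      · rw [RingHom.comp_apply, hαX, hγ, AdjoinRoot.lift_root]
    exact RingHom.congr_fun h8 f
  have hid : γ.comp β = RingHom.id _ := by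
    refine Bs.hom_ext _ (fun a => ?_) (fun r => ?_)
    · rw [RingHom.comp_apply, hβ, Bs.lift_alg, hγα]
      rfl
    · rw [RingHom.comp_apply, hβ, Bs.lift_inR, RingHom.comp_apply, hγ, AdjoinRoot.lift_of, hjR]
      rfl
  have hβinj : Function.Injective β := by
    intro a b hab
    have h9 := congrArg γ hab
    rw [← RingHom.comp_apply, ← RingHom.comp_apply, hid] at h9
    exact h9
  exact hβinj.isDomain β

end Pool.Agent.AB3
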