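import Pool.Agent.Lib.MP_5de024_nt.S.GeoB
import Pool.Agent.Lib.MP_5de024_nt.S.GeoP

/-!
# The substitution X -> X ^ m: no linear Artin - Schreier equations (piece GeoN)
-/

set_option autoImplicit false
set_option linter.unusedSectionVars false

namespace Pool.Agent.AB3

open Pool.Agent.AB Polynomial

variable {k R H : Type} [Field k] [CommRing R] [Algebra k[X] R] [Group H] [Finite H]

/-- roots of `z ^ p = z` lie in the prime field -/
private theorem geoN_root (p : ℕ) [Fact p.Prime] (A : Type) [CommRing A] [IsDomain A] [CharP A p]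
    (z : A) (hz : z ^ p = z) : ∃ i : ZMod p, z = ZMod.castHom (dvd_refl p) A i := by
  classical
  have hp : 1 < p := (Fact.out : p.Prime).one_lt
  obtain ⟨g, hg⟩ : ∃ g : Polynomial A, g = Polynomial.X ^ p - Polynomial.X := ⟨_, rfl⟩
  have hdeg : g.natDegree = p := by
    rw [hg, Polynomial.natDegree_sub_eq_left_of_natDegree_lt, Polynomial.natDegree_X_pow]
    rw [Polynomial.natDegree_X_pow, Polynomial.natDegree_X]
    exact hp
  have hne : g ≠ 0 := by
    intro h
    rw [h, Polynomial.natDegree_zero] at hdeg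
    omega
  have hmem : ∀ w : A, w ∈ g.roots.toFinset ↔ w ^ p = w := by
    intro w
    rw [Multiset.mem_toFinset, Polynomial.mem_roots hne, Polynomial.IsRoot.def, hg,
      Polynomial.eval_sub, Polynomial.eval_pow, Polynomial.eval_X, sub_eq_zero]
  have hsub : (Finset.univ.image (ZMod.castHom (dvd_refl p) A)) ⊆ g.roots.toFinset := by
    intro w hw
    obtain ⟨i, -, rfl⟩ := Finset.mem_image.mp hw
    refine (hmem _).mpr ?_
    rw [← map_pow, ZMod.pow_card]
  have hcard : (Finset.univ.image (ZMod.castHom (dvd_refl p) A)).card = p := by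
    rw [Finset.card_image_of_injective _ (ZMod.castHom (dvd_refl p) A).injective,
      Finset.card_univ, ZMod.card]
  have hle : g.roots.toFinset.card ≤ p :=
    (Multiset.toFinset_card_le _).trans ((Polynomial.card_roots' g).trans hdeg.le)
  have heq : Finset.univ.image (ZMod.castHom (dvd_refl p) A) = g.roots.toFinset :=
    Finset.eq_of_subset_of_card_le hsub (by rw [hcard]; exact hle)
  have hz' : z ∈ Finset.univ.image (ZMod.castHom (dvd_refl p) A) := by
    rw [heq]
    exact (hmem z).mpr hz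
  obtain ⟨i, -, hi⟩ := Finset.mem_image.mp hz'
  exact ⟨i, hi.symm⟩

/-- degrees -/
private theorem geoN_deg (p : ℕ) [Fact p.Prime] {F : Type} [Field F] (f : F[X]) (c : F)
    (hc : c ≠ 0) (h : f ^ p - f = C c * X) : False := by
  have hp : 1 < p := (Fact.out : p.Prime).one_lt
  have h1 : (f ^ p - f).natDegree = 1 := by
    rw [h, natDegree_C_mul_X _ hc]
  rcases Nat.eq_zero_or_pos f.natDegree with h0 | h0
  · have h2 : (f ^ p - f).natDegree ≤ 0 := by
      refine (natDegree_sub_le _ _).trans ?_
      rw [natDegree_pow, h0]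
      simp
    omega
  · have h2 : (f ^ p - f).natDegree = p * f.natDegree := by
      rw [natDegree_sub_eq_left_of_natDegree_lt, natDegree_pow]
      rw [natDegree_pow]
      nlinarith
    rw [h2] at h1
    have := Nat.eq_one_of_mul_eq_one_right h1
    omega

/-- the core -/
private theorem geoN_core (p : ℕ) [Fact p.Prime] (C' : Cov k R H) {F' : Type} [Field F']
    [CharP F' p] (θ : k[X] →+* F'[X]) (ζ : F') (hζ1 : ζ ≠ 1)
    (hθ : ∀ f, (Polynomial.eval₂RingHom (Polynomial.C : F' →+* F'[X]) (C ζ * X)) (θ f) = θ f)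
    [IsDomain (Bs θ R)] (a : F') (ha : a ≠ 0) (w : Bs θ R)
    (hw : w ^ p - w = algebraMap F'[X] (Bs θ R) (C a * X)) : False := by
  have hinj := bs_inj C' θ
  have hch : CharP (Bs θ R) p :=
    charP_of_injective_ringHom (f := algebraMap F'[X] (Bs θ R)) hinj p
  set σ : F'[X] →+* F'[X] := Polynomial.eval₂RingHom (Polynomial.C : F' →+* F'[X]) (C ζ * X)
    with hσ
  set τ : Bs θ R →+* Bs θ R := Bs.map θ σ θ hθ with hτ
  have hu : ∀ h : H, ∃ i : ZMod p, Bs.act θ C'.act h w - w =
      ZMod.castHom (dvd_refl p) (Bs θ R) i := by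
    intro h
    apply geoN_root
    rw [sub_pow_char, ← map_pow]
    have h1 : w ^ p = w + algebraMap F'[X] (Bs θ R) (C a * X) := by rw [← hw]; ring
    rw [h1, map_add, AlgEquiv.commutes]
    ring
  have hτu : ∀ i : ZMod p, τ (ZMod.castHom (dvd_refl p) (Bs θ R) i) =
      ZMod.castHom (dvd_refl p) (Bs θ R) i := by
    intro i
    have : τ.comp (ZMod.castHom (dvd_refl p) (Bs θ R)) = ZMod.castHom (dvd_refl p) (Bs θ R) :=
      Subsingleton.elim _ _
    exact congrArg (fun g : ZMod p →+* Bs θ R => g i) this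
  have hfix : ∀ h : H, Bs.act θ C'.act h (τ w - w) = τ w - w := by
    intro h
    obtain ⟨i, hi⟩ := hu h
    have h2 : τ (Bs.act θ C'.act h w) = Bs.act θ C'.act h (τ w) :=
      bs_map_act C' θ σ θ hθ h w
    have h3 : Bs.act θ C'.act h w = w + ZMod.castHom (dvd_refl p) (Bs θ R) i := by
      rw [← hi]; ring
    rw [map_sub, ← h2, h3, map_add, hτu]
    ring
  obtain ⟨f, hf⟩ := bs_fixed C' θ (τ w - w) hfix
  have h4 : algebraMap F'[X] (Bs θ R) (f ^ p - f) =
      algebraMap F'[X] (Bs θ R) (C (a * (ζ - 1)) * X) := by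
    rw [map_sub, map_pow, hf, sub_pow_char, ← map_pow]
    have h5 : τ (w ^ p) - w ^ p - (τ w - w) = τ (w ^ p - w) - (w ^ p - w) := by
      rw [map_sub]; ring
    rw [h5, hw, hτ, Bs.map_alg, ← map_sub]
    congr 1
    rw [hσ]
    simp only [coe_eval₂RingHom, eval₂_mul, eval₂_C, eval₂_X]
    rw [C_mul, C_sub, C_1]
    ring
  have h6 := hinj h4
  exact geoN_deg p f (a * (ζ - 1)) (mul_ne_zero ha (sub_ne_zero.2 hζ1)) h6

/-- no linear Artin - Schreier equations after the substitution `X ↦ X ^ m` -/
theorem nl_pow (p : ℕ) [Fact p.Prime] [CharP k p] (C : Cov k R H) {F : Type} [Field F]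
    [Algebra k F] (m : ℕ) (hm : 2 ≤ m) (ζ : F) (hζ : IsPrimitiveRoot ζ m) :
    NL p F (Fam k F (X ^ m : F[X]) R) := by
  intro F' _ _ a w ha hw
  let algk : Algebra k F' := ((algebraMap F F').comp (algebraMap k F)).toAlgebra
  have hcF' : CharP F' p := charP_of_injective_ringHom (f := algebraMap k F')
    (algebraMap k F').injective p
  obtain ⟨e, he1, he2⟩ := bs_trans (R := R) (evg k F (X ^ m : F[X])) (evg F F' (X : F'[X]))
  have hcomp : (evg F F' (X : F'[X])).comp (evg k F (X ^ m : F[X])) =
      evg k F' (X ^ m : F'[X]) := by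
    apply Polynomial.ringHom_ext
    · intro c
      simp [evg]
      rfl
    · simp [evg]
  have hdom : IsDomain (Bs ((evg F F' (X : F'[X])).comp (evg k F (X ^ m : F[X]))) R) := by
    rw [hcomp]
    exact fam_pow_domain C m (by omega)
  have hζ' : algebraMap F F' ζ ≠ 1 := by
    intro h
    have h1 : ζ = 1 := (algebraMap F F').injective (by rw [h, map_one])
    have h2 := hζ.eq_orderOf
    rw [h1, orderOf_one] at h2
    omega
  refine geoN_core p C ((evg F F' (X : F'[X])).comp (evg k F (X ^ m : F[X])))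
    (algebraMap F F' ζ) hζ' ?_ a ha (e w) ?_
  · intro f
    rw [hcomp]
    have h3 : (Polynomial.eval₂RingHom (Polynomial.C : F' →+* F'[X])
        (Polynomial.C (algebraMap F F' ζ) * X)).comp (evg k F' (X ^ m : F'[X])) =
        evg k F' (X ^ m : F'[X]) := by
      apply Polynomial.ringHom_ext
      · intro c
        simp [evg]
      · have h4 : (algebraMap F F' ζ) ^ m = 1 := by rw [← map_pow, hζ.pow_eq_one, map_one]
        simp [evg, mul_pow, ← C_pow, h4]
    exact congrArg (fun g : k[X] →+* F'[X] => g f) h3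
  · rw [← map_pow, ← map_sub, hw, he1]

end Pool.Agent.AB3
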