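import Pool.Agent.Lib.MP_5de024_nt.S.GeoB

/-!
# Base change of covers (piece GeoV)
-/

set_option autoImplicit false
set_option linter.unusedSectionVars false

namespace Pool.Agent.AB3

open Pool.Agent.AB Polynomial

/-- transitivity of the substitutions -/
theorem geoV_evg_comp (k : Type) [Field k] (F : Type) [Field F] [Algebra k F] (g : F[X])
    (F' : Type) [Field F'] [Algebra k F'] [Algebra F F'] [IsScalarTower k F F'] :
    (evg F F' X).comp (evg k F g) = evg k F' (g.map (algebraMap F F')) := by
  have h0 : evg F F' X = Polynomial.mapRingHom (algebraMap F F') := by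
    refine Polynomial.ringHom_ext ?_ ?_
    · intro a
      simp [evg]
    · simp [evg]
  rw [h0]
  refine Polynomial.ringHom_ext ?_ ?_
  · intro a
    simp [evg, IsScalarTower.algebraMap_apply k F F']
  · simp [evg]

/-- base change of a cover -/
theorem cov_bc (k R H : Type) [Field k] [CommRing R] [Algebra k[X] R] [Group H] [Finite H]
    (C : Cov k R H) (F : Type) [Field F] [Algebra k F] (g : F[X])
    (hdom : ∀ (F' : Type) [Field F'] [Algebra k F'] [Algebra F F'] [IsScalarTower k F F'],
      IsDomain (Fam k F' (g.map (algebraMap F F')) R)) :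
    ∃ C' : Cov F (Fam k F g R) H, ∀ h z, C'.act h z = Bs.act (evg k F g) C.act h z := by
  refine ⟨{ act := Bs.act (evg k F g) C.act
            inj := bs_inj C (evg k F g)
            fixed := fun z hz => bs_fixed C (evg k F g) z hz
            coord := bs_coord C (evg k F g)
            geom := ?_ }, fun _ _ => rfl⟩
  intro F' _ _
  letI : Algebra k F' := ((algebraMap F F').comp (algebraMap k F)).toAlgebra
  haveI : IsScalarTower k F F' := IsScalarTower.of_algebraMap_eq (fun _ => rfl)
  have h1 : IsDomain (Fam k F' (g.map (algebraMap F F')) R) := hdom F'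
  obtain ⟨e, _, _⟩ := bs_trans (R := R) (evg k F g) (evg F F' X)
  have h2 := geoV_evg_comp k F g F'
  have h3 : IsDomain (Bs ((evg F F' X).comp (evg k F g)) R) := by
    rw [h2]
    exact h1
  exact e.toMulEquiv.isDomain (Bs ((evg F F' X).comp (evg k F g)) R)

/-- a cover is determined by its action -/
theorem cov_ext {k R H : Type} [Field k] [CommRing R] [Algebra k[X] R] [Group H]
    (C C' : Cov k R H) (h : ∀ g r, C.act g r = C'.act g r) : C = C' := by
  have h1 : C.act = C'.act := by
    apply MonoidHom.ext
    intro g
    apply AlgEquiv.ext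
    intro r
    exact h g r
  cases C
  cases C'
  cases h1
  rfl

end Pool.Agent.AB3
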