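import Pool.Agent.Lib.MP_5de024_nt.S.D2Def

/-!
# DIV-D2: a nonzero derivation
-/

set_option autoImplicit false
set_option linter.unusedSectionVars false

namespace Pool.Agent.AB3

private theorem d2f_forms {k L : Type} [Field k] [IsAlgClosed k] [Field L] [Algebra k L]
    [Algebra.EssFiniteType k L] (hL : ¬ Function.Surjective (algebraMap k L)) :
    ∃ D : Derivation k L L, D ≠ 0 := by
  have h1 : ¬ Subsingleton (KaehlerDifferential k L) := by
    intro hsub
    haveI : Algebra.FormallyUnramified k L := ⟨hsub⟩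
    haveI : Algebra.IsSeparable k L := Algebra.FormallyUnramified.isSeparable k L
    haveI : Algebra.IsIntegral k L := inferInstance
    exact hL (IsAlgClosed.algebraMap_bijective_of_isIntegral (k := k) (K := L)).2
  rw [not_subsingleton_iff_nontrivial] at h1
  obtain ⟨v, hv⟩ := exists_ne (0 : KaehlerDifferential k L)
  have h2 : ∃ φ : Module.Dual L (KaehlerDifferential k L), φ v ≠ 0 := by
    by_contra hcon
    push Not at hcon
    exact hv ((Module.forall_dual_apply_eq_zero_iff L v).1 hcon)
  obtain ⟨φ, hφ⟩ := h2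
  refine ⟨φ.compDer (KaehlerDifferential.D k L), fun h0 => hφ ?_⟩
  have h3 : (⊤ : Submodule L (KaehlerDifferential k L)) ≤ LinearMap.ker φ := by
    rw [← KaehlerDifferential.span_range_derivation k L, Submodule.span_le]
    rintro _ ⟨x, rfl⟩
    have h4 := congrArg (fun δ : Derivation k L L => δ x) h0
    exact h4
  exact h3 Submodule.mem_top

/-- `A = MvPolynomial ι k ⧸ vI S` is a finitely generated domain. It is not algebraic over `k`: otherwise `A = k`
(`k` algebraically closed) but the evaluations at the points of `S` are infinitely many different homs `A → k`.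
Let `L = FractionRing A`: essentially of finite type over `k`, not algebraic, so `Ω[L⁄k]` is not zero
(`Algebra.FormallyUnramified.isSeparable`), a nonzero linear form on it gives a nonzero derivation `D` of `L`, it is not zero
on some `x_i`; multiply by a common denominator of the `D (x_i)`: `δ = b D` maps `A` to `A` (`A` is generated by the
`x_i`). -/
theorem d2_der {k ι : Type} [Field k] [IsAlgClosed k] [Finite ι] (S : Set (ι → k))
    (hS : S.Infinite) (hp : (vI S).IsPrime) :
    ∃ δ : Derivation k (MvPolynomial ι k ⧸ vI S) (MvPolynomial ι k ⧸ vI S),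
      ∃ i : ι, δ (Ideal.Quotient.mk (vI S) (MvPolynomial.X i)) ≠ 0 := by
  classical
  haveI : IsDomain (MvPolynomial ι k ⧸ vI S) := Ideal.Quotient.isDomain _
  haveI : Algebra.FiniteType k (MvPolynomial ι k ⧸ vI S) :=
    Algebra.FiniteType.of_surjective (Ideal.Quotient.mkₐ k (vI S)) (Ideal.Quotient.mkₐ_surjective k _)
  haveI : Algebra.EssFiniteType (MvPolynomial ι k ⧸ vI S) (FractionRing (MvPolynomial ι k ⧸ vI S)) :=
    Algebra.EssFiniteType.of_isLocalization _ (nonZeroDivisors (MvPolynomial ι k ⧸ vI S))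
  haveI : Algebra.EssFiniteType k (FractionRing (MvPolynomial ι k ⧸ vI S)) :=
    Algebra.EssFiniteType.comp k (MvPolynomial ι k ⧸ vI S) (FractionRing (MvPolynomial ι k ⧸ vI S))
  have hinj : Function.Injective (algebraMap (MvPolynomial ι k ⧸ vI S)
      (FractionRing (MvPolynomial ι k ⧸ vI S))) := IsFractionRing.injective _ _
  have hns : ¬ Function.Surjective (algebraMap k (FractionRing (MvPolynomial ι k ⧸ vI S))) := by
    intro hsur
    apply hS
    have h1 : ∀ i : ι, ∃ c : k, algebraMap k (FractionRing (MvPolynomial ι k ⧸ vI S)) c =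
        algebraMap (MvPolynomial ι k ⧸ vI S) _ (Ideal.Quotient.mk (vI S) (MvPolynomial.X i)) :=
      fun i => hsur _
    choose c hc using h1
    refine (Set.finite_singleton c).subset fun P hP => ?_
    rw [Set.mem_singleton_iff]
    funext i
    have h2 := hc i
    rw [IsScalarTower.algebraMap_apply k (MvPolynomial ι k ⧸ vI S)] at h2
    have h3 := hinj h2
    have h4 : algebraMap k (MvPolynomial ι k ⧸ vI S) (c i) =
        Ideal.Quotient.mk (vI S) (MvPolynomial.C (c i)) := rfl
    rw [h4, Ideal.Quotient.eq] at h3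
    have h5 := h3 P hP
    rw [map_sub, MvPolynomial.eval_C, MvPolynomial.eval_X, sub_eq_zero] at h5
    exact h5.symm
  obtain ⟨D, hD⟩ := d2f_forms hns
  -- notation
  obtain ⟨ψ, hψ⟩ : ∃ ψ : MvPolynomial ι k → FractionRing (MvPolynomial ι k ⧸ vI S), ∀ p, ψ p =
    algebraMap (MvPolynomial ι k ⧸ vI S) _ (Ideal.Quotient.mk (vI S) p) := ⟨_, fun _ => rfl⟩
  have hψC : ∀ c : k, D (ψ (MvPolynomial.C c)) = 0 := by
    intro c
    have h1 : ψ (MvPolynomial.C c) = algebraMap k _ c := by
      rw [hψ, IsScalarTower.algebraMap_apply k (MvPolynomial ι k ⧸ vI S)]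
      rfl
    rw [h1]
    exact D.map_algebraMap c
  have hψa : ∀ p q, ψ (p + q) = ψ p + ψ q := by
    intro p q
    rw [hψ, hψ, hψ, map_add, map_add]
  have hψm : ∀ p q, ψ (p * q) = ψ p * ψ q := by
    intro p q
    rw [hψ, hψ, hψ, map_mul, map_mul]
  have hX : ∃ i : ι, D (ψ (MvPolynomial.X i)) ≠ 0 := by
    by_contra hcon
    push Not at hcon
    apply hD
    have h1 : ∀ p : MvPolynomial ι k, D (ψ p) = 0 := by
      intro p
      induction p using MvPolynomial.induction_on with
      | C c => exact hψC c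
      | add p q hp hq => rw [hψa, map_add, hp, hq, add_zero]
      | mul_X p i hp => rw [hψm, D.leibniz, hp, hcon i, smul_zero, smul_zero, add_zero]
    ext z
    obtain ⟨a, b, hb, rfl⟩ := IsFractionRing.div_surjective (A := MvPolynomial ι k ⧸ vI S) z
    obtain ⟨p, rfl⟩ := Ideal.Quotient.mk_surjective a
    obtain ⟨q, rfl⟩ := Ideal.Quotient.mk_surjective b
    rw [← hψ, ← hψ]
    have hq0 : ψ q ≠ 0 := by
      rw [hψ]
      intro h0
      rw [← map_zero (algebraMap (MvPolynomial ι k ⧸ vI S) (FractionRing (MvPolynomial ι k ⧸ vI S)))] at h0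
      exact (mem_nonZeroDivisors_iff_ne_zero.1 hb) (hinj h0)
    have h2 : D (ψ p / ψ q * ψ q) = 0 := by
      rw [div_mul_cancel₀ _ hq0]
      exact h1 p
    rw [D.leibniz, h1 q, smul_zero, zero_add, smul_eq_mul] at h2
    rcases mul_eq_zero.1 h2 with h3 | h3
    · exact absurd h3 hq0
    · rw [h3]
      rfl
  obtain ⟨i₀, hi₀⟩ := hX
  obtain ⟨b, hb⟩ := IsLocalization.exist_integer_multiples_of_finite
    (nonZeroDivisors (MvPolynomial ι k ⧸ vI S)) (fun i : ι => D (ψ (MvPolynomial.X i)))
  choose c hc using hb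
  have hc' : ∀ i, algebraMap (MvPolynomial ι k ⧸ vI S) (FractionRing (MvPolynomial ι k ⧸ vI S)) (c i) =
      algebraMap _ _ (b : MvPolynomial ι k ⧸ vI S) * D (ψ (MvPolynomial.X i)) := by
    intro i
    rw [hc i, Algebra.smul_def]
  have hint : ∀ a : MvPolynomial ι k ⧸ vI S, ∃ x : MvPolynomial ι k ⧸ vI S,
      algebraMap (MvPolynomial ι k ⧸ vI S) (FractionRing (MvPolynomial ι k ⧸ vI S)) x =
      algebraMap _ _ (b : MvPolynomial ι k ⧸ vI S) * D (algebraMap _ _ a) := by
    intro a
    obtain ⟨p, rfl⟩ := Ideal.Quotient.mk_surjective a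
    rw [← hψ]
    induction p using MvPolynomial.induction_on with
    | C c => exact ⟨0, by rw [hψC, map_zero, mul_zero]⟩
    | add p q hp hq =>
      obtain ⟨x, hx⟩ := hp
      obtain ⟨y, hy⟩ := hq
      exact ⟨x + y, by rw [map_add, hx, hy, hψa, map_add, mul_add]⟩
    | mul_X p i hp =>
      obtain ⟨x, hx⟩ := hp
      refine ⟨Ideal.Quotient.mk (vI S) p * c i + Ideal.Quotient.mk (vI S) (MvPolynomial.X i) * x, ?_⟩
      rw [map_add, map_mul, map_mul, hx, hc' i, hψm, D.leibniz, ← hψ, ← hψ, smul_eq_mul, smul_eq_mul]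
      ring
  choose g hg using hint
  have hgadd : ∀ x y, g (x + y) = g x + g y := by
    intro x y
    apply hinj
    rw [map_add, hg, hg, hg, map_add, map_add, mul_add]
  have hgsmul : ∀ (r : k) x, g (r • x) = r • g x := by
    intro r x
    apply hinj
    have h1 : ∀ y : MvPolynomial ι k ⧸ vI S, algebraMap (MvPolynomial ι k ⧸ vI S)
        (FractionRing (MvPolynomial ι k ⧸ vI S)) (r • y) = r • algebraMap _ _ y := by
      intro y
      exact map_smul (IsScalarTower.toAlgHom k (MvPolynomial ι k ⧸ vI S)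
        (FractionRing (MvPolynomial ι k ⧸ vI S))) r y
    rw [hg, h1, h1, hg, D.map_smul, mul_smul_comm]
  have hgmul : ∀ x y, g (x * y) = x • g y + y • g x := by
    intro x y
    apply hinj
    have h1 : algebraMap (MvPolynomial ι k ⧸ vI S) (FractionRing (MvPolynomial ι k ⧸ vI S)) (x * y) =
        algebraMap _ _ x * algebraMap _ _ y := map_mul _ _ _
    rw [hg, h1, D.leibniz, smul_eq_mul, smul_eq_mul, smul_eq_mul, smul_eq_mul, map_add,
      map_mul (algebraMap (MvPolynomial ι k ⧸ vI S) (FractionRing (MvPolynomial ι k ⧸ vI S))) x (g y),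
      map_mul (algebraMap (MvPolynomial ι k ⧸ vI S) (FractionRing (MvPolynomial ι k ⧸ vI S))) y (g x), hg, hg]
    ring
  refine ⟨Derivation.mk' { toFun := g, map_add' := hgadd, map_smul' := hgsmul } hgmul, i₀, ?_⟩
  intro h0
  have h1 : g (Ideal.Quotient.mk (vI S) (MvPolynomial.X i₀)) = 0 := h0
  have h2 := hg (Ideal.Quotient.mk (vI S) (MvPolynomial.X i₀))
  rw [h1, map_zero, ← hψ] at h2
  rcases mul_eq_zero.1 h2.symm with h3 | h3
  · rw [← map_zero (algebraMap (MvPolynomial ι k ⧸ vI S) (FractionRing (MvPolynomial ι k ⧸ vI S)))] at h3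
    exact (mem_nonZeroDivisors_iff_ne_zero.1 b.2) (hinj h3)
  · exact hi₀ h3

end Pool.Agent.AB3
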