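import Mathlib

/-!
# DIV-D2: the local argument
-/

set_option autoImplicit false
set_option linter.unusedSectionVars false

namespace Pool.Agent.AB3

/-- Let `J` be the ideal generated by the `v i`. For every maximal ideal `P` find `s ∉ P` with `s * D i ∈ J` for all
`i`: choose `i0` such that the multiplicity of `P` in `(v i0)` is minimal (`v i0 ≠ 0`), it is the multiplicity in `J`;
`(v i0) = J K`, `P` does not divide `K`, choose `s ∈ K`, `s ∉ P`: `s J ≤ (v i0)`. The hypothesis for `I = (i0, ..., i0)` gives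
`l D(i0) (v i0)^(l-1) ∈ J^l`, times `s^l`: `s^l D(i0) ∈ (v i0)` (cancel `(v i0)^(l-1)`, `l` is a unit). The hypothesis for
`I = (i, i0, ..., i0)`: `(l-1) D(i0) v i (v i0)^(l-2) + D i (v i0)^(l-1) ∈ J^l`, times `s^(l+1)`: `s^(l+1) D i ∈ (v i0) ≤ J`. The ideal
`{s | s * D i ∈ J}` is contained in no maximal ideal. -/
theorem d2_local (k R : Type) [Field k] [CommRing R] [IsDedekindDomain R] [Algebra k R] (l : ℕ)
    (hl : (l : k) ≠ 0) (ι : Type) (v D : ι → R) (hJ : Ideal.span (Set.range v) ≠ ⊥)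
    (h : ∀ I : Fin l → ι, ∑ j, D (I j) * ∏ i ∈ Finset.univ.erase j, v (I i) ∈
      (Ideal.span (Set.range v)) ^ l) (i : ι) : D i ∈ Ideal.span (Set.range v) := by
  obtain ⟨m, rfl⟩ : ∃ m, l = m + 1 := by
    refine ⟨l - 1, ?_⟩
    have : l ≠ 0 := by
      rintro rfl
      exact hl Nat.cast_zero
    omega
  have hvJ : ∀ i, v i ∈ Ideal.span (Set.range v) := fun i => Ideal.subset_span ⟨i, rfl⟩
  generalize hJd : Ideal.span (Set.range v) = J at hJ h hvJ ⊢
  have hlu : IsUnit ((m + 1 : ℕ) : R) := by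
    have h1 : IsUnit ((m + 1 : ℕ) : k) := isUnit_iff_ne_zero.2 hl
    have h2 := h1.map (algebraMap k R)
    rwa [map_natCast] at h2
  by_contra hcon
  have hA : Submodule.comap (LinearMap.mulRight R (D i)) J ≠ ⊤ := by
    intro htop
    have h1 : (1 : R) ∈ Submodule.comap (LinearMap.mulRight R (D i)) J := by
      rw [htop]
      exact Submodule.mem_top
    rw [Submodule.mem_comap, LinearMap.mulRight_apply, one_mul] at h1
    exact hcon h1
  obtain ⟨P, hP, hAP⟩ := Ideal.exists_le_maximal _ hA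
  have h1 : ∃ i0, v i0 ∉ J * P := by
    by_contra hno
    have hno' : ∀ i0, v i0 ∈ J * P := fun i0 => by
      by_contra hh
      exact hno ⟨i0, hh⟩
    have h2 : J ≤ J * P := by
      rw [← hJd, Ideal.span_le, hJd]
      rintro _ ⟨i, rfl⟩
      exact hno' i
    have h3 : J * P = J * ⊤ := by
      rw [Ideal.mul_top]
      exact le_antisymm Ideal.mul_le_left h2
    exact hP.ne_top (mul_left_cancel₀ hJ h3)
  obtain ⟨i0, hi0⟩ := h1
  have hv0 : v i0 ≠ 0 := fun h => hi0 (by rw [h]; exact Ideal.zero_mem _)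
  obtain ⟨K, hK⟩ : J ∣ Ideal.span {v i0} :=
    Ideal.dvd_iff_le.2 ((Ideal.span_singleton_le_iff_mem _).2 (hvJ i0))
  have hKP : ¬ K ≤ P := by
    intro hle
    refine hi0 ?_
    have h2 : v i0 ∈ J * K := by
      rw [← hK]
      exact Ideal.mem_span_singleton_self _
    exact Ideal.mul_mono_right hle h2
  obtain ⟨s, hsK, hsP⟩ := SetLike.not_le_iff_exists.1 hKP
  have hsJ : ∀ x ∈ J, s * x ∈ Ideal.span {v i0} := by
    intro x hx
    rw [hK, mul_comm s x]
    exact Ideal.mul_mem_mul hx hsK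
  have hsJl : ∀ x ∈ J ^ (m + 1), v i0 ^ (m + 1) ∣ s ^ (m + 1) * x := by
    have h2 : Ideal.span {s} * J ≤ Ideal.span {v i0} := Ideal.span_singleton_mul_le_iff.2 hsJ
    have h3 := Ideal.pow_right_mono h2 (m + 1)
    rw [mul_pow, Ideal.span_singleton_pow, Ideal.span_singleton_pow] at h3
    intro x hx
    exact Ideal.mem_span_singleton.1 (Ideal.span_singleton_mul_le_iff.1 h3 x hx)
  have hpm : v i0 ^ m ≠ 0 := pow_ne_zero _ hv0
  -- the first step
  have hstep1 : v i0 ∣ s ^ (m + 1) * D i0 := by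
    have h2 := hsJl _ (h fun _ => i0)
    have h3 : ∀ j : Fin (m + 1), ∏ i ∈ Finset.univ.erase j, v ((fun _ => i0) i) = v i0 ^ m := by
      intro j
      rw [Finset.prod_const, Finset.card_erase_of_mem (Finset.mem_univ j), Finset.card_univ,
        Fintype.card_fin, Nat.add_sub_cancel]
    rw [Finset.sum_congr rfl fun j _ => by rw [h3 j], Finset.sum_const, Finset.card_univ,
      Fintype.card_fin, nsmul_eq_mul, pow_succ' (v i0) m] at h2
    have h4 : s ^ (m + 1) * (((m + 1 : ℕ) : R) * (D i0 * v i0 ^ m)) =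
        (((m + 1 : ℕ) : R) * (s ^ (m + 1) * D i0)) * v i0 ^ m := by ring
    rw [h4] at h2
    exact (hlu.dvd_mul_left).1 ((mul_dvd_mul_iff_right hpm).1 h2)
  obtain ⟨a, ha⟩ := hstep1
  obtain ⟨b, hb⟩ := Ideal.mem_span_singleton.1 (hsJ _ (hvJ i))
  -- the second step
  have hstep2 : v i0 ∣ s ^ (m + 2) * D i := by
    set I : Fin (m + 1) → ι := fun j => if j = 0 then i else i0 with hI
    have hI0 : I 0 = i := if_pos rfl
    have hIj : ∀ j, j ≠ 0 → I j = i0 := fun j hj => if_neg hj
    have h2 := hsJl _ (h I)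
    have h3 : v i0 ^ (m + 1) ∣ s ^ (m + 2) * ∑ j, D (I j) * ∏ i ∈ Finset.univ.erase j, v (I i) := by
      have h4 := Dvd.dvd.mul_left h2 s
      have h5 : s * (s ^ (m + 1) * ∑ j, D (I j) * ∏ i ∈ Finset.univ.erase j, v (I i)) =
          s ^ (m + 2) * ∑ j, D (I j) * ∏ i ∈ Finset.univ.erase j, v (I i) := by ring
      rwa [h5] at h4
    rw [← Finset.add_sum_erase _ _ (Finset.mem_univ (0 : Fin (m + 1))), mul_add] at h3
    have h6 : v i0 ^ (m + 1) ∣ s ^ (m + 2) * ∑ j ∈ Finset.univ.erase (0 : Fin (m + 1)),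
        D (I j) * ∏ i ∈ Finset.univ.erase j, v (I i) := by
      rw [Finset.mul_sum]
      refine Finset.dvd_sum fun j hj => ?_
      have hj0 : j ≠ 0 := Finset.ne_of_mem_erase hj
      have hm : 1 ≤ m := by
        have hj1 : (j : ℕ) ≠ 0 := fun h0 => hj0 (Fin.ext h0)
        have hj2 := j.isLt
        omega
      have h7 : ∏ i ∈ Finset.univ.erase j, v (I i) = v i * v i0 ^ (m - 1) := by
        have h0j : (0 : Fin (m + 1)) ∈ Finset.univ.erase j :=
          Finset.mem_erase.2 ⟨hj0.symm, Finset.mem_univ _⟩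
        rw [← Finset.mul_prod_erase _ _ h0j, hI0]
        congr 1
        have h8 : ∀ x ∈ (Finset.univ.erase j).erase (0 : Fin (m + 1)), v (I x) = v i0 := by
          intro x hx
          rw [hIj x (Finset.ne_of_mem_erase hx)]
        rw [Finset.prod_congr rfl h8, Finset.prod_const, Finset.card_erase_of_mem h0j,
          Finset.card_erase_of_mem (Finset.mem_univ j), Finset.card_univ, Fintype.card_fin,
          Nat.add_sub_cancel]
      rw [h7, hIj j hj0]
      refine ⟨a * b, ?_⟩
      have h9 : s ^ (m + 2) * (D i0 * (v i * v i0 ^ (m - 1))) =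
          (s ^ (m + 1) * D i0) * (s * v i) * v i0 ^ (m - 1) := by ring
      have h10 : v i0 ^ (m + 1) = v i0 * v i0 * v i0 ^ (m - 1) := by
        rw [← pow_two, ← pow_add]
        congr 1
        omega
      rw [h9, ha, hb, h10]
      ring
    have h11 := (dvd_add_left h6).1 h3
    have h12 : ∏ i ∈ Finset.univ.erase (0 : Fin (m + 1)), v (I i) = v i0 ^ m := by
      have h8 : ∀ x ∈ Finset.univ.erase (0 : Fin (m + 1)), v (I x) = v i0 := by
        intro x hx
        rw [hIj x (Finset.ne_of_mem_erase hx)]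
      rw [Finset.prod_congr rfl h8, Finset.prod_const,
        Finset.card_erase_of_mem (Finset.mem_univ _), Finset.card_univ, Fintype.card_fin,
        Nat.add_sub_cancel]
    rw [h12, hI0, ← mul_assoc, pow_succ' (v i0) m] at h11
    exact (mul_dvd_mul_iff_right hpm).1 h11
  -- conclusion
  have h13 : s ^ (m + 2) ∈ P := by
    refine hAP ?_
    rw [Submodule.mem_comap, LinearMap.mulRight_apply]
    obtain ⟨c, hc⟩ := hstep2
    rw [hc]
    exact J.mul_mem_right c (hvJ i0)
  exact hsP (hP.isPrime.mem_of_pow_mem _ h13)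

end Pool.Agent.AB3
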