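import Pool.Agent.Lib.MP_5de024_nt.S.D2Def

/-!
# DIV-D2: derivations and evaluations of `A ⊗ R`
-/

set_option autoImplicit false
set_option linter.unusedSectionVars false

namespace Pool.Agent.AB3

open scoped TensorProduct

variable {k R A : Type} [Field k] [CommRing R] [Algebra k R] [CommRing A] [Algebra k A]

/-- the evaluation `a ⊗ r ↦ φ a • r` -/
noncomputable def evT (φ : A →ₐ[k] k) : A ⊗[k] R →ₐ[k] R :=
  Algebra.TensorProduct.productMap ((Algebra.ofId k R).comp φ) (AlgHom.id k R)

/-- the derivation acting on the coefficients: `a ⊗ r ↦ δ a ⊗ r` -/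
noncomputable def dT (δ : Derivation k A A) : A ⊗[k] R →ₗ[k] A ⊗[k] R :=
  LinearMap.rTensor R (δ : A →ₗ[k] A)

theorem evT_tmul (φ : A →ₐ[k] k) (a : A) (r : R) : evT φ (a ⊗ₜ[k] r) = φ a • r := by
  rw [evT, Algebra.TensorProduct.productMap_apply_tmul, Algebra.smul_def]
  rfl

theorem dT_tmul (δ : Derivation k A A) (a : A) (r : R) : dT δ (a ⊗ₜ[k] r) = δ a ⊗ₜ[k] r := by
  rw [dT, LinearMap.rTensor_tmul]
  rfl

theorem dT_mul (δ : Derivation k A A) (x y : A ⊗[k] R) :
    dT δ (x * y) = x * dT δ y + dT δ x * y := by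
  induction x using TensorProduct.induction_on with
  | zero => rw [zero_mul, map_zero, zero_mul, zero_mul, add_zero]
  | add x1 x2 h1 h2 => rw [add_mul, map_add, h1, h2, map_add]; ring
  | tmul a r =>
    induction y using TensorProduct.induction_on with
    | zero => rw [mul_zero, map_zero, mul_zero, mul_zero, add_zero]
    | add y1 y2 h1 h2 => rw [mul_add, map_add, h1, h2, map_add]; ring
    | tmul a' r' =>
      rw [Algebra.TensorProduct.tmul_mul_tmul, dT_tmul, dT_tmul, dT_tmul,
        Algebra.TensorProduct.tmul_mul_tmul, Algebra.TensorProduct.tmul_mul_tmul,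
        ← TensorProduct.add_tmul, Derivation.leibniz, smul_eq_mul, smul_eq_mul, mul_comm a' (δ a)]

theorem dT_prod_aux (δ : Derivation k A A) {ι : Type} [DecidableEq ι] (f : ι → A ⊗[k] R)
    (s : Finset ι) :
    dT δ (∏ i ∈ s, f i) = ∑ j ∈ s, dT δ (f j) * ∏ i ∈ s.erase j, f i := by
  induction s using Finset.induction_on with
  | empty =>
    rw [Finset.prod_empty, Finset.sum_empty, Algebra.TensorProduct.one_def, dT_tmul,
      Derivation.map_one_eq_zero, TensorProduct.zero_tmul]
  | insert a s ha ih =>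
    rw [Finset.prod_insert ha, dT_mul, ih, Finset.sum_insert ha, Finset.erase_insert ha,
      Finset.mul_sum, add_comm]
    refine congrArg₂ _ rfl (Finset.sum_congr rfl ?_)
    intro j hj
    have hne : j ≠ a := fun h => ha (h ▸ hj)
    have h1 : (insert a s).erase j = insert a (s.erase j) :=
      Finset.erase_insert_of_ne hne.symm
    rw [h1, Finset.prod_insert (fun h => ha (Finset.mem_of_mem_erase h))]
    ring

theorem dT_prod (δ : Derivation k A A) {l : ℕ} (f : Fin l → A ⊗[k] R) :
    dT δ (∏ i, f i) = ∑ j, dT δ (f j) * ∏ i ∈ Finset.univ.erase j, f i :=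
  dT_prod_aux δ f Finset.univ

theorem evT_repr {ι : Type} (b : Module.Basis ι k R) (φ : A →ₐ[k] k) (z : A ⊗[k] R) (i : ι) :
    b.repr (evT φ z) i = φ ((Algebra.TensorProduct.basis A b).repr z i) := by
  induction z using TensorProduct.induction_on with
  | zero => simp only [map_zero, Finsupp.coe_zero, Pi.zero_apply]
  | add x y hx hy => rw [map_add, map_add, map_add, Finsupp.add_apply, Finsupp.add_apply, map_add,
      hx, hy]
  | tmul a r =>
    rw [evT_tmul, map_smul, Finsupp.smul_apply, Algebra.TensorProduct.basis_repr_tmul,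
      Finsupp.smul_apply, Finsupp.mapRange_apply, smul_eq_mul, smul_eq_mul, map_mul, AlgHom.commutes]
    rfl

/-- choose a `k`-basis of `R`: the coordinates of `z` are killed by all `φ` -/
theorem evT_sep (pts : Set (A →ₐ[k] k)) (hsep : ∀ a : A, (∀ φ ∈ pts, φ a = 0) → a = 0)
    (z : A ⊗[k] R) (hz : ∀ φ ∈ pts, evT φ z = 0) : z = 0 := by
  have b := Module.Basis.ofVectorSpace k R
  apply (Algebra.TensorProduct.basis A b).ext_elem
  intro i
  rw [map_zero, Finsupp.coe_zero, Pi.zero_apply]
  apply hsep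
  intro φ hφ
  rw [← evT_repr, hz φ hφ, map_zero, Finsupp.coe_zero, Pi.zero_apply]

end Pool.Agent.AB3
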