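import Pool.Agent.Lib.MP_5de024_nt.S.D2B2
import Pool.Agent.Lib.MP_5de024_nt.S.D2D
import Pool.Agent.Lib.MP_5de024_nt.S.D2G

/-!
# DIV-D2: the derivation argument
-/

set_option autoImplicit false
set_option linter.unusedSectionVars false

namespace Pool.Agent.AB3

open scoped TensorProduct

/-- a power of the ideal generated by the `v i` is generated by the products -/
theorem d2_pow_le {R ι : Type} [CommRing R] (v : ι → R) (n : ℕ) :
    (Ideal.span (Set.range v)) ^ n ≤
      Ideal.span (Set.range fun I : Fin n → ι => ∏ j, v (I j)) := by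
  induction n with
  | zero =>
    have h1 : (1 : R) ∈ Ideal.span (Set.range fun I : Fin 0 → ι => ∏ j, v (I j)) := by
      refine Ideal.subset_span ⟨Fin.elim0, ?_⟩
      show ∏ j : Fin 0, v (Fin.elim0 j) = 1
      rw [Fin.prod_univ_zero]
    rw [(Ideal.eq_top_iff_one _).2 h1]
    exact le_top
  | succ n ih =>
    rw [pow_succ']
    refine (Ideal.mul_mono_right ih).trans ?_
    rw [Ideal.span_mul_span', Ideal.span_le]
    rintro _ ⟨_, ⟨i, rfl⟩, _, ⟨I, rfl⟩, rfl⟩
    refine Ideal.subset_span ⟨Fin.cons i I, ?_⟩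
    show ∏ j : Fin (n + 1), v ((Fin.cons i I : Fin (n + 1) → ι) j) = v i * ∏ j, v (I j)
    rw [Fin.prod_univ_succ, Fin.cons_zero]
    simp only [Fin.cons_succ]

/-- if `J ^ l = (u)` and the products of the generators of `J` are `u c_I` then the `c_I` generate the unit ideal -/
theorem d2_one_mem {R ι : Type} [CommRing R] [IsDomain R] (l : ℕ) (v : ι → R)
    (c : (Fin l → ι) → R) (u : R) (hu : u ≠ 0)
    (hJ : (Ideal.span (Set.range v)) ^ l = Ideal.span {u})
    (hrel : ∀ I : Fin l → ι, ∏ j, v (I j) = u * c I) :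
    (1 : R) ∈ Ideal.span (Set.range c) := by
  have h1 : u ∈ Ideal.span (Set.range fun I : Fin l → ι => ∏ j, v (I j)) := by
    apply d2_pow_le v l
    rw [hJ]
    exact Ideal.mem_span_singleton_self u
  have h2 : Ideal.span (Set.range fun I : Fin l → ι => ∏ j, v (I j)) ≤
      Ideal.span {u} * Ideal.span (Set.range c) := by
    rw [Ideal.span_le]
    rintro _ ⟨I, rfl⟩
    show ∏ j, v (I j) ∈ Ideal.span {u} * Ideal.span (Set.range c)
    rw [hrel I]
    exact Ideal.mul_mem_mul (Ideal.mem_span_singleton_self u) (Ideal.subset_span ⟨I, rfl⟩)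
  obtain ⟨y, hy, hy'⟩ := Ideal.mem_span_singleton_mul.1 (h2 h1)
  have h3 : y = 1 := by
    apply mul_left_cancel₀ hu
    rw [hy', mul_one]
  rwa [h3] at hy

/-- From `hrel` and `dT_prod`, `dT_mul`: `∑_j dT (V (I j)) ∏_(i ≠ j) V (I i) = U dT (C I) + dT U C I`. Multiply by `V i` and replace
`V i ∏_(i' ≠ j) V (I i')` by `U * C (Function.update I j i)`: `V i * dT U * C I = U * z`. Evaluate at `φ`, let `u = evT φ U`,
`J` the ideal of the `evT φ (V i)`: `J ^ l = (u)` is generated by the products `evT φ (∏ V (I j)) = u * evT φ (C I)` so the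
`evT φ (C I)` generate the unit ideal (`u = ∑ d_I u c_I`, `R` a domain), hence `evT φ (V i) * evT φ (dT U) ∈ (u)`. By `hdeg` and
`hmin`: `evT φ (dT U) = 0`. So `dT δ U = 0` (`evT_sep`). Then `∑_j dT (V (I j)) ∏_(i ≠ j) V (I i) = U dT (C I)` is in `(u) = J ^ l` at `φ`:
`d2_local`. -/
theorem d2_core (k R A : Type) [Field k] [CommRing R] [IsDedekindDomain R] [Algebra k R]
    [CommRing A] [Algebra k A] (X : OneInfC k R) (l : ℕ) (hl : (l : k) ≠ 0)
    (pts : Set (A →ₐ[k] k)) (hsep : ∀ a : A, (∀ φ ∈ pts, φ a = 0) → a = 0)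
    (δ : Derivation k A A) (ι : Type) (U : A ⊗[k] R) (V : ι → A ⊗[k] R)
    (C : (Fin l → ι) → A ⊗[k] R) (hrel : ∀ I : Fin l → ι, ∏ j, V (I j) = U * C I)
    (hU : ∀ φ ∈ pts, evT φ U ≠ 0)
    (hJ : ∀ φ ∈ pts, (Ideal.span (Set.range fun i => evT φ (V i))) ^ l = Ideal.span {evT φ U})
    (hmin : ∀ φ ∈ pts, ∀ f : R, (∀ i, f * evT φ (V i) ∈ Ideal.span {evT φ U}) →
      X.d f < X.d (evT φ U) → f = 0)
    (hdeg : ∀ φ ∈ pts, evT φ (dT δ U) = 0 ∨ X.d (evT φ (dT δ U)) < X.d (evT φ U)) :
    dT δ U = 0 ∧ ∀ φ ∈ pts, ∀ i,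
      evT φ (dT δ (V i)) ∈ Ideal.span (Set.range fun i => evT φ (V i)) := by
  have hl0 : l ≠ 0 := by
    rintro rfl
    exact hl Nat.cast_zero
  -- the relations at a point
  have hrelP : ∀ φ : A →ₐ[k] k, ∀ I : Fin l → ι,
      ∏ j, evT φ (V (I j)) = evT φ U * evT φ (C I) := by
    intro φ I
    rw [← map_prod, hrel I, map_mul]
  have hder : ∀ φ : A →ₐ[k] k, ∀ I : Fin l → ι,
      ∑ j, evT φ (dT δ (V (I j))) * ∏ i ∈ Finset.univ.erase j, evT φ (V (I i)) =
        evT φ U * evT φ (dT δ (C I)) + evT φ (dT δ U) * evT φ (C I) := by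
    intro φ I
    have h1 := dT_prod δ (fun j => V (I j))
    rw [hrel I, dT_mul] at h1
    have h2 := congrArg (evT φ) h1
    rw [map_add, map_mul, map_mul, map_sum] at h2
    rw [h2]
    refine Finset.sum_congr rfl fun j _ => ?_
    rw [map_mul, map_prod]
  -- the product of `v i` and the other factors
  have hupd : ∀ φ : A →ₐ[k] k, ∀ I : Fin l → ι, ∀ (i : ι) (j : Fin l),
      evT φ (V i) * ∏ i' ∈ Finset.univ.erase j, evT φ (V (I i')) =
        evT φ U * evT φ (C (Function.update I j i)) := by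
    intro φ I i j
    rw [← hrelP φ (Function.update I j i), ← Finset.mul_prod_erase _ _ (Finset.mem_univ j),
      Function.update_self]
    refine congrArg₂ _ rfl (Finset.prod_congr rfl fun i' hi' => ?_)
    rw [Function.update_of_ne (Finset.ne_of_mem_erase hi')]
  -- `δ U` vanishes at the points
  have hdU : ∀ φ ∈ pts, evT φ (dT δ U) = 0 := by
    intro φ hφ
    rcases hdeg φ hφ with h | h
    · exact h
    refine hmin φ hφ _ (fun i => ?_) h
    have h1 := d2_one_mem l (fun i => evT φ (V i)) (fun I => evT φ (C I)) (evT φ U) (hU φ hφ)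
      (hJ φ hφ) (hrelP φ)
    have h2 : ∀ y ∈ Ideal.span (Set.range fun I => evT φ (C I)),
        evT φ (dT δ U) * evT φ (V i) * y ∈ Ideal.span {evT φ U} := by
      intro y hy
      refine Submodule.span_induction (p := fun y _ =>
        evT φ (dT δ U) * evT φ (V i) * y ∈ Ideal.span {evT φ U}) ?_ ?_ ?_ ?_ hy
      · rintro _ ⟨I, rfl⟩
        have h3 : evT φ (dT δ U) * evT φ (V i) * evT φ (C I) =
            (∑ j, evT φ (dT δ (V (I j))) * (evT φ (V i) *
              ∏ i ∈ Finset.univ.erase j, evT φ (V (I i)))) -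
              evT φ U * (evT φ (V i) * evT φ (dT δ (C I))) := by
          have h4 : (∑ j, evT φ (dT δ (V (I j))) * (evT φ (V i) *
              ∏ i ∈ Finset.univ.erase j, evT φ (V (I i)))) = evT φ (V i) *
              ∑ j, evT φ (dT δ (V (I j))) * ∏ i ∈ Finset.univ.erase j, evT φ (V (I i)) := by
            rw [Finset.mul_sum]
            exact Finset.sum_congr rfl fun j _ => by ring
          rw [h4, hder φ I]
          ring
        show evT φ (dT δ U) * evT φ (V i) * evT φ (C I) ∈ Ideal.span {evT φ U}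
        rw [h3]
        refine Ideal.sub_mem _ (Ideal.sum_mem _ fun j _ => ?_) ?_
        · rw [hupd φ I i j]
          refine Ideal.mul_mem_left _ _ (Ideal.mul_mem_right _ _ ?_)
          exact Ideal.mem_span_singleton_self _
        · exact Ideal.mul_mem_right _ _ (Ideal.mem_span_singleton_self _)
      · rw [mul_zero]
        exact Ideal.zero_mem _
      · intro x y _ _ hx hy
        rw [mul_add]
        exact Ideal.add_mem _ hx hy
      · intro a x _ hx
        have h5 : evT φ (dT δ U) * evT φ (V i) * (a • x) =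
            a * (evT φ (dT δ U) * evT φ (V i) * x) := by
          rw [smul_eq_mul]
          ring
        rw [h5]
        exact Ideal.mul_mem_left _ _ hx
    have h6 := h2 1 h1
    rwa [mul_one] at h6
  have hdU0 : dT δ U = 0 := evT_sep pts hsep _ hdU
  refine ⟨hdU0, fun φ hφ i => ?_⟩
  have hJne : Ideal.span (Set.range fun i => evT φ (V i)) ≠ ⊥ := by
    intro h
    have h1 := hJ φ hφ
    rw [h, Ideal.bot_pow hl0] at h1
    exact hU φ hφ (Ideal.span_singleton_eq_bot.1 h1.symm)
  refine d2_local k R l hl ι (fun i => evT φ (V i)) (fun i => evT φ (dT δ (V i))) hJne ?_ i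
  intro I
  rw [hJ φ hφ]
  have h1 := hder φ I
  rw [hdU φ hφ, zero_mul, add_zero] at h1
  show ∑ j, evT φ (dT δ (V (I j))) * ∏ i ∈ Finset.univ.erase j, evT φ (V (I i)) ∈ _
  rw [h1]
  exact Ideal.mul_mem_right _ _ (Ideal.mem_span_singleton_self _)

end Pool.Agent.AB3
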