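import Pool.Agent.Lib.MP_5de024_nt.S.D2A

/-!
# DIV-D2: generators of an ideal from a basis of the quotient
-/

set_option autoImplicit false
set_option linter.unusedSectionVars false

namespace Pool.Agent.AB3

variable {k R : Type} [Field k] [CommRing R] [Algebra k R] {X : OneInfC k R} (E : DegB X)

/-- exchange of the order of summation -/
theorem d2_swap (S T : Finset ℕ) (e : ℕ → R) (a : ℕ → k) (b : ℕ → ℕ → k) :
    ∑ m ∈ S, a m • ∑ t ∈ T, b m t • e t = ∑ t ∈ T, (∑ m ∈ S, a m * b m t) • e t := by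
  simp only [Finset.smul_sum, Finset.sum_smul, smul_smul]
  exact Finset.sum_comm

/-- the classes of `e_0, ..., e_B` span `R / J` (`hspan`, `E.sum_co`): a subset of them is a basis -/
theorem d2_T (B : ℕ) (J : Ideal R) (hspan : ∀ r : R, ∃ w ∈ degS X B, r - w ∈ J) :
    ∃ T : Finset ℕ, T ⊆ Finset.range (B + 1) ∧
      (∀ c : ℕ → k, (∑ t ∈ T, c t • E.e t) ∈ J → ∀ t ∈ T, c t = 0) ∧
      ∀ r : R, ∃ c : ℕ → k, r - ∑ t ∈ T, c t • E.e t ∈ J := by
  classical
  let P : Finset ℕ → Prop := fun T => ∀ c : ℕ → k, (∑ t ∈ T, c t • E.e t) ∈ J → ∀ t ∈ T, c t = 0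
  have hne : ((Finset.range (B + 1)).powerset.filter P).Nonempty :=
    ⟨∅, Finset.mem_filter.2 ⟨Finset.mem_powerset.2 (Finset.empty_subset _),
      fun c _ t ht => absurd ht (Finset.notMem_empty t)⟩⟩
  obtain ⟨T, hT, hmax⟩ := Finset.exists_max_image _ Finset.card hne
  have hT1 := Finset.mem_powerset.1 (Finset.mem_filter.1 hT).1
  have hT2 : P T := (Finset.mem_filter.1 hT).2
  have key : ∀ j ∈ Finset.range (B + 1), ∃ a : ℕ → k, E.e j - ∑ t ∈ T, a t • E.e t ∈ J := by
    intro j hj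
    by_cases hjT : j ∈ T
    · refine ⟨fun t => if t = j then 1 else 0, ?_⟩
      have h1 : ∑ t ∈ T, (if t = j then (1 : k) else 0) • E.e t = E.e j := by
        simp only [ite_smul, one_smul, zero_smul]
        rw [Finset.sum_ite_eq' T j, if_pos hjT]
      rw [h1, sub_self]
      exact J.zero_mem
    · have hnP : ¬ P (insert j T) := by
        intro hP
        have h1 := hmax (insert j T) (Finset.mem_filter.2
          ⟨Finset.mem_powerset.2 (Finset.insert_subset hj hT1), hP⟩)
        rw [Finset.card_insert_of_notMem hjT] at h1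
        omega
      simp only [P, not_forall] at hnP
      obtain ⟨c, hc, t0, ht0, hct0⟩ := hnP
      rw [Finset.sum_insert hjT] at hc
      have hcj : c j ≠ 0 := by
        intro h0
        rw [h0, zero_smul, zero_add] at hc
        rcases Finset.mem_insert.1 ht0 with h | h
        · exact hct0 (by rw [h, h0])
        · exact hct0 (hT2 c hc t0 h)
      refine ⟨fun t => -((c j)⁻¹ * c t), ?_⟩
      have h2 := Submodule.smul_of_tower_mem J (c j)⁻¹ hc
      rw [smul_add, smul_smul, inv_mul_cancel₀ hcj, one_smul, Finset.smul_sum] at h2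
      have h3 : E.e j - ∑ t ∈ T, (-((c j)⁻¹ * c t)) • E.e t =
          E.e j + ∑ t ∈ T, (c j)⁻¹ • c t • E.e t := by
        simp only [neg_smul, Finset.sum_neg_distrib, sub_neg_eq_add, smul_smul]
      rw [h3]
      exact h2
  refine ⟨T, hT1, hT2, fun r => ?_⟩
  choose! a ha using key
  obtain ⟨w, hw, hrw⟩ := hspan r
  have hw2 := E.sum_co B w ((mem_degS X B w).1 hw)
  refine ⟨fun t => ∑ m ∈ Finset.range (B + 1), E.co m w * a m t, ?_⟩
  rw [← d2_swap]
  have h4 : r - ∑ m ∈ Finset.range (B + 1), E.co m w • ∑ t ∈ T, a m t • E.e t =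
      (r - w) + ∑ m ∈ Finset.range (B + 1), E.co m w • (E.e m - ∑ t ∈ T, a m t • E.e t) := by
    simp only [smul_sub, Finset.sum_sub_distrib]
    rw [← hw2]
    ring
  rw [h4]
  exact J.add_mem hrw (J.sum_mem fun m hm => Submodule.smul_of_tower_mem J _ (ha m hm))

/-- `lam j` = coordinates of `e_j` modulo `J` (zero outside `T`), so `vv E T lam j ∈ J`. Conversely `w ∈ J` of degree
`≤ B` is `∑_(j ≤ B) c_j e_j = ∑ c_j vv j + ∑_(t ∈ T) c'_t e_t`, the last sum is in `J`, so it is zero by `hind`. `J` is generated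
by such `w`. -/
theorem d2_lam (B : ℕ) (J : Ideal R) (T : Finset ℕ)
    (hind : ∀ c : ℕ → k, (∑ t ∈ T, c t • E.e t) ∈ J → ∀ t ∈ T, c t = 0)
    (hsp : ∀ r : R, ∃ c : ℕ → k, r - ∑ t ∈ T, c t • E.e t ∈ J)
    (hgen : J = Ideal.span ((J : Set R) ∩ (degS X B : Set R))) :
    ∃ lam : ℕ → ℕ → k, (∀ j t, t ∉ T → lam j t = 0) ∧
      J = Ideal.span (Set.range fun j : Fin (B + 1) => vv E T lam (j : ℕ)) := by
  classical
  choose c hc using fun j => hsp (E.e j)
  let lam : ℕ → ℕ → k := fun j t => if t ∈ T then c j t else 0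
  have hvv : ∀ j, vv E T lam j = E.e j - ∑ t ∈ T, c j t • E.e t := by
    intro j
    unfold vv
    congr 1
    refine Finset.sum_congr rfl fun t ht => ?_
    simp only [lam, if_pos ht]
  have hvJ : ∀ j, vv E T lam j ∈ J := fun j => by rw [hvv]; exact hc j
  refine ⟨lam, fun j t ht => by simp only [lam, if_neg ht], le_antisymm ?_ ?_⟩
  · rw [hgen, Ideal.span_le]
    rintro w ⟨hwJ, hwB⟩
    have hw2 := E.sum_co B w ((mem_degS X B w).1 hwB)
    have h1 : ∀ m, E.e m = vv E T lam m + ∑ t ∈ T, c m t • E.e t := fun m => by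
      rw [hvv, sub_add_cancel]
    have h2 : w = ∑ m ∈ Finset.range (B + 1), E.co m w • vv E T lam m +
        ∑ t ∈ T, (∑ m ∈ Finset.range (B + 1), E.co m w * c m t) • E.e t := by
      rw [← d2_swap, ← Finset.sum_add_distrib]
      conv_lhs => rw [hw2]
      refine Finset.sum_congr rfl fun m _ => ?_
      rw [← smul_add, ← h1 m]
    have h3 : ∑ m ∈ Finset.range (B + 1), E.co m w • vv E T lam m ∈ J :=
      J.sum_mem fun m _ => Submodule.smul_of_tower_mem J _ (hvJ m)
    have h4 : ∑ t ∈ T, (∑ m ∈ Finset.range (B + 1), E.co m w * c m t) • E.e t ∈ J := by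
      have h5 := J.sub_mem hwJ h3
      nth_rw 1 [h2] at h5
      rwa [add_sub_cancel_left] at h5
    have h6 := hind _ h4
    have h7 : ∑ t ∈ T, (∑ m ∈ Finset.range (B + 1), E.co m w * c m t) • E.e t = 0 :=
      Finset.sum_eq_zero fun t ht => by rw [h6 t ht, zero_smul]
    rw [h7, add_zero] at h2
    rw [SetLike.mem_coe, h2]
    refine Submodule.sum_mem _ fun m hm => Submodule.smul_of_tower_mem _ _ (Ideal.subset_span ?_)
    exact ⟨⟨m, Finset.mem_range.1 hm⟩, rfl⟩
  · rw [Ideal.span_le]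
    rintro _ ⟨j, rfl⟩
    exact hvJ j

end Pool.Agent.AB3
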