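import Pool.Agent.Lib.MP_5de024_nt.S.D2E
import Pool.Agent.Lib.MP_5de024_nt.S.D2F
import Pool.Agent.Lib.MP_5de024_nt.S.D2H
import Pool.Agent.Lib.MP_5de024_nt.S.D2I

/-!
# DIV-D2: finiteness
-/

set_option autoImplicit false
set_option linter.unusedSectionVars false

namespace Pool.Agent.AB3

open scoped TensorProduct

section aux

variable {k R : Type} [Field k] [CommRing R] [Algebra k R] {X : OneInfC k R} (E : DegB X)

theorem d2k_d_mul_le (X : OneInfC k R) (a b : R) : X.d (a * b) ≤ X.d a + X.d b := by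
  by_cases ha : a = 0
  · rw [ha, zero_mul, X.d_zero]
    omega
  by_cases hb : b = 0
  · rw [hb, mul_zero, X.d_zero]
    omega
  rw [X.d_mul a b ha hb]

theorem d2k_d_prod_le (X : OneInfC k R) (n B : ℕ) (f : Fin n → R) (hf : ∀ i, X.d (f i) ≤ B) :
    X.d (∏ i, f i) ≤ n * B := by
  induction n with
  | zero =>
    rw [Fin.prod_univ_zero, X.d_one]
    exact Nat.zero_le _
  | succ n ih =>
    rw [Fin.prod_univ_succ]
    refine (d2k_d_mul_le X _ _).trans ?_
    have h1 := ih (fun i => f i.succ) (fun i => hf i.succ)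
    have h2 := hf 0
    rw [Nat.succ_mul]
    omega

theorem d2k_e_mem (j n : ℕ) (h : j ≤ n) : E.e j ∈ degS X n := by
  rw [mem_degS]
  by_cases h0 : E.e j = 0
  · rw [h0, X.d_zero]
    exact Nat.zero_le _
  · rw [(E.e_spec j h0).1]
    exact h

theorem d2k_vv_le (T : Finset ℕ) (lam : ℕ → ℕ → k) (B : ℕ) (hT : T ⊆ Finset.range (B + 1))
    (j : ℕ) (hj : j ≤ B) : X.d (vv E T lam j) ≤ B := by
  have h1 : vv E T lam j ∈ degS X B := by
    unfold vv
    refine Submodule.sub_mem _ (d2k_e_mem E j B hj) (Submodule.sum_mem _ ?_)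
    intro t ht
    have h2 := Finset.mem_range.1 (hT ht)
    exact Submodule.smul_mem _ _ (d2k_e_mem E t B (by omega))
  exact h1

theorem d2k_sum (n : ℕ) (r : R) (hr : X.d r ≤ n) :
    ∑ s : Fin (n + 1), E.co (s : ℕ) r • E.e (s : ℕ) = r := by
  have h1 := E.sum_co n r hr
  rw [Finset.sum_range] at h1
  exact h1.symm

theorem d2k_vv (T : Finset ℕ) (lam : ℕ → ℕ → k) (B : ℕ) (hT : T ⊆ Finset.range (B + 1))
    (hlam : ∀ j t, t ∉ T → lam j t = 0) (j : ℕ) :
    E.e j - ∑ t : Fin (B + 1), lam j (t : ℕ) • E.e (t : ℕ) = vv E T lam j := by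
  unfold vv
  congr 1
  have h1 : ∑ t : Fin (B + 1), lam j (t : ℕ) • E.e (t : ℕ) =
      ∑ t ∈ Finset.range (B + 1), lam j t • E.e t :=
    (Finset.sum_range (fun t => lam j t • E.e t)).symm
  rw [h1]
  symm
  refine Finset.sum_subset hT ?_
  intro t _ ht
  rw [hlam j t ht, zero_smul]

end aux

section gen

variable {k R A : Type} [Field k] [CommRing R] [Algebra k R] {X : OneInfC k R} (E : DegB X)
  [CommRing A] [Algebra k A]

/-- a generic element -/
noncomputable def d2kG (n : ℕ) (a : Fin (n + 1) → A) : A ⊗[k] R :=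
  ∑ s : Fin (n + 1), a s ⊗ₜ[k] E.e (s : ℕ)

theorem d2k_evG (φ : A →ₐ[k] k) (n : ℕ) (a : Fin (n + 1) → A) :
    evT φ (d2kG E n a) = ∑ s : Fin (n + 1), φ (a s) • E.e (s : ℕ) := by
  unfold d2kG
  rw [map_sum]
  exact Finset.sum_congr rfl fun s _ => evT_tmul φ _ _

theorem d2k_dG (δ : Derivation k A A) (n : ℕ) (a : Fin (n + 1) → A) :
    dT δ (d2kG E n a) = d2kG E n fun s => δ (a s) := by
  unfold d2kG
  rw [map_sum]
  exact Finset.sum_congr rfl fun s _ => dT_tmul δ _ _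

theorem d2k_coef (n : ℕ) (c : Fin (n + 1) → k)
    (h : ∑ s : Fin (n + 1), c s • E.e (s : ℕ) = 0) (s : Fin (n + 1)) (hs : E.e (s : ℕ) ≠ 0) :
    c s = 0 := by
  have h1 := congrArg (E.co (s : ℕ)) h
  rw [map_zero, map_sum, Finset.sum_eq_single s] at h1
  · rw [map_smul, E.co_e _ _ hs, if_pos rfl, smul_eq_mul, mul_one] at h1
    exact h1
  · intro t _ hts
    rw [map_smul]
    by_cases ht : E.e (t : ℕ) = 0
    · rw [ht, map_zero, smul_zero]
    · rw [E.co_e _ _ ht, if_neg (fun h2 => hts (Fin.ext h2.symm)), smul_zero]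
  · intro h2
    exact absurd (Finset.mem_univ s) h2

/-- if the generic element `dT G` vanishes at all points then `δ` kills the coordinates -/
theorem d2k_zero (pts : Set (A →ₐ[k] k)) (hsep : ∀ a : A, (∀ φ ∈ pts, φ a = 0) → a = 0)
    (δ : Derivation k A A) (n : ℕ) (a : Fin (n + 1) → A)
    (h0 : ∀ s : Fin (n + 1), E.e (s : ℕ) = 0 → a s = 0)
    (h : ∀ φ ∈ pts, evT φ (dT δ (d2kG E n a)) = 0) (s : Fin (n + 1)) : δ (a s) = 0 := by
  by_cases hs : E.e (s : ℕ) = 0
  · rw [h0 s hs, map_zero]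
  · refine hsep _ ?_
    intro φ hφ
    have h1 := h φ hφ
    rw [d2k_dG, d2k_evG] at h1
    exact d2k_coef E n (fun s => φ (δ (a s))) h1 s hs

end gen

/-- the index set of the coordinates -/
abbrev D2I (l m B : ℕ) : Type :=
  (Fin (B + 1) × Fin (B + 1)) ⊕ (Fin (l * m + 1) ⊕ ((Fin l → Fin (B + 1)) × Fin (l * B + 1)))

/-- the point of the data -/
noncomputable def d2pt {k R : Type} [Field k] [CommRing R] [Algebra k R] {X : OneInfC k R}
    (E : DegB X) (l m B : ℕ) (lam : ℕ → ℕ → k) (u : R) (C : (Fin l → Fin (B + 1)) → R) :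
    D2I l m B → k
  | Sum.inl jt => lam (jt.1 : ℕ) (jt.2 : ℕ)
  | Sum.inr (Sum.inl s) => E.co (s : ℕ) u
  | Sum.inr (Sum.inr Is) => E.co (Is.2 : ℕ) (C Is.1)

/-- the core: no infinite set of points with a nonzero derivation -/
theorem d2k_core (k R A : Type) [Field k] [CommRing R] [IsDedekindDomain R]
    [Algebra k R] (X : OneInfC k R) (E : DegB X) (l m B : ℕ) (hl : (l : k) ≠ 0) (T : Finset ℕ)
    [CommRing A] [Algebra k A] (pts : Set (A →ₐ[k] k))
    (hsep : ∀ a : A, (∀ φ ∈ pts, φ a = 0) → a = 0) (δ : Derivation k A A)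
    (x : D2I l m B → A)
    (hx : ∀ φ ∈ pts, ∃ (J : Ideal R) (lam : ℕ → ℕ → k) (u : R)
      (C : (Fin l → Fin (B + 1)) → R), D2Data E l m B T J lam u C ∧
      ∀ i, φ (x i) = d2pt E l m B lam u C i) (i : D2I l m B) : δ (x i) = 0 := by
  classical
  choose! J lam u C hD hp using hx
  -- the generic elements
  obtain ⟨U, hUdef⟩ : ∃ U : A ⊗[k] R, U = d2kG E (l * m) fun s => x (Sum.inr (Sum.inl s)) :=
    ⟨_, rfl⟩
  obtain ⟨V, hVdef⟩ : ∃ V : Fin (B + 1) → A ⊗[k] R, V = fun j : Fin (B + 1) =>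
      (1 : A) ⊗ₜ[k] E.e (j : ℕ) - d2kG E B fun t => x (Sum.inl (j, t)) := ⟨_, rfl⟩
  obtain ⟨W, hWdef⟩ : ∃ W : (Fin l → Fin (B + 1)) → A ⊗[k] R, W = fun I =>
      d2kG E (l * B) fun s => x (Sum.inr (Sum.inr (I, s))) := ⟨_, rfl⟩
  have hu0 : ∀ φ ∈ pts, u φ ≠ 0 := by
    intro φ hφ h0
    have h1 := (hD φ hφ).lcu
    rw [h0, X.lc_zero] at h1
    exact zero_ne_one h1
  have evU : ∀ φ ∈ pts, evT φ U = u φ := by
    intro φ hφ
    rw [hUdef, d2k_evG]
    have h1 : ∀ s : Fin (l * m + 1), φ (x (Sum.inr (Sum.inl s))) • E.e (s : ℕ) =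
        E.co (s : ℕ) (u φ) • E.e (s : ℕ) := fun s => by rw [hp φ hφ]; rfl
    rw [Finset.sum_congr rfl fun s _ => h1 s]
    exact d2k_sum E (l * m) (u φ) (hD φ hφ).du.le
  have evV : ∀ φ ∈ pts, ∀ j, evT φ (V j) = vv E T (lam φ) (j : ℕ) := by
    intro φ hφ j
    rw [hVdef]
    show evT φ ((1 : A) ⊗ₜ[k] E.e (j : ℕ) - d2kG E B fun t => x (Sum.inl (j, t))) = _
    rw [map_sub, evT_tmul, map_one, one_smul, d2k_evG]
    have h1 : ∀ t : Fin (B + 1), φ (x (Sum.inl (j, t))) • E.e (t : ℕ) =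
        lam φ (j : ℕ) (t : ℕ) • E.e (t : ℕ) := fun t => by rw [hp φ hφ]; rfl
    rw [Finset.sum_congr rfl fun t _ => h1 t]
    exact d2k_vv E T (lam φ) B (hD φ hφ).hT (hD φ hφ).lam_zero (j : ℕ)
  have hdC : ∀ φ ∈ pts, ∀ I, X.d (C φ I) ≤ l * B := by
    intro φ hφ I
    by_cases h0 : C φ I = 0
    · rw [h0, X.d_zero]
      exact Nat.zero_le _
    · have h1 := (hD φ hφ).rel I
      have h2 := d2k_d_prod_le X l B (fun i => vv E T (lam φ) (I i : ℕ)) (fun i =>
        d2k_vv_le E T (lam φ) B (hD φ hφ).hT _ (by have := (I i).2; omega))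
      rw [h1, X.d_mul _ _ (hu0 φ hφ) h0] at h2
      omega
  have evW : ∀ φ ∈ pts, ∀ I, evT φ (W I) = C φ I := by
    intro φ hφ I
    rw [hWdef]
    show evT φ (d2kG E (l * B) fun s => x (Sum.inr (Sum.inr (I, s)))) = _
    rw [d2k_evG]
    have h1 : ∀ s : Fin (l * B + 1), φ (x (Sum.inr (Sum.inr (I, s)))) • E.e (s : ℕ) =
        E.co (s : ℕ) (C φ I) • E.e (s : ℕ) := fun s => by rw [hp φ hφ]; rfl
    rw [Finset.sum_congr rfl fun s _ => h1 s]
    exact d2k_sum E (l * B) (C φ I) (hdC φ hφ I)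
  have hspan : ∀ φ ∈ pts, Ideal.span (Set.range fun i => evT φ (V i)) = J φ := by
    intro φ hφ
    rw [(hD φ hφ).gens]
    congr 2
    funext j
    exact evV φ hφ j
  have hrel : ∀ I : Fin l → Fin (B + 1), ∏ j, V (I j) = U * W I := by
    intro I
    rw [← sub_eq_zero]
    refine evT_sep pts hsep _ ?_
    intro φ hφ
    rw [map_sub, map_mul, map_prod, evU φ hφ, evW φ hφ, sub_eq_zero]
    rw [Finset.prod_congr rfl fun j _ => evV φ hφ (I j)]
    exact (hD φ hφ).rel I
  -- the top coordinate of `U` is one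
  have htop : x (Sum.inr (Sum.inl (Fin.last (l * m)))) = 1 := by
    rw [← sub_eq_zero]
    refine hsep _ ?_
    intro φ hφ
    rw [map_sub, map_one, hp φ hφ]
    show E.co (l * m) (u φ) - 1 = 0
    have h1 := E.co_top (u φ)
    rw [(hD φ hφ).du, (hD φ hφ).lcu] at h1
    rw [h1, sub_self]
  have hdeg : ∀ φ ∈ pts, evT φ (dT δ U) = 0 ∨ X.d (evT φ (dT δ U)) < X.d (evT φ U) := by
    intro φ hφ
    rw [evU φ hφ, (hD φ hφ).du, hUdef, d2k_dG, d2k_evG, Fin.sum_univ_castSucc, htop]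
    rw [Derivation.map_one_eq_zero, map_zero, zero_smul, add_zero]
    rcases Nat.eq_zero_or_pos (l * m) with h0 | h0
    · left
      refine Finset.sum_eq_zero ?_
      intro s _
      exact absurd s.2 (by omega)
    · right
      have h1 : (∑ s : Fin (l * m), φ (δ (x (Sum.inr (Sum.inl s.castSucc)))) •
          E.e (s.castSucc : ℕ)) ∈ degS X (l * m - 1) := by
        refine Submodule.sum_mem _ ?_
        intro s _
        refine Submodule.smul_mem _ _ (d2k_e_mem E _ _ ?_)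
        have := s.2
        show (s : ℕ) ≤ l * m - 1
        omega
      rw [mem_degS] at h1
      omega
  have hmin : ∀ φ ∈ pts, ∀ f : R, (∀ i, f * evT φ (V i) ∈ Ideal.span {evT φ U}) →
      X.d f < X.d (evT φ U) → f = 0 := by
    intro φ hφ f hf hd
    rw [evU φ hφ] at hd
    refine d2_min X (J φ) (hD φ hφ).ne (hD φ hφ).min (u φ) (hu0 φ hφ) f ?_ hd
    intro y hy
    rw [← hspan φ hφ] at hy
    refine Submodule.span_induction (p := fun y _ => f * y ∈ Ideal.span {u φ}) ?_ ?_ ?_ ?_ hy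
    · rintro _ ⟨i, rfl⟩
      have h1 := hf i
      rw [evU φ hφ] at h1
      exact h1
    · rw [mul_zero]
      exact Submodule.zero_mem _
    · intro a b _ _ ha hb
      rw [mul_add]
      exact Submodule.add_mem _ ha hb
    · intro c a _ ha
      rw [smul_eq_mul, mul_left_comm]
      exact Ideal.mul_mem_left _ _ ha
  obtain ⟨h1, h2⟩ := d2_core k R A X l hl pts hsep δ (Fin (B + 1)) U V W hrel
    (fun φ hφ => by rw [evU φ hφ]; exact hu0 φ hφ)
    (fun φ hφ => by rw [hspan φ hφ, evU φ hφ]; exact (hD φ hφ).pow) hmin hdeg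
  -- the coordinates of `V`
  have hxT : ∀ (j t : Fin (B + 1)), (t : ℕ) ∉ T → x (Sum.inl (j, t)) = 0 := by
    intro j t ht
    refine hsep _ ?_
    intro φ hφ
    rw [hp φ hφ]
    exact (hD φ hφ).lam_zero _ _ ht
  have hV : ∀ (j t : Fin (B + 1)), δ (x (Sum.inl (j, t))) = 0 := by
    intro j t
    by_cases ht : (t : ℕ) ∈ T
    · refine hsep _ ?_
      intro φ hφ
      have h3 := h2 φ hφ j
      rw [hspan φ hφ, hVdef] at h3
      have h4 : evT φ (dT δ ((1 : A) ⊗ₜ[k] E.e (j : ℕ) - d2kG E B fun t => x (Sum.inl (j, t)))) =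
          -∑ t : Fin (B + 1), φ (δ (x (Sum.inl (j, t)))) • E.e (t : ℕ) := by
        rw [map_sub, dT_tmul, Derivation.map_one_eq_zero, TensorProduct.zero_tmul, zero_sub,
          map_neg, d2k_dG, d2k_evG]
      have h5 : ∑ t : Fin (B + 1), φ (δ (x (Sum.inl (j, t)))) • E.e (t : ℕ) ∈ J φ := by
        have h6 := (J φ).neg_mem h3
        rw [h4, neg_neg] at h6
        exact h6
      let c : ℕ → k := fun t => if h : t < B + 1 then φ (δ (x (Sum.inl (j, ⟨t, h⟩)))) else 0
      have hc : ∀ t : Fin (B + 1), c (t : ℕ) = φ (δ (x (Sum.inl (j, t)))) := by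
        intro t
        show (if h : (t : ℕ) < B + 1 then φ (δ (x (Sum.inl (j, ⟨(t : ℕ), h⟩)))) else 0) = _
        rw [dif_pos t.2]
      have h7 : ∑ t : Fin (B + 1), φ (δ (x (Sum.inl (j, t)))) • E.e (t : ℕ) =
          ∑ t ∈ T, c t • E.e t := by
        rw [Finset.sum_congr rfl fun t _ => by rw [← hc t]]
        rw [← Finset.sum_range (fun t => c t • E.e t)]
        symm
        refine Finset.sum_subset (hD φ hφ).hT ?_
        intro s hs hsT
        have hs' := Finset.mem_range.1 hs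
        have h8 : c s = 0 := by
          show (if h : s < B + 1 then φ (δ (x (Sum.inl (j, ⟨s, h⟩)))) else 0) = 0
          rw [dif_pos hs', hxT j ⟨s, hs'⟩ hsT, map_zero, map_zero]
        rw [h8, zero_smul]
      rw [h7] at h5
      have h9 := (hD φ hφ).ind c h5 (t : ℕ) ht
      rw [hc] at h9
      exact h9
    · rw [hxT j t ht, map_zero]
  have hdV : ∀ j, dT δ (V j) = 0 := by
    intro j
    rw [hVdef]
    show dT δ ((1 : A) ⊗ₜ[k] E.e (j : ℕ) - d2kG E B fun t => x (Sum.inl (j, t))) = 0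
    rw [map_sub, dT_tmul, Derivation.map_one_eq_zero, TensorProduct.zero_tmul, zero_sub, d2k_dG,
      neg_eq_zero]
    unfold d2kG
    refine Finset.sum_eq_zero ?_
    intro t _
    show (δ (x (Sum.inl (j, t)))) ⊗ₜ[k] E.e (t : ℕ) = 0
    rw [hV j t, TensorProduct.zero_tmul]
  have hdW : ∀ I, ∀ φ ∈ pts, evT φ (dT δ (W I)) = 0 := by
    intro I φ hφ
    have h3 := congrArg (dT δ) (hrel I)
    rw [dT_prod, dT_mul, h1, zero_mul, add_zero] at h3
    have h4 : ∑ j, dT δ (V (I j)) * ∏ i ∈ Finset.univ.erase j, V (I i) = 0 := by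
      refine Finset.sum_eq_zero ?_
      intro j _
      rw [hdV, zero_mul]
    rw [h4] at h3
    have h5 := congrArg (evT φ) h3
    rw [map_zero, map_mul, evU φ hφ] at h5
    by_contra h6
    exact X.mul_ne _ _ (hu0 φ hφ) h6 h5.symm
  -- conclusion
  rcases i with ⟨j, t⟩ | s | ⟨I, s⟩
  · exact hV j t
  · refine d2k_zero E pts hsep δ (l * m) (fun s => x (Sum.inr (Sum.inl s))) ?_ ?_ s
    · intro s hs
      refine hsep _ ?_
      intro φ hφ
      rw [hp φ hφ]
      exact E.co_zero _ _ hs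
    · intro φ hφ
      rw [← hUdef, h1, map_zero]
  · refine d2k_zero E pts hsep δ (l * B) (fun s => x (Sum.inr (Sum.inr (I, s)))) ?_ ?_ s
    · intro s hs
      refine hsep _ ?_
      intro φ hφ
      rw [hp φ hφ]
      exact E.co_zero _ _ hs
    · intro φ hφ
      have h3 := hdW I φ hφ
      rw [hWdef] at h3
      exact h3

/-- The coordinates `lam j t` (`j, t ≤ B`), `co s u` (`s ≤ l m`), `co s (C I)` (`s ≤ l B`) of `J` are a point of `ι → k`, which
determines `J`. `d2_select`, `d2_der`; `A = MvPolynomial ι k ⧸ vI S'`, `pts` = evaluations at the points of `S'`; `U, V, C` the generic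
elements; `d2_core` (`hmin`: `d2_min`; `hdeg`: the coordinate `co (l m) u = lc u = 1` is constant). `evT (dT (V j))` is a
combination of the `e_t`, `t ∈ T`, in `J`, so `δ (lam j t) = 0` (`ind`), `dT (V j) = 0`, `U * dT (C I) = 0`, `δ = 0` on all the
coordinates: contradiction. -/
theorem d2_fin (k R : Type) [Field k] [IsAlgClosed k] [CommRing R] [IsDedekindDomain R]
    [Algebra k R] (X : OneInfC k R) (E : DegB X) (l m B : ℕ) (hl : (l : k) ≠ 0) (T : Finset ℕ) :
    {J : Ideal R | ∃ (lam : ℕ → ℕ → k) (u : R) (C : (Fin l → Fin (B + 1)) → R),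
      D2Data E l m B T J lam u C}.Finite := by
  classical
  by_contra hinf
  have hinf' : {J : Ideal R | ∃ (lam : ℕ → ℕ → k) (u : R) (C : (Fin l → Fin (B + 1)) → R),
      D2Data E l m B T J lam u C}.Infinite := hinf
  have hI : Infinite {J : Ideal R // ∃ (lam : ℕ → ℕ → k) (u : R)
      (C : (Fin l → Fin (B + 1)) → R), D2Data E l m B T J lam u C} := hinf'.to_subtype
  have hch : ∀ J : {J : Ideal R // ∃ (lam : ℕ → ℕ → k) (u : R)
      (C : (Fin l → Fin (B + 1)) → R), D2Data E l m B T J lam u C},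
      ∃ (lam : ℕ → ℕ → k) (u : R) (C : (Fin l → Fin (B + 1)) → R),
        D2Data E l m B T J.1 lam u C := fun J => J.2
  choose lam u C hD using hch
  set pt : {J : Ideal R // ∃ (lam : ℕ → ℕ → k) (u : R)
      (C : (Fin l → Fin (B + 1)) → R), D2Data E l m B T J lam u C} → (D2I l m B → k) :=
    fun J => d2pt E l m B (lam J) (u J) (C J) with hpt
  have hinj : Function.Injective pt := by
    intro J J' h
    apply Subtype.ext
    rw [(hD J).gens, (hD J').gens]
    congr 2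
    funext j
    unfold vv
    congr 1
    refine Finset.sum_congr rfl ?_
    intro t ht
    have ht' := Finset.mem_range.1 ((hD J).hT ht)
    have h1 := congrFun h (Sum.inl (j, ⟨t, ht'⟩))
    have h2 : lam J (j : ℕ) t = lam J' (j : ℕ) t := h1
    rw [h2]
  have hS : (Set.range pt).Infinite := Set.infinite_range_of_injective hinj
  obtain ⟨S', hS'S, hS'inf, hprime⟩ := d2_select (Set.range pt) hS
  obtain ⟨δ, i, hδ⟩ := d2_der S' hS'inf hprime
  refine hδ ?_
  refine d2k_core k R (MvPolynomial (D2I l m B) k ⧸ vI S') X E l m B hl T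
    {φ | ∃ P ∈ S', ∀ i, φ (Ideal.Quotient.mk (vI S') (MvPolynomial.X i)) = P i} ?_ δ
    (fun i => Ideal.Quotient.mk (vI S') (MvPolynomial.X i)) ?_ i
  · intro a ha
    obtain ⟨f, rfl⟩ := Ideal.Quotient.mk_surjective a
    rw [Ideal.Quotient.eq_zero_iff_mem]
    intro P hP
    have hlift : ∀ g ∈ vI S', (MvPolynomial.aeval P : MvPolynomial (D2I l m B) k →ₐ[k] k) g = 0 := by
      intro g hg
      have h1 := hg P hP
      rw [MvPolynomial.aeval_eq_eval]
      exact h1
    have h2 := ha (Ideal.Quotient.liftₐ (vI S') (MvPolynomial.aeval P) hlift)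
      ⟨P, hP, fun i => by
        rw [Ideal.Quotient.liftₐ_apply, Ideal.Quotient.lift_mk]
        exact MvPolynomial.aeval_X P i⟩
    rw [Ideal.Quotient.liftₐ_apply, Ideal.Quotient.lift_mk] at h2
    have h3 : (MvPolynomial.aeval P : MvPolynomial (D2I l m B) k →ₐ[k] k) f = 0 := h2
    rw [MvPolynomial.aeval_eq_eval] at h3
    exact h3
  · rintro φ ⟨P, hP, hφ⟩
    obtain ⟨J, rfl⟩ := hS'S hP
    exact ⟨J.1, lam J, u J, C J, hD J, hφ⟩

end Pool.Agent.AB3
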