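import Pool.Agent.Lib.MP_5de024_nt.S.D2J
import Pool.Agent.Lib.MP_5de024_nt.S.D2K

/-!
# DIV-D2: the `l`-torsion of the class group over an algebraically closed field is finite
-/

set_option autoImplicit false
set_option linter.unusedSectionVars false

namespace Pool.Agent.AB3

/-- **Interface of DIV-D2.** -/
theorem d2_main (k R : Type) [Field k] [IsAlgClosed k] [CommRing R] [IsDedekindDomain R]
    [Algebra k R] [Algebra.FiniteType k R] (X : OneInfC k R) (l : ℕ) (hl : (l : k) ≠ 0) :
    {c : ClassGroup R | c ^ l = 1}.Finite := by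
  by_contra hinf
  obtain ⟨E⟩ := exists_degB X
  have hl0 : 0 < l := by
    rcases Nat.eq_zero_or_pos l with h | h
    · rw [h, Nat.cast_zero] at hl
      exact absurd rfl hl
    · exact h
  obtain ⟨m, B, T, h⟩ := d2_data k R X E l hl0 hinf
  exact h (d2_fin k R X E l m B hl T)

end Pool.Agent.AB3
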