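import Pool.Agent.Lib.MP_5de024_nt.S.D2A2

/-!
# DIV-D2: colength in Dedekind domains, small representatives of the classes
-/

set_option autoImplicit false
set_option linter.unusedSectionVars false

namespace Pool.Agent.AB3

open nonZeroDivisors

variable {k R : Type} [Field k] [CommRing R] [IsDedekindDomain R] [Algebra k R]
  (X : OneInfC k R)

/-- `r a ∈ I J` iff `r ∈ J`, if `I = (a) + I J` -/
theorem mul_mem_iff_of_sup (I J : Ideal R) (hI : I ≠ ⊥) (a : R)
    (ha : I * J ⊔ Ideal.span {a} = I) (r : R) : r * a ∈ I * J ↔ r ∈ J := by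
  have haI : a ∈ I := by
    rw [← ha]
    exact Ideal.mem_sup_right (Ideal.mem_span_singleton_self a)
  constructor
  · intro h
    have h1 : Ideal.span {r} * I ≤ I * J := by
      rw [← ha, Ideal.mul_sup, Ideal.span_singleton_mul_span_singleton, ha]
      refine sup_le Ideal.mul_le_right ?_
      rw [Ideal.span_singleton_le_iff_mem]
      exact h
    have h2 : I * J ∣ I * Ideal.span {r} := by
      rw [Ideal.dvd_iff_le, mul_comm I (Ideal.span {r})]
      exact h1
    have h3 : J ∣ Ideal.span {r} := (mul_dvd_mul_iff_left (a := I) hI).1 h2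
    exact Ideal.le_of_dvd h3 (Ideal.mem_span_singleton_self r)
  · intro h
    rw [mul_comm r a]
    exact Ideal.mul_mem_mul haI h

include X in
/-- `dim R / I J = dim R / I + dim I / I J` and `I / I J ≅ R / J`: choose `a` with `I = (a) + I J`
(`IsDedekindDomain.exists_sup_span_eq`), the map `R → I / I J`, `r ↦ r a`, is onto with kernel `J`
(`(a) = I K` with `K` prime to `J`). All quotients are finite dimensional by `fin_quot`. -/
theorem col_mul (I J : Ideal R) (hI : I ≠ ⊥) (hJ : J ≠ ⊥) :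
    col k (I * J) = col k I + col k J := by
  have hIJ : I * J ≠ ⊥ := mul_ne_zero hI hJ
  obtain ⟨a, ha⟩ := IsDedekindDomain.exists_sup_span_eq (I := I * J) (J := I) Ideal.mul_le_left hIJ
  have fIJ : Module.Finite k (R ⧸ I * J) := fin_quot X _ hIJ
  have key := mul_mem_iff_of_sup I J hI a ha
  have haI : a ∈ I := by
    rw [← ha]
    exact Ideal.mem_sup_right (Ideal.mem_span_singleton_self a)
  -- the map `R / J → R / I J`
  let ψ : R →ₗ[R] R ⧸ I * J := (Submodule.mkQ (I * J)).comp (LinearMap.toSpanSingleton R R a)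
  have hψ : ∀ r, ψ r = Ideal.Quotient.mk (I * J) (r * a) := fun r => rfl
  have hψ0 : ∀ r, ψ r = 0 ↔ r ∈ J := by
    intro r
    rw [hψ, Ideal.Quotient.eq_zero_iff_mem]
    exact key r
  let φ : (R ⧸ J) →ₗ[R] R ⧸ I * J := Submodule.liftQ J ψ (fun r hr => (hψ0 r).2 hr)
  have hφ : ∀ r : R, φ (Ideal.Quotient.mk J r) = Ideal.Quotient.mk (I * J) (r * a) := fun r => rfl
  let φk : (R ⧸ J) →ₗ[k] R ⧸ I * J := φ.restrictScalars k
  let π : (R ⧸ I * J) →ₗ[k] R ⧸ I :=
    (Ideal.Quotient.factorₐ k (Ideal.mul_le_left : I * J ≤ I)).toLinearMap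
  have hπ : ∀ r : R, π (Ideal.Quotient.mk (I * J) r) = Ideal.Quotient.mk I r := fun r => rfl
  have hφinj : Function.Injective φk := by
    rw [injective_iff_map_eq_zero]
    intro x hx
    obtain ⟨r, rfl⟩ := Ideal.Quotient.mk_surjective x
    have h1 : Ideal.Quotient.mk (I * J) (r * a) = 0 := hx
    rw [Ideal.Quotient.eq_zero_iff_mem, key] at h1
    exact Ideal.Quotient.eq_zero_iff_mem.2 h1
  have hπs : Function.Surjective π := by
    intro y
    obtain ⟨r, rfl⟩ := Ideal.Quotient.mk_surjective y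
    exact ⟨Ideal.Quotient.mk _ r, rfl⟩
  have hker : LinearMap.ker π = LinearMap.range φk := by
    ext x
    rw [LinearMap.mem_ker, LinearMap.mem_range]
    constructor
    · intro hx
      obtain ⟨s, rfl⟩ := Ideal.Quotient.mk_surjective x
      rw [hπ, Ideal.Quotient.eq_zero_iff_mem, ← ha] at hx
      obtain ⟨u, hu, v, hv, huv⟩ := Submodule.mem_sup.1 hx
      obtain ⟨r, rfl⟩ := Ideal.mem_span_singleton'.1 hv
      refine ⟨Ideal.Quotient.mk J r, ?_⟩
      show Ideal.Quotient.mk (I * J) (r * a) = Ideal.Quotient.mk (I * J) s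
      rw [Ideal.Quotient.mk_eq_mk_iff_sub_mem, ← huv]
      have h2 : r * a - (u + r * a) = -u := by ring
      rw [h2]
      exact (I * J).neg_mem hu
    · rintro ⟨y, rfl⟩
      obtain ⟨r, rfl⟩ := Ideal.Quotient.mk_surjective y
      show Ideal.Quotient.mk I (r * a) = 0
      rw [Ideal.Quotient.eq_zero_iff_mem]
      exact I.mul_mem_left r haI
  have h1 := LinearMap.finrank_range_add_finrank_ker π
  rw [LinearMap.range_eq_top.2 hπs, finrank_top, hker, LinearMap.finrank_range_of_inj hφinj] at h1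
  exact h1.symm

theorem eqv_iff (I J : (Ideal R)⁰) :
    Eqv (I : Ideal R) (J : Ideal R) ↔ ClassGroup.mk0 I = ClassGroup.mk0 J := by
  rw [ClassGroup.mk0_eq_mk0_iff]
  constructor
  · rintro ⟨a, b, ha, hb, h⟩
    exact ⟨a, b, ha, hb, h⟩
  · rintro ⟨a, b, ha, hb, h⟩
    exact ⟨a, b, ha, hb, h⟩

end Pool.Agent.AB3
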