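import Mathlib

/-!
# Tensor products of domains (piece GeoI)
-/

set_option autoImplicit false
set_option linter.unusedSectionVars false

namespace Pool.Agent.AB3

open TensorProduct

/-- a nonzero element of a finitely generated domain over an algebraically closed field is nonzero
at some point -/
theorem geoI_pt (k D : Type) [Field k] [IsAlgClosed k] [CommRing D] [IsDomain D] [Algebra k D]
    [Algebra.FiniteType k D] (d : D) (hd : d ≠ 0) : ∃ φ : D →ₐ[k] k, φ d ≠ 0 := by
  have hJ : IsJacobsonRing D := isJacobsonRing_of_finiteType (A := k)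
  have h1 : (⊥ : Ideal D).jacobson = ⊥ := by
    rw [← Ideal.radical_eq_jacobson]
    exact (Ideal.isPrime_bot).radical
  have h2 : d ∉ (⊥ : Ideal D).jacobson := by
    rw [h1]
    exact hd
  rw [Ideal.jacobson, Ideal.mem_sInf] at h2
  push Not at h2
  obtain ⟨m, ⟨-, hm⟩, hdm⟩ := h2
  let fld : Field (D ⧸ m) := Ideal.Quotient.field m
  have hft : Algebra.FiniteType k (D ⧸ m) :=
    Algebra.FiniteType.of_surjective (Ideal.Quotient.mkₐ k m) (Ideal.Quotient.mkₐ_surjective k m)
  have hfin : Module.Finite k (D ⧸ m) := finite_of_finite_type_of_isJacobsonRing k (D ⧸ m)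
  have hbij : Function.Bijective (algebraMap k (D ⧸ m)) :=
    IsAlgClosed.algebraMap_bijective_of_isIntegral
  let e : k ≃ₐ[k] (D ⧸ m) := AlgEquiv.ofBijective (Algebra.ofId k (D ⧸ m)) hbij
  refine ⟨(e.symm : (D ⧸ m) →ₐ[k] k).comp (Ideal.Quotient.mkₐ k m), ?_⟩
  intro h
  have h3 : e.symm (Ideal.Quotient.mkₐ k m d) = 0 := h
  have h4 : Ideal.Quotient.mkₐ k m d = 0 := by
    have := congrArg e h3
    simpa using this
  exact hdm (Ideal.Quotient.eq_zero_iff_mem.1 h4)

/-- the case of a finitely generated domain `D` -/
theorem geoI_fg (k A D : Type) [Field k] [IsAlgClosed k] [CommRing A] [IsDomain A]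
    [Algebra k A] [CommRing D] [IsDomain D] [Algebra k D] [Algebra.FiniteType k D] :
    NoZeroDivisors (D ⊗[k] A) := by
  let b := Module.Basis.ofVectorSpace k A
  let B := Algebra.TensorProduct.basis D b
  constructor
  intro z w hzw
  by_contra hcon
  push Not at hcon
  obtain ⟨hz, hw⟩ := hcon
  obtain ⟨i, hi⟩ : ∃ i, B.repr z i ≠ 0 := by
    by_contra h
    push Not at h
    apply hz
    apply B.repr.injective
    ext i
    simpa using h i
  obtain ⟨j, hj⟩ : ∃ j, B.repr w j ≠ 0 := by
    by_contra h
    push Not at h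
    apply hw
    apply B.repr.injective
    ext i
    simpa using h i
  obtain ⟨φ, hφ⟩ := geoI_pt k D (B.repr z i * B.repr w j) (mul_ne_zero hi hj)
  rw [map_mul] at hφ
  let Φ : D ⊗[k] A →ₐ[k] A :=
    Algebra.TensorProduct.lift ((Algebra.ofId k A).comp φ) (AlgHom.id k A)
      (fun _ _ => Commute.all _ _)
  have key : ∀ (x : D ⊗[k] A) l, b.repr (Φ x) l = φ (B.repr x l) := by
    intro x l
    induction x using TensorProduct.induction_on with
    | zero => simp
    | tmul d a =>
      have h1 : Φ (d ⊗ₜ[k] a) = φ d • a := by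
        simp [Φ, Algebra.ofId_apply, Algebra.smul_def]
      rw [h1]
      simp only [B, Algebra.TensorProduct.basis_repr_tmul, map_smul, Finsupp.smul_apply,
        smul_eq_mul, Finsupp.mapRange_apply, map_mul]
      simp
    | add x y hx hy =>
      simp only [map_add, Finsupp.add_apply, hx, hy]
  have h0 : Φ z * Φ w = 0 := by
    rw [← map_mul, hzw, map_zero]
  rcases mul_eq_zero.1 h0 with h | h
  · apply hφ
    have := key z i
    rw [h] at this
    simp only [map_zero, Finsupp.coe_zero, Pi.zero_apply] at this
    rw [← this, zero_mul]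
  · apply hφ
    have := key w j
    rw [h] at this
    simp only [map_zero, Finsupp.coe_zero, Pi.zero_apply] at this
    rw [← this, mul_zero]

theorem geoI_lift (k A F : Type) [Field k] [CommRing A] [Algebra k A] [Field F] [Algebra k F]
    (D1 D : Subalgebra k F) (hle : D1 ≤ D) (z : F ⊗[k] A)
    (hz : z ∈ LinearMap.range (LinearMap.rTensor A D1.val.toLinearMap)) :
    ∃ z' : D ⊗[k] A, Algebra.TensorProduct.map D.val (AlgHom.id k A) z' = z := by
  obtain ⟨z1, rfl⟩ := hz
  refine ⟨Algebra.TensorProduct.map (Subalgebra.inclusion hle) (AlgHom.id k A) z1, ?_⟩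
  induction z1 using TensorProduct.induction_on with
  | zero => simp
  | tmul d a => simp
  | add x y hx hy =>
    simp only [map_add] at hx hy ⊢
    rw [hx, hy]

/-- reduction to finitely generated subalgebras -/
theorem geoI_red (k A F : Type) [Field k] [CommRing A] [Algebra k A] [Field F] [Algebra k F]
    (h : ∀ D : Subalgebra k F, D.FG → NoZeroDivisors (D ⊗[k] A)) :
    NoZeroDivisors (F ⊗[k] A) := by
  constructor
  intro z w hzw
  obtain ⟨D1, hD1, hz1⟩ := TensorProduct.Algebra.exists_of_fg z
  obtain ⟨D2, hD2, hw2⟩ := TensorProduct.Algebra.exists_of_fg w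
  have hD : (D1 ⊔ D2).FG := hD1.sup hD2
  have hf : Function.Injective
      (Algebra.TensorProduct.map (D1 ⊔ D2).val (AlgHom.id k A)) := by
    have := Module.Flat.rTensor_preserves_injective_linearMap (M := A)
      (D1 ⊔ D2).val.toLinearMap Subtype.val_injective
    exact this
  obtain ⟨z', hz'⟩ := geoI_lift k A F D1 (D1 ⊔ D2) le_sup_left z hz1
  obtain ⟨w', hw'⟩ := geoI_lift k A F D2 (D1 ⊔ D2) le_sup_right w hw2
  have h0 : z' * w' = 0 := by
    apply hf
    rw [map_mul, hz', hw', hzw, map_zero]
  have := h (D1 ⊔ D2) hD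
  rcases mul_eq_zero.1 h0 with h1 | h1
  · left; rw [← hz', h1, map_zero]
  · right; rw [← hw', h1, map_zero]

/-- a domain over an algebraically closed field stays a domain -/
theorem dom_closed (k A F : Type) [Field k] [IsAlgClosed k] [CommRing A] [IsDomain A]
    [Algebra k A] [Field F] [Algebra k F] : IsDomain (F ⊗[k] A) := by
  have h1 : NoZeroDivisors (F ⊗[k] A) := by
    apply geoI_red
    intro D hD
    have : Algebra.FiniteType k D := (Subalgebra.fg_iff_finiteType D).1 hD
    exact geoI_fg k A D
  have h2 : Nontrivial (F ⊗[k] A) :=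
    Algebra.TensorProduct.nontrivial_of_algebraMap_injective_of_flat_left k F A
      (algebraMap k A).injective
  exact NoZeroDivisors.to_isDomain _

open Polynomial in
/-- an irreducible polynomial over `k` stays irreducible over `K` -/
theorem geoI_irr (k K : Type) [Field k] [Field K] [Algebra k K]
    (hk : ∀ z : K, IsAlgebraic k z → ∃ c : k, algebraMap k K c = z) (f : k[X])
    (hf : Irreducible f) (hm : f.Monic) : Irreducible (f.map (algebraMap k K)) := by
  have hpos : 0 < f.natDegree := hf.natDegree_pos
  have hFm : (f.map (algebraMap k K)).Monic := hm.map _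
  have hnu : ¬ IsUnit (f.map (algebraMap k K)) := by
    intro h
    have h1 := natDegree_eq_zero_of_isUnit h
    rw [natDegree_map] at h1
    omega
  obtain ⟨g, hg, hgd⟩ := WfDvdMonoid.exists_irreducible_factor hnu hFm.ne_zero
  have hg0 : g ≠ 0 := hg.ne_zero
  have hg1m : (g * C g.leadingCoeff⁻¹).Monic := monic_mul_leadingCoeff_inv hg0
  have hassoc : Associated (g * C g.leadingCoeff⁻¹) g := by
    rw [associated_mul_isUnit_left_iff]
    exact isUnit_C.mpr (inv_ne_zero <| leadingCoeff_ne_zero.mpr hg0).isUnit
  have hg1i : Irreducible (g * C g.leadingCoeff⁻¹) := hassoc.symm.irreducible hg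
  have hg1d : g * C g.leadingCoeff⁻¹ ∣ f.map (algebraMap k K) := hassoc.dvd.trans hgd
  set g1 := g * C g.leadingCoeff⁻¹ with hg1
  have hl : g1 ∈ lifts (algebraMap (integralClosure k K) K) :=
    integralClosure.mem_lifts_of_monic_of_dvd_map K hm hg1m hg1d
  have hl2 : g1 ∈ lifts (algebraMap k K) := by
    rw [lifts_iff_coeff_lifts] at hl ⊢
    intro n
    obtain ⟨c, hc⟩ := hl n
    have hci : IsIntegral k (g1.coeff n) := by
      rw [← hc]
      exact c.2
    obtain ⟨c0, hc0⟩ := hk _ hci.isAlgebraic
    exact ⟨c0, hc0⟩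
  obtain ⟨g0, hg0'⟩ := (mem_lifts _).1 hl2
  have hd : g0 ∣ f := by
    rw [← map_dvd_map' (algebraMap k K), hg0']
    exact hg1d
  have hnu0 : ¬ IsUnit g0 := by
    intro h
    apply hg1i.not_isUnit
    rw [← hg0']
    exact h.map (mapRingHom (algebraMap k K))
  have hass : Associated g0 f := by
    rcases hf.dvd_iff.1 hd with h | h
    · exact absurd h hnu0
    · exact h.symm
  have hass2 : Associated g1 (f.map (algebraMap k K)) := by
    rw [← hg0']
    exact hass.map (mapRingHom (algebraMap k K))
  exact hass2.irreducible hg1i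

open Polynomial in
theorem geoI_fin (k K D : Type) [Field k] [Finite k] [Field K] [Algebra k K]
    (hk : ∀ z : K, IsAlgebraic k z → ∃ c : k, algebraMap k K c = z) [Field D] [Algebra k D]
    [FiniteDimensional k D] : NoZeroDivisors (D ⊗[k] K) := by
  let pb := Field.powerBasisOfFiniteOfSeparable k D
  let f := minpoly k pb.gen
  have hint : IsIntegral k pb.gen := Algebra.IsIntegral.isIntegral pb.gen
  have hfirr : Irreducible f := minpoly.irreducible hint
  have hfm : f.Monic := minpoly.monic hint
  have hirr := geoI_irr k K hk f hfirr hfm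
  have fact : Fact (Irreducible (f.map (algebraMap k K))) := ⟨hirr⟩
  let L := AdjoinRoot (f.map (algebraMap k K))
  have hroot : aeval (AdjoinRoot.root (f.map (algebraMap k K))) f = 0 := by
    have h1 := AdjoinRoot.eval₂_root (f.map (algebraMap k K))
    rw [eval₂_map] at h1
    rw [aeval_def]
    exact h1
  let φ : D →ₐ[k] L := pb.lift (AdjoinRoot.root (f.map (algebraMap k K))) hroot
  let Ψ : K ⊗[k] D →ₐ[K] L := Algebra.TensorProduct.lift (Algebra.ofId K L) φ
    (fun _ _ => Commute.all _ _)
  have hsurj : Function.Surjective Ψ := by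
    rw [← AlgHom.range_eq_top, eq_top_iff, ← AdjoinRoot.adjoinRoot_eq_top]
    apply Algebra.adjoin_le
    rintro x hx
    rw [Set.mem_singleton_iff] at hx
    subst hx
    refine ⟨1 ⊗ₜ[k] pb.gen, ?_⟩
    simp [Ψ, φ]
  have hne : f.map (algebraMap k K) ≠ 0 := (hfm.map _).ne_zero
  have hfinL : FiniteDimensional K L := (AdjoinRoot.powerBasis hne).finite
  have hdim : Module.finrank K (K ⊗[k] D) = Module.finrank K L := by
    rw [Module.finrank_baseChange, (AdjoinRoot.powerBasis hne).finrank,
      AdjoinRoot.powerBasis_dim, natDegree_map, pb.finrank, ← pb.natDegree_minpoly]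
  have hinj : Function.Injective Ψ := by
    have := (LinearMap.injective_iff_surjective_of_finrank_eq_finrank
      (f := Ψ.toLinearMap) hdim).2 hsurj
    exact this
  have hinj2 : Function.Injective (fun x : D ⊗[k] K => Ψ (Algebra.TensorProduct.comm k D K x)) :=
    hinj.comp (Algebra.TensorProduct.comm k D K).injective
  exact hinj2.noZeroDivisors _ (by simp) (by intro x y; simp)

/-- if the finite field `k` is algebraically closed in the field `K` then `F ⊗ K` is a domain for
all extensions `F` of `k` -/
theorem dom_geom (k K F : Type) [Field k] [Finite k] [Field K] [Algebra k K]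
    (hk : ∀ z : K, IsAlgebraic k z → ∃ c : k, algebraMap k K c = z) [Field F] [Algebra k F] :
    IsDomain (F ⊗[k] K) := by
  have h1 : NoZeroDivisors (AlgebraicClosure k ⊗[k] K) := by
    apply geoI_red
    intro D hD
    have : Algebra.FiniteType k D := (Subalgebra.fg_iff_finiteType D).1 hD
    have : Algebra.IsIntegral k D := by
      constructor
      intro x
      have h2 : IsIntegral k (x : AlgebraicClosure k) := Algebra.IsIntegral.isIntegral _
      exact (isIntegral_algHom_iff D.val Subtype.val_injective).1 h2
    have : Module.Finite k D := Algebra.IsIntegral.finite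
    let fld : Field D := fieldOfFiniteDimensional k D
    exact geoI_fin k K D hk
  have h1n : Nontrivial (AlgebraicClosure k ⊗[k] K) :=
    Algebra.TensorProduct.nontrivial_of_algebraMap_injective_of_flat_left k _ K
      (algebraMap k K).injective
  have h1d : IsDomain (AlgebraicClosure k ⊗[k] K) := NoZeroDivisors.to_isDomain _
  let emb : AlgebraicClosure k →ₐ[k] AlgebraicClosure F := IsAlgClosed.lift
  let alg : Algebra (AlgebraicClosure k) (AlgebraicClosure F) := emb.toRingHom.toAlgebra
  have tow : IsScalarTower k (AlgebraicClosure k) (AlgebraicClosure F) :=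
    IsScalarTower.of_algebraMap_eq (fun x => (emb.commutes x).symm)
  have h2 : IsDomain (AlgebraicClosure F ⊗[AlgebraicClosure k] (AlgebraicClosure k ⊗[k] K)) :=
    dom_closed _ _ _
  let e := Algebra.TensorProduct.cancelBaseChange k (AlgebraicClosure k) (AlgebraicClosure k)
    (AlgebraicClosure F) K
  have h3 : IsDomain (AlgebraicClosure F ⊗[k] K) := e.symm.toMulEquiv.isDomain _
  have hf : Function.Injective
      (Algebra.TensorProduct.map (IsScalarTower.toAlgHom k F (AlgebraicClosure F))
        (AlgHom.id k K)) := by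
    have := Module.Flat.rTensor_preserves_injective_linearMap (M := K)
      (IsScalarTower.toAlgHom k F (AlgebraicClosure F)).toLinearMap
      (algebraMap F (AlgebraicClosure F)).injective
    exact this
  have h4 : NoZeroDivisors (F ⊗[k] K) :=
    hf.noZeroDivisors _ (map_zero _) (map_mul _)
  have h5 : Nontrivial (F ⊗[k] K) :=
    Algebra.TensorProduct.nontrivial_of_algebraMap_injective_of_flat_left k F K
      (algebraMap k K).injective
  exact NoZeroDivisors.to_isDomain _

end Pool.Agent.AB3
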