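import Pool.Agent.Lib.MP_5de024_nt.S.Defs
import Pool.Agent.Lib.MP_5de024_nt.S.GeoI
import Pool.Agent.Lib.MP_5de024_nt.C.PolyK

/-!
# Models exist (piece GeoX)
-/

set_option autoImplicit false
set_option linter.unusedSectionVars false

namespace Pool.Agent.AB3

open Pool.Agent.AB Polynomial


/-- the extension of constants as a tensor product over `k` -/
theorem fam_X_domain (k R F : Type) [Field k] [CommRing R] [Algebra k[X] R] [Field F]
    [Algebra k F] [Algebra k R] [IsScalarTower k k[X] R]
    (h : IsDomain (TensorProduct k F R)) : IsDomain (Fam k F X R) := by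
  have hkR : ∀ c : k, algebraMap k R c = algebraMap k[X] R (C c) := fun c =>
    IsScalarTower.algebraMap_apply k k[X] R c
  -- the map to the tensor product
  let ρ : R →+* TensorProduct k F R :=
    (Algebra.TensorProduct.includeRight : R →ₐ[k] TensorProduct k F R).toRingHom
  let α : F[X] →+* TensorProduct k F R :=
    Polynomial.eval₂RingHom (algebraMap F (TensorProduct k F R)) (ρ (algebraMap k[X] R X))
  have hα : ∀ f : k[X], α (evg k F X f) = ρ (algebraMap k[X] R f) := by
    have h1 : α.comp (evg k F X) = ρ.comp (algebraMap k[X] R) := by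
      apply Polynomial.ringHom_ext
      · intro c
        rw [RingHom.comp_apply, RingHom.comp_apply]
        have e1 : evg k F X (C c) = C (algebraMap k F c) := by
          rw [evg, Polynomial.coe_eval₂RingHom, Polynomial.eval₂_C]
          rfl
        rw [e1, ← hkR]
        have e2 : α (C (algebraMap k F c)) = algebraMap F (TensorProduct k F R) (algebraMap k F c) := by
          change Polynomial.eval₂ _ _ _ = _
          rw [Polynomial.eval₂_C]
        rw [e2]
        exact (AlgHom.commutes
          (Algebra.TensorProduct.includeRight : R →ₐ[k] TensorProduct k F R) c).symm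
      · rw [RingHom.comp_apply, RingHom.comp_apply]
        have e1 : evg k F X X = X := by
          rw [evg, Polynomial.coe_eval₂RingHom, Polynomial.eval₂_X]
        rw [e1]
        change Polynomial.eval₂ _ _ _ = _
        rw [Polynomial.eval₂_X]
    intro f
    exact congrArg (fun q : k[X] →+* TensorProduct k F R => q f) h1
  let u : Fam k F X R →+* TensorProduct k F R := Bs.lift (evg k F X) α ρ hα
  -- the inverse
  let iF : F →+* Fam k F X R := (algebraMap F[X] (Fam k F X R)).comp C
  let _aF : Algebra F (Fam k F X R) := RingHom.toAlgebra iF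
  let _ak : Algebra k (Fam k F X R) := RingHom.toAlgebra (iF.comp (algebraMap k F))
  have : IsScalarTower k F (Fam k F X R) := IsScalarTower.of_algebraMap_eq fun c => rfl
  have hiR : ∀ c : k, Bs.inR (evg k F X) R (algebraMap k R c) =
      algebraMap k (Fam k F X R) c := by
    intro c
    rw [hkR, Bs.inR_alg]
    have e1 : evg k F X (C c) = C (algebraMap k F c) := by
      rw [evg, Polynomial.coe_eval₂RingHom, Polynomial.eval₂_C]
      rfl
    rw [e1]
    rfl
  let gR : R →ₐ[k] Fam k F X R := { Bs.inR (evg k F X) R with commutes' := hiR }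
  let gF : F →ₐ[k] Fam k F X R := { iF with commutes' := fun c => rfl }
  let v : TensorProduct k F R →ₐ[k] Fam k F X R := Algebra.TensorProduct.productMap gF gR
  have hv1 : ∀ a : F, v (algebraMap F (TensorProduct k F R) a) = iF a := by
    intro a
    exact Algebra.TensorProduct.productMap_left_apply gF gR a
  have hv2 : ∀ r : R, v (ρ r) = Bs.inR (evg k F X) R r := by
    intro r
    exact Algebra.TensorProduct.productMap_right_apply gF gR r
  have hid : (v : TensorProduct k F R →+* Fam k F X R).comp u = RingHom.id _ := by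
    apply Bs.hom_ext
    · intro f
      have h1 : ((v : TensorProduct k F R →+* Fam k F X R).comp u).comp
          (algebraMap F[X] (Fam k F X R)) = algebraMap F[X] (Fam k F X R) := by
        have hu : ∀ f : F[X], u (algebraMap F[X] (Fam k F X R) f) = α f := fun f =>
          Bs.lift_alg _ _ _ _ _
        apply Polynomial.ringHom_ext
        · intro a
          rw [RingHom.comp_apply, RingHom.comp_apply, hu]
          have e2 : α (C a) = algebraMap F (TensorProduct k F R) a := by
            change Polynomial.eval₂ _ _ _ = _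
            rw [Polynomial.eval₂_C]
          rw [e2]
          exact hv1 a
        · rw [RingHom.comp_apply, RingHom.comp_apply, hu]
          have e2 : α X = ρ (algebraMap k[X] R X) := by
            change Polynomial.eval₂ _ _ _ = _
            rw [Polynomial.eval₂_X]
          rw [e2]
          have e1 : evg k F X X = X := by
            rw [evg, Polynomial.coe_eval₂RingHom, Polynomial.eval₂_X]
          refine (hv2 _).trans ?_
          rw [Bs.inR_alg, e1]
      exact congrArg (fun q : F[X] →+* Fam k F X R => q f) h1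
    · intro r
      rw [RingHom.comp_apply]
      have hu : u (Bs.inR (evg k F X) R r) = ρ r := Bs.lift_inR _ _ _ _ _
      rw [hu]
      exact hv2 r
  have hinj : Function.Injective u := by
    have h1 : Function.LeftInverse (v : TensorProduct k F R →+* Fam k F X R) u := fun z =>
      congrArg (fun q : Fam k F X R →+* Fam k F X R => q z) hid
    exact h1.injective
  exact hinj.isDomain u

/-- separating families for a finite set of ring homomorphisms -/
theorem geoX_sep {ι S B : Type} [Finite ι] [CommRing S] [CommRing B] (α : ι → S →+* B) (i0 : ι)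
    (h : ∀ t, t ≠ i0 → ∃ s : S, ∃ b : B, b * (α i0 s - α t s) = 1) :
    ∃ (n : ℕ) (x : Fin n → B) (y : Fin n → S), ∀ t, (t = i0 → ∑ i, x i * α t (y i) = 1) ∧
      (t ≠ i0 → ∑ i, x i * α t (y i) = 0) := by
  classical
  let _ := Fintype.ofFinite ι
  let β : ι → TensorProduct ℤ B S →ₐ[ℤ] B := fun t =>
    Algebra.TensorProduct.productMap (AlgHom.id ℤ B) (α t).toIntAlgHom
  have hβ : ∀ t b s, β t (TensorProduct.tmul ℤ b s) = b * α t s := by
    intro t b s
    exact Algebra.TensorProduct.productMap_apply_tmul _ _ _ _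
  have key : ∀ t, ∃ z, β i0 z = 1 ∧ (t ≠ i0 → β t z = 0) := by
    intro t
    by_cases ht : t = i0
    · exact ⟨1, map_one _, fun h1 => absurd ht h1⟩
    · obtain ⟨s, b, hb⟩ := h t ht
      refine ⟨TensorProduct.tmul ℤ b s - TensorProduct.tmul ℤ (b * α t s) 1, ?_, fun _ => ?_⟩
      · rw [map_sub, hβ, hβ, map_one, mul_one, ← mul_sub, hb]
      · rw [map_sub, hβ, hβ, map_one, mul_one, sub_self]
  choose z hz1 hz2 using key
  obtain ⟨n, x, y, hxy⟩ := TensorProduct.exists_sum_tmul_eq (∏ t, z t)
  refine ⟨n, x, y, fun t => ⟨fun ht => ?_, fun ht => ?_⟩⟩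
  · have h1 : β t (∏ t, z t) = ∑ i, x i * α t (y i) := by
      rw [hxy, map_sum]
      exact Finset.sum_congr rfl fun i _ => hβ _ _ _
    rw [← h1, ht, map_prod]
    exact Finset.prod_eq_one fun s _ => hz1 s
  · have h1 : β t (∏ t, z t) = ∑ i, x i * α t (y i) := by
      rw [hxy, map_sum]
      exact Finset.sum_congr rfl fun i _ => hβ _ _ _
    rw [← h1, map_prod]
    exact Finset.prod_eq_zero (Finset.mem_univ t) (hz2 t ht)

/-- the subfield of constants -/
def cstF (p : ℕ) [Fact p.Prime] (K : Type) [Field K] [CharP K p] : Subfield K where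
  carrier := {c | IsCst p c}
  mul_mem' := IsCst.mul
  one_mem' := IsCst.one
  add_mem' := IsCst.add
  zero_mem' := IsCst.zero
  neg_mem' := IsCst.neg
  inv_mem' := fun _ h => h.inv

theorem mem_cstF (p : ℕ) [Fact p.Prime] (K : Type) [Field K] [CharP K p] (c : K) :
    c ∈ cstF p K ↔ IsCst p c := Iff.rfl

theorem cst_integral (p : ℕ) [Fact p.Prime] (K : Type) [Field K] [Algebra (Rx p) K] (c : K)
    (hc : IsCst p c) : IsIntegral (Rx p) c := by
  obtain ⟨n, hn, h1⟩ := hc
  have hpn : 1 < p ^ n := Nat.one_lt_pow hn.ne' (Fact.out : p.Prime).one_lt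
  refine ⟨Polynomial.X ^ p ^ n - Polynomial.X, ?_, ?_⟩
  · refine Polynomial.monic_X_pow_sub ?_
    rw [Polynomial.degree_X]
    exact_mod_cast hpn
  · rw [Polynomial.eval₂_sub, Polynomial.eval₂_X_pow, Polynomial.eval₂_X, h1, sub_self]

/-- the constants in the ring of integers -/
noncomputable def cstO (p : ℕ) [Fact p.Prime] (K : Type) [Field K] [Algebra (Rx p) K]
    [CharP K p] : cstF p K →+* Oc p K where
  toFun c := ⟨(c : K), cst_integral p K _ c.2⟩
  map_one' := rfl
  map_mul' _ _ := rfl
  map_zero' := rfl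
  map_add' _ _ := rfl

theorem cstO_coe (p : ℕ) [Fact p.Prime] (K : Type) [Field K] [Algebra (Rx p) K]
    [CharP K p] (c : cstF p K) : ((cstO p K c : Oc p K) : K) = (c : K) := rfl

/-- restriction of an automorphism to the constants -/
noncomputable def cstR (p : ℕ) [Fact p.Prime] (K : Type) [Field K] [CharP K p]
    [Algebra (Fx p) K] (σ : Gl p K) : cstF p K →+* cstF p K where
  toFun c := ⟨σ (c : K), (c.2 : IsCst p (c : K)).map (σ : K →+* K)⟩
  map_one' := Subtype.ext (map_one σ)
  map_mul' _ _ := Subtype.ext (map_mul σ _ _)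
  map_zero' := Subtype.ext (map_zero σ)
  map_add' _ _ := Subtype.ext (map_add σ _ _)

theorem cstR_coe (p : ℕ) [Fact p.Prime] (K : Type) [Field K] [CharP K p]
    [Algebra (Fx p) K] (σ : Gl p K) (c : cstF p K) :
    ((cstR p K σ c : cstF p K) : K) = σ (c : K) := rfl

section K

variable (p : ℕ) [Fact p.Prime] (K : Type) [Field K] [Algebra (Fx p) K]
    [Algebra (Rx p) K] [IsScalarTower (Rx p) (Fx p) K]

/-- separating families for the action on the constants -/
theorem cst_sep [CharP K p] [Finite (Gl p K)] :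
    ∃ (n : ℕ) (x y : Fin n → cstF p K), ∀ q : Gl p K ⧸ Gc p K,
      (q = ((1 : Gl p K) : Gl p K ⧸ Gc p K) → ∑ i, x i * cstR p K q.out (y i) = 1) ∧
      (q ≠ ((1 : Gl p K) : Gl p K ⧸ Gc p K) → ∑ i, x i * cstR p K q.out (y i) = 0) := by
  refine geoX_sep (fun q : Gl p K ⧸ Gc p K => cstR p K q.out) _ ?_
  intro q hq
  by_contra hcon
  push Not at hcon
  have h0 : ∀ c : cstF p K, cstR p K ((1 : Gl p K) : Gl p K ⧸ Gc p K).out c =
      cstR p K q.out c := by
    intro c
    by_contra hne
    exact hcon c (_)⁻¹ (inv_mul_cancel₀ (sub_ne_zero.2 hne))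
  have h1 : ((1 : Gl p K) : Gl p K ⧸ Gc p K).out ∈ Gc p K := by
    rw [← inv_mem_iff]
    have h2 : ((((1 : Gl p K) : Gl p K ⧸ Gc p K).out : Gl p K) : Gl p K ⧸ Gc p K) =
        ((1 : Gl p K) : Gl p K ⧸ Gc p K) := QuotientGroup.out_eq' _
    rw [QuotientGroup.eq, mul_one] at h2
    exact h2
  apply hq
  rw [← QuotientGroup.out_eq' q, QuotientGroup.eq, mul_one, inv_mem_iff]
  intro c hc
  have h3 := congrArg (fun t : cstF p K => (t : K)) (h0 ⟨c, hc⟩)
  have h4 : ((1 : Gl p K) : Gl p K ⧸ Gc p K).out c = q.out c := h3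
  rw [← h4]
  exact h1 c hc

/-- the elements fixed by the geometric part are polynomials with constant coefficients -/
theorem gc_fixed [CharP K p] [FiniteDimensional (Fx p) K] [IsGalois (Fx p) K] (r : Oc p K)
    (hr : ∀ σ ∈ Gc p K, act p K σ r = r) :
    ∃ (n : ℕ) (c : Fin n → cstF p K) (f : Fin n → Rx p),
      r = ∑ i, cstO p K (c i) * algebraMap (Rx p) (Oc p K) (f i) := by
  classical
  obtain ⟨n, x, y, hxy⟩ := cst_sep p K
  let _ := Fintype.ofFinite (Gl p K ⧸ Gc p K)
  have hact : ∀ (σ : Gl p K) (c : cstF p K), act p K σ (cstO p K c) = cstO p K (cstR p K σ c) :=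
    fun σ c => Subtype.ext rfl
  -- elements fixed by the geometric part
  have hg : ∀ (j : Fin n), ∀ σ ∈ Gc p K,
      act p K σ (cstO p K (y j) * r) = cstO p K (y j) * r := by
    intro j σ hσ
    rw [map_mul, hr σ hσ, hact]
    congr 2
    exact Subtype.ext (hσ _ (y j).2)
  have hT : ∀ j : Fin n, ∃ f : Rx p,
      (∑ q : Gl p K ⧸ Gc p K, act p K q.out (cstO p K (y j) * r)) =
        algebraMap (Rx p) (Oc p K) f := by
    intro j
    apply fixed_oc
    intro γ
    rw [map_sum]
    refine Fintype.sum_equiv (MulAction.toPerm γ) _ _ fun q => ?_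
    rw [← act_mul, MulAction.toPerm_apply]
    have h1 : ((γ • q).out : Gl p K)⁻¹ * (γ * q.out) ∈ Gc p K := by
      rw [← QuotientGroup.eq, QuotientGroup.out_eq']
      conv_lhs => rw [← QuotientGroup.out_eq' q]
      rfl
    have h2 : γ * q.out = (γ • q).out * (((γ • q).out : Gl p K)⁻¹ * (γ * q.out)) := by
      rw [mul_inv_cancel_left]
    rw [h2, act_mul, hg j _ h1]
  choose f hf using hT
  refine ⟨n, x, f, ?_⟩
  have h1 : ∑ j, cstO p K (x j) * algebraMap (Rx p) (Oc p K) (f j) =
      ∑ q : Gl p K ⧸ Gc p K, cstO p K (∑ j, x j * cstR p K q.out (y j)) *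
        act p K q.out r := by
    simp only [← hf, Finset.mul_sum, map_sum, Finset.sum_mul]
    rw [Finset.sum_comm]
    refine Finset.sum_congr rfl fun q _ => Finset.sum_congr rfl fun j _ => ?_
    rw [map_mul, map_mul, hact, mul_assoc]
  rw [h1, Finset.sum_eq_single ((1 : Gl p K) : Gl p K ⧸ Gc p K)]
  · rw [(hxy _).1 rfl, map_one, one_mul]
    have h2 : ((1 : Gl p K) : Gl p K ⧸ Gc p K).out ∈ Gc p K := by
      rw [← inv_mem_iff]
      have h2 : ((((1 : Gl p K) : Gl p K ⧸ Gc p K).out : Gl p K) : Gl p K ⧸ Gc p K) =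
          ((1 : Gl p K) : Gl p K ⧸ Gc p K) := QuotientGroup.out_eq' _
      rw [QuotientGroup.eq, mul_one] at h2
      exact h2
    exact (hr _ h2).symm
  · intro q _ hq
    rw [(hxy q).2 hq, map_zero, zero_mul]
  · intro h3
    exact absurd (Finset.mem_univ _) h3

/-- an element algebraic over a finite field is a constant -/
theorem cst_of_alg [CharP K p] (k : Type) [Field k] [Finite k] [Algebra k K] (z : K)
    (hz : IsAlgebraic k z) : IsCst p z := by
  have hint : IsIntegral k z := hz.isIntegral
  have hfd : FiniteDimensional k (IntermediateField.adjoin k {z}) :=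
    IntermediateField.adjoin.finiteDimensional hint
  have hfin : Finite (IntermediateField.adjoin k {z}) := Module.finite_of_finite k
  let _ := Fintype.ofFinite (IntermediateField.adjoin k {z})
  have hch : CharP (IntermediateField.adjoin k {z}) p :=
    (algebraMap (IntermediateField.adjoin k {z}) K).charP
      (algebraMap (IntermediateField.adjoin k {z}) K).injective p
  obtain ⟨n, _, hn⟩ := FiniteField.card (IntermediateField.adjoin k {z}) p
  refine ⟨n, n.2, ?_⟩
  have h1 := FiniteField.pow_card
    (⟨z, IntermediateField.mem_adjoin_simple_self k z⟩ : IntermediateField.adjoin k {z})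
  rw [hn] at h1
  exact congrArg (fun t : IntermediateField.adjoin k {z} => (t : K)) h1

end K

/-- models exist, for a given field of constants -/
theorem mdl_of_const (p : ℕ) [Fact p.Prime] (K : Type) [Field K] [Algebra (Fx p) K]
    [Algebra (Rx p) K] [IsScalarTower (Rx p) (Fx p) K] (hK : NiK p K) (k : Type) [Field k]
    [Finite k] [CharP k p] (γ : k →+* Oc p K)
    (hγ : ∀ c : K, IsCst p c ↔ ∃ a : k, ((γ a : Oc p K) : K) = c) :
    ∃ (R H : Type) (_ : CommRing R) (_ : Algebra k[X] R) (_ : Group H) (_ : Finite H),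
      Nonempty (Mdl p K k R H) := by
  classical
  have hfd : FiniteDimensional (Fx p) K := hK.1
  have hgal : IsGalois (Fx p) K := hK.2.1
  have hNI : NI p K := hK.2.2
  have hCh : CharP K p := charP_of p K
  let _aX : Algebra k[X] (Oc p K) :=
    (Polynomial.eval₂RingHom γ (xo p K)).toAlgebra
  let _ak : Algebra k (Oc p K) := γ.toAlgebra
  have haX : ∀ f : k[X], algebraMap k[X] (Oc p K) f = Polynomial.eval₂ γ (xo p K) f :=
    fun f => rfl
  have hak : ∀ a : k, algebraMap k (Oc p K) a = γ a := fun a => rfl
  have hst : IsScalarTower k k[X] (Oc p K) := by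
    refine IsScalarTower.of_algebraMap_eq fun a => ?_
    rw [hak, haX]
    exact (Polynomial.eval₂_C γ (xo p K)).symm
  let _aK : Algebra k K := (((Oc p K).val : Oc p K →+* K).comp γ).toAlgebra
  have haK : ∀ a : k, algebraMap k K a = ((γ a : Oc p K) : K) := fun a => rfl
  let _aZ : Algebra (ZMod p) k := ZMod.algebra k p
  have hFz : Module.Finite (ZMod p) k := Module.Finite.of_finite
  have hInt : Algebra.IsIntegral (ZMod p) k := inferInstance
  -- compatibility with `F_p[x]`
  have hcomp : (algebraMap k[X] (Oc p K)).comp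
      (Polynomial.mapRingHom (algebraMap (ZMod p) k)) = algebraMap (Rx p) (Oc p K) := by
    apply Polynomial.ringHom_ext'
    · exact RingHom.ext_zmod _ _
    · change algebraMap k[X] (Oc p K) (Polynomial.map (algebraMap (ZMod p) k) Polynomial.X) =
        xo p K
      rw [Polynomial.map_X, haX, Polynomial.eval₂_X]
  have hinj : Function.Injective (algebraMap k[X] (Oc p K)) :=
    polyK_inj (ZMod p) k (Oc p K) _ (algebraMap (Rx p) (Oc p K)) hcomp (Gs_inj p K)
  -- the action
  have hγc : ∀ a : k, IsCst p ((γ a : Oc p K) : K) := fun a => (hγ _).2 ⟨a, rfl⟩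
  have hactX : ∀ σ ∈ Gc p K, ∀ f : k[X], act p K σ (algebraMap k[X] (Oc p K) f) =
      algebraMap k[X] (Oc p K) f := by
    intro σ hσ f
    have h1 : ((act p K σ : Oc p K ≃ₐ[Rx p] Oc p K) : Oc p K →+* Oc p K).comp
        (algebraMap k[X] (Oc p K)) = algebraMap k[X] (Oc p K) := by
      apply Polynomial.ringHom_ext
      · intro a
        rw [RingHom.comp_apply, haX, Polynomial.eval₂_C]
        exact Subtype.ext (hσ _ (hγc a))
      · rw [RingHom.comp_apply, haX, Polynomial.eval₂_X]
        exact act_xo p K σ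
    exact congrArg (fun q : k[X] →+* Oc p K => q f) h1
  let ac : Gc p K →* (Oc p K ≃ₐ[k[X]] Oc p K) :=
    { toFun := fun σ => AlgEquiv.ofRingEquiv (f := (act p K (σ : Gl p K)).toRingEquiv)
        (fun f => hactX _ σ.2 f)
      map_one' := by
        ext s
        rfl
      map_mul' := fun σ τ => by
        ext s
        rfl }
  have hac : ∀ (σ : Gc p K) (s : Oc p K), ac σ s = act p K (σ : Gl p K) s := fun σ s => rfl
  have hfixed : ∀ r : Oc p K, (∀ h, ac h r = r) → ∃ f : k[X],
      algebraMap k[X] (Oc p K) f = r := by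
    intro r hr
    obtain ⟨n, c, f, hcf⟩ := gc_fixed p K r (fun σ hσ => hr ⟨σ, hσ⟩)
    have h1 : ∀ j, ∃ a : k, γ a = cstO p K (c j) := by
      intro j
      obtain ⟨a, ha⟩ := (hγ (c j : K)).1 (c j).2
      exact ⟨a, Subtype.ext ha⟩
    choose a ha using h1
    refine ⟨∑ j, Polynomial.C (a j) * (f j).map (algebraMap (ZMod p) k), ?_⟩
    rw [hcf, map_sum]
    refine Finset.sum_congr rfl fun j _ => ?_
    rw [map_mul, haX (Polynomial.C (a j)), Polynomial.eval₂_C, ha]
    congr 1
    exact congrArg (fun q : Rx p →+* Oc p K => q (f j)) hcomp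
  have hcoord : ∃ (m : ℕ) (x y : Fin m → Oc p K), ∀ h : Gc p K,
      (h = 1 → ∑ i, x i * ac h (y i) = 1) ∧ (h ≠ 1 → ∑ i, x i * ac h (y i) = 0) := by
    obtain ⟨m, x, y, h1, h2⟩ := gs_of_ni p K hNI
    refine ⟨m, x, y, fun h => ⟨?_, fun hh => ?_⟩⟩
    · rintro rfl
      rw [← h1]
      exact Finset.sum_congr rfl fun i _ => by rw [hac]; rfl
    · exact h2 (h : Gl p K) (fun h3 => hh (Subtype.ext h3))
  -- geometric irreducibility
  have hgeom : ∀ (F : Type) [Field F] [Algebra k F], IsDomain (Fam k F X (Oc p K)) := by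
    intro F _ _
    apply fam_X_domain
    have hd : IsDomain (TensorProduct k F K) := by
      refine dom_geom k K F ?_
      intro z hz
      obtain ⟨a, ha⟩ := (hγ z).1 (cst_of_alg p K k z hz)
      exact ⟨a, ha⟩
    let ι : Oc p K →ₐ[k] K := { ((Oc p K).val : Oc p K →+* K) with commutes' := fun a => rfl }
    have hι : Function.Injective ι := Subtype.val_injective
    have h1 : Function.Injective (Algebra.TensorProduct.map (AlgHom.id k F) ι) :=
      Module.Flat.lTensor_preserves_injective_linearMap (M := F) ι.toLinearMap hι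
    exact h1.isDomain (Algebra.TensorProduct.map (AlgHom.id k F) ι).toRingHom
  refine ⟨Oc p K, Gc p K, inferInstance, _aX, inferInstance, inferInstance, ⟨?_⟩⟩
  exact
    { cov :=
        { act := ac
          inj := hinj
          fixed := hfixed
          coord := hcoord
          geom := hgeom }
      e := RingEquiv.refl _
      j := MulEquiv.refl _
      eX := by
        change algebraMap k[X] (Oc p K) X = xo p K
        rw [haX, Polynomial.eval₂_X]
      eact := fun h r => rfl
      econst := by
        intro c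
        rw [hγ c]
        have h1 : ∀ a : k, algebraMap k[X] (Oc p K) (C a) = γ a := by
          intro a
          rw [haX, Polynomial.eval₂_C]
        constructor
        · rintro ⟨a, ha⟩
          refine ⟨a, ?_⟩
          change ((algebraMap k[X] (Oc p K) (C a) : Oc p K) : K) = c
          rw [h1, ha]
        · rintro ⟨a, ha⟩
          refine ⟨a, ?_⟩
          change ((algebraMap k[X] (Oc p K) (C a) : Oc p K) : K) = c at ha
          rw [h1] at ha
          exact ha }

/-- models exist -/
theorem exists_mdl (p : ℕ) [Fact p.Prime] (K : Type) [Field K] [Algebra (Fx p) K]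
    [Algebra (Rx p) K] [IsScalarTower (Rx p) (Fx p) K] (hK : NiK p K) :
    ∃ (k R H : Type) (_ : Field k) (_ : Finite k) (_ : CharP k p) (_ : CommRing R)
      (_ : Algebra k[X] R) (_ : Group H) (_ : Finite H), Nonempty (Mdl p K k R H) := by
  have hfd : FiniteDimensional (Fx p) K := hK.1
  have hgal : IsGalois (Fx p) K := hK.2.1
  have hCh : CharP K p := charP_of p K
  have hfin : Finite (cstF p K) := (cst_finite p K).to_subtype
  have hch : CharP (cstF p K) p :=
    (cstF p K).subtype.charP (cstF p K).subtype.injective p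
  obtain ⟨R, H, i1, i2, i3, i4, hM⟩ := mdl_of_const p K hK (cstF p K) (cstO p K) (fun c =>
    ⟨fun h => ⟨⟨c, h⟩, rfl⟩, by rintro ⟨a, rfl⟩; exact a.2⟩)
  exact ⟨cstF p K, R, H, inferInstance, hfin, hch, i1, i2, i3, i4, hM⟩

end Pool.Agent.AB3
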