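import Pool.Agent.Lib.MP_5de024_nt.S.DivX.MAsm
import Pool.Agent.Lib.MP_5de024_nt.S.DivX.D1

/-!
# ideal classes are divisible (interface of project AB3)
-/

set_option autoImplicit false
set_option linter.unusedSectionVars false

namespace Pool.Agent.AB3

open Pool.Agent.AB Polynomial

/-- DIV: over a larger field of constants every ideal class is an `n`-th power -/
theorem div_main (k R H : Type) [Field k] [Finite k] [CommRing R] [Algebra k[X] R] [Group H]
    [Finite H] (C : Cov k R H) (I : Ideal R) (hI : I ≠ ⊥) (n : ℕ) (hn : (n : k) ≠ 0) :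
    ∃ (F : Type) (_ : Field F) (_ : Finite F) (_ : Algebra k F) (A : Ideal (Fam k F X R))
      (a : Fam k F X R), a ≠ 0 ∧
      (I.map (Bs.inR (evg k F X) R)) * A ^ n = Ideal.span {a} :=
  div_asm (fun k R _ _ _ _ _ _ _ _ hinj X I hI n hn => d1_main k R hinj X I hI n hn)
    k R H C I hI n hn

end Pool.Agent.AB3
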