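import Pool.Agent.Lib.MP_5de024_nt.S.EtaX.Kb
import Pool.Agent.Lib.MP_5de024_nt.S.EtaX.Sa
import Pool.Agent.Lib.MP_5de024_nt.S.EtaX.Fi

/-!
# the element eta (interface of project AB3)
-/

set_option autoImplicit false
set_option linter.unusedSectionVars false

namespace Pool.Agent.AB3

open Pool.Agent.AB Polynomial

/-- ETA: after an extension of constants and a substitution `X ↦ X ^ m` there is an adapted
basis and an element `η` -/
theorem eta_main (p : ℕ) [Fact p.Prime] (k R H : Type) [Field k] [Finite k] [CharP k p]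
    [CommRing R] [Algebra k[X] R] [Group H] [Finite H] (C : Cov k R H) (n r : ℕ)
    (hn : n.Coprime p) (hn0 : 0 < n) (hr0 : 0 < r) :
    ∃ (F : Type) (_ : Field F) (_ : Finite F) (_ : Algebra k F) (m : ℕ)
      (C' : Cov F (Fam k F (X ^ m) R) H) (N : ℕ) (B : RBas F (Fam k F (X ^ m) R) N), 0 < m ∧
      (∀ (F' : Type) [Field F'] [Algebra k F'] [Algebra F F'] [IsScalarTower k F F'],
        IsDomain (Fam k F' ((X ^ m : F[X]).map (algebraMap F F')) R)) ∧
      (∀ h z, C'.act h z = Bs.act (evg k F (X ^ m)) C.act h z) ∧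
      B.Stab C' ∧ EtaD C' B n ∧ NL p F (Fam k F (X ^ m) R) ∧
      (∃ ζ : F, IsPrimitiveRoot ζ n) ∧ Nat.card {a : F // a ^ p ^ r = a} = p ^ r := by
  have hnk : (n : k) ≠ 0 := by
    intro h
    rw [CharP.cast_eq_zero_iff k p] at h
    have := Nat.eq_one_of_dvd_coprimes (a := n) (b := p) (k := p) hn h (dvd_refl p)
    exact (Fact.out : p.Prime).one_lt.ne' this
  have : CharP (AlgebraicClosure k) p :=
    charP_of_injective_algebraMap (algebraMap k (AlgebraicClosure k)).injective p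
  obtain ⟨Q, A, a, hQm, hX, ha, hQ⟩ := eta_ideal k (AlgebraicClosure k) R H C n hnk
  obtain ⟨m, hm, hmp, η, D, hD0, hD, hc, hi, hy, hind⟩ :=
    eta_bar p k (AlgebraicClosure k) R H C n hn hn0 Q A hX a ha hQ
  obtain ⟨F, _, _, _, C', N, B, hact, hS, hE, ⟨ζ, hζ⟩, hζn, hr⟩ :=
    eta_desc p k (AlgebraicClosure k) R H C n r hn hn0 hr0 m hm hmp η D hD hc hi hy hind
  refine ⟨F, inferInstance, inferInstance, inferInstance, m, C', N, B, by omega, ?_, hact,
    hS, hE, nl_pow p C m hm ζ hζ, hζn, hr⟩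
  intro F' _ _ _ _
  rw [Polynomial.map_pow, Polynomial.map_X]
  exact fam_pow_domain C m (by omega)

end Pool.Agent.AB3
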