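import Pool.Agent.Lib.MP_5de024_nt.S.PatX.CertU
import Pool.Agent.Lib.MP_5de024_nt.S.PatX.NrmB
import Pool.Agent.Lib.MP_5de024_nt.S.PatX.IndB
import Pool.Agent.Lib.MP_5de024_nt.S.GeoS

/-!
# patching (interface of project AB3)
-/

set_option autoImplicit false
set_option linter.unusedSectionVars false

namespace Pool.Agent.AB3

open Pool.Agent.AB Polynomial

/-- PAT: patching -/
theorem good_laurent (p : ℕ) [Fact p.Prime] (k R H : Type) [Field k] [Finite k] [CharP k p]
    [CommRing R] [Algebra k[X] R] [Group H] [Finite H] (C : Cov k R H) (N : ℕ)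
    (B : RBas k R N) (hS : B.Stab C) (n r : ℕ) (hn : n.Coprime p) (hn0 : 0 < n)
    (hE : EtaD C B n) (hNL : NL p k R) (hζ : ∃ ζ : k, IsPrimitiveRoot ζ n)
    (hr : Nat.card {a : k // a ^ p ^ (r + 1) = a} = p ^ (r + 1)) :
    Good C n (p ^ (r + 1)) (LaurentSeries k) (HahnSeries.single 1 1) := by
  obtain ⟨η, D, hcert, hLt, ⟨y₀, hy₀⟩, hind⟩ := hE
  have hp : 2 ≤ p := (Fact.out : p.Prime).two_le
  have hP : 2 ≤ p ^ (r + 1) := by
    calc 2 ≤ p := hp
      _ = p ^ 1 := (pow_one p).symm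
      _ ≤ p ^ (r + 1) := Nat.pow_le_pow_right (by omega) (by omega)
  have hnk : (n : k) ≠ 0 := by
    intro h
    rw [CharP.cast_eq_zero_iff k p] at h
    have h1 : p ∣ Nat.gcd n p := Nat.dvd_gcd h dvd_rfl
    rw [hn] at h1
    have := Nat.le_of_dvd one_pos h1
    omega
  have hR : IsDomain R := cov_domain C
  have hβ : (bL k : LaurentSeries k) ≠ 0 := HahnSeries.single_ne_zero one_ne_zero
  have hOL : IsDomain (OL k (p ^ (r + 1)) R) :=
    fam_gb_domain p C hNL (r + 1) (by omega) hr (bL k) hβ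
  obtain ⟨u, x, y, hu⟩ := pat_exists B (p ^ (r + 1)) hP n D hnk η hLt
  -- `η ≠ 0` and `u ≠ 0`
  have hη0 : η ≠ 0 := by
    intro h0
    have h1 : ∀ l, B.e.repr 1 l = 0 := by
      intro l
      by_contra hl
      have h2 := hLt l
      have h3 : B.e.repr (η - algebraMap k[X] R (X ^ (n * D))) l =
          -(X ^ (n * D) * B.e.repr 1 l) := by
        rw [h0, zero_sub, map_neg, Finsupp.neg_apply, Algebra.algebraMap_eq_smul_one, map_smul,
          Finsupp.smul_apply, smul_eq_mul]
      rw [h3, neg_eq_zero, natDegree_neg] at h2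
      rcases h2 with h2 | h2
      · exact (mul_ne_zero (pow_ne_zero _ X_ne_zero) hl) h2
      · rw [natDegree_X_pow_mul _ hl] at h2
        omega
    have h4 : B.e.repr 1 = 0 := Finsupp.ext h1
    exact one_ne_zero (B.e.repr.map_eq_zero_iff.mp h4)
  have hu0 : u ≠ 0 := by
    intro h0
    have hinj : Function.Injective (kR k R) := (kR k R).injective
    have hcR : CharP R p := charP_of_injective_ringHom hinj p
    obtain ⟨T, hT⟩ := tser_exists p R r (algebraMap k[X] R X)
    obtain ⟨ρ, hρ⟩ := rho_exists p r T hT (0 : k) (zero_pow (by positivity))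
    have h1 := rho_u_zero B (p ^ (r + 1)) hP C n D η hLt hu T ρ hρ
    have h2 := h1.2
    rw [h0, map_zero, HahnSeries.coeff_zero] at h2
    exact hη0 h2.symm
  refine ⟨u, hu0, pat_cert B _ hP C n D hn0 η hLt hcert hu hu0,
    pat_norm B _ hP C hS n D hn0 hζ η hLt y₀ hy₀ hu, ?_⟩
  intro sh hsh E c w hc hrel a h h'
  exact pat_ind B p C n r D η hη0 hLt hind hu sh hsh E c w hc hrel a h h'

end Pool.Agent.AB3
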