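import Pool.Agent.Lib.MP_5de024_nt.S.Defs
import Pool.Agent.Lib.MP_5de024_nt.S.TrfX.Spec

/-!
# specialisation (interface of project AB3)

The field of constants is a part of the ring `D`, which is a finitely generated domain over
`F_p[x]`, `x = β ^ N`; by `spec_point` it has a finite residue field generated by `x` over `F_p`.
-/

set_option autoImplicit false
set_option linter.unusedSectionVars false

namespace Pool.Agent.AB3

open Pool.Agent.AB Polynomial

/-- TRF: specialisation of Laurent series to finite fields -/
theorem transfer (p : ℕ) [Fact p.Prime] (k : Type) [Field k] [Finite k] [CharP k p]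
    (D : Subalgebra k (LaurentSeries k)) (hD : D.FG)
    (hβ : (HahnSeries.single 1 1 : LaurentSeries k) ∈ D)
    (hβ' : (HahnSeries.single 1 1 : LaurentSeries k)⁻¹ ∈ D) (N : ℕ) (hN : 0 < N) :
    ∃ (F : Type) (_ : Field F) (_ : Finite F) (_ : Algebra k F) (φ : D →ₐ[k] F),
      ∀ j : ℕ, ((φ ⟨_, hβ⟩) ^ N) ^ p ^ j = (φ ⟨_, hβ⟩) ^ N → ∀ z : F, z ^ p ^ j = z := by
  classical
  let c₀ : ZMod p →+* k := ZMod.castHom (dvd_refl p) k
  let x₀ : D := ⟨_, hβ⟩
  let ι : (ZMod p)[X] →+* D := eval₂RingHom ((algebraMap k D).comp c₀) (x₀ ^ N)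
  -- injectivity
  have hι : Function.Injective ι := by
    have h1 : ((HahnSeries.ofPowerSeries ℤ k).comp ((Polynomial.coeToPowerSeries.ringHom).comp
        ((expand k N).toRingHom.comp (Polynomial.mapRingHom c₀)))) =
        D.val.toRingHom.comp ι := by
      apply Polynomial.ringHom_ext
      · intro a
        have h3 : algebraMap k (LaurentSeries k) (c₀ a) =
            HahnSeries.ofPowerSeries ℤ k (algebraMap k (PowerSeries k) (c₀ a)) := rfl
        simp [ι, h3, HahnSeries.C_apply]
      · simp [ι, x₀, HahnSeries.ofPowerSeries_X_pow]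
    have h2 : Function.Injective (D.val.toRingHom.comp ι) := by
      rw [← h1]
      have a1 : Function.Injective (HahnSeries.ofPowerSeries ℤ k) :=
        HahnSeries.ofPowerSeries_injective
      have a2 : Function.Injective (Polynomial.coeToPowerSeries.ringHom (R := k)) :=
        Polynomial.coe_injective k
      have a3 : Function.Injective ((expand k N).toRingHom : k[X] →+* k[X]) :=
        expand_injective hN
      have a4 : Function.Injective (Polynomial.mapRingHom c₀) :=
        Polynomial.map_injective c₀ c₀.injective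
      exact a1.comp (a2.comp (a3.comp a4))
    exact Function.Injective.of_comp (f := D.val.toRingHom) (g := ι) h2
  have hft : ι.FiniteType := by
    apply RingHom.FiniteType.of_comp_finiteType (f := (Polynomial.C : ZMod p →+* (ZMod p)[X]))
    have h1 : ι.comp (Polynomial.C : ZMod p →+* (ZMod p)[X]) = (algebraMap k D).comp c₀ := by
      apply RingHom.ext
      intro a
      simp [ι]
    rw [h1]
    refine RingHom.FiniteType.comp ?_ ?_
    · rw [RingHom.finiteType_algebraMap]
      exact (Subalgebra.fg_iff_finiteType D).mp hD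
    · let _ : Algebra (ZMod p) k := c₀.toAlgebra
      have h2 : Module.Finite (ZMod p) k := Module.Finite.of_finite
      have h3 : Algebra.FiniteType (ZMod p) k := inferInstance
      exact h3
  let _ : Algebra (ZMod p)[X] D := ι.toAlgebra
  have hft2 : Algebra.FiniteType (ZMod p)[X] D := hft
  obtain ⟨F, _, _, φ, hφ⟩ := spec_point p D hι
  let _ : Algebra k F := (φ.comp (algebraMap k D)).toAlgebra
  let φ₁ : D →ₐ[k] F := { φ with commutes' := fun _ => rfl }
  refine ⟨F, inferInstance, inferInstance, inferInstance, φ₁, ?_⟩
  intro j hj z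
  have hFp : CharP F p := charP_of_injective_algebraMap (algebraMap k F).injective p
  have hexF : ExpChar F p := ExpChar.prime Fact.out
  obtain ⟨f, rfl⟩ := hφ z
  have h1 : (iterateFrobenius F p j).comp (φ.comp ι) = φ.comp ι := by
    apply Polynomial.ringHom_ext'
    · exact Subsingleton.elim _ _
    · change iterateFrobenius F p j (φ (ι X)) = φ (ι X)
      have h2 : φ (ι X) = (φ₁ ⟨_, hβ⟩) ^ N := by
        change φ (eval₂RingHom ((algebraMap k D).comp c₀) (x₀ ^ N) X) = φ x₀ ^ N
        rw [coe_eval₂RingHom, eval₂_X, map_pow]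
      rw [h2, iterateFrobenius_def]
      exact hj
  have h3 := RingHom.congr_fun h1 f
  simpa [iterateFrobenius_def] using! h3

end Pool.Agent.AB3
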