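import Pool.Agent.Lib.MP_5de024_nt.S.GeoX
import Pool.Agent.Lib.MP_5de024_nt.S.GeoW
import Pool.Agent.Lib.MP_5de024_nt.S.Eta
import Pool.Agent.Lib.MP_5de024_nt.S.Pat
import Pool.Agent.Lib.MP_5de024_nt.S.Cert
import Pool.Agent.Lib.MP_5de024_nt.S.Trf
import Pool.Agent.Lib.MP_5de024_nt.S.As

/-!
# Assembly of project AB3
-/

set_option autoImplicit false
set_option linter.unusedSectionVars false

namespace Pool.Agent.AB3

open Pool.Agent.AB Polynomial

/-- assembly -/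
theorem exists_kdata (p : ℕ) [Fact p.Prime] (K : Type) [Field K] [Algebra (Fx p) K]
    [Algebra (Rx p) K] [IsScalarTower (Rx p) (Fx p) K] (hK : NiK p K) (n r : ℕ)
    (hn : n.Coprime p) (hn0 : 0 < n) :
    ∃ (M : Type) (_ : Field M) (_ : Algebra (Fx p) M) (_ : Algebra (Rx p) M)
      (_ : IsScalarTower (Rx p) (Fx p) M) (ρ : Gl p M →* Gl p K), NiK p M ∧
      Function.Surjective ρ ∧ (Gc p M).map ρ = Gc p K ∧ KData p M n (p ^ r) := by
  have hp : 1 < p := (Fact.out : p.Prime).one_lt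
  obtain ⟨k, R, H, _, _, _, _, _, _, _, ⟨m⟩⟩ := exists_mdl p K hK
  obtain ⟨F, _, _, _, m1, C', N, B, hm1, hdom, hC', hS, hE, hNL, hζ, hr⟩ :=
    eta_main p k R H m.cov n (r + 1) hn hn0 (Nat.succ_pos r)
  have : CharP F p := charP_of_injective_algebraMap (algebraMap k F).injective p
  obtain ⟨K1, _, _, _, _, ρ1, hK1, hρ1, hGc1, m', hj, hact⟩ :=
    mdl_bc p K hK k R H m F (X ^ m1) (fun i => by
      rw [coeff_X_pow]; split_ifs
      · exact one_pow _
      · exact zero_pow (by omega)) (by rw [natDegree_X_pow]; exact hm1) hdom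
  have hcov : m'.cov = C' := by
    have hh : m'.cov.act = C'.act := by
      ext h z
      rw [hact, hC']
    cases hm : m'.cov
    cases hc : C'
    rw [hm, hc] at hh
    simp only at hh
    subst hh
    rfl
  have hG := good_laurent p F _ H C' N B hS n r hn hn0 hE hNL hζ hr
  obtain ⟨D, hD, hfg, hinv, hspec⟩ := good_cert p F _ H C' n r hn hn0 hNL hζ hr _ _
    (by exact HahnSeries.single_ne_zero one_ne_zero) hG
  obtain ⟨F2, _, _, _, φ, hφ⟩ := transfer p F D hfg hD hinv (2 * (p ^ (r + 1) - 1)) (by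
    have : 1 < p ^ (r + 1) := Nat.one_lt_pow (by omega) hp
    omega)
  have hβ2 : φ ⟨_, hD⟩ ≠ 0 := by
    intro h0
    have h1 : φ (⟨_, hD⟩ * ⟨_, hinv⟩) = 1 := by
      have : (⟨_, hD⟩ * ⟨_, hinv⟩ : D) = 1 := Subtype.ext
        (mul_inv_cancel₀ (HahnSeries.single_ne_zero one_ne_zero))
      rw [this, map_one]
    rw [map_mul, h0, zero_mul] at h1
    exact zero_ne_one h1
  have hG2 := hspec F2 φ
  rw [← hcov] at hG2
  obtain ⟨M, _, _, _, _, ρ, hM, hρ, hGc, hkd⟩ := kdata_of_good p K1 hK1 F _ H m' hNL n r hn hn0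
    hζ hr F2 _ hβ2 hφ hG2
  refine ⟨M, inferInstance, inferInstance, inferInstance, inferInstance, ρ1.comp ρ, hM,
    hρ1.comp hρ, ?_, hkd⟩
  rw [← Subgroup.map_map, hGc, hGc1]

end Pool.Agent.AB3
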