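import Mathlib

/-!
# Base change of an algebra over `k[X]` (project AB3)

`Al φ` is the ring `A` with the structure of a `k[X]`-algebra given by `φ`, and
`Bs φ R = A ⊗ R` is the base change.
-/

set_option autoImplicit false
set_option linter.unusedSectionVars false

namespace Pool.Agent.AB3

open TensorProduct

section al

variable {k A : Type} [Field k] [CommRing A] (φ : Polynomial k →+* A)

/-- the ring `A` as an algebra over `k[X]` via `φ` -/
def Al (_ : Polynomial k →+* A) : Type := A

noncomputable instance : CommRing (Al φ) := inferInstanceAs (CommRing A)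

noncomputable instance : Algebra (Polynomial k) (Al φ) := RingHom.toAlgebra φ

noncomputable instance : Algebra A (Al φ) := RingHom.toAlgebra (RingHom.id A)

end al

/-- the base change of `R` along `φ` -/
def Bs {k A : Type} [Field k] [CommRing A] (φ : Polynomial k →+* A) (R : Type) [CommRing R]
    [Algebra (Polynomial k) R] : Type := Al φ ⊗[Polynomial k] R

section bs

variable {k A : Type} [Field k] [CommRing A] (φ : Polynomial k →+* A) (R : Type) [CommRing R]
  [Algebra (Polynomial k) R]

noncomputable instance : CommRing (Bs φ R) :=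
  inferInstanceAs (CommRing (Al φ ⊗[Polynomial k] R))

/-- the structure map of the base change -/
noncomputable def Bs.inA : A →+* Bs φ R :=
  (Algebra.TensorProduct.includeLeftRingHom : Al φ →+* Al φ ⊗[Polynomial k] R).comp
    (RingHom.id A : A →+* Al φ)

noncomputable instance : Algebra A (Bs φ R) := RingHom.toAlgebra (Bs.inA φ R)

/-- the map of `R` into the base change -/
noncomputable def Bs.inR : R →+* Bs φ R :=
  (Algebra.TensorProduct.includeRight : R →ₐ[Polynomial k] Al φ ⊗[Polynomial k] R).toRingHom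

theorem Bs.inR_alg (f : Polynomial k) :
    Bs.inR φ R (algebraMap (Polynomial k) R f) = algebraMap A (Bs φ R) (φ f) := by
  have h : (1 : Al φ) ⊗ₜ[Polynomial k] (algebraMap (Polynomial k) R f) =
      (algebraMap (Polynomial k) (Al φ) f) ⊗ₜ[Polynomial k] (1 : R) := by
    rw [Algebra.algebraMap_eq_smul_one, ← TensorProduct.smul_tmul, Algebra.smul_def, mul_one]
  exact h

variable {R}

/-- induction -/
theorem Bs.induction {P : Bs φ R → Prop} (h0 : P 0)
    (h1 : ∀ a r, P (algebraMap A (Bs φ R) a * Bs.inR φ R r)) (h2 : ∀ x y, P x → P y → P (x + y))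
    (z : Bs φ R) : P z := by
  have key : ∀ w : Al φ ⊗[Polynomial k] R, P w := by
    intro w
    induction w using TensorProduct.induction_on with
    | zero => exact h0
    | tmul a r =>
      have h := h1 a r
      have e : algebraMap A (Bs φ R) a * Bs.inR φ R r =
          ((a ⊗ₜ[Polynomial k] r : Al φ ⊗[Polynomial k] R) : Bs φ R) := by
        change (a : Al φ) ⊗ₜ[Polynomial k] (1 : R) * ((1 : Al φ) ⊗ₜ[Polynomial k] r) = _
        rw [Algebra.TensorProduct.tmul_mul_tmul, mul_one, one_mul]
      rw [e] at h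
      exact h
    | add x y hx hy => exact h2 x y hx hy
  exact key z

/-- ring homomorphisms out of the base change -/
noncomputable def Bs.lift {S : Type} [CommRing S] (α : A →+* S) (ρ : R →+* S)
    (h : ∀ f : Polynomial k, α (φ f) = ρ (algebraMap (Polynomial k) R f)) : Bs φ R →+* S :=
  letI : Algebra (Polynomial k) S := RingHom.toAlgebra (α.comp φ)
  (Algebra.TensorProduct.productMap
    ({ (α : Al φ →+* S) with commutes' := fun _ => rfl } : Al φ →ₐ[Polynomial k] S)
    ({ ρ with commutes' := fun f => (h f).symm } : R →ₐ[Polynomial k] S)).toRingHom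

theorem Bs.lift_alg {S : Type} [CommRing S] (α : A →+* S) (ρ : R →+* S)
    (h : ∀ f : Polynomial k, α (φ f) = ρ (algebraMap (Polynomial k) R f)) (a : A) :
    Bs.lift φ α ρ h (algebraMap A (Bs φ R) a) = α a := by
  let _ : Algebra (Polynomial k) S := RingHom.toAlgebra (α.comp φ)
  exact Algebra.TensorProduct.productMap_left_apply
    ({ (α : Al φ →+* S) with commutes' := fun _ => rfl } : Al φ →ₐ[Polynomial k] S)
    ({ ρ with commutes' := fun f => (h f).symm } : R →ₐ[Polynomial k] S) a

theorem Bs.lift_inR {S : Type} [CommRing S] (α : A →+* S) (ρ : R →+* S)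
    (h : ∀ f : Polynomial k, α (φ f) = ρ (algebraMap (Polynomial k) R f)) (r : R) :
    Bs.lift φ α ρ h (Bs.inR φ R r) = ρ r := by
  let _ : Algebra (Polynomial k) S := RingHom.toAlgebra (α.comp φ)
  exact Algebra.TensorProduct.productMap_right_apply
    ({ (α : Al φ →+* S) with commutes' := fun _ => rfl } : Al φ →ₐ[Polynomial k] S)
    ({ ρ with commutes' := fun f => (h f).symm } : R →ₐ[Polynomial k] S) r

/-- two ring homomorphisms out of the base change agree if they agree on `A` and `R` -/
theorem Bs.hom_ext {S : Type} [CommRing S] {f g : Bs φ R →+* S}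
    (h1 : ∀ a, f (algebraMap A (Bs φ R) a) = g (algebraMap A (Bs φ R) a))
    (h2 : ∀ r, f (Bs.inR φ R r) = g (Bs.inR φ R r)) : f = g := by
  ext z
  induction z using Bs.induction with
  | h0 => rw [map_zero, map_zero]
  | h1 a r => rw [map_mul, map_mul, h1, h2]
  | h2 x y hx hy => rw [map_add, map_add, hx, hy]

/-- functoriality in `A` -/
noncomputable def Bs.map {A' : Type} [CommRing A'] (ψ : A →+* A') (φ' : Polynomial k →+* A')
    (h : ∀ f, ψ (φ f) = φ' f) : Bs φ R →+* Bs φ' R :=
  Bs.lift φ ((algebraMap A' (Bs φ' R)).comp ψ) (Bs.inR φ' R) (fun f => by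
    rw [Bs.inR_alg, RingHom.comp_apply, h])

theorem Bs.map_alg {A' : Type} [CommRing A'] (ψ : A →+* A') (φ' : Polynomial k →+* A')
    (h : ∀ f, ψ (φ f) = φ' f) (a : A) :
    Bs.map φ ψ φ' h (algebraMap A (Bs φ R) a) = algebraMap A' (Bs φ' R) (ψ a) :=
  Bs.lift_alg _ _ _ _ _

theorem Bs.map_inR {A' : Type} [CommRing A'] (ψ : A →+* A') (φ' : Polynomial k →+* A')
    (h : ∀ f, ψ (φ f) = φ' f) (r : R) :
    Bs.map φ ψ φ' h (Bs.inR φ R r) = Bs.inR φ' R r :=
  Bs.lift_inR _ _ _ _ _

/-- functoriality in `R` -/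
noncomputable def Bs.actHom (σ : R ≃ₐ[Polynomial k] R) : Bs φ R →ₐ[A] Bs φ R :=
  { Bs.lift φ (algebraMap A (Bs φ R)) ((Bs.inR φ R).comp (σ : R →+* R)) (fun f => by
      rw [RingHom.comp_apply, RingHom.coe_coe, AlgEquiv.commutes, Bs.inR_alg]) with
    commutes' := fun a => Bs.lift_alg φ (algebraMap A (Bs φ R))
      ((Bs.inR φ R).comp (σ : R →+* R)) (fun f => by
      rw [RingHom.comp_apply, RingHom.coe_coe, AlgEquiv.commutes, Bs.inR_alg]) a }

theorem Bs.actHom_inR (σ : R ≃ₐ[Polynomial k] R) (r : R) :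
    Bs.actHom φ σ (Bs.inR φ R r) = Bs.inR φ R (σ r) :=
  Bs.lift_inR φ (algebraMap A (Bs φ R)) ((Bs.inR φ R).comp (σ : R →+* R)) (fun f => by
      rw [RingHom.comp_apply, RingHom.coe_coe, AlgEquiv.commutes, Bs.inR_alg]) r

theorem Bs.actHom_mul (σ τ : R ≃ₐ[Polynomial k] R) (z : Bs φ R) :
    Bs.actHom φ (σ * τ) z = Bs.actHom φ σ (Bs.actHom φ τ z) := by
  induction z using Bs.induction with
  | h0 => rw [map_zero, map_zero, map_zero]
  | h1 a r =>
    rw [map_mul, map_mul, map_mul, AlgHom.commutes, AlgHom.commutes, AlgHom.commutes,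
      Bs.actHom_inR, Bs.actHom_inR, Bs.actHom_inR]
    rfl
  | h2 x y hx hy => rw [map_add, map_add, map_add, hx, hy]

theorem Bs.actHom_one (z : Bs φ R) : Bs.actHom φ (1 : R ≃ₐ[Polynomial k] R) z = z := by
  induction z using Bs.induction with
  | h0 => rw [map_zero]
  | h1 a r =>
    rw [map_mul, AlgHom.commutes, Bs.actHom_inR]
    rfl
  | h2 x y hx hy => rw [map_add, hx, hy]

/-- the action of a group of automorphisms of `R` on the base change -/
noncomputable def Bs.act {H : Type} [Group H] (ρ : H →* (R ≃ₐ[Polynomial k] R)) :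
    H →* (Bs φ R ≃ₐ[A] Bs φ R) where
  toFun h := AlgEquiv.ofAlgHom (Bs.actHom φ (ρ h)) (Bs.actHom φ (ρ h⁻¹))
    (by
      ext z
      rw [AlgHom.comp_apply, ← Bs.actHom_mul, ← map_mul, mul_inv_cancel, map_one,
        Bs.actHom_one]
      rfl)
    (by
      ext z
      rw [AlgHom.comp_apply, ← Bs.actHom_mul, ← map_mul, inv_mul_cancel, map_one,
        Bs.actHom_one]
      rfl)
  map_one' := by
    ext z
    change Bs.actHom φ (ρ 1) z = z
    rw [map_one, Bs.actHom_one]
  map_mul' h1 h2 := by
    ext z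
    change Bs.actHom φ (ρ (h1 * h2)) z = Bs.actHom φ (ρ h1) (Bs.actHom φ (ρ h2) z)
    rw [map_mul, Bs.actHom_mul]

theorem Bs.act_inR {H : Type} [Group H] (ρ : H →* (R ≃ₐ[Polynomial k] R)) (h : H) (r : R) :
    Bs.act φ ρ h (Bs.inR φ R r) = Bs.inR φ R (ρ h r) :=
  Bs.actHom_inR φ (ρ h) r

theorem Bs.act_alg {H : Type} [Group H] (ρ : H →* (R ≃ₐ[Polynomial k] R)) (h : H) (a : A) :
    Bs.act φ ρ h (algebraMap A (Bs φ R) a) = algebraMap A (Bs φ R) a :=
  AlgEquiv.commutes _ _

/-- the basis of the base change -/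
noncomputable def Bs.basis {ι : Type} (b : Module.Basis ι (Polynomial k) R) :
    Module.Basis ι A (Bs φ R) :=
  let b' : Module.Basis ι (Al φ) (Al φ ⊗[Polynomial k] R) := b.baseChange (Al φ)
  Module.Basis.ofRepr
    { toFun := fun z => b'.repr z
      map_add' := fun x y => map_add b'.repr x y
      map_smul' := fun c x => by
        have h : (show Al φ ⊗[Polynomial k] R from (c • x : Bs φ R)) =
            (show Al φ from c) • (show Al φ ⊗[Polynomial k] R from x) := by
          change algebraMap A (Bs φ R) c * x = _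
          exact (Algebra.smul_def (show Al φ from c)
            (show Al φ ⊗[Polynomial k] R from x)).symm
        exact (congrArg b'.repr h).trans (map_smul b'.repr _ _)
      invFun := fun z => b'.repr.symm z
      left_inv := fun z => b'.repr.symm_apply_apply z
      right_inv := fun z => b'.repr.apply_symm_apply z }

theorem Bs.basis_apply {ι : Type} (b : Module.Basis ι (Polynomial k) R) (i : ι) :
    Bs.basis φ b i = Bs.inR φ R (b i) := by
  have h : (b.baseChange (Al φ)) i = (1 : Al φ) ⊗ₜ[Polynomial k] b i :=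
    Module.Basis.baseChange_apply _ _ _
  exact h

theorem Bs.repr_inR {ι : Type} (b : Module.Basis ι (Polynomial k) R) (r : R) (i : ι) :
    (Bs.basis φ b).repr (Bs.inR φ R r) i = φ (b.repr r i) := by
  have h : (b.baseChange (Al φ)).repr ((1 : Al φ) ⊗ₜ[Polynomial k] r) i =
      b.repr r i • (1 : Al φ) := Module.Basis.baseChange_repr_tmul _ _ _ _ _
  have h2 : b.repr r i • (1 : Al φ) = (φ (b.repr r i) : A) := by
    rw [Algebra.smul_def, mul_one]; rfl
  exact h.trans h2

end bs

end Pool.Agent.AB3
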