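import Pool.Agent.Lib.MP_5de024_nt.S.D2Def

/-!
# DIV-D2: the basis adapted to the degree, colength of principal ideals
-/

set_option autoImplicit false
set_option linter.unusedSectionVars false

namespace Pool.Agent.AB3

variable {k R : Type} [Field k] [CommRing R] [Algebra k R] (X : OneInfC k R)

/-- The degree of a combination. -/
private theorem d2a_top (e : ℕ → R) (he : ∀ m, e m ≠ 0 → X.d (e m) = m ∧ X.lc (e m) = 1)
    (c : ℕ → k) (hc : ∀ m, e m = 0 → c m = 0) (n : ℕ) :
    (∀ m, m < n → c m = 0) ∨
      ((∑ m ∈ Finset.range n, c m • e m) ≠ 0 ∧ X.d (∑ m ∈ Finset.range n, c m • e m) < n ∧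
        c (X.d (∑ m ∈ Finset.range n, c m • e m)) =
          X.lc (∑ m ∈ Finset.range n, c m • e m)) := by
  induction n with
  | zero => exact Or.inl fun m hm => absurd hm (Nat.not_lt_zero m)
  | succ n ih =>
    rw [Finset.sum_range_succ]
    by_cases h0 : c n = 0
    · rw [h0, zero_smul, add_zero]
      rcases ih with ih | ⟨h1, h2, h3⟩
      · refine Or.inl fun m hm => ?_
        rcases Nat.lt_succ_iff_lt_or_eq.1 hm with h | h
        · exact ih m h
        · rw [h, h0]
      · exact Or.inr ⟨h1, by omega, h3⟩
    · have hen : e n ≠ 0 := fun h => h0 (hc n h)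
      obtain ⟨h4, h5⟩ := he n hen
      have hy1 : X.d (c n • e n) = n := by rw [X.d_smul _ h0, h4]
      have hy2 : X.lc (c n • e n) = c n := by rw [X.lc_smul, h5, mul_one]
      have hy0 : c n • e n ≠ 0 := by
        intro h
        rw [h, X.lc_zero] at hy2
        exact h0 hy2.symm
      right
      have key : X.d ((∑ m ∈ Finset.range n, c m • e m) + c n • e n) = n ∧
          X.lc ((∑ m ∈ Finset.range n, c m • e m) + c n • e n) = c n := by
        rcases ih with ih | ⟨h1, h2, h3⟩
        · have hz : (∑ m ∈ Finset.range n, c m • e m) = 0 :=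
            Finset.sum_eq_zero fun m hm => by
              rw [ih m (Finset.mem_range.1 hm), zero_smul]
          rw [hz, zero_add]
          exact ⟨hy1, hy2⟩
        · have h6 := X.add_of_lt _ _ h1 hy0 (by rw [hy1]; exact h2)
          rw [hy1, hy2] at h6
          exact h6
      refine ⟨?_, by rw [key.1]; omega, by rw [key.1, key.2]⟩
      intro h
      rw [h, X.lc_zero] at key
      exact h0 key.2.symm

private theorem d2a_exists (e : ℕ → R) (he : ∀ m, e m ≠ 0 → X.d (e m) = m ∧ X.lc (e m) = 1)
    (he0 : ∀ r : R, r ≠ 0 → e (X.d r) ≠ 0) (n : ℕ) :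
    ∀ r : R, X.d r < n → ∃ c : ℕ → k, (∀ m, e m = 0 → c m = 0) ∧ (∀ m, n ≤ m → c m = 0) ∧
      r = ∑ m ∈ Finset.range n, c m • e m := by
  induction n with
  | zero => exact fun r hr => absurd hr (Nat.not_lt_zero _)
  | succ n ih =>
    intro r hr
    have hlt : X.d r < n → ∃ c : ℕ → k, (∀ m, e m = 0 → c m = 0) ∧
        (∀ m, n + 1 ≤ m → c m = 0) ∧ r = ∑ m ∈ Finset.range (n + 1), c m • e m := by
      intro h
      obtain ⟨c, h1, h2, h3⟩ := ih r h
      refine ⟨c, h1, fun m hm => h2 m (by omega), ?_⟩
      rw [Finset.sum_range_succ, h2 n le_rfl, zero_smul, add_zero]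
      exact h3
    by_cases h : X.d r < n
    · exact hlt h
    · have hd : X.d r = n := by omega
      by_cases hr0 : r = 0
      · exact ⟨fun _ => 0, fun _ _ => rfl, fun _ _ => rfl, by simp [hr0]⟩
      · have hen := he0 r hr0
        rw [hd] at hen
        obtain ⟨h4, h5⟩ := he n hen
        have hl := X.lc_ne r hr0
        have hy1 : X.d (X.lc r • e n) = n := by rw [X.d_smul _ hl, h4]
        have hy2 : X.lc (X.lc r • e n) = X.lc r := by rw [X.lc_smul, h5, mul_one]
        have hy0 : X.lc r • e n ≠ 0 := by
          intro h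
          rw [h, X.lc_zero] at hy2
          exact hl hy2.symm
        by_cases hrr : r = X.lc r • e n
        · refine ⟨fun m => if m = n then X.lc r else 0, ?_, ?_, ?_⟩
          · intro m hm
            have : m ≠ n := by
              rintro rfl
              exact hen hm
            simp only [if_neg this]
          · intro m hm
            have : m ≠ n := by omega
            simp only [if_neg this]
          · have hz : ∑ m ∈ Finset.range n, (if m = n then X.lc r else 0) • e m = 0 := by
              refine Finset.sum_eq_zero fun m hm => ?_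
              have : m ≠ n := by
                have := Finset.mem_range.1 hm
                omega
              rw [if_neg this, zero_smul]
            change r = ∑ m ∈ Finset.range (n + 1), (if m = n then X.lc r else 0) • e m
            rw [Finset.sum_range_succ, if_pos rfl, hz, zero_add]
            exact hrr
        · have h6 := X.sub_lt r _ hr0 hy0 hrr (by rw [hy1]; exact hd) hy2.symm
          rw [hd] at h6
          obtain ⟨c, h1, h2, h3⟩ := ih _ h6
          refine ⟨fun m => if m = n then X.lc r else c m, ?_, ?_, ?_⟩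
          · intro m hm
            have : m ≠ n := by
              rintro rfl
              exact hen hm
            simp only [if_neg this]
            exact h1 m hm
          · intro m hm
            have : m ≠ n := by omega
            simp only [if_neg this]
            exact h2 m (by omega)
          · have hz : ∑ m ∈ Finset.range n, (if m = n then X.lc r else c m) • e m =
                ∑ m ∈ Finset.range n, c m • e m := by
              refine Finset.sum_congr rfl fun m hm => ?_
              have : m ≠ n := by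
                have := Finset.mem_range.1 hm
                omega
              rw [if_neg this]
            change r = ∑ m ∈ Finset.range (n + 1), (if m = n then X.lc r else c m) • e m
            rw [Finset.sum_range_succ, if_pos rfl, hz, ← h3, sub_add_cancel]

/-- `c` represents `r`. -/
private def d2aP (e : ℕ → R) (r : R) (c : ℕ → k) : Prop :=
  (∀ m, e m = 0 → c m = 0) ∧
    ∃ N, ∀ M, N ≤ M → c M = 0 ∧ r = ∑ m ∈ Finset.range M, c m • e m

private theorem d2a_ext (e : ℕ → R) (r : R) (c : ℕ → k) (n : ℕ) (h2 : ∀ m, n ≤ m → c m = 0)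
    (h3 : r = ∑ m ∈ Finset.range n, c m • e m) (M : ℕ) (hM : n ≤ M) :
    r = ∑ m ∈ Finset.range M, c m • e m := by
  induction M, hM using Nat.le_induction with
  | base => exact h3
  | succ M hM ih => rw [Finset.sum_range_succ, h2 M hM, zero_smul, add_zero]; exact ih

private theorem d2a_uniq (e : ℕ → R) (he : ∀ m, e m ≠ 0 → X.d (e m) = m ∧ X.lc (e m) = 1)
    (r : R) (c c' : ℕ → k) (h : d2aP e r c) (h' : d2aP e r c') : c = c' := by
  obtain ⟨h1, N, h2⟩ := h
  obtain ⟨h1', N', h2'⟩ := h'
  funext m
  obtain ⟨M, hM⟩ : ∃ M, M = max (max N N') (m + 1) := ⟨_, rfl⟩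
  have hs : (∑ i ∈ Finset.range M, (c i - c' i) • e i) = 0 := by
    simp only [sub_smul, Finset.sum_sub_distrib]
    rw [← (h2 M (by omega)).2, ← (h2' M (by omega)).2, sub_self]
  rcases d2a_top X e he (fun i => c i - c' i)
    (fun i hi => by simp only [h1 i hi, h1' i hi, sub_self]) M with h | ⟨h, -, -⟩
  · exact sub_eq_zero.1 (h m (by omega))
  · exact absurd hs h

/-- Choose for every degree `m` an element `e m` with leading coefficient one, `e m = 0` if `m` is not a
degree. For every `r` of degree `n` the element `r - lc r • e n` is zero or has smaller degree (`sub_lt`): so the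
`e m ≠ 0` span `R`; they are independent because a combination has the degree of its top term
(`add_of_lt`). `co m` = the coordinate at `e m`. -/
theorem exists_degB : Nonempty (DegB X) := by
  classical
  have hex : ∀ m : ℕ, ∃ a : R, (a ≠ 0 → X.d a = m ∧ X.lc a = 1) ∧
      ∀ r : R, r ≠ 0 → X.d r = m → a ≠ 0 := by
    intro m
    by_cases h : ∃ r : R, r ≠ 0 ∧ X.d r = m
    · obtain ⟨r, hr, hd⟩ := h
      have hl := X.lc_ne r hr
      have h2 : X.lc ((X.lc r)⁻¹ • r) = 1 := by rw [X.lc_smul, inv_mul_cancel₀ hl]
      refine ⟨(X.lc r)⁻¹ • r, fun _ => ⟨by rw [X.d_smul _ (inv_ne_zero hl), hd], h2⟩,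
        fun _ _ _ h => ?_⟩
      rw [h, X.lc_zero] at h2
      exact zero_ne_one h2
    · exact ⟨0, fun h => absurd rfl h, fun r hr hd _ => h ⟨r, hr, hd⟩⟩
  choose e he1 he2 using hex
  have he0 : ∀ r : R, r ≠ 0 → e (X.d r) ≠ 0 := fun r hr => he2 _ r hr rfl
  have hE : ∀ r : R, ∃ c : ℕ → k, d2aP e r c ∧ (∀ m, X.d r < m → c m = 0) ∧
      (∀ M, X.d r < M → r = ∑ m ∈ Finset.range M, c m • e m) := by
    intro r
    obtain ⟨c, h1, h2, h3⟩ := d2a_exists X e he1 he0 (X.d r + 1) r (Nat.lt_succ_self _)
    exact ⟨c, ⟨h1, X.d r + 1, fun M hM => ⟨h2 M hM, d2a_ext e r c _ h2 h3 M hM⟩⟩,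
      fun m hm => h2 m hm, fun M hM => d2a_ext e r c _ h2 h3 M hM⟩
  choose c hc1 hc2 hc3 using hE
  have huq : ∀ r c', d2aP e r c' → c r = c' := fun r c' h => d2a_uniq X e he1 r _ _ (hc1 r) h
  refine ⟨⟨e, fun m => ⟨⟨fun r => c r m, ?_⟩, ?_⟩, he1, ?_, ?_, ?_, ?_, ?_⟩⟩
  · -- additivity
    intro r s
    have h := huq (r + s) (fun m => c r m + c s m) ?_
    · exact congrFun h m
    · obtain ⟨h1, N, h2⟩ := hc1 r
      obtain ⟨h1', N', h2'⟩ := hc1 s
      refine ⟨fun i hi => by simp only [h1 i hi, h1' i hi, add_zero], max N N', fun M hM => ?_⟩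
      have a1 := h2 M (by omega)
      have a2 := h2' M (by omega)
      refine ⟨by simp only [a1.1, a2.1, add_zero], ?_⟩
      simp only [add_smul, Finset.sum_add_distrib]
      rw [← a1.2, ← a2.2]
  · intro a r
    have h := huq (a • r) (fun m => a * c r m) ?_
    · exact congrFun h m
    · obtain ⟨h1, N, h2⟩ := hc1 r
      refine ⟨fun i hi => by simp only [h1 i hi, mul_zero], N, fun M hM => ?_⟩
      have a1 := h2 M hM
      refine ⟨by simp only [a1.1, mul_zero], ?_⟩
      simp only [mul_smul, ← Finset.smul_sum]
      rw [← a1.2]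
  · exact fun m r hm => (hc1 r).1 m hm
  · exact fun m r hm => hc2 r m hm
  · intro r
    change c r (X.d r) = X.lc r
    have h3 := hc3 r (X.d r + 1) (Nat.lt_succ_self _)
    rcases d2a_top X e he1 (c r) (hc1 r).1 (X.d r + 1) with h | ⟨-, -, h⟩
    · have hr0 : r = 0 := by
        rw [h3]
        exact Finset.sum_eq_zero fun m hm => by rw [h m (Finset.mem_range.1 hm), zero_smul]
      rw [h _ (Nat.lt_succ_self _), hr0, X.lc_zero]
    · rwa [← h3] at h
  · exact fun n r hr => hc3 r (n + 1) (by omega)
  · intro m m' hm'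
    have h := huq (e m') (fun m => if m = m' then 1 else 0) ?_
    · exact congrFun h m
    · refine ⟨fun i hi => ?_, m' + 1, fun M hM => ⟨?_, ?_⟩⟩
      · have : i ≠ m' := by
          rintro rfl
          exact hm' hi
        simp only [if_neg this]
      · have : M ≠ m' := by omega
        simp only [if_neg this]
      · rw [Finset.sum_eq_single m']
        · simp
        · intro b _ hb
          simp only [if_neg hb, zero_smul]
        · intro hb
          exact absurd (Finset.mem_range.2 (by omega)) hb

/-- `degS X n` is spanned by `e 0, ..., e n` -/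
theorem finite_degS (n : ℕ) : Module.Finite k (degS X n) := by
  classical
  obtain ⟨E⟩ := exists_degB X
  rw [Module.Finite.iff_fg]
  refine ⟨(Finset.range (n + 1)).image E.e, le_antisymm ?_ ?_⟩
  · rw [Submodule.span_le]
    intro x hx
    obtain ⟨m, hm, rfl⟩ := Finset.mem_image.1 (Finset.mem_coe.1 hx)
    have hm' := Finset.mem_range.1 hm
    by_cases h : E.e m = 0
    · rw [h]
      exact Submodule.zero_mem _
    · change X.d (E.e m) ≤ n
      rw [(E.e_spec m h).1]
      omega
  · intro r hr
    rw [E.sum_co n r hr]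
    refine Submodule.sum_mem _ fun m hm => Submodule.smul_mem _ _ (Submodule.subset_span ?_)
    exact Finset.mem_coe.2 (Finset.mem_image_of_mem _ hm)

end Pool.Agent.AB3
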