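import Pool.Agent.Lib.MP_5de024_nt.S.D2A

/-!
# DIV-D2: colength of principal ideals
-/

set_option autoImplicit false
set_option linter.unusedSectionVars false

namespace Pool.Agent.AB3

variable {k R : Type} [Field k] [CommRing R] [Algebra k R] (X : OneInfC k R)

theorem d2a2_e_ne (E : DegB X) (a : R) (ha : a ≠ 0) : E.e (X.d a) ≠ 0 := by
  intro h
  have h1 := E.co_zero _ a h
  rw [E.co_top] at h1
  exact X.lc_ne a ha h1

open Classical in
/-- the degrees up to `n` -/
noncomputable def d2a2_S {X : OneInfC k R} (E : DegB X) (n : ℕ) : Finset ℕ :=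
  (Finset.range (n + 1)).filter fun m => E.e m ≠ 0

theorem d2a2_mem_S {X : OneInfC k R} (E : DegB X) (n m : ℕ) :
    m ∈ d2a2_S E n ↔ m ≤ n ∧ E.e m ≠ 0 := by
  classical
  unfold d2a2_S
  rw [Finset.mem_filter, Finset.mem_range, Nat.lt_succ_iff]

theorem d2a2_span (E : DegB X) (n : ℕ) :
    degS X n = Submodule.span k (Set.range fun m : d2a2_S E n => E.e (m : ℕ)) := by
  apply le_antisymm
  · intro r hr
    rw [E.sum_co n r hr]
    refine Submodule.sum_mem _ fun m hm => ?_
    by_cases h0 : E.e m = 0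
    · rw [h0, smul_zero]
      exact Submodule.zero_mem _
    · refine Submodule.smul_mem _ _ (Submodule.subset_span ⟨⟨m, ?_⟩, rfl⟩)
      rw [d2a2_mem_S]
      rw [Finset.mem_range] at hm
      exact ⟨by omega, h0⟩
  · rw [Submodule.span_le]
    rintro _ ⟨m, rfl⟩
    have h1 := (d2a2_mem_S E n m).1 m.2
    show X.d (E.e m) ≤ n
    rw [(E.e_spec _ h1.2).1]
    exact h1.1

theorem d2a2_lin {X : OneInfC k R} (E : DegB X) (n : ℕ) :
    LinearIndependent k fun m : d2a2_S E n => E.e (m : ℕ) := by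
  rw [Fintype.linearIndependent_iff]
  intro g hg i
  have h1 := congrArg (E.co (i : ℕ)) hg
  rw [map_sum, map_zero, Finset.sum_eq_single i] at h1
  · rw [LinearMap.map_smul, E.co_e _ _ ((d2a2_mem_S E n i).1 i.2).2, if_pos rfl, smul_eq_mul,
      mul_one] at h1
    exact h1
  · intro j _ hj
    rw [LinearMap.map_smul, E.co_e _ _ ((d2a2_mem_S E n j).1 j.2).2, if_neg, smul_zero]
    intro h2
    exact hj (Subtype.ext h2.symm)
  · intro h2
    exact absurd (Finset.mem_univ i) h2

theorem d2a2_finrank (E : DegB X) (n : ℕ) : Module.finrank k (degS X n) = (d2a2_S E n).card := by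
  rw [d2a2_span X E n, finrank_span_eq_card (d2a2_lin E n), Fintype.card_coe]

theorem d2a2_count {X : OneInfC k R} (E : DegB X) (c : ℕ) (hc : ∀ n, c ≤ n → E.e n ≠ 0) (j : ℕ) :
    (d2a2_S E (c + j)).card = (d2a2_S E c).card + j := by
  induction j with
  | zero => rfl
  | succ j ih =>
    have h1 : d2a2_S E (c + (j + 1)) = insert (c + (j + 1)) (d2a2_S E (c + j)) := by
      ext m
      rw [Finset.mem_insert, d2a2_mem_S, d2a2_mem_S]
      constructor
      · rintro ⟨h2, h3⟩
        rcases Nat.lt_or_ge m (c + (j + 1)) with h4 | h4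
        · exact Or.inr ⟨by omega, h3⟩
        · exact Or.inl (by omega)
      · rintro (h2 | ⟨h2, h3⟩)
        · rw [h2]
          exact ⟨le_rfl, hc _ (by omega)⟩
        · exact ⟨by omega, h3⟩
    rw [h1, Finset.card_insert_of_notMem, ih]
    · rfl
    · rw [d2a2_mem_S]
      rintro ⟨h2, -⟩
      omega

theorem d2a2_gen (E : DegB X) : ∃ c : ℕ, ∀ n, c ≤ n → E.e n ≠ 0 := by
  obtain ⟨c, hc⟩ := X.gen
  refine ⟨c, fun n hn => ?_⟩
  obtain ⟨a, ha, had⟩ := hc n hn
  rw [← had]
  exact d2a2_e_ne X E a ha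

/-- `R = degS X n + (f)` for `n = c + d f` -/
theorem d2a2_reduce (E : DegB X) (c : ℕ) (hc : ∀ n, c ≤ n → E.e n ≠ 0) (f : R) (hf : f ≠ 0) :
    ∀ (N : ℕ) (r : R), X.d r ≤ N → ∃ s : R, X.d s ≤ c + X.d f ∧ ∃ b : R, r - s = f * b := by
  intro N
  induction N using Nat.strong_induction_on with
  | _ N ih =>
    intro r hr
    by_cases h0 : X.d r ≤ c + X.d f
    · exact ⟨r, h0, 0, by rw [sub_self, mul_zero]⟩
    · rw [not_le] at h0
      have hr0 : r ≠ 0 := by
        intro h
        rw [h, X.d_zero] at h0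
        omega
      have hn : c ≤ X.d r - X.d f := by omega
      obtain ⟨hd, hl⟩ := E.e_spec _ (hc _ hn)
      have he := hc _ hn
      have hlf := X.lc_ne f hf
      have hlr := X.lc_ne r hr0
      have hq : X.lc r / X.lc f ≠ 0 := div_ne_zero hlr hlf
      have hfe : f * E.e (X.d r - X.d f) ≠ 0 := X.mul_ne _ _ hf he
      have hg0 : (X.lc r / X.lc f) • (f * E.e (X.d r - X.d f)) ≠ 0 := by
        intro h
        have h1 := X.lc_smul (X.lc r / X.lc f) (f * E.e (X.d r - X.d f))
        rw [h, X.lc_zero] at h1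
        exact mul_ne_zero hq (X.lc_ne _ hfe) h1.symm
      have hgd : X.d ((X.lc r / X.lc f) • (f * E.e (X.d r - X.d f))) = X.d r := by
        rw [X.d_smul _ hq, X.d_mul _ _ hf he, hd]
        omega
      have hgl : X.lc ((X.lc r / X.lc f) • (f * E.e (X.d r - X.d f))) = X.lc r := by
        rw [X.lc_smul, X.lc_mul, hl, mul_one, div_mul_cancel₀ _ hlf]
      by_cases hrg : r = (X.lc r / X.lc f) • (f * E.e (X.d r - X.d f))
      · refine ⟨0, by rw [X.d_zero]; exact Nat.zero_le _, (X.lc r / X.lc f) • E.e (X.d r - X.d f), ?_⟩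
        rw [sub_zero, mul_smul_comm]
        exact hrg
      · have h1 := X.sub_lt _ _ hr0 hg0 hrg hgd.symm hgl.symm
        obtain ⟨s, hs, b, hb⟩ := ih (X.d (r - (X.lc r / X.lc f) • (f * E.e (X.d r - X.d f))))
          (by omega) _ le_rfl
        refine ⟨s, hs, b + (X.lc r / X.lc f) • E.e (X.d r - X.d f), ?_⟩
        rw [mul_add, ← hb, mul_smul_comm]
        ring

/-- the map from the elements of bounded degree to the quotient -/
noncomputable def d2a2_phi (n : ℕ) (I : Ideal R) : degS X n →ₗ[k] (R ⧸ I) :=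
  (Ideal.Quotient.mkₐ k I).toLinearMap.comp (degS X n).subtype

theorem d2a2_phi_apply (n : ℕ) (I : Ideal R) (a : degS X n) :
    d2a2_phi X n I a = Ideal.Quotient.mk I (a : R) := rfl

theorem d2a2_phi_surj (E : DegB X) (c : ℕ) (hc : ∀ n, c ≤ n → E.e n ≠ 0) (f : R) (hf : f ≠ 0) :
    Function.Surjective (d2a2_phi X (c + X.d f) (Ideal.span {f})) := by
  intro y
  obtain ⟨r, rfl⟩ := Ideal.Quotient.mk_surjective y
  obtain ⟨s, hs, b, hb⟩ := d2a2_reduce X E c hc f hf _ r le_rfl
  refine ⟨⟨s, hs⟩, ?_⟩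
  rw [d2a2_phi_apply]
  symm
  rw [Ideal.Quotient.eq, Ideal.mem_span_singleton]
  exact ⟨b, hb⟩

/-- multiplication by `f` -/
noncomputable def d2a2_psi (c : ℕ) (f : R) (hf : f ≠ 0) : degS X c →ₗ[k] degS X (c + X.d f) where
  toFun a := ⟨f * a, by
    by_cases ha : (a : R) = 0
    · rw [ha, mul_zero]
      exact Submodule.zero_mem _
    · show X.d (f * a) ≤ c + X.d f
      rw [X.d_mul _ _ hf ha]
      have h1 : X.d (a : R) ≤ c := a.2
      omega⟩
  map_add' a b := Subtype.ext (mul_add f (a : R) b)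
  map_smul' r a := Subtype.ext (mul_smul_comm r f (a : R))

theorem d2a2_psi_inj (c : ℕ) (f : R) (hf : f ≠ 0) : Function.Injective (d2a2_psi X c f hf) := by
  rw [← LinearMap.ker_eq_bot, LinearMap.ker_eq_bot']
  intro a ha
  have h1 : f * (a : R) = 0 := congrArg Subtype.val ha
  by_contra h2
  exact X.mul_ne f a hf (fun h3 => h2 (Subtype.ext h3)) h1

theorem d2a2_ker (c : ℕ) (f : R) (hf : f ≠ 0) :
    LinearMap.ker (d2a2_phi X (c + X.d f) (Ideal.span {f})) = LinearMap.range (d2a2_psi X c f hf) := by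
  ext a
  rw [LinearMap.mem_ker, LinearMap.mem_range, d2a2_phi_apply, Ideal.Quotient.eq_zero_iff_mem,
    Ideal.mem_span_singleton]
  constructor
  · rintro ⟨b, hb⟩
    by_cases hb0 : b = 0
    · refine ⟨0, ?_⟩
      rw [map_zero]
      apply Subtype.ext
      rw [hb, hb0, mul_zero]
      rfl
    · have h1 : X.d (a : R) ≤ c + X.d f := a.2
      rw [hb, X.d_mul _ _ hf hb0] at h1
      have h2 : X.d b ≤ c := by omega
      exact ⟨⟨b, h2⟩, Subtype.ext hb.symm⟩
  · rintro ⟨b, rfl⟩
    exact ⟨(b : R), rfl⟩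

/-- For large `n` (`n ≥ c + d f`, `c` from `gen`): `R = degS X n + (f)` (reduce the leading term of an element of
larger degree `n'` by `f * a`, `d a = n' - d f ≥ c`), and `(f) ∩ degS X n = f * degS X (n - d f)` (`d_mul`). Hence
`R / (f)` is `degS X n / f * degS X (n - d f)`, of dimension the number of degrees in `(n - d f, n]`, that is `d f` (all
numbers `> n - d f ≥ c` are degrees); or: the classes of the `e m`, `m ≤ n`, modulo `f e m'`. -/
theorem col_span (f : R) (hf : f ≠ 0) :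
    Module.Finite k (R ⧸ Ideal.span {f}) ∧ col k (Ideal.span {f}) = X.d f := by
  obtain ⟨E⟩ := exists_degB X
  obtain ⟨c, hc⟩ := d2a2_gen X E
  have hfin := finite_degS X (c + X.d f)
  have hs := d2a2_phi_surj X E c hc f hf
  refine ⟨Module.Finite.of_surjective _ hs, ?_⟩
  unfold col
  have h1 := LinearMap.finrank_range_add_finrank_ker (d2a2_phi X (c + X.d f) (Ideal.span {f}))
  rw [LinearMap.range_eq_top.2 hs, finrank_top, d2a2_ker X c f hf,
    LinearMap.finrank_range_of_inj (d2a2_psi_inj X c f hf), d2a2_finrank X E, d2a2_finrank X E,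
    d2a2_count E c hc] at h1
  omega

include X in
/-- quotients by nonzero ideals are finite dimensional (`R / (f) → R / I`, `f ∈ I`) -/
theorem fin_quot (I : Ideal R) (hI : I ≠ ⊥) : Module.Finite k (R ⧸ I) := by
  obtain ⟨f, hfI, hf⟩ := Submodule.exists_mem_ne_zero_of_ne_bot hI
  have h1 := (col_span X f hf).1
  have hle : Ideal.span {f} ≤ I := (Ideal.span_singleton_le_iff_mem I).2 hfI
  refine Module.Finite.of_surjective (Ideal.Quotient.factorₐ k hle).toLinearMap ?_
  intro y
  obtain ⟨r, rfl⟩ := Ideal.Quotient.mk_surjective y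
  exact ⟨Ideal.Quotient.mk _ r, rfl⟩

/-- `degS X (col k I + c)` has dimension `> col k I` (it contains elements of the degrees `c, ..., c + col k I`), so it
meets `I` -/
theorem exists_mem_small : ∃ c : ℕ, ∀ I : Ideal R, I ≠ ⊥ → ∃ f ∈ I, f ≠ 0 ∧
    X.d f ≤ col k I + c := by
  obtain ⟨E⟩ := exists_degB X
  obtain ⟨c, hc⟩ := d2a2_gen X E
  refine ⟨c, fun I hI => ?_⟩
  have hfq := fin_quot X I hI
  have hfin := finite_degS X (c + col k I)
  have h1 : Module.finrank k (R ⧸ I) < Module.finrank k (degS X (c + col k I)) := by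
    rw [d2a2_finrank X E, d2a2_count E c hc]
    have h2 : 0 < (d2a2_S E c).card :=
      Finset.card_pos.2 ⟨c, (d2a2_mem_S E c c).2 ⟨le_rfl, hc c le_rfl⟩⟩
    show col k I < _
    omega
  have h3 := LinearMap.ker_ne_bot_of_finrank_lt (f := d2a2_phi X (c + col k I) I) h1
  obtain ⟨a, ha, ha0⟩ := Submodule.exists_mem_ne_zero_of_ne_bot h3
  rw [LinearMap.mem_ker, d2a2_phi_apply, Ideal.Quotient.eq_zero_iff_mem] at ha
  have h5 : X.d (a : R) ≤ c + col k I := a.2
  exact ⟨(a : R), ha, fun h4 => ha0 (Subtype.ext h4), by omega⟩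

end Pool.Agent.AB3
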