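import Pool.Agent.Lib.MP_5de024_nt.S.D2B

/-!
# DIV-D2: small representatives of the classes, minimal ideals
-/

set_option autoImplicit false
set_option linter.unusedSectionVars false

namespace Pool.Agent.AB3

open nonZeroDivisors

variable {k R : Type} [Field k] [CommRing R] [IsDedekindDomain R] [Algebra k R]
  (X : OneInfC k R)

include X in
/-- Let `I'` be a nonzero ideal in the class inverse to that of `I` and `f ∈ I'` with `d f ≤ col k I' + c`
(`exists_mem_small`): `(f) = I' J`, `J` is equivalent to `I`, `col k J = d f - col k I' ≤ c` (`col_mul`, `col_span`). -/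
theorem exists_small : ∃ g : ℕ, ∀ I : Ideal R, I ≠ ⊥ → ∃ J : Ideal R, J ≠ ⊥ ∧ Eqv I J ∧
    col k J ≤ g := by
  obtain ⟨c, hc⟩ := exists_mem_small X
  refine ⟨c, fun I hI => ?_⟩
  obtain ⟨a, haI, ha⟩ := Submodule.exists_mem_ne_zero_of_ne_bot hI
  have ha' : Ideal.span {a} ≠ ⊥ := fun h => ha (Ideal.span_singleton_eq_bot.1 h)
  obtain ⟨I', hI'⟩ : I ∣ Ideal.span {a} :=
    Ideal.dvd_iff_le.2 ((Ideal.span_singleton_le_iff_mem I).2 haI)
  have hI'0 : I' ≠ ⊥ := by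
    intro h
    apply ha'
    rw [hI', h, Ideal.mul_bot]
  obtain ⟨f, hfI, hf, hd⟩ := hc I' hI'0
  have hf' : Ideal.span {f} ≠ ⊥ := fun h => hf (Ideal.span_singleton_eq_bot.1 h)
  obtain ⟨J, hJ⟩ : I' ∣ Ideal.span {f} :=
    Ideal.dvd_iff_le.2 ((Ideal.span_singleton_le_iff_mem I').2 hfI)
  have hJ0 : J ≠ ⊥ := by
    intro h
    apply hf'
    rw [hJ, h, Ideal.mul_bot]
  refine ⟨J, hJ0, ⟨f, a, hf, ha, ?_⟩, ?_⟩
  · rw [hI', hJ]
    ring
  · have h1 := col_mul X I' J hI'0 hJ0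
    rw [← hJ, (col_span X f hf).2] at h1
    omega

/-- If `f ≠ 0` then `(f) J = (u) J''` (`f J ≤ (u)`), `J''` is equivalent to `J` and
`col k J'' = d f + col k J - d u < col k J`. -/
theorem d2_min (J : Ideal R) (hJ : J ≠ ⊥)
    (hm : ∀ J' : Ideal R, J' ≠ ⊥ → Eqv J J' → col k J ≤ col k J') (u : R) (hu : u ≠ 0) (f : R)
    (hf : ∀ x ∈ J, f * x ∈ Ideal.span {u}) (hd : X.d f < X.d u) : f = 0 := by
  by_contra hf0
  have hf' : Ideal.span {f} ≠ ⊥ := fun h => hf0 (Ideal.span_singleton_eq_bot.1 h)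
  have hu' : Ideal.span {u} ≠ ⊥ := fun h => hu (Ideal.span_singleton_eq_bot.1 h)
  have hle : Ideal.span {f} * J ≤ Ideal.span {u} := by
    rw [Ideal.mul_le]
    intro r hr x hx
    obtain ⟨s, rfl⟩ := Ideal.mem_span_singleton'.1 hr
    rw [mul_assoc]
    exact Ideal.mul_mem_left _ _ (hf x hx)
  obtain ⟨J', hJ'⟩ : Ideal.span {u} ∣ Ideal.span {f} * J := Ideal.dvd_iff_le.2 hle
  have hJ'0 : J' ≠ ⊥ := by
    intro h
    rw [h, Ideal.mul_bot] at hJ'
    rcases Ideal.mul_eq_bot.1 hJ' with h1 | h1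
    · exact hf' h1
    · exact hJ h1
  have h1 := hm J' hJ'0 ⟨f, u, hf0, hu, hJ'⟩
  have h2 := col_mul X (Ideal.span {f}) J hf' hJ
  have h3 := col_mul X (Ideal.span {u}) J' hu' hJ'0
  rw [← hJ', h2, (col_span X f hf0).2, (col_span X u hu).2] at h3
  omega

end Pool.Agent.AB3
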