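import Pool.Agent.Lib.MP_5de024_nt.S.D2A2

/-!
# DIV-D2: ideals of bounded colength are generated in bounded degree
-/

set_option autoImplicit false
set_option linter.unusedSectionVars false

namespace Pool.Agent.AB3

variable {k R : Type} [Field k] [CommRing R] [Algebra k R] (X : OneInfC k R)

/-- There is a nonzero `f ∈ J` of degree at most `m + c'` (`exists_mem_small`), and every `r` is congruent modulo `f` to an
element of degree at most `c + d f` (`d2a2_reduce`). So `B = c + (m + c')` does it: for `r ∈ J` the remainder is in `J` as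
well. -/
theorem d2_gen [Algebra.FiniteType k R] (m : ℕ) : ∃ B : ℕ, ∀ J : Ideal R, J ≠ ⊥ →
    col k J = m → (∀ r : R, ∃ w ∈ degS X B, r - w ∈ J) ∧
      J = Ideal.span ((J : Set R) ∩ (degS X B : Set R)) := by
  obtain ⟨E⟩ := exists_degB X
  obtain ⟨c, hc⟩ := d2a2_gen X E
  obtain ⟨c', hc'⟩ := exists_mem_small X
  refine ⟨c + (m + c'), fun J hJ hm => ?_⟩
  obtain ⟨f, hfJ, hf, hfd⟩ := hc' J hJ
  rw [hm] at hfd
  have hred : ∀ r : R, ∃ s : R, X.d s ≤ c + (m + c') ∧ ∃ b : R, r - s = f * b := by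
    intro r
    obtain ⟨s, hs, b, hb⟩ := d2a2_reduce X E c hc f hf _ r le_rfl
    exact ⟨s, by omega, b, hb⟩
  refine ⟨fun r => ?_, le_antisymm ?_ ?_⟩
  · obtain ⟨s, hs, b, hb⟩ := hred r
    refine ⟨s, hs, ?_⟩
    rw [hb]
    exact J.mul_mem_right b hfJ
  · intro r hr
    obtain ⟨s, hs, b, hb⟩ := hred r
    have hsJ : s ∈ J := by
      have h1 : s = r - f * b := by rw [← hb]; ring
      rw [h1]
      exact J.sub_mem hr (J.mul_mem_right b hfJ)
    have h2 : r = s + f * b := by rw [← hb]; ring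
    rw [h2]
    refine Ideal.add_mem _ (Ideal.subset_span ⟨hsJ, hs⟩)
      (Ideal.mul_mem_right b _ (Ideal.subset_span ⟨hfJ, ?_⟩))
    show X.d f ≤ c + (m + c')
    omega
  · rw [Ideal.span_le]
    exact fun x hx => hx.1

end Pool.Agent.AB3
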