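import Mathlib

/-!
# DIV-D2: definitions

Rings with one place at infinity, of degree one, over an arbitrary field (`OneInf` of `C/Abs.lean` is
the version for finite fields: its growth condition is about cardinalities). Elements of degree at
most `n`, the colength of an ideal.
-/

set_option autoImplicit false
set_option linter.unusedSectionVars false

namespace Pool.Agent.AB3

/-- the ring `R` over the field `k` has one place at infinity, of degree one: `d` is the degree
(pole order) and `lc` the leading coefficient; all large numbers are degrees -/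
structure OneInfC (k R : Type) [Field k] [CommRing R] [Algebra k R] where
  /-- the degree -/
  d : R → ℕ
  /-- the leading coefficient -/
  lc : R → k
  lc_zero : lc 0 = 0
  lc_ne : ∀ a : R, a ≠ 0 → lc a ≠ 0
  lc_mul : ∀ a b : R, lc (a * b) = lc a * lc b
  lc_alg : ∀ c : k, lc (algebraMap k R c) = c
  d_alg : ∀ c : k, d (algebraMap k R c) = 0
  d_mul : ∀ a b : R, a ≠ 0 → b ≠ 0 → d (a * b) = d a + d b
  add_of_lt : ∀ a b : R, a ≠ 0 → b ≠ 0 → d a < d b → d (a + b) = d b ∧ lc (a + b) = lc b
  sub_lt : ∀ a b : R, a ≠ 0 → b ≠ 0 → a ≠ b → d a = d b → lc a = lc b → d (a - b) < d a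
  gen : ∃ c : ℕ, ∀ n : ℕ, c ≤ n → ∃ a : R, a ≠ 0 ∧ d a = n

section
variable {k R : Type} [Field k] [CommRing R] [Algebra k R] (X : OneInfC k R)

theorem OneInfC.d_zero : X.d 0 = 0 := by
  rw [← map_zero (algebraMap k R), X.d_alg]

theorem OneInfC.d_one : X.d 1 = 0 := by
  rw [← map_one (algebraMap k R), X.d_alg]

theorem OneInfC.lc_one : X.lc 1 = 1 := by
  rw [← map_one (algebraMap k R), X.lc_alg]

include X in
/-- `R` is a domain -/
theorem OneInfC.mul_ne (a b : R) (ha : a ≠ 0) (hb : b ≠ 0) : a * b ≠ 0 := by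
  intro h
  have h1 := X.lc_mul a b
  rw [h, X.lc_zero] at h1
  exact mul_ne_zero (X.lc_ne a ha) (X.lc_ne b hb) h1.symm

theorem OneInfC.d_smul (c : k) (hc : c ≠ 0) (a : R) : X.d (c • a) = X.d a := by
  by_cases ha : a = 0
  · rw [ha, smul_zero]
  · have h1 : algebraMap k R c ≠ 0 := by
      intro h
      have h2 := X.lc_alg c
      rw [h, X.lc_zero] at h2
      exact hc h2.symm
    rw [Algebra.smul_def, X.d_mul _ _ h1 ha, X.d_alg, zero_add]

theorem OneInfC.lc_smul (c : k) (a : R) : X.lc (c • a) = c * X.lc a := by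
  rw [Algebra.smul_def, X.lc_mul, X.lc_alg]

theorem OneInfC.d_neg (a : R) : X.d (-a) = X.d a := by
  have h1 := X.d_smul (-1) (by norm_num) a
  rwa [neg_one_smul] at h1

theorem OneInfC.d_add_le (a b : R) (n : ℕ) (ha : X.d a ≤ n) (hb : X.d b ≤ n) :
    X.d (a + b) ≤ n := by
  by_cases ha0 : a = 0
  · rwa [ha0, zero_add]
  by_cases hb0 : b = 0
  · rwa [hb0, add_zero]
  by_contra hcon
  rw [not_le] at hcon
  have hab : a + b ≠ 0 := by
    intro h
    rw [h, X.d_zero] at hcon
    omega
  have h1 := X.add_of_lt (-b) (a + b) (neg_ne_zero.2 hb0) hab (by rw [X.d_neg]; omega)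
  rw [show -b + (a + b) = a by ring] at h1
  omega

/-- the elements of degree at most `n` -/
def degS (n : ℕ) : Submodule k R where
  carrier := {a | X.d a ≤ n}
  zero_mem' := by
    show X.d 0 ≤ n
    rw [X.d_zero]
    exact Nat.zero_le n
  add_mem' := fun {a b} ha hb => X.d_add_le a b n ha hb
  smul_mem' := by
    intro c a ha
    by_cases hc : c = 0
    · show X.d (c • a) ≤ n
      rw [hc, zero_smul, X.d_zero]
      exact Nat.zero_le n
    · show X.d (c • a) ≤ n
      rw [X.d_smul c hc]
      exact ha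

theorem mem_degS (n : ℕ) (a : R) : a ∈ degS X n ↔ X.d a ≤ n := Iff.rfl

end

/-- the colength of an ideal -/
noncomputable def col (k : Type) {R : Type} [Field k] [CommRing R] [Algebra k R] (I : Ideal R) :
    ℕ :=
  Module.finrank k (R ⧸ I)

/-- two ideals are equivalent: `(a) I = (b) J` -/
def Eqv {R : Type} [CommRing R] (I J : Ideal R) : Prop :=
  ∃ a b : R, a ≠ 0 ∧ b ≠ 0 ∧ Ideal.span {a} * I = Ideal.span {b} * J

/-- a basis `e` adapted to the degree, with coordinate functions `co`: `e m` is zero (and then `m` is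
not a degree) or has degree `m` and leading coefficient one -/
structure DegB {k R : Type} [Field k] [CommRing R] [Algebra k R] (X : OneInfC k R) where
  /-- the basis -/
  e : ℕ → R
  /-- the coordinates -/
  co : ℕ → R →ₗ[k] k
  e_spec : ∀ m, e m ≠ 0 → X.d (e m) = m ∧ X.lc (e m) = 1
  co_zero : ∀ m r, e m = 0 → co m r = 0
  co_lt : ∀ m r, X.d r < m → co m r = 0
  co_top : ∀ r : R, co (X.d r) r = X.lc r
  sum_co : ∀ (n : ℕ) (r : R), X.d r ≤ n → r = ∑ m ∈ Finset.range (n + 1), co m r • e m
  co_e : ∀ m m', e m' ≠ 0 → co m (e m') = if m = m' then 1 else 0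

/-- the generators of `J`: `e_j - ∑_(t in T) lam_(j,t) e_t` -/
noncomputable def vv {k R : Type} [Field k] [CommRing R] [Algebra k R] {X : OneInfC k R}
    (E : DegB X) (T : Finset ℕ) (lam : ℕ → ℕ → k) (j : ℕ) : R :=
  E.e j - ∑ t ∈ T, lam j t • E.e t

/-- the data of an ideal `J` of minimal colength `m` in its class, `J ^ l = (u)` -/
structure D2Data {k R : Type} [Field k] [CommRing R] [Algebra k R] {X : OneInfC k R}
    (E : DegB X) (l m B : ℕ) (T : Finset ℕ) (J : Ideal R) (lam : ℕ → ℕ → k) (u : R)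
    (C : (Fin l → Fin (B + 1)) → R) : Prop where
  ne : J ≠ ⊥
  min : ∀ J' : Ideal R, J' ≠ ⊥ → Eqv J J' → col k J ≤ col k J'
  hcol : col k J = m
  hT : T ⊆ Finset.range (B + 1)
  lam_zero : ∀ j t, t ∉ T → lam j t = 0
  gens : J = Ideal.span (Set.range fun j : Fin (B + 1) => vv E T lam (j : ℕ))
  ind : ∀ c : ℕ → k, (∑ t ∈ T, c t • E.e t) ∈ J → ∀ t ∈ T, c t = 0
  pow : J ^ l = Ideal.span {u}
  lcu : X.lc u = 1
  du : X.d u = l * m
  rel : ∀ I : Fin l → Fin (B + 1), ∏ i, vv E T lam (I i : ℕ) = u * C I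

/-- the polynomials which vanish on `S` -/
def vI {k ι : Type} [Field k] (S : Set (ι → k)) : Ideal (MvPolynomial ι k) where
  carrier := {f | ∀ P ∈ S, MvPolynomial.eval P f = 0}
  zero_mem' := fun P _ => map_zero _
  add_mem' := by
    intro f g hf hg P hP
    rw [map_add, hf P hP, hg P hP, add_zero]
  smul_mem' := by
    intro c f hf P hP
    rw [smul_eq_mul, map_mul, hf P hP, mul_zero]

end Pool.Agent.AB3
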