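import Pool.Agent.Lib.MP_5de024_nt.S.D2Def

/-!
# DIV-D2: an infinite subset with a prime vanishing ideal
-/

set_option autoImplicit false
set_option linter.unusedSectionVars false

namespace Pool.Agent.AB3

/-- `MvPolynomial ι k` is noetherian: choose an infinite `S' ≤ S` with `vI S'` maximal among these ideals
(`set_has_maximal_iff_noetherian` / `WellFoundedGT`). If `f g` vanishes on `S'` then `S'` is the union of its
subsets `f = 0` and `g = 0`, one of them, `S''`, is infinite, `vI S'' = vI S'` by maximality. `1` is not in `vI S'`. -/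
theorem d2_select {k ι : Type} [Field k] [Finite ι] (S : Set (ι → k)) (hS : S.Infinite) :
    ∃ S' : Set (ι → k), S' ⊆ S ∧ S'.Infinite ∧ (vI S').IsPrime := by
  classical
  have hanti : ∀ A B : Set (ι → k), A ⊆ B → vI B ≤ vI A := by
    intro A B hAB f hf P hP
    exact hf P (hAB hP)
  let F : Set (Ideal (MvPolynomial ι k)) :=
    {I | ∃ S' : Set (ι → k), S' ⊆ S ∧ S'.Infinite ∧ vI S' = I}
  have hF : F.Nonempty := ⟨vI S, S, Set.Subset.refl S, hS, rfl⟩
  obtain ⟨M, ⟨S', hS'S, hinf, hM⟩, hmax⟩ :=
    set_has_maximal_iff_noetherian.2 (inferInstance : IsNoetherian (MvPolynomial ι k) (MvPolynomial ι k)) F hF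
  refine ⟨S', hS'S, hinf, ?_⟩
  have key : ∀ A : Set (ι → k), A ⊆ S' → A.Infinite → vI A ≤ vI S' := by
    intro A hA hAinf
    have h1 : vI S' ≤ vI A := hanti A S' hA
    have h2 : ¬ M < vI A := hmax (vI A) ⟨A, hA.trans hS'S, hAinf, rfl⟩
    rw [← hM] at h2
    by_contra hcon
    exact h2 (lt_of_le_not_ge h1 hcon)
  refine Ideal.IsPrime.mk ?_ ?_
  · intro htop
    obtain ⟨P, hP⟩ := hinf.nonempty
    have h1 : (1 : MvPolynomial ι k) ∈ vI S' := by
      rw [htop]
      exact Submodule.mem_top
    have h2 : MvPolynomial.eval P (1 : MvPolynomial ι k) = 0 := h1 P hP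
    rw [map_one] at h2
    exact one_ne_zero h2
  · intro f g hfg
    have hcov : S' = {P ∈ S' | MvPolynomial.eval P f = 0} ∪ {P ∈ S' | MvPolynomial.eval P g = 0} := by
      ext P
      constructor
      · intro hP
        have h1 : MvPolynomial.eval P (f * g) = 0 := hfg P hP
        rw [map_mul] at h1
        rcases mul_eq_zero.1 h1 with h2 | h2
        · exact Or.inl ⟨hP, h2⟩
        · exact Or.inr ⟨hP, h2⟩
      · rintro (hP | hP)
        · exact hP.1
        · exact hP.1
    have hor : {P ∈ S' | MvPolynomial.eval P f = 0}.Infinite ∨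
        {P ∈ S' | MvPolynomial.eval P g = 0}.Infinite := by
      rw [← Set.infinite_union, ← hcov]
      exact hinf
    rcases hor with h1 | h1
    · left
      exact key _ (fun P hP => hP.1) h1 (fun P hP => hP.2)
    · right
      exact key _ (fun P hP => hP.1) h1 (fun P hP => hP.2)

end Pool.Agent.AB3
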