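import Pool.Agent.Lib.MP_5de024_nt.C.Abs
import Pool.Agent.Lib.MP_5de024_nt.S.D2Def

/-!
# DIV-D2: over a finite field `OneInf` gives `OneInfC`
-/

set_option autoImplicit false
set_option linter.unusedSectionVars false

namespace Pool.Agent.AB3

open Pool.Agent.AB

variable {k R : Type} [Field k] [CommRing R] [Algebra k R]

private theorem d2fin_lc_inv (X : OneInf k R) (e : R) (he : e ≠ 0) :
    ∃ e' : R, e' ≠ 0 ∧ X.d e' = X.d e ∧ X.lc e' = 1 := by
  have h1 := X.lc_ne e he
  have h2 : algebraMap k R (X.lc e)⁻¹ ≠ 0 := by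
    intro h
    have h3 := X.lc_alg (X.lc e)⁻¹
    rw [h, X.lc_zero] at h3
    exact inv_ne_zero h1 h3.symm
  have h4 : algebraMap k R (X.lc e)⁻¹ * e ≠ 0 := by
    intro h
    have h5 := X.lc_mul (algebraMap k R (X.lc e)⁻¹) e
    rw [h, X.lc_zero, X.lc_alg] at h5
    exact mul_ne_zero (inv_ne_zero h1) h1 h5.symm
  refine ⟨algebraMap k R (X.lc e)⁻¹ * e, h4, ?_, ?_⟩
  · rw [X.d_mul _ _ h2 he, X.d_alg, zero_add]
  · rw [X.lc_mul, X.lc_alg, inv_mul_cancel₀ h1]

private theorem d2fin_red (X : OneInf k R) (n : ℕ) (e : R) (he : e ≠ 0) (hd : X.d e = n + 1)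
    (hlc : X.lc e = 1) (a : R) (ha : a = 0 ∨ X.d a ≤ n + 1) :
    ∃ c : k, a - algebraMap k R c * e = 0 ∨ X.d (a - algebraMap k R c * e) ≤ n := by
  by_cases ha0 : a = 0
  · exact ⟨0, Or.inl (by rw [ha0, map_zero, zero_mul, sub_zero])⟩
  have ha1 := ha.resolve_left ha0
  rcases Nat.lt_or_ge n (X.d a) with h | h
  · have hda : X.d a = n + 1 := by omega
    have h1 := X.lc_ne a ha0
    have h2 : algebraMap k R (X.lc a) ≠ 0 := by
      intro h
      have h3 := X.lc_alg (X.lc a)
      rw [h, X.lc_zero] at h3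
      exact h1 h3.symm
    have h4 : algebraMap k R (X.lc a) * e ≠ 0 := by
      intro h
      have h5 := X.lc_mul (algebraMap k R (X.lc a)) e
      rw [h, X.lc_zero, X.lc_alg, hlc, mul_one] at h5
      exact h1 h5.symm
    refine ⟨X.lc a, ?_⟩
    by_cases h6 : a = algebraMap k R (X.lc a) * e
    · left
      exact sub_eq_zero.2 h6
    · right
      have h7 := X.sub_lt a (algebraMap k R (X.lc a) * e) ha0 h4 h6
        (by rw [X.d_mul _ _ h2 he, X.d_alg, hda, hd, zero_add])
        (by rw [X.lc_mul, X.lc_alg, hlc, mul_one])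
      omega
  · exact ⟨0, Or.inr (by rw [map_zero, zero_mul, sub_zero]; exact h)⟩

private theorem d2fin_finite (X : OneInf k R) [Finite k] (n : ℕ) :
    Finite {a : R // a = 0 ∨ X.d a ≤ n} := by
  obtain ⟨c, hc⟩ := X.growth
  have h1 := hc n
  have h2 : 0 < Nat.card k ^ n := Nat.pow_pos Nat.card_pos
  refine Nat.finite_of_card_ne_zero ?_
  intro h3
  rw [h3, mul_zero] at h1
  omega

open Classical in
private theorem d2fin_card (X : OneInf k R) [Finite k] (n : ℕ) :
    Nat.card {a : R // a = 0 ∨ X.d a ≤ n} ≤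
      Nat.card k ^ ((Finset.range (n + 1)).filter fun m => ∃ a : R, a ≠ 0 ∧ X.d a = m).card := by
  induction n with
  | zero =>
    have h1 : Nat.card {a : R // a = 0 ∨ X.d a ≤ 0} ≤ Nat.card k := by
      refine Nat.card_le_card_of_injective (fun a => X.lc a.1) ?_
      rintro ⟨a, ha⟩ ⟨b, hb⟩ hab
      have hab' : X.lc a = X.lc b := hab
      apply Subtype.ext
      show a = b
      by_cases ha0 : a = 0
      · by_contra hne
        have hb0 : b ≠ 0 := fun h => hne (ha0.trans h.symm)
        rw [ha0, X.lc_zero] at hab'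
        exact X.lc_ne b hb0 hab'.symm
      by_cases hb0 : b = 0
      · rw [hb0, X.lc_zero] at hab'
        exact absurd hab' (X.lc_ne a ha0)
      by_contra hne
      have h2 := X.sub_lt a b ha0 hb0 hne (by
        have := ha.resolve_left ha0
        have := hb.resolve_left hb0
        omega) hab'
      have := ha.resolve_left ha0
      omega
    have h2 : ((Finset.range (0 + 1)).filter fun m => ∃ a : R, a ≠ 0 ∧ X.d a = m).card = 1 := by
      have h3 : (1 : R) ≠ 0 := by
        intro h
        have h4 := X.lc_alg 1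
        rw [map_one, h, X.lc_zero] at h4
        exact zero_ne_one h4
      rw [Finset.filter_true_of_mem]
      · rfl
      · intro m hm
        rw [zero_add, Finset.range_one, Finset.mem_singleton] at hm
        subst hm
        exact ⟨1, h3, by rw [← map_one (algebraMap k R), X.d_alg]⟩
    rw [h2, pow_one]
    exact h1
  | succ n ih =>
    rw [Finset.range_add_one (n := n + 1), Finset.filter_insert]
    have hf := d2fin_finite X n
    split_ifs with hG
    · obtain ⟨e0, he0, hd0⟩ := hG
      obtain ⟨e, he, hd, hlc⟩ := d2fin_lc_inv X e0 he0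
      rw [hd0] at hd
      rw [Finset.card_insert_of_notMem (by simp), pow_succ, mul_comm]
      have hr : ∀ a : {a : R // a = 0 ∨ X.d a ≤ n + 1}, ∃ c : k,
          a.1 - algebraMap k R c * e = 0 ∨ X.d (a.1 - algebraMap k R c * e) ≤ n := fun a =>
        d2fin_red X n e he hd hlc a.1 a.2
      choose c hc using hr
      have h1 : Nat.card {a : R // a = 0 ∨ X.d a ≤ n + 1} ≤
          Nat.card (k × {a : R // a = 0 ∨ X.d a ≤ n}) := by
        refine Nat.card_le_card_of_injective
          (fun a => (c a, ⟨a.1 - algebraMap k R (c a) * e, hc a⟩)) ?_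
        intro a b hab
        have h2 : c a = c b := congrArg Prod.fst hab
        have h3 : a.1 - algebraMap k R (c a) * e = b.1 - algebraMap k R (c b) * e :=
          congrArg (fun z => (Prod.snd z).1) hab
        rw [h2] at h3
        exact Subtype.ext (sub_left_injective h3)
      rw [Nat.card_prod] at h1
      exact h1.trans (Nat.mul_le_mul_left _ ih)
    · refine le_trans ?_ ih
      refine Nat.card_le_card_of_injective (fun a => ⟨a.1, ?_⟩) ?_
      · rcases a.2 with h | h
        · exact Or.inl h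
        · by_cases ha0 : a.1 = 0
          · exact Or.inl ha0
          · right
            by_contra hcon
            exact hG ⟨a.1, ha0, by omega⟩
      · intro a b hab
        apply Subtype.ext
        exact congrArg (fun z : {a : R // a = 0 ∨ X.d a ≤ n} => z.1) hab

/-- over a finite field the growth condition says that all large numbers are degrees -/
theorem OneInf.gen (X : OneInf k R) [Finite k] : ∃ c : ℕ, ∀ n : ℕ, c ≤ n →
    ∃ a : R, a ≠ 0 ∧ X.d a = n := by
  classical
  obtain ⟨c, hc⟩ := X.growth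
  have hq : 1 < Nat.card k := Finite.one_lt_card
  have hcount : ∀ n, n ≤ c +
      ((Finset.range (n + 1)).filter fun m => ∃ a : R, a ≠ 0 ∧ X.d a = m).card := by
    intro n
    have h1 := (hc n).trans (Nat.mul_le_mul_left _ (d2fin_card X n))
    rw [← pow_add] at h1
    exact (Nat.pow_le_pow_iff_right hq).1 h1
  by_contra hcon
  push Not at hcon
  have hinf : {n : ℕ | ¬ ∃ a : R, a ≠ 0 ∧ X.d a = n}.Infinite := by
    rw [Set.infinite_iff_exists_gt]
    intro n
    obtain ⟨m, hm, h⟩ := hcon (n + 1)
    refine ⟨m, ?_, by omega⟩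
    rintro ⟨a, ha, hd⟩
    exact h a ha hd
  obtain ⟨F, hF, hFc⟩ := hinf.exists_subset_card_eq (c + 2)
  set N := F.sup id with hN
  have hFN : F ⊆ Finset.range (N + 1) := by
    intro m hm
    rw [Finset.mem_range]
    have h1 : m ≤ N := Finset.le_sup (f := id) hm
    omega
  have h1 := hcount N
  have h2 : ((Finset.range (N + 1)).filter fun m => ∃ a : R, a ≠ 0 ∧ X.d a = m) ⊆
      Finset.range (N + 1) \ F := by
    intro m hm
    rw [Finset.mem_filter] at hm
    rw [Finset.mem_sdiff]
    exact ⟨hm.1, fun h => hF h hm.2⟩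
  have h3 := Finset.card_le_card h2
  have h5 : (Finset.range (N + 1) \ F).card = N + 1 - (c + 2) := by
    rw [Finset.card_sdiff_of_subset hFN, Finset.card_range, hFc]
  have h4 := Finset.card_le_card hFN
  rw [Finset.card_range, hFc] at h4
  omega

/-- over a finite field `OneInf` gives `OneInfC` -/
def OneInf.toC (X : OneInf k R) [Finite k] : OneInfC k R where
  d := X.d
  lc := X.lc
  lc_zero := X.lc_zero
  lc_ne := X.lc_ne
  lc_mul := X.lc_mul
  lc_alg := X.lc_alg
  d_alg := X.d_alg
  d_mul := X.d_mul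
  add_of_lt := X.add_of_lt
  sub_lt := X.sub_lt
  gen := OneInf.gen X

end Pool.Agent.AB3
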