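import Pool.Agent.Lib.MP_5de024_nt.S.D2B2
import Pool.Agent.Lib.MP_5de024_nt.S.D2C
import Pool.Agent.Lib.MP_5de024_nt.S.D2I

/-!
# DIV-D2: the data of infinitely many classes
-/

set_option autoImplicit false
set_option linter.unusedSectionVars false

namespace Pool.Agent.AB3

open nonZeroDivisors

/-- The colength of a power. -/
theorem col_pow {k R : Type} [Field k] [CommRing R] [IsDedekindDomain R] [Algebra k R]
    (X : OneInfC k R) (J : Ideal R) (hJ : J ≠ ⊥) (l : ℕ) : col k (J ^ l) = l * col k J := by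
  induction l with
  | zero =>
    rw [pow_zero, Nat.zero_mul, Ideal.one_eq_top]
    have : Subsingleton (R ⧸ (⊤ : Ideal R)) := Ideal.Quotient.subsingleton_iff.2 rfl
    exact Module.finrank_zero_of_subsingleton
  | succ l ih =>
    rw [pow_succ, col_mul X _ _ (pow_ne_zero l hJ) hJ, ih]
    ring

/-- Ideals of minimal colength in every class. -/
theorem exists_minimal {k R : Type} [Field k] [CommRing R] [IsDedekindDomain R] [Algebra k R]
    (c : ClassGroup R) : ∃ J : (Ideal R)⁰, ClassGroup.mk0 J = c ∧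
      ∀ J' : Ideal R, J' ≠ ⊥ → Eqv (J : Ideal R) J' → col k (J : Ideal R) ≤ col k J' := by
  classical
  have hex : ∃ n : ℕ, ∃ J : (Ideal R)⁰, ClassGroup.mk0 J = c ∧ col k (J : Ideal R) = n := by
    obtain ⟨J, hJ⟩ := ClassGroup.mk0_surjective c
    exact ⟨_, J, hJ, rfl⟩
  obtain ⟨J, hJ, hn⟩ := Nat.find_spec hex
  refine ⟨J, hJ, fun J' hJ' he => ?_⟩
  have hmem : J' ∈ (Ideal R)⁰ := mem_nonZeroDivisors_of_ne_zero hJ'
  have h1 : ClassGroup.mk0 J = ClassGroup.mk0 ⟨J', hmem⟩ := (eqv_iff J ⟨J', hmem⟩).1 he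
  rw [hn]
  exact Nat.find_min' hex ⟨⟨J', hmem⟩, by rw [← h1, hJ], rfl⟩

/-- For every class `c` of the set let `m(c) ≤ g` be the minimal colength of its ideals (`exists_small`, `eqv_iff`);
infinitely many of them have the same `m`; `J_c` of colength `m` in `c`, `J_c ^ l = (u_c)` with `lc u_c = 1` (divide by the
leading coefficient), `d u_c = col (J_c ^ l) = l m` (`col_span`, `col_mul`). `B` from `d2_gen`, `T_c` from `d2_T`: infinitely many
with the same `T`; `d2_lam`; `∏ vv ∈ J_c ^ l = (u_c)` gives `C`. The map `c ↦ J_c` is injective. -/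
theorem d2_data (k R : Type) [Field k] [CommRing R] [IsDedekindDomain R] [Algebra k R]
    [Algebra.FiniteType k R] (X : OneInfC k R) (E : DegB X) (l : ℕ) (hl : 0 < l)
    (hinf : {c : ClassGroup R | c ^ l = 1}.Infinite) :
    ∃ (m B : ℕ) (T : Finset ℕ), {J : Ideal R | ∃ (lam : ℕ → ℕ → k) (u : R)
      (C : (Fin l → Fin (B + 1)) → R), D2Data E l m B T J lam u C}.Infinite := by
  classical
  obtain ⟨g, hg⟩ : ∃ g : ℕ, ∀ I : Ideal R, I ≠ ⊥ → ∃ J : Ideal R, J ≠ ⊥ ∧ Eqv I J ∧
      col k J ≤ g := by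
    first
    | exact exists_small X
    | exact exists_small
  choose J hJc hJm using fun c : ClassGroup R => exists_minimal (k := k) c
  have hJ0 : ∀ c, (J c : Ideal R) ≠ ⊥ := fun c => nonZeroDivisors.coe_ne_zero (J c)
  have hJg : ∀ c, col k (J c : Ideal R) ≤ g := by
    intro c
    obtain ⟨J', h1, h2, h3⟩ := hg (J c : Ideal R) (hJ0 c)
    exact (hJm c J' h1 h2).trans h3
  have hinj : Function.Injective fun c => (J c : Ideal R) := by
    intro c c' h
    have h1 : J c = J c' := Subtype.ext h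
    rw [← hJc c, ← hJc c', h1]
  have : Infinite {c : ClassGroup R | c ^ l = 1} := hinf.to_subtype
  -- the same colength
  obtain ⟨m, hm⟩ := Finite.exists_infinite_fiber
    (fun c : {c : ClassGroup R | c ^ l = 1} =>
      (⟨col k (J c.1 : Ideal R), Nat.lt_succ_of_le (hJg c.1)⟩ : Fin (g + 1)))
  obtain ⟨B, hB⟩ := d2_gen X (m : ℕ)
  have hcol : ∀ c : ↑((fun c : {c : ClassGroup R | c ^ l = 1} =>
      (⟨col k (J c.1 : Ideal R), Nat.lt_succ_of_le (hJg c.1)⟩ : Fin (g + 1))) ⁻¹' {m}),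
      col k (J c.1.1 : Ideal R) = (m : ℕ) := fun c => congrArg Fin.val c.2
  -- the same basis
  choose T hTs hTi hTg using fun c : ↑((fun c : {c : ClassGroup R | c ^ l = 1} =>
      (⟨col k (J c.1 : Ideal R), Nat.lt_succ_of_le (hJg c.1)⟩ : Fin (g + 1))) ⁻¹' {m}) =>
    d2_T E B (J c.1.1 : Ideal R) (hB _ (hJ0 _) (hcol c)).1
  obtain ⟨T0, hT0⟩ := Finite.exists_infinite_fiber (fun c => (⟨T c,
    Finset.mem_powerset.2 (hTs c)⟩ : {S // S ∈ (Finset.range (B + 1)).powerset}))
  refine ⟨m, B, T0.1, ?_⟩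
  have hTc : ∀ c : ↑((fun c => (⟨T c, Finset.mem_powerset.2 (hTs c)⟩ :
      {S // S ∈ (Finset.range (B + 1)).powerset})) ⁻¹' {T0}), T c.1 = T0.1 :=
    fun c => congrArg Subtype.val c.2
  refine Set.infinite_of_injective_forall_mem
    (f := fun c : ↑((fun c => (⟨T c, Finset.mem_powerset.2 (hTs c)⟩ :
      {S // S ∈ (Finset.range (B + 1)).powerset})) ⁻¹' {T0}) => (J c.1.1.1 : Ideal R)) ?_ ?_
  · intro c c' h
    exact Subtype.ext (Subtype.ext (Subtype.ext (hinj h)))
  · intro c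
    have hc := hcol c.1
    obtain ⟨hspan, hgen⟩ := hB _ (hJ0 c.1.1.1) hc
    have hTi' := hTi c.1
    have hTg' := hTg c.1
    have hTs' := hTs c.1
    rw [hTc c] at hTi' hTg' hTs'
    obtain ⟨lam, hlam, hJs⟩ := d2_lam E B (J c.1.1.1 : Ideal R) T0.1 hTi' hTg' hgen
    -- the power is principal
    have hpow1 : (c.1.1.1 : ClassGroup R) ^ l = 1 := c.1.1.2
    have hmk : ClassGroup.mk0 (J c.1.1.1 ^ l) = 1 := by
      rw [map_pow, hJc, hpow1]
    have hprin : Submodule.IsPrincipal ((J c.1.1.1 : Ideal R) ^ l) := by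
      have h1 : J c.1.1.1 ^ l = ⟨(J c.1.1.1 : Ideal R) ^ l,
          pow_mem (J c.1.1.1).2 l⟩ := Subtype.ext (SubmonoidClass.coe_pow _ _)
      rw [h1] at hmk
      exact (ClassGroup.mk0_eq_one_iff _).1 hmk
    obtain ⟨u0, hu0⟩ := hprin
    have hu0' : (J c.1.1.1 : Ideal R) ^ l = Ideal.span {u0} := hu0
    have hpne : (J c.1.1.1 : Ideal R) ^ l ≠ ⊥ := pow_ne_zero l (hJ0 _)
    have hu0ne : u0 ≠ 0 := by
      intro h
      rw [hu0', h, Ideal.span_singleton_eq_bot.2 rfl] at hpne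
      exact hpne rfl
    have hlc : X.lc u0 ≠ 0 := X.lc_ne u0 hu0ne
    have hspu : Ideal.span {(X.lc u0)⁻¹ • u0} = Ideal.span {u0} := by
      rw [Algebra.smul_def]
      exact Ideal.span_singleton_mul_left_unit
        ((IsUnit.mk0 _ (inv_ne_zero hlc)).map (algebraMap k R)) u0
    have hpow : (J c.1.1.1 : Ideal R) ^ l = Ideal.span {(X.lc u0)⁻¹ • u0} := by
      rw [hspu, hu0']
    have hmem : ∀ j : Fin (B + 1), vv E T0.1 lam (j : ℕ) ∈ (J c.1.1.1 : Ideal R) := by
      intro j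
      rw [hJs]
      exact Ideal.subset_span ⟨j, rfl⟩
    have hC : ∀ I : Fin l → Fin (B + 1), ∃ y : R,
        ∏ i, vv E T0.1 lam (I i : ℕ) = ((X.lc u0)⁻¹ • u0) * y := by
      intro I
      have h1 : ∏ i, vv E T0.1 lam (I i : ℕ) ∈ (J c.1.1.1 : Ideal R) ^ l := by
        have h2 := Ideal.prod_mem_prod (s := (Finset.univ : Finset (Fin l)))
          (I := fun _ => (J c.1.1.1 : Ideal R)) (x := fun i => vv E T0.1 lam (I i : ℕ))
          (fun i _ => hmem (I i))
        rwa [Finset.prod_const, Finset.card_univ, Fintype.card_fin] at h2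
      rw [hpow, Ideal.mem_span_singleton] at h1
      exact h1
    choose C hC using hC
    refine ⟨lam, (X.lc u0)⁻¹ • u0, C, ?_⟩
    exact
      { ne := hJ0 _
        min := fun J' h1 h2 => hJm _ J' h1 h2
        hcol := hc
        hT := hTs'
        lam_zero := hlam
        gens := hJs
        ind := hTi'
        pow := hpow
        lcu := by rw [X.lc_smul, inv_mul_cancel₀ hlc]
        du := by
          rw [X.d_smul _ (inv_ne_zero hlc), ← (col_span X u0 hu0ne).2, ← hu0',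
            col_pow X _ (hJ0 _), hc]
        rel := hC }

end Pool.Agent.AB3
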