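import Pool.Agent.Lib.MP_5de024_nt.Defs
import Pool.Agent.Lib.MP_5de024_nt.C.GeoA
import Pool.Agent.Lib.MP_5de024_nt.S.Bs

/-!
# Definitions for project AB3
-/

set_option autoImplicit false
set_option linter.unusedSectionVars false

namespace Pool.Agent.AB3

open Pool.Agent.AB Polynomial

/-! ### fields over `F_p(x)` -/

/-- a finite Galois extension of `F_p(x)` without inertia over `F_p[x]` -/
def NiK (p : ℕ) [Fact p.Prime] (K : Type) [Field K] [Algebra (Fx p) K] [Algebra (Rx p) K]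
    [IsScalarTower (Rx p) (Fx p) K] : Prop :=
  FiniteDimensional (Fx p) K ∧ IsGalois (Fx p) K ∧ NI p K

/-- the geometric part of the Galois group: the automorphisms fixing all constants -/
def Gc (p : ℕ) [Fact p.Prime] (K : Type) [Field K] [Algebra (Fx p) K] : Subgroup (Gl p K) where
  carrier := {σ | ∀ c : K, IsCst p c → σ c = c}
  mul_mem' := by
    intro σ τ hσ hτ c hc
    rw [AlgEquiv.mul_apply, hτ c hc, hσ c hc]
  one_mem' := fun c _ => rfl
  inv_mem' := by
    intro σ hσ c hc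
    rw [AlgEquiv.aut_inv, AlgEquiv.symm_apply_eq, hσ c hc]

/-- `G` is a quotient of the Galois group of an extension without inertia and `H` is the image
of the geometric part -/
def RF (p : ℕ) [Fact p.Prime] (G : Type) [Group G] (H : Subgroup G) : Prop :=
  ∃ (K : Type) (_ : Field K) (_ : Algebra (Fx p) K) (_ : Algebra (Rx p) K)
    (_ : IsScalarTower (Rx p) (Fx p) K) (Φ : Gl p K →* G),
    NiK p K ∧ Function.Surjective Φ ∧ (Gc p K).map Φ = H

/-! ### covers of the affine line over `k` -/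

/-- the substitution `X ↦ g` -/
noncomputable def evg (k F : Type) [Field k] [Field F] [Algebra k F] (g : F[X]) :
    k[X] →+* F[X] :=
  Polynomial.eval₂RingHom (Polynomial.C.comp (algebraMap k F)) g

/-- the base change of the `k[X]`-algebra `R` to `F[X]` along `X ↦ g` -/
abbrev Fam (k F : Type) [Field k] [Field F] [Algebra k F] (g : F[X]) (R : Type) [CommRing R]
    [Algebra k[X] R] : Type := Bs (evg k F g) R

/-- a geometrically connected Galois cover of the affine line over `k` with group `H` -/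
structure Cov (k R H : Type) [Field k] [CommRing R] [Algebra k[X] R] [Group H] where
  /-- the action -/
  act : H →* (R ≃ₐ[k[X]] R)
  inj : Function.Injective (algebraMap k[X] R)
  fixed : ∀ r : R, (∀ h, act h r = r) → ∃ f : k[X], algebraMap k[X] R f = r
  coord : ∃ (m : ℕ) (x y : Fin m → R), ∀ h : H,
    (h = 1 → ∑ i, x i * act h (y i) = 1) ∧ (h ≠ 1 → ∑ i, x i * act h (y i) = 0)
  geom : ∀ (F : Type) [Field F] [Algebra k F], IsDomain (Fam k F X R)

/-- the ideal generated by `u` is an `n`-th power (a certificate) -/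
def Cert {R : Type} [CommRing R] (n : ℕ) (u : R) : Prop :=
  ∃ a0 a1 c0 c1 d0 d1 : R, a0 ^ n = u * c0 ∧ a1 ^ n = u * c1 ∧ d0 * c0 + d1 * c1 = 1

/-- no nonzero multiple `a X` is of the form `w ^ p - w`, over any extension of constants -/
def NL (p : ℕ) (k R : Type) [Field k] [CommRing R] [Algebra k[X] R] : Prop :=
  ∀ (F : Type) [Field F] [Algebra k F] (a : F) (w : Fam k F X R), a ≠ 0 →
    w ^ p - w ≠ algebraMap F[X] (Fam k F X R) (C a * X)

/-- a model over the field `k` of constants of the ring of integers of `K` -/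
structure Mdl (p : ℕ) [Fact p.Prime] (K k R H : Type) [Field K] [Algebra (Fx p) K]
    [Algebra (Rx p) K] [IsScalarTower (Rx p) (Fx p) K] [Field k] [CommRing R] [Algebra k[X] R]
    [Group H] where
  cov : Cov k R H
  e : R ≃+* Oc p K
  j : H ≃* Gc p K
  eX : e (algebraMap k[X] R X) = xo p K
  eact : ∀ (h : H) (r : R), e (cov.act h r) = act p K (j h : Gl p K) (e r)
  econst : ∀ c : K, IsCst p c ↔ ∃ a : k, ((e (algebraMap k[X] R (C a)) : Oc p K) : K) = c

/-- a basis adapted to the places at infinity -/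
structure RBas (k R : Type) [Field k] [CommRing R] [Algebra k[X] R] (N : ℕ) where
  e : Module.Basis (Fin N) k[X] R
  d : Fin N → ℕ
  mul : ∀ i j l, e.repr (e i * e j) l = 0 ∨ (e.repr (e i * e j) l).natDegree + d l ≤ d i + d j
  one : ∀ l, e.repr 1 l = 0 ∨ (e.repr 1 l).natDegree + d l ≤ 0

/-- the basis is adapted to the action -/
def RBas.Stab {k R H : Type} [Field k] [CommRing R] [Algebra k[X] R] [Group H] {N : ℕ}
    (B : RBas k R N) (C : Cov k R H) : Prop :=
  ∀ (h : H) (i l : Fin N), B.e.repr (C.act h (B.e i)) l = 0 ∨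
    (B.e.repr (C.act h (B.e i)) l).natDegree + B.d l ≤ B.d i

/-- the element `x` has degree less than `m` -/
def RBas.Lt {k R : Type} [Field k] [CommRing R] [Algebra k[X] R] {N : ℕ} (B : RBas k R N)
    (x : R) (m : ℕ) : Prop :=
  ∀ l, B.e.repr x l = 0 ∨ (B.e.repr x l).natDegree + B.d l < m

/-- the element `η` -/
def EtaD {k R H : Type} [Field k] [CommRing R] [Algebra k[X] R] [Group H] {N : ℕ}
    (C : Cov k R H) (B : RBas k R N) (n : ℕ) : Prop :=
  ∃ (η : R) (D : ℕ), Cert n η ∧ B.Lt (η - algebraMap k[X] R (X ^ (n * D))) (n * D) ∧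
    (∃ y : k[X], (∏ᶠ h : H, C.act h η) = algebraMap k[X] R y ^ n) ∧
    ∀ (e : H → ℕ) (c : k) (w : R), c ≠ 0 →
      (∏ᶠ h : H, (C.act h η) ^ e h) = algebraMap k[X] R (Polynomial.C c) * w ^ n →
      ∀ h h' : H, e h ≡ e h' [MOD n]

/-- the polynomial of the family: `s = β⁻¹ (t - β ^ (P - 1) t ^ P)` -/
noncomputable def gb (F : Type) [Field F] (P : ℕ) (β : F) : F[X] :=
  C β⁻¹ * (X - C (β ^ (P - 1)) * X ^ P)

/-- the translation `t ↦ t + a / β` of the family -/
def IsShf {k F R : Type} [Field k] [Field F] [Algebra k F] [CommRing R] [Algebra k[X] R]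
    (g : F[X]) (β a : F) (s : Fam k F g R →+* Fam k F g R) : Prop :=
  (∀ r : R, s (Bs.inR (evg k F g) R r) = Bs.inR (evg k F g) R r) ∧
  ∀ f : F[X], s (algebraMap F[X] (Fam k F g R) f) =
    algebraMap F[X] (Fam k F g R) (f.comp (X + C (a / β)))

/-- the good elements of the family at `β` -/
def Good {k R H : Type} [Field k] [CommRing R] [Algebra k[X] R] [Group H] (C : Cov k R H)
    (n P : ℕ) (F : Type) [Field F] [Algebra k F] (β : F) : Prop :=
  ∃ u : Fam k F (gb F P β) R, u ≠ 0 ∧ Cert n u ∧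
    (∃ v : F[X], (∏ᶠ h : H, Bs.act (evg k F (gb F P β)) C.act h u) =
      algebraMap F[X] (Fam k F (gb F P β) R) v ^ n) ∧
    ∀ sh : {a : k // a ^ P = a} → (Fam k F (gb F P β) R →+* Fam k F (gb F P β) R),
      (∀ a : {a : k // a ^ P = a}, IsShf (gb F P β) β (algebraMap k F (a : k)) (sh a)) →
      ∀ (E : H → {a : k // a ^ P = a} → ℕ) (c : F) (w : Fam k F (gb F P β) R), c ≠ 0 →
        (∏ᶠ h : H, ∏ᶠ a, (Bs.act (evg k F (gb F P β)) C.act h (sh a u)) ^ E h a) =
          algebraMap F[X] (Fam k F (gb F P β) R) (Polynomial.C c) * w ^ n →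
        ∀ a h h', E h a ≡ E h' a [MOD n]

/-- the data for the Kummer step over `M` -/
def KData (p : ℕ) [Fact p.Prime] (M : Type) [Field M] [Algebra (Fx p) M] [Algebra (Rx p) M]
    [IsScalarTower (Rx p) (Fx p) M] (n r : ℕ) : Prop :=
  ∃ (ζ : M) (u : Fin r → M), IsPrimitiveRoot ζ n ∧ (∀ j, u j ≠ 0) ∧
    (∀ j, ∃ a0 a1 c0 c1 d0 d1 : Oc p M, (a0 : M) ^ n = u j * (c0 : M) ∧
      (a1 : M) ^ n = u j * (c1 : M) ∧ d0 * c0 + d1 * c1 = 1) ∧
    (∀ j, ∃ v : M, (∀ σ ∈ Gc p M, σ v = v) ∧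
      (∏ᶠ σ : Gc p M, (σ : Gl p M) (u j)) = v ^ n) ∧
    ∀ (e : Gl p M → Fin r → ℕ) (c w : M), IsCst p c → c ≠ 0 →
      (∏ᶠ γ : Gl p M, ∏ᶠ j, (γ (u j)) ^ e γ j) = c * w ^ n →
      ∀ γ : Gl p M, ∀ h ∈ Gc p M, ∀ j, e (h * γ) j ≡ e γ j [MOD n]

end Pool.Agent.AB3
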