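import Pool.Agent.Lib.MP_5de024_nt.S.Defs

/-!
# Base change of covers: fixed rings, coordinates, bases (piece GeoA)
-/

set_option autoImplicit false
set_option linter.unusedSectionVars false

namespace Pool.Agent.AB3

open Pool.Agent.AB Polynomial

variable {k R H A : Type} [Field k] [CommRing R] [Algebra k[X] R] [Group H] [Finite H]
  [CommRing A]

/-- the trace of a cover lies in the base ring -/
theorem geoA_tr (C : Cov k R H) [Fintype H] (r : R) :
    ∃ f : k[X], algebraMap k[X] R f = ∑ h : H, C.act h r := by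
  apply C.fixed
  intro g
  rw [map_sum]
  have h1 : ∀ h : H, C.act g (C.act h r) = C.act (g * h) r := by
    intro h
    rw [map_mul]
    rfl
  rw [Finset.sum_congr rfl fun h _ => h1 h]
  exact Fintype.sum_equiv (Equiv.mulLeft g) _ _ (fun h => rfl)

/-- the expansion of an element in the coordinates -/
theorem geoA_exp (C : Cov k R H) [Fintype H] {m : ℕ} (x y : Fin m → R)
    (hxy : ∀ h : H, (h = 1 → ∑ i, x i * C.act h (y i) = 1) ∧
      (h ≠ 1 → ∑ i, x i * C.act h (y i) = 0)) (r : R) :
    ∑ i, x i * (∑ h : H, C.act h (y i * r)) = r := by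
  classical
  have h1 : ∀ i, x i * (∑ h : H, C.act h (y i * r)) =
      ∑ h : H, x i * C.act h (y i) * C.act h r := by
    intro i
    rw [Finset.mul_sum]
    exact Finset.sum_congr rfl fun h _ => by rw [map_mul, mul_assoc]
  rw [Finset.sum_congr rfl fun i _ => h1 i, Finset.sum_comm]
  have h2 : ∀ h : H, (∑ i, x i * C.act h (y i) * C.act h r) =
      (∑ i, x i * C.act h (y i)) * C.act h r := by
    intro h
    rw [Finset.sum_mul]
  rw [Finset.sum_congr rfl fun h _ => h2 h, Finset.sum_eq_single 1]
  · rw [(hxy 1).1 rfl, one_mul, map_one]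
    rfl
  · intro h _ hh
    rw [(hxy h).2 hh, zero_mul]
  · intro h
    exact absurd (Finset.mem_univ _) h

theorem cov_finite (C : Cov k R H) : Module.Finite k[X] R := by
  classical
  have : Fintype H := Fintype.ofFinite H
  obtain ⟨m, x, y, hxy⟩ := C.coord
  refine ⟨⟨Finset.univ.image x, ?_⟩⟩
  rw [eq_top_iff]
  intro r _
  rw [← geoA_exp C x y hxy r]
  refine Submodule.sum_mem _ fun i _ => ?_
  obtain ⟨f, hf⟩ := geoA_tr C (y i * r)
  rw [← hf, mul_comm, ← Algebra.smul_def]
  refine Submodule.smul_mem _ _ (Submodule.subset_span ?_)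
  rw [Finset.coe_image]
  exact ⟨i, by simp, rfl⟩

/-- `R` is a domain -/
theorem cov_domain (C : Cov k R H) : IsDomain R := by
  have hd : IsDomain (Fam k k X R) := C.geom k
  have he : ∀ f : k[X], evg k k X f = f := by
    intro f
    change Polynomial.eval₂ (Polynomial.C.comp (algebraMap k k)) X f = f
    have h0 : (Polynomial.C.comp (algebraMap k k) : k →+* k[X]) = Polynomial.C := by
      ext a
      rfl
    rw [h0, Polynomial.eval₂_C_X]
  have hinj : Function.Injective (Bs.inR (evg k k X) R) := by
    intro a b hab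
    have h1 := congrArg (Bs.lift (evg k k X) (algebraMap k[X] R) (RingHom.id R)
      (fun f => by rw [he]; rfl)) hab
    rw [Bs.lift_inR, Bs.lift_inR] at h1
    exact h1
  exact hinj.isDomain (Bs.inR (evg k k X) R)

/-- an element of trace one -/
theorem geoA_one (C : Cov k R H) [Fintype H] : ∃ c : R, ∑ h : H, C.act h c = 1 := by
  classical
  obtain ⟨m, x, y, hxy⟩ := C.coord
  have hfin := cov_finite C
  choose f hf using fun i => geoA_tr C (y i)
  have h1 : ∑ i, x i * algebraMap k[X] R (f i) = 1 := by
    have h2 := geoA_exp C x y hxy 1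
    rw [← h2]
    exact Finset.sum_congr rfl fun i _ => by rw [hf, mul_one]
  have h3 : (Ideal.span (Set.range f)).map (algebraMap k[X] R) = ⊤ := by
    rw [Ideal.eq_top_iff_one, ← h1]
    refine Ideal.sum_mem _ fun i _ => ?_
    exact Ideal.mul_mem_left _ _ (Ideal.mem_map_of_mem _ (Ideal.subset_span ⟨i, rfl⟩))
  have hint : (algebraMap k[X] R).IsIntegral := fun r =>
    (Algebra.IsIntegral.of_finite k[X] R).isIntegral r
  rw [Ideal.map_eq_top_iff _ C.inj hint, Ideal.eq_top_iff_one, Ideal.mem_span_range_iff_exists_fun]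
    at h3
  obtain ⟨c, hc⟩ := h3
  refine ⟨∑ i, c i • y i, ?_⟩
  have h4 : ∀ h : H, C.act h (∑ i, c i • y i) = ∑ i, c i • C.act h (y i) := by
    intro h
    rw [map_sum]
    exact Finset.sum_congr rfl fun i _ => by rw [map_smul]
  rw [Finset.sum_congr rfl fun h _ => h4 h, Finset.sum_comm]
  have h5 : ∀ i, (∑ h : H, c i • C.act h (y i)) = algebraMap k[X] R (c i * f i) := by
    intro i
    rw [← Finset.smul_sum, ← hf, Algebra.smul_def, map_mul]
  rw [Finset.sum_congr rfl fun i _ => h5 i, ← map_sum, hc, map_one]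

/-- the underlying module of a cover is free of rank `|H|` -/
theorem cov_basis (C : Cov k R H) :
    Nonempty (Module.Basis (Fin (Nat.card H)) k[X] R) := by
  classical
  have : Fintype H := Fintype.ofFinite H
  have hdom := cov_domain C
  have hfin := cov_finite C
  have htf : Module.IsTorsionFree k[X] R :=
    Module.isTorsionFree_iff_algebraMap_injective.mpr C.inj
  obtain ⟨n, b⟩ := Module.basisOfFiniteTypeTorsionFree' (R := k[X]) (M := R)
  obtain ⟨m, x, y, hxy⟩ := C.coord
  have hbr : ∀ r : R, ∑ j, b.repr r j • b j = r := fun r => b.sum_repr r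
  -- the map
  let F : (Fin n → R) →ₗ[R] (H → R) :=
    { toFun := fun r h => ∑ j, r j * C.act h (b j)
      map_add' := by
        intro r s
        ext h
        simp only [Pi.add_apply, add_mul, Finset.sum_add_distrib]
      map_smul' := by
        intro c r
        ext h
        simp only [Pi.smul_apply, smul_eq_mul, RingHom.id_apply, Finset.mul_sum, mul_assoc] }
  have hFs : Function.Surjective F := by
    intro t
    -- `r j = Σ_g t g Σ_i act g (x i) * coordinate`
    refine ⟨fun j => ∑ g : H, t g * ∑ i, C.act g (x i) * algebraMap k[X] R (b.repr (y i) j), ?_⟩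
    ext h
    change ∑ j, (∑ g : H, t g * ∑ i, C.act g (x i) * algebraMap k[X] R (b.repr (y i) j)) *
      C.act h (b j) = t h
    have h1 : ∀ j, (∑ g : H, t g * ∑ i, C.act g (x i) * algebraMap k[X] R (b.repr (y i) j)) *
        C.act h (b j) = ∑ g : H, t g * ∑ i, C.act g (x i) *
          (algebraMap k[X] R (b.repr (y i) j) * C.act h (b j)) := by
      intro j
      rw [Finset.sum_mul]
      refine Finset.sum_congr rfl fun g _ => ?_
      rw [mul_assoc, Finset.sum_mul]
      congr 1
      exact Finset.sum_congr rfl fun i _ => by rw [mul_assoc]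
    rw [Finset.sum_congr rfl fun j _ => h1 j, Finset.sum_comm]
    have h2 : ∀ g : H, (∑ j, t g * ∑ i, C.act g (x i) *
          (algebraMap k[X] R (b.repr (y i) j) * C.act h (b j))) =
        t g * ∑ i, C.act g (x i) * C.act h (y i) := by
      intro g
      rw [← Finset.mul_sum, Finset.sum_comm]
      congr 1
      refine Finset.sum_congr rfl fun i _ => ?_
      rw [← Finset.mul_sum]
      congr 1
      conv_rhs => rw [← hbr (y i), map_sum]
      exact Finset.sum_congr rfl fun j _ => by rw [map_smul, Algebra.smul_def]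
    rw [Finset.sum_congr rfl fun g _ => h2 g]
    have h3 : ∀ g : H, (∑ i, C.act g (x i) * C.act h (y i)) =
        C.act g (∑ i, x i * C.act (g⁻¹ * h) (y i)) := by
      intro g
      rw [map_sum]
      refine Finset.sum_congr rfl fun i _ => ?_
      rw [map_mul]
      congr 1
      change C.act h (y i) = (C.act g * C.act (g⁻¹ * h)) (y i)
      rw [← map_mul, mul_inv_cancel_left]
    rw [Finset.sum_eq_single h]
    · rw [h3, (hxy _).1 (inv_mul_cancel h), map_one, mul_one]
    · intro g _ hg
      rw [h3, (hxy _).2 (fun hh => hg (by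
        have := congrArg (fun z => g * z) hh
        simpa using this.symm)), map_zero, mul_zero]
    · intro hh
      exact absurd (Finset.mem_univ _) hh
  have hFi : Function.Injective F := by
    rw [injective_iff_map_eq_zero]
    intro r hr
    have hr' : ∀ h : H, ∑ j, r j * C.act h (b j) = 0 := fun h => congrFun hr h
    -- the dual elements
    ext l
    change r l = 0
    let d : R := ∑ i, b.repr (x i) l • y i
    have hd : ∀ j, (∑ h : H, C.act h (d * b j)) = if j = l then 1 else 0 := by
      intro j
      choose f hf using fun i => geoA_tr C (y i * b j)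
      have e1 : (∑ h : H, C.act h (d * b j)) =
          ∑ i, algebraMap k[X] R (b.repr (x i) l * f i) := by
        have e2 : ∀ h : H, C.act h (d * b j) = ∑ i, b.repr (x i) l • C.act h (y i * b j) := by
          intro h
          change C.act h ((∑ i, b.repr (x i) l • y i) * b j) = _
          rw [Finset.sum_mul, map_sum]
          exact Finset.sum_congr rfl fun i _ => by rw [smul_mul_assoc, map_smul]
        rw [Finset.sum_congr rfl fun h _ => e2 h, Finset.sum_comm]
        refine Finset.sum_congr rfl fun i _ => ?_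
        rw [← Finset.smul_sum, ← hf, Algebra.smul_def, map_mul]
      have e3 : b.repr (b j) l = ∑ i, b.repr (x i) l * f i := by
        conv_lhs => rw [← geoA_exp C x y hxy (b j)]
        rw [map_sum, Finsupp.finsetSum_apply]
        refine Finset.sum_congr rfl fun i _ => ?_
        rw [← hf, mul_comm, ← Algebra.smul_def, map_smul, Finsupp.smul_apply, smul_eq_mul,
          mul_comm]
      rw [e1, ← map_sum, ← e3, b.repr_self, Finsupp.single_apply]
      split_ifs
      · rw [map_one]
      · rw [map_zero]
    have h4 : ∑ h : H, C.act h d * ∑ j, r j * C.act h (b j) = r l := by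
      have e4 : ∀ h : H, C.act h d * ∑ j, r j * C.act h (b j) =
          ∑ j, r j * C.act h (d * b j) := by
        intro h
        rw [Finset.mul_sum]
        exact Finset.sum_congr rfl fun j _ => by rw [map_mul]; ring
      rw [Finset.sum_congr rfl fun h _ => e4 h, Finset.sum_comm]
      have e5 : ∀ j, (∑ h : H, r j * C.act h (d * b j)) = if j = l then r j else 0 := by
        intro j
        rw [← Finset.mul_sum, hd]
        split_ifs
        · rw [mul_one]
        · rw [mul_zero]
      rw [Finset.sum_congr rfl fun j _ => e5 j, Finset.sum_ite_eq' Finset.univ l]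
      simp
    rw [← h4]
    refine Finset.sum_eq_zero fun h _ => ?_
    rw [hr' h, mul_zero]
  have hc1 := card_le_of_injective R F hFi
  have hc2 := card_le_of_surjective R F hFs
  have hc : n = Nat.card H := by
    rw [Nat.card_eq_fintype_card]
    rw [Fintype.card_fin] at hc1 hc2
    omega
  exact ⟨b.reindex (finCongr hc)⟩

/-- a linear form with value one at one -/
theorem geoA_form (C : Cov k R H) : ∃ l : R →ₗ[k[X]] k[X], l 1 = 1 := by
  classical
  have : Fintype H := Fintype.ofFinite H
  obtain ⟨c, hc⟩ := geoA_one C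
  choose f hf using fun r => geoA_tr C (r * c)
  refine ⟨{ toFun := f, map_add' := ?_, map_smul' := ?_ }, ?_⟩
  · intro r s
    apply C.inj
    rw [map_add, hf, hf, hf, ← Finset.sum_add_distrib]
    exact Finset.sum_congr rfl fun h _ => by rw [add_mul, map_add]
  · intro a r
    apply C.inj
    rw [RingHom.id_apply, smul_eq_mul, map_mul, hf, hf, Finset.mul_sum]
    exact Finset.sum_congr rfl fun h _ => by
      rw [smul_mul_assoc, map_smul, Algebra.smul_def]
  · apply C.inj
    change algebraMap k[X] R (f 1) = algebraMap k[X] R 1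
    rw [hf, map_one]
    refine Eq.trans ?_ hc
    exact Finset.sum_congr rfl fun h _ => by rw [one_mul]

theorem bs_inj (C : Cov k R H) (φ : k[X] →+* A) :
    Function.Injective (algebraMap A (Bs φ R)) := by
  classical
  obtain ⟨b⟩ := cov_basis C
  obtain ⟨l, hl⟩ := geoA_form C
  rw [injective_iff_map_eq_zero]
  intro a ha
  have h1 : ∀ i, a * φ (b.repr 1 i) = 0 := by
    intro i
    have e1 : (Bs.basis φ b).repr (a • Bs.inR φ R 1) i = a * φ (b.repr 1 i) := by
      rw [map_smul, Finsupp.smul_apply, Bs.repr_inR, smul_eq_mul]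
    rw [← e1, Algebra.smul_def, ha, zero_mul, map_zero, Finsupp.zero_apply]
  have h2 : (1 : k[X]) = ∑ i, b.repr 1 i * l (b i) := by
    conv_lhs => rw [← hl, ← b.sum_repr 1, map_sum]
    exact Finset.sum_congr rfl fun i _ => by rw [map_smul, smul_eq_mul]
  have h3 : a = ∑ i, (a * φ (b.repr 1 i)) * φ (l (b i)) := by
    conv_lhs => rw [← mul_one a, ← map_one φ, h2, map_sum, Finset.mul_sum]
    exact Finset.sum_congr rfl fun i _ => by rw [map_mul, mul_assoc]
  rw [h3]
  exact Finset.sum_eq_zero fun i _ => by rw [h1, zero_mul]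

/-- if `φ` is injective then `R` embeds in the base change -/
theorem bs_inR_inj (C : Cov k R H) (φ : k[X] →+* A) (hφ : Function.Injective φ) :
    Function.Injective (Bs.inR φ R) := by
  obtain ⟨b⟩ := cov_basis C
  rw [injective_iff_map_eq_zero]
  intro r hr
  have h1 : b.repr r = 0 := by
    ext1 i
    apply hφ
    rw [← Bs.repr_inR φ b r i, hr, map_zero, Finsupp.zero_apply, Finsupp.zero_apply, map_zero]
  exact b.repr.map_eq_zero_iff.mp h1

theorem bs_fixed (C : Cov k R H) (φ : k[X] →+* A) (z : Bs φ R)
    (hz : ∀ h, Bs.act φ C.act h z = z) : ∃ a : A, algebraMap A (Bs φ R) a = z := by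
  classical
  have : Fintype H := Fintype.ofFinite H
  obtain ⟨c, hc⟩ := geoA_one C
  have htr : ∀ w : Bs φ R, ∃ a : A, algebraMap A (Bs φ R) a = ∑ h : H, Bs.act φ C.act h w := by
    intro w
    induction w using Bs.induction with
    | h0 => exact ⟨0, by simp⟩
    | h1 a r =>
      obtain ⟨f, hf⟩ := geoA_tr C r
      refine ⟨a * φ f, ?_⟩
      rw [map_mul, ← Bs.inR_alg, hf, map_sum, Finset.mul_sum]
      refine Finset.sum_congr rfl fun h _ => ?_
      rw [map_mul, Bs.act_alg, Bs.act_inR]
    | h2 x y hx hy =>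
      obtain ⟨a, ha⟩ := hx
      obtain ⟨b, hb⟩ := hy
      refine ⟨a + b, ?_⟩
      rw [map_add, ha, hb, ← Finset.sum_add_distrib]
      exact Finset.sum_congr rfl fun h _ => by rw [map_add]
  obtain ⟨a, ha⟩ := htr (z * Bs.inR φ R c)
  refine ⟨a, ?_⟩
  rw [ha]
  have h1 : ∀ h : H, Bs.act φ C.act h (z * Bs.inR φ R c) = z * Bs.inR φ R (C.act h c) := by
    intro h
    rw [map_mul, hz, Bs.act_inR]
  rw [Finset.sum_congr rfl fun h _ => h1 h, ← Finset.mul_sum, ← map_sum, hc, map_one, mul_one]

theorem bs_coord (C : Cov k R H) (φ : k[X] →+* A) :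
    ∃ (m : ℕ) (x y : Fin m → Bs φ R), ∀ h : H,
      (h = 1 → ∑ i, x i * Bs.act φ C.act h (y i) = 1) ∧
      (h ≠ 1 → ∑ i, x i * Bs.act φ C.act h (y i) = 0) := by
  obtain ⟨m, x, y, hxy⟩ := C.coord
  refine ⟨m, fun i => Bs.inR φ R (x i), fun i => Bs.inR φ R (y i), fun h => ⟨?_, ?_⟩⟩
  · intro hh
    rw [← map_one (Bs.inR φ R), ← (hxy h).1 hh, map_sum]
    exact Finset.sum_congr rfl fun i _ => by rw [Bs.act_inR, map_mul]
  · intro hh
    rw [← map_zero (Bs.inR φ R), ← (hxy h).2 hh, map_sum]
    exact Finset.sum_congr rfl fun i _ => by rw [Bs.act_inR, map_mul]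

end Pool.Agent.AB3
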