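import Pool.Agent.Lib.MP_5de024_nt.S.TsenX.Form

/-!
# Tsen's theorem: norms over function fields of curves over algebraically closed fields
-/

set_option autoImplicit false
set_option linter.unusedSectionVars false

namespace Pool.Agent.AB3

open Polynomial

section derive

variable {k K0 F : Type} [Field k] [Field K0] [Algebra k[X] K0] [IsFractionRing k[X] K0]
  [Field F] [Algebra K0 F] [Algebra k K0] [IsScalarTower k k[X] K0] [Algebra k F]
  [IsScalarTower k K0 F] [Algebra k[X] F] [IsScalarTower k[X] K0 F] [IsScalarTower k k[X] F]

theorem tsW_poly (p : k[X]) {d : ℕ} (f : Fin d → F) {c : ℕ} (hp : p.natDegree ≤ c) (t : Fin d) :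
    algebraMap k[X] F p * f t ∈ tsW k (algebraMap k[X] F X) f c := by
  rw [p.as_sum_range' (c + 1) (Nat.lt_succ_of_le hp), map_sum, Finset.sum_mul]
  refine Submodule.sum_mem _ fun j hj => ?_
  have h1 : algebraMap k[X] F (monomial j (p.coeff j)) * f t =
      p.coeff j • ((algebraMap k[X] F X) ^ j * f t) := by
    rw [← C_mul_X_pow_eq_monomial, map_mul, map_pow, Algebra.smul_def,
      IsScalarTower.algebraMap_apply k k[X] F, Polynomial.algebraMap_eq, mul_assoc]
  rw [h1]
  refine Submodule.smul_mem _ _ (Submodule.subset_span ⟨(t, ⟨j, Finset.mem_range.1 hj⟩), rfl⟩)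

theorem tsen_derive [FiniteDimensional K0 F] :
    FFD k F (algebraMap k[X] F X) (Module.finrank K0 F) (Module.finBasis K0 F) := by
  classical
  constructor
  · have h1 : LinearIndependent k (fun j : ℕ => (algebraMap k[X] K0 X) ^ j) := by
      have h2 := (Polynomial.basisMonomials k).linearIndependent.map'
        (IsScalarTower.toAlgHom k k[X] K0).toLinearMap
        (LinearMap.ker_eq_bot.2 (IsFractionRing.injective k[X] K0))
      have h3 : (fun j : ℕ => (algebraMap k[X] K0 X) ^ j) =
          (IsScalarTower.toAlgHom k k[X] K0).toLinearMap ∘ (Polynomial.basisMonomials k) := by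
        funext j
        change _ = algebraMap k[X] K0 (Polynomial.basisMonomials k j)
        rw [Polynomial.coe_basisMonomials, ← map_pow, X_pow_eq_monomial]
      rw [h3]
      exact h2
    have h4 := (linearIndependent_smul h1 (Module.finBasis K0 F).linearIndependent).comp
      (Prod.swap : Fin (Module.finrank K0 F) × ℕ → ℕ × Fin (Module.finrank K0 F))
      Prod.swap_injective
    have h5 : (fun u : Fin (Module.finrank K0 F) × ℕ =>
        (algebraMap k[X] F X) ^ u.2 * (Module.finBasis K0 F) u.1) =
        (fun p : ℕ × Fin (Module.finrank K0 F) =>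
          (algebraMap k[X] K0 X) ^ p.1 • (Module.finBasis K0 F) p.2) ∘ Prod.swap := by
      funext u
      change _ = (algebraMap k[X] K0 X) ^ u.2 • (Module.finBasis K0 F) u.1
      rw [Algebra.smul_def, map_pow, ← IsScalarTower.algebraMap_apply k[X] K0 F]
    rw [h5]
    exact h4
  · intro A
    obtain ⟨b, hb⟩ := IsLocalization.exist_integer_multiples (nonZeroDivisors k[X])
      (A ×ˢ (Finset.univ : Finset (Fin (Module.finrank K0 F))))
      (fun q : F × Fin (Module.finrank K0 F) => (Module.finBasis K0 F).repr q.1 q.2 : _ → K0)
    choose! p hp using hb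
    refine ⟨algebraMap k[X] F b, ?_,
      (A ×ˢ (Finset.univ : Finset (Fin (Module.finrank K0 F)))).sup (fun q => (p q).natDegree),
      ?_⟩
    · rw [IsScalarTower.algebraMap_apply k[X] K0 F]
      intro h
      have h1 := (algebraMap K0 F).injective (h.trans (map_zero _).symm)
      have h2 := IsFractionRing.injective k[X] K0 (h1.trans (map_zero _).symm)
      exact nonZeroDivisors.coe_ne_zero b h2
    · intro u hu
      have h1 : algebraMap k[X] F b * u = ∑ t, algebraMap k[X] F (p (u, t)) *
          (Module.finBasis K0 F) t := by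
        conv_lhs => rw [← (Module.finBasis K0 F).sum_repr u]
        rw [Finset.mul_sum]
        refine Finset.sum_congr rfl fun t _ => ?_
        have h2 := hp (u, t) (Finset.mem_product.2 ⟨hu, Finset.mem_univ _⟩)
        rw [IsScalarTower.algebraMap_apply k[X] K0 F (p (u, t)), h2, Algebra.smul_def,
          Algebra.smul_def, map_mul, ← IsScalarTower.algebraMap_apply k[X] K0 F, mul_assoc]
      rw [h1]
      refine Submodule.sum_mem _ fun t _ => tsW_poly _ _ ?_ t
      exact Finset.le_sup (f := fun q => (p q).natDegree)
        (Finset.mem_product.2 ⟨hu, Finset.mem_univ t⟩)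

end derive

/-- every element of a function field `F` of one variable over an algebraically closed field is
a norm from every finite extension -/
theorem tsen_norm (k K0 F L : Type) [Field k] [IsAlgClosed k] [Field K0] [Algebra k[X] K0]
    [IsFractionRing k[X] K0] [Field F] [Algebra K0 F] [FiniteDimensional K0 F] [Field L]
    [Algebra F L] [FiniteDimensional F L] (r : F) : ∃ z : L, Algebra.norm F z = r := by
  let _ : Algebra k K0 := ((algebraMap k[X] K0).comp C).toAlgebra
  have : IsScalarTower k k[X] K0 := IsScalarTower.of_algebraMap_eq fun _ => rfl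
  let _ : Algebra k[X] F := ((algebraMap K0 F).comp (algebraMap k[X] K0)).toAlgebra
  have : IsScalarTower k[X] K0 F := IsScalarTower.of_algebraMap_eq fun _ => rfl
  let _ : Algebra k F := ((algebraMap K0 F).comp (algebraMap k K0)).toAlgebra
  have : IsScalarTower k K0 F := IsScalarTower.of_algebraMap_eq fun _ => rfl
  have : IsScalarTower k k[X] F := IsScalarTower.of_algebraMap_eq fun _ => rfl
  exact tsen_ffd (tsen_derive (k := k) (K0 := K0) (F := F)) r

end Pool.Agent.AB3
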