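import Pool.Agent.Lib.MP_5de024_nt.S.KumX.Ke

/-!
# Kummer theory (part KUM)
-/

set_option autoImplicit false
set_option linter.unusedSectionVars false

namespace Pool.Agent.AB3

open Pool.Agent.AB Polynomial

/-- Kummer theory over `M` -/
theorem kum_main (p : ℕ) [Fact p.Prime] (M : Type) [Field M] [Algebra (Fx p) M]
    [Algebra (Rx p) M] [IsScalarTower (Rx p) (Fx p) M] (hM : NiK p M) (n r : ℕ)
    (hn : n.Coprime p) (hk : KData p M n r) (V : Type) [CommGroup V] [Finite V]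
    (hV : ∀ a : V, a ^ n = 1) (φ : Gl p M →* MulAut V) (v : Fin r → V)
    (hv : Subgroup.closure {x : V | ∃ (j : Fin r) (γ h : Gl p M), h ∈ Gc p M ∧
      x = φ (h * γ) (v j) * (φ γ (v j))⁻¹} = ⊤) :
    RF p (V ⋊[φ] Gl p M) ((Gc p M).comap SemidirectProduct.rightHom) := by
  have hn0 : NeZero n := by
    constructor
    intro h
    rw [h, Nat.coprime_zero_left] at hn
    exact (Fact.out : p.Prime).one_lt.ne' hn
  obtain ⟨ζ, u, hζ, hu0, hcert, hnorm, hind⟩ := hk
  choose vv hvv huv using hnorm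
  obtain ⟨L, _, _, _, _, hL, ⟨Y⟩⟩ :=
    kum_roots p M hM n r hn ζ u vv hζ hu0 hcert hvv huv
  exact kum_rf p M hM L hL n r hn ζ hζ u vv hu0 hind Y V hV φ v hv

end Pool.Agent.AB3
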