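import Pool.Agent.Lib.MP_5de024_nt.S.PkX.PkC

/-!
# Kernels which are `p`-groups (part PK)
-/

set_option autoImplicit false
set_option linter.unusedSectionVars false

namespace Pool.Agent.AB3

open Pool.Agent.AB Polynomial

/-- kernels which are `p`-groups, with the geometric part -/
theorem rf_pker (p : ℕ) [Fact p.Prime] (G : Type) [Group G] [Finite G] (H : Subgroup G)
    (U : Subgroup G) [U.Normal] (hU : IsPGroup p U) (hUH : U ≤ H)
    (h : RF p (G ⧸ U) (H.map (QuotientGroup.mk' U))) : RF p G H :=
  rf_pker' p G H U hU hUH h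

end Pool.Agent.AB3
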