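import Pool.Agent.Lib.MP_5de024_nt.S.GeoM
import Pool.Agent.Lib.MP_5de024_nt.S.GeoX

/-!
# Base change of models: the group of pairs (helper file of piece GeoW)
-/

set_option autoImplicit false
set_option linter.unusedSectionVars false

namespace Pool.Agent.AB3

open Pool.Agent.AB Polynomial

/-- the endomorphisms of a finite field are the powers of the Frobenius map -/
theorem gw_endo (p : ℕ) [Fact p.Prime] (k : Type) [Field k] [Finite k] [CharP k p]
    (φ : k →+* k) : ∃ i : ℕ, ∀ x : k, φ x = x ^ p ^ i := by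
  let _ : Algebra (ZMod p) k := ZMod.algebra k p
  let ψ : k →ₐ[ZMod p] k :=
    { φ with
      commutes' := fun i =>
        RingHom.congr_fun (Subsingleton.elim (φ.comp (algebraMap (ZMod p) k))
          (algebraMap (ZMod p) k)) i }
  obtain ⟨i, hi⟩ := (FiniteField.bijective_frobeniusAlgHom_pow (ZMod p) k).2 ψ
  refine ⟨i.1, fun x => ?_⟩
  have h1 := DFunLike.congr_fun hi x
  have h2 : ψ x = φ x := rfl
  rw [← h2, ← h1]
  simp only [AlgHom.coe_pow, FiniteField.coe_frobeniusAlgHom, pow_iterate, ZMod.card]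

/-- the elements of a field of characteristic `p` with `c ^ p = c` come from the prime field -/
theorem gw_prime (p : ℕ) [Fact p.Prime] (F : Type) [Field F] [CharP F p] (c : F)
    (hc : c ^ p = c) : ∃ i : ZMod p, ZMod.castHom (dvd_refl p) F i = c := by
  classical
  by_contra hcon
  push Not at hcon
  have hP0 : (X ^ p - X : F[X]) ≠ 0 :=
    FiniteField.X_pow_card_sub_X_ne_zero F (Fact.out : p.Prime).one_lt
  have hdeg : (X ^ p - X : F[X]).natDegree = p :=
    FiniteField.X_pow_card_sub_X_natDegree_eq F (Fact.out : p.Prime).one_lt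
  have h1 : (insert c (Finset.univ.image (ZMod.castHom (dvd_refl p) F))).card ≤ p := by
    have h2 : insert c (Finset.univ.image (ZMod.castHom (dvd_refl p) F)) ⊆
        (X ^ p - X : F[X]).roots.toFinset := by
      intro a ha
      rw [Multiset.mem_toFinset, mem_roots hP0, IsRoot.def, eval_sub, eval_pow, eval_X,
        sub_eq_zero]
      rw [Finset.mem_insert, Finset.mem_image] at ha
      rcases ha with rfl | ⟨i, _, rfl⟩
      · exact hc
      · rw [← map_pow, ZMod.pow_card]
    calc _ ≤ (X ^ p - X : F[X]).roots.toFinset.card := Finset.card_le_card h2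
      _ ≤ Multiset.card (X ^ p - X : F[X]).roots := Multiset.toFinset_card_le _
      _ ≤ (X ^ p - X : F[X]).natDegree := card_roots' _
      _ = p := hdeg
  rw [Finset.card_insert_of_notMem (by
    rw [Finset.mem_image]
    rintro ⟨i, _, hi⟩
    exact hcon i hi), Finset.card_image_of_injective _ (RingHom.injective _), Finset.card_univ,
    ZMod.card] at h1
  omega

section kap

variable {p : ℕ} [Fact p.Prime] {K : Type} [Field K] [Algebra (Fx p) K]
    [Algebra (Rx p) K] [IsScalarTower (Rx p) (Fx p) K] {k R H : Type} [Field k]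
    [CommRing R] [Algebra k[X] R] [Group H] (m : Mdl p K k R H)

/-- the action of the Galois group on the model -/
noncomputable def gwR : Gl p K →* (R ≃+* R) where
  toFun γ := (m.e.trans (act p K γ).toRingEquiv).trans m.e.symm
  map_one' := by
    ext r
    change m.e.symm (act p K 1 (m.e r)) = r
    rw [act_one, RingEquiv.symm_apply_apply]
  map_mul' γ γ' := by
    ext r
    change m.e.symm (act p K (γ * γ') (m.e r)) =
      m.e.symm (act p K γ (m.e (m.e.symm (act p K γ' (m.e r)))))
    rw [RingEquiv.apply_symm_apply, act_mul]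

theorem gwR_e (γ : Gl p K) (r : R) : m.e (gwR m γ r) = act p K γ (m.e r) :=
  m.e.apply_symm_apply _

theorem gwR_j (h : H) (r : R) : gwR m (m.j h : Gl p K) r = m.cov.act h r := by
  apply m.e.injective
  rw [gwR_e, m.eact]

theorem gwR_X (γ : Gl p K) :
    gwR m γ (algebraMap k[X] R X) = algebraMap k[X] R X := by
  apply m.e.injective
  rw [gwR_e, m.eX, act_xo]

include m in
/-- the constants of the model -/
theorem gwC_inj : Function.Injective fun a : k => algebraMap k[X] R (C a) :=
  fun _ _ h => C_injective (m.cov.inj h)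

theorem gw_kap : ∃ κ : Gl p K →* (k ≃+* k), ∀ γ a,
    gwR m γ (algebraMap k[X] R (C a)) = algebraMap k[X] R (C (κ γ a)) := by
  have h0 : ∀ γ a, ∃ a' : k, gwR m γ (algebraMap k[X] R (C a)) = algebraMap k[X] R (C a') := by
    intro γ a
    have hc : IsCst p ((m.e (algebraMap k[X] R (C a)) : Oc p K) : K) := (m.econst _).2 ⟨a, rfl⟩
    have hc' := hc.map (γ : K →+* K)
    obtain ⟨a', ha'⟩ := (m.econst _).1 hc'
    refine ⟨a', ?_⟩
    apply m.e.injective
    apply Subtype.ext
    rw [gwR_e, act_coe, ha']
    rfl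
  choose κ0 hκ0 using h0
  have hinj := gwC_inj m
  have hone : ∀ a, κ0 1 a = a := by
    intro a
    apply hinj
    change algebraMap k[X] R (C (κ0 1 a)) = algebraMap k[X] R (C a)
    rw [← hκ0, map_one]
    rfl
  have hmul : ∀ γ γ' a, κ0 (γ * γ') a = κ0 γ (κ0 γ' a) := by
    intro γ γ' a
    apply hinj
    change algebraMap k[X] R (C (κ0 (γ * γ') a)) = algebraMap k[X] R (C (κ0 γ (κ0 γ' a)))
    rw [← hκ0, ← hκ0, ← hκ0, map_mul]
    rfl
  refine ⟨
    { toFun := fun γ =>
        { toFun := κ0 γ
          invFun := κ0 γ⁻¹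
          left_inv := fun a => by rw [← hmul, inv_mul_cancel, hone]
          right_inv := fun a => by rw [← hmul, mul_inv_cancel, hone]
          map_mul' := fun a b => by
            apply hinj
            change algebraMap k[X] R (C (κ0 γ (a * b))) = algebraMap k[X] R (C (κ0 γ a * κ0 γ b))
            rw [← hκ0, C_mul, C_mul, map_mul, map_mul, map_mul, hκ0, hκ0]
          map_add' := fun a b => by
            apply hinj
            change algebraMap k[X] R (C (κ0 γ (a + b))) = algebraMap k[X] R (C (κ0 γ a + κ0 γ b))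
            rw [← hκ0, C_add, C_add, map_add, map_add, map_add, hκ0, hκ0] }
      map_one' := by
        ext a
        exact hone a
      map_mul' := fun γ γ' => by
        ext a
        exact hmul γ γ' a }, fun γ a => hκ0 γ a⟩

variable {m} {κ : Gl p K →* (k ≃+* k)}

theorem gwR_alg (hκ : ∀ γ a,
    gwR m γ (algebraMap k[X] R (C a)) = algebraMap k[X] R (C (κ γ a))) (γ : Gl p K) (f : k[X]) :
    gwR m γ (algebraMap k[X] R f) = algebraMap k[X] R (f.map (κ γ : k →+* k)) := by
  have h : ((gwR m γ : R →+* R).comp (algebraMap k[X] R)) =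
      (algebraMap k[X] R).comp (mapRingHom (κ γ : k →+* k)) := by
    refine Polynomial.ringHom_ext ?_ ?_
    · intro a
      rw [RingHom.comp_apply, RingHom.comp_apply, coe_mapRingHom, map_C]
      exact hκ γ a
    · rw [RingHom.comp_apply, RingHom.comp_apply, coe_mapRingHom, map_X]
      exact gwR_X m γ
  exact congrArg (fun q : k[X] →+* R => q f) h

/-- the automorphisms acting trivially on the constants -/
theorem gw_kap_one (hκ : ∀ γ a,
    gwR m γ (algebraMap k[X] R (C a)) = algebraMap k[X] R (C (κ γ a))) (γ : Gl p K) :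
    (∀ a, κ γ a = a) ↔ γ ∈ Gc p K := by
  constructor
  · intro h c hc
    obtain ⟨a, rfl⟩ := (m.econst c).1 hc
    rw [← act_coe, ← gwR_e, hκ, h]
  · intro h a
    apply gwC_inj m
    change algebraMap k[X] R (C (κ γ a)) = algebraMap k[X] R (C a)
    rw [← hκ]
    apply m.e.injective
    apply Subtype.ext
    rw [gwR_e, act_coe]
    exact h _ ((m.econst _).2 ⟨a, rfl⟩)

/-- some automorphism acts as the Frobenius map on the constants -/
theorem gw_frob [FiniteDimensional (Fx p) K] [IsGalois (Fx p) K] [Finite k] [CharP k p]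
    (hκ : ∀ γ a,
    gwR m γ (algebraMap k[X] R (C a)) = algebraMap k[X] R (C (κ γ a))) :
    ∃ γ : Gl p K, ∀ a, κ γ a = a ^ p := by
  let _ : Algebra (ZMod p) k := ZMod.algebra k p
  let κ' : Gl p K →* (k ≃ₐ[ZMod p] k) :=
    { toFun := fun γ => AlgEquiv.ofRingEquiv (f := κ γ) (fun i =>
        RingHom.congr_fun (Subsingleton.elim ((κ γ : k →+* k).comp (algebraMap (ZMod p) k))
          (algebraMap (ZMod p) k)) i)
      map_one' := by
        ext a
        change κ 1 a = a
        rw [map_one]
        rfl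
      map_mul' := fun γ γ' => by
        ext a
        change κ (γ * γ') a = κ γ (κ γ' a)
        rw [map_mul]
        rfl }
  have hfix : IntermediateField.fixedField κ'.range = ⊥ := by
    rw [eq_bot_iff]
    intro z hz
    rw [IntermediateField.mem_bot]
    rw [IntermediateField.mem_fixedField_iff] at hz
    have h1 : IsCst p ((m.e (algebraMap k[X] R (C z)) : Oc p K) : K) := (m.econst _).2 ⟨z, rfl⟩
    obtain ⟨i, hi⟩ := cst_fixed p K h1 (fun σ => by
      rw [← act_coe, ← gwR_e, hκ]
      congr 5
      exact hz (κ' σ) ⟨σ, rfl⟩)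
    refine ⟨i, ?_⟩
    apply gwC_inj m
    change algebraMap k[X] R (C (algebraMap (ZMod p) k i)) = algebraMap k[X] R (C z)
    apply m.e.injective
    apply Subtype.ext
    rw [hi]
    have h2 : ((((algebraMap (Oc p K) K).comp (m.e : R →+* Oc p K)).comp
        ((algebraMap k[X] R).comp C)).comp (algebraMap (ZMod p) k)) = cst p K :=
      Subsingleton.elim _ _
    exact RingHom.congr_fun h2 i
  have htop : κ'.range = ⊤ := by
    rw [← IntermediateField.fixingSubgroup_fixedField κ'.range, hfix,
      IntermediateField.fixingSubgroup_bot]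
  let _ : Fintype k := Fintype.ofFinite k
  have hfr : (FiniteField.frobeniusAlgEquivOfAlgebraic (ZMod p) k) ∈ κ'.range := by
    rw [htop]
    exact Subgroup.mem_top _
  obtain ⟨γ, hγ⟩ := hfr
  refine ⟨γ, fun a => ?_⟩
  have h3 := DFunLike.congr_fun hγ a
  have h4 : κ' γ a = κ γ a := rfl
  rw [← h4, h3]
  simp [ZMod.card]

/-- the group of pairs -/
def gwG (κ : Gl p K →* (k ≃+* k)) (F : Type) [Field F] [Algebra k F] :
    Subgroup (Gl p K × (F ≃+* F)) where
  carrier := {s | ∀ a, s.2 (algebraMap k F a) = algebraMap k F (κ s.1 a)}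
  mul_mem' := by
    intro s t hs ht a
    change s.2 (t.2 (algebraMap k F a)) = algebraMap k F (κ (s.1 * t.1) a)
    rw [ht, hs, map_mul]
    rfl
  one_mem' := by
    intro a
    change algebraMap k F a = algebraMap k F (κ 1 a)
    rw [map_one]
    rfl
  inv_mem' := by
    intro s hs a
    change s.2⁻¹ (algebraMap k F a) = algebraMap k F (κ s.1⁻¹ a)
    apply s.2.injective
    rw [hs, map_inv]
    have h1 : s.2 (s.2⁻¹ (algebraMap k F a)) = algebraMap k F a := s.2.apply_symm_apply _
    have h2 : κ s.1 ((κ s.1)⁻¹ a) = a := (κ s.1).apply_symm_apply _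
    rw [h1, h2]

theorem mem_gwG (κ : Gl p K →* (k ≃+* k)) (F : Type) [Field F] [Algebra k F]
    (s : Gl p K × (F ≃+* F)) :
    s ∈ gwG κ F ↔ ∀ a, s.2 (algebraMap k F a) = algebraMap k F (κ s.1 a) := Iff.rfl

/-- every automorphism extends to a pair -/
theorem gwG_surj [Finite k] [CharP k p] (κ : Gl p K →* (k ≃+* k)) (F : Type) [Field F]
    [Finite F] [Algebra k F] (γ : Gl p K) : ∃ σ : F ≃+* F, (γ, σ) ∈ gwG κ F := by
  have hch : CharP F p := charP_of_injective_algebraMap (algebraMap k F).injective p
  obtain ⟨i, hi⟩ := gw_endo p k (κ γ : k →+* k)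
  refine ⟨iterateFrobeniusEquiv F p i, fun a => ?_⟩
  have h1 : κ γ a = a ^ p ^ i := hi a
  change iterateFrobeniusEquiv F p i (algebraMap k F a) = algebraMap k F (κ γ a)
  rw [h1, map_pow, iterateFrobeniusEquiv_def]

end kap

end Pool.Agent.AB3
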