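import Pool.Agent.Lib.MP_5de024_nt.S.Defs

/-!
# The interfaces of the parts of project AB3 (statements only, never imported)
-/

set_option autoImplicit false
set_option linter.unusedSectionVars false

namespace Pool.Agent.AB3

open Pool.Agent.AB Polynomial

/-- PK: kernels which are `p`-groups, geometric version -/
theorem rf_pker (p : ℕ) [Fact p.Prime] (G : Type) [Group G] [Finite G] (H : Subgroup G)
    (U : Subgroup G) [U.Normal] (hU : IsPGroup p U) (hUH : U ≤ H)
    (h : RF p (G ⧸ U) (H.map (QuotientGroup.mk' U))) : RF p G H := by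
  sorry

/-- KUM -/
theorem kum_main (p : ℕ) [Fact p.Prime] (M : Type) [Field M] [Algebra (Fx p) M]
    [Algebra (Rx p) M] [IsScalarTower (Rx p) (Fx p) M] (hM : NiK p M) (n r : ℕ)
    (hn : n.Coprime p) (hk : KData p M n r) (V : Type) [CommGroup V] [Finite V]
    (hV : ∀ a : V, a ^ n = 1) (φ : Gl p M →* MulAut V) (v : Fin r → V)
    (hv : Subgroup.closure {x : V | ∃ (j : Fin r) (γ h : Gl p M), h ∈ Gc p M ∧
      x = φ (h * γ) (v j) * (φ γ (v j))⁻¹} = ⊤) :
    RF p (V ⋊[φ] Gl p M) ((Gc p M).comap SemidirectProduct.rightHom) := by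
  sorry

/-- GEO: models exist -/
theorem exists_mdl (p : ℕ) [Fact p.Prime] (K : Type) [Field K] [Algebra (Fx p) K]
    [Algebra (Rx p) K] [IsScalarTower (Rx p) (Fx p) K] (hK : NiK p K) :
    ∃ (k R H : Type) (_ : Field k) (_ : Finite k) (_ : CharP k p) (_ : CommRing R)
      (_ : Algebra k[X] R) (_ : Group H) (_ : Finite H), Nonempty (Mdl p K k R H) := by
  sorry

/-- GEO: base change of a cover -/
theorem cov_bc (k R H : Type) [Field k] [CommRing R] [Algebra k[X] R] [Group H] [Finite H]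
    (C : Cov k R H) (F : Type) [Field F] [Algebra k F] (g : F[X])
    (hdom : ∀ (F' : Type) [Field F'] [Algebra k F'] [Algebra F F'] [IsScalarTower k F F'],
      IsDomain (Fam k F' (g.map (algebraMap F F')) R)) :
    ∃ C' : Cov F (Fam k F g R) H, ∀ h z, C'.act h z = Bs.act (evg k F g) C.act h z := by
  sorry

/-- GEO: base change of a model by a polynomial with coefficients in `F_p` and an extension of
the field of constants -/
theorem mdl_bc (p : ℕ) [Fact p.Prime] (K : Type) [Field K] [Algebra (Fx p) K]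
    [Algebra (Rx p) K] [IsScalarTower (Rx p) (Fx p) K] (hK : NiK p K) (k R H : Type) [Field k]
    [Finite k] [CharP k p] [CommRing R] [Algebra k[X] R] [Group H] [Finite H]
    (m : Mdl p K k R H) (F : Type) [Field F] [Finite F] [Algebra k F] (g : F[X])
    (hg : ∀ i, (g.coeff i) ^ p = g.coeff i) (hdeg : 0 < g.natDegree)
    (hdom : ∀ (F' : Type) [Field F'] [Algebra k F'] [Algebra F F'] [IsScalarTower k F F'],
      IsDomain (Fam k F' (g.map (algebraMap F F')) R)) :
    ∃ (K' : Type) (_ : Field K') (_ : Algebra (Fx p) K') (_ : Algebra (Rx p) K')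
      (_ : IsScalarTower (Rx p) (Fx p) K') (ρ : Gl p K' →* Gl p K), NiK p K' ∧
      Function.Surjective ρ ∧ (Gc p K').map ρ = Gc p K ∧
      ∃ m' : Mdl p K' F (Fam k F g R) H, (∀ h : H, ρ (m'.j h) = m.j h) ∧
        ∀ h z, m'.cov.act h z = Bs.act (evg k F g) m.cov.act h z := by
  sorry

/-- DIV: over a larger field of constants every ideal class is an `n`-th power -/
theorem div_main (k R H : Type) [Field k] [Finite k] [CommRing R] [Algebra k[X] R] [Group H]
    [Finite H] (C : Cov k R H) (I : Ideal R) (hI : I ≠ ⊥) (n : ℕ) (hn : (n : k) ≠ 0) :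
    ∃ (F : Type) (_ : Field F) (_ : Finite F) (_ : Algebra k F) (A : Ideal (Fam k F X R))
      (a : Fam k F X R), a ≠ 0 ∧
      (I.map (Bs.inR (evg k F X) R)) * A ^ n = Ideal.span {a} := by
  sorry

/-- ETA: after an extension of constants and a substitution `X ↦ X ^ m` there is an adapted
basis and an element `η` -/
theorem eta_main (p : ℕ) [Fact p.Prime] (k R H : Type) [Field k] [Finite k] [CharP k p]
    [CommRing R] [Algebra k[X] R] [Group H] [Finite H] (C : Cov k R H) (n r : ℕ)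
    (hn : n.Coprime p) (hn0 : 0 < n) :
    ∃ (F : Type) (_ : Field F) (_ : Finite F) (_ : Algebra k F) (m : ℕ)
      (C' : Cov F (Fam k F (X ^ m) R) H) (N : ℕ) (B : RBas F (Fam k F (X ^ m) R) N), 0 < m ∧
      (∀ (F' : Type) [Field F'] [Algebra k F'] [Algebra F F'] [IsScalarTower k F F'],
        IsDomain (Fam k F' ((X ^ m : F[X]).map (algebraMap F F')) R)) ∧
      (∀ h z, C'.act h z = Bs.act (evg k F (X ^ m)) C.act h z) ∧
      B.Stab C' ∧ EtaD C' B n ∧ NL p F (Fam k F (X ^ m) R) ∧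
      (∃ ζ : F, IsPrimitiveRoot ζ n) ∧ Nat.card {a : F // a ^ p ^ r = a} = p ^ r := by
  sorry

/-- PAT: patching -/
theorem good_laurent (p : ℕ) [Fact p.Prime] (k R H : Type) [Field k] [Finite k] [CharP k p]
    [CommRing R] [Algebra k[X] R] [Group H] [Finite H] (C : Cov k R H) (N : ℕ)
    (B : RBas k R N) (hS : B.Stab C) (n r : ℕ) (hn : n.Coprime p) (hn0 : 0 < n)
    (hE : EtaD C B n) (hNL : NL p k R) (hζ : ∃ ζ : k, IsPrimitiveRoot ζ n)
    (hr : Nat.card {a : k // a ^ p ^ (r + 1) = a} = p ^ (r + 1)) :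
    Good C n (p ^ (r + 1)) (LaurentSeries k) (HahnSeries.single 1 1) := by
  sorry

/-- CERT: the property `Good` is inherited by all specialisations of some finitely generated
subalgebra -/
theorem good_cert (p : ℕ) [Fact p.Prime] (k R H : Type) [Field k] [Finite k] [CharP k p]
    [CommRing R] [Algebra k[X] R] [Group H] [Finite H] (C : Cov k R H) (n r : ℕ)
    (hn : n.Coprime p) (hn0 : 0 < n) (hNL : NL p k R) (hζ : ∃ ζ : k, IsPrimitiveRoot ζ n)
    (hr : Nat.card {a : k // a ^ p ^ (r + 1) = a} = p ^ (r + 1))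
    (L : Type) [Field L] [Algebra k L] (β : L) (hβ : β ≠ 0)
    (h : Good C n (p ^ (r + 1)) L β) :
    ∃ (D : Subalgebra k L) (hD : β ∈ D), D.FG ∧ β⁻¹ ∈ D ∧
      ∀ (F : Type) [Field F] [Algebra k F] (φ : D →ₐ[k] F),
        Good C n (p ^ (r + 1)) F (φ ⟨β, hD⟩) := by
  sorry

/-- TRF: specialisation of Laurent series to finite fields -/
theorem transfer (p : ℕ) [Fact p.Prime] (k : Type) [Field k] [Finite k] [CharP k p]
    (D : Subalgebra k (LaurentSeries k)) (hD : D.FG)
    (hβ : (HahnSeries.single 1 1 : LaurentSeries k) ∈ D)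
    (hβ' : (HahnSeries.single 1 1 : LaurentSeries k)⁻¹ ∈ D) (N : ℕ) (hN : 0 < N) :
    ∃ (F : Type) (_ : Field F) (_ : Finite F) (_ : Algebra k F) (φ : D →ₐ[k] F),
      ∀ j : ℕ, ((φ ⟨_, hβ⟩) ^ N) ^ p ^ j = (φ ⟨_, hβ⟩) ^ N → ∀ z : F, z ^ p ^ j = z := by
  sorry

/-- AS: descent to `F_p` -/
theorem kdata_of_good (p : ℕ) [Fact p.Prime] (K : Type) [Field K] [Algebra (Fx p) K]
    [Algebra (Rx p) K] [IsScalarTower (Rx p) (Fx p) K] (hK : NiK p K) (k R H : Type) [Field k]
    [Finite k] [CharP k p] [CommRing R] [Algebra k[X] R] [Group H] [Finite H]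
    (m : Mdl p K k R H) (hNL : NL p k R) (n r : ℕ) (hn : n.Coprime p) (hn0 : 0 < n)
    (hζ : ∃ ζ : k, IsPrimitiveRoot ζ n)
    (hr : Nat.card {a : k // a ^ p ^ (r + 1) = a} = p ^ (r + 1))
    (F : Type) [Field F] [Finite F] [Algebra k F] (β : F) (hβ : β ≠ 0)
    (hgen : ∀ j : ℕ, (β ^ (2 * (p ^ (r + 1) - 1))) ^ p ^ j = β ^ (2 * (p ^ (r + 1) - 1)) →
      ∀ z : F, z ^ p ^ j = z) (hG : Good m.cov n (p ^ (r + 1)) F β) :
    ∃ (M : Type) (_ : Field M) (_ : Algebra (Fx p) M) (_ : Algebra (Rx p) M)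
      (_ : IsScalarTower (Rx p) (Fx p) M) (ρ : Gl p M →* Gl p K), NiK p M ∧
      Function.Surjective ρ ∧ (Gc p M).map ρ = Gc p K ∧ KData p M n (p ^ r) := by
  sorry

/-- assembly -/
theorem exists_kdata (p : ℕ) [Fact p.Prime] (K : Type) [Field K] [Algebra (Fx p) K]
    [Algebra (Rx p) K] [IsScalarTower (Rx p) (Fx p) K] (hK : NiK p K) (n r : ℕ)
    (hn : n.Coprime p) (hn0 : 0 < n) :
    ∃ (M : Type) (_ : Field M) (_ : Algebra (Fx p) M) (_ : Algebra (Rx p) M)
      (_ : IsScalarTower (Rx p) (Fx p) M) (ρ : Gl p M →* Gl p K), NiK p M ∧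
      Function.Surjective ρ ∧ (Gc p M).map ρ = Gc p K ∧ KData p M n (p ^ r) := by
  have hp : 1 < p := (Fact.out : p.Prime).one_lt
  obtain ⟨k, R, H, _, _, _, _, _, _, _, ⟨m⟩⟩ := exists_mdl p K hK
  obtain ⟨F, _, _, _, m1, C', N, B, hm1, hdom, hC', hS, hE, hNL, hζ, hr⟩ :=
    eta_main p k R H m.cov n (r + 1) hn hn0
  have : CharP F p := charP_of_injective_algebraMap (algebraMap k F).injective p
  obtain ⟨K1, _, _, _, _, ρ1, hK1, hρ1, hGc1, m', hj, hact⟩ :=
    mdl_bc p K hK k R H m F (X ^ m1) (fun i => by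
      rw [coeff_X_pow]; split_ifs
      · exact one_pow _
      · exact zero_pow (by omega)) (by rw [natDegree_X_pow]; exact hm1) hdom
  have hcov : m'.cov = C' := by
    have hh : m'.cov.act = C'.act := by
      ext h z
      rw [hact, hC']
    cases hm : m'.cov
    cases hc : C'
    rw [hm, hc] at hh
    simp only at hh
    subst hh
    rfl
  have hG := good_laurent p F _ H C' N B hS n r hn hn0 hE hNL hζ hr
  obtain ⟨D, hD, hfg, hinv, hspec⟩ := good_cert p F _ H C' n r hn hn0 hNL hζ hr _ _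
    (by exact HahnSeries.single_ne_zero one_ne_zero) hG
  obtain ⟨F2, _, _, _, φ, hφ⟩ := transfer p F D hfg hD hinv (2 * (p ^ (r + 1) - 1)) (by
    have : 1 < p ^ (r + 1) := Nat.one_lt_pow (by omega) hp
    omega)
  have hβ2 : φ ⟨_, hD⟩ ≠ 0 := by
    intro h0
    have h1 : φ (⟨_, hD⟩ * ⟨_, hinv⟩) = 1 := by
      have : (⟨_, hD⟩ * ⟨_, hinv⟩ : D) = 1 := Subtype.ext
        (mul_inv_cancel₀ (HahnSeries.single_ne_zero one_ne_zero))
      rw [this, map_one]
    rw [map_mul, h0, zero_mul] at h1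
    exact zero_ne_one h1
  have hG2 := hspec F2 φ
  rw [← hcov] at hG2
  obtain ⟨M, _, _, _, _, ρ, hM, hρ, hGc, hkd⟩ := kdata_of_good p K1 hK1 F _ H m' hNL n r hn hn0
    hζ hr F2 _ hβ2 hφ hG2
  refine ⟨M, inferInstance, inferInstance, inferInstance, inferInstance, ρ1.comp ρ, hM,
    hρ1.comp hρ, ?_, hkd⟩
  rw [← Subgroup.map_map, hGc, hGc1]

end Pool.Agent.AB3
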